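import Pool.Agent.Lib.MP_66983d_gt.Base

set_option maxSynthPendingDepth 3

namespace Pool.Agent.Anco

open scoped ContDiff Topology
open Filter Set Matrix

variable {n d : ℕ}

theorem act_add (θ : ℝ) (R : Matrix (Fin n) (Fin n) ℝ) (u v : V n) :
    act n d θ R (u + v) = act n d θ R u + act n d θ R v := by
  refine Prod.ext ?_ (funext fun i => ?_)
  · simp [act, mul_add]
  · simp [act, mul_add, Finset.sum_add_distrib]

theorem act_smul (θ : ℝ) (R : Matrix (Fin n) (Fin n) ℝ) (r : ℝ) (u : V n) :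
    act n d θ R (r • u) = r • act n d θ R u := by
  refine Prod.ext ?_ (funext fun i => ?_)
  · simp only [act, Prod.smul_fst, Complex.real_smul]; ring
  · simp only [act, Prod.smul_snd, Pi.smul_apply, Complex.real_smul, Finset.mul_sum]
    exact Finset.sum_congr rfl fun j _ => by ring

/-- the action of a group element as a continuous linear map -/
noncomputable def actL (n d : ℕ) (θ : ℝ) (R : Matrix (Fin n) (Fin n) ℝ) : V n →L[ℝ] V n :=
  LinearMap.toContinuousLinearMap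
    { toFun := act n d θ R, map_add' := act_add θ R, map_smul' := act_smul θ R }

@[simp] theorem actL_apply (θ : ℝ) (R : Matrix (Fin n) (Fin n) ℝ) (u : V n) :
    actL n d θ R u = act n d θ R u := rfl

theorem act_act (θ θ' : ℝ) (R R' : Matrix (Fin n) (Fin n) ℝ) (z : V n) :
    act n d θ R (act n d θ' R' z) = act n d (θ + θ') (R * R') z := by
  refine Prod.ext ?_ (funext fun i => ?_)
  · simp only [act]
    rw [← mul_assoc, ← Complex.exp_add]
    congr 2
    push_cast; ring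
  · simp only [act]
    have h : Complex.exp (d * ((θ + θ' : ℝ) : ℂ) * Complex.I) =
        Complex.exp (d * θ * Complex.I) * Complex.exp (d * θ' * Complex.I) := by
      rw [← Complex.exp_add]; congr 1; push_cast; ring
    rw [h]
    simp only [Matrix.mul_apply, Complex.ofReal_sum, Complex.ofReal_mul, Finset.mul_sum,
      Finset.sum_mul]
    rw [Finset.sum_comm]
    exact Finset.sum_congr rfl fun j _ => Finset.sum_congr rfl fun k _ => by ring

theorem act_zero_one (z : V n) : act n d 0 1 z = z := by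
  refine Prod.ext ?_ (funext fun i => ?_)
  · simp [act]
  · simp only [act, Complex.ofReal_zero, mul_zero, zero_mul, Complex.exp_zero, one_mul]
    rw [Finset.sum_eq_single i]
    · simp
    · intro j _ hj
      simp [Matrix.one_apply_ne hj.symm]
    · simp

theorem transpose_mem_SO {R : Matrix (Fin n) (Fin n) ℝ}
    (hR : R ∈ Matrix.specialOrthogonalGroup (Fin n) ℝ) :
    Rᵀ ∈ Matrix.specialOrthogonalGroup (Fin n) ℝ := by
  rw [Matrix.mem_specialOrthogonalGroup_iff] at hR ⊢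
  refine ⟨?_, by rw [Matrix.det_transpose]; exact hR.2⟩
  rw [Matrix.mem_orthogonalGroup_iff, Matrix.transpose_transpose]
  exact (Matrix.mem_orthogonalGroup_iff' _ _).1 hR.1

theorem act_act_inv (θ : ℝ) {R : Matrix (Fin n) (Fin n) ℝ}
    (hR : R ∈ Matrix.specialOrthogonalGroup (Fin n) ℝ) (z : V n) :
    act n d θ R (act n d (-θ) Rᵀ z) = z := by
  have h : R * Rᵀ = 1 :=
    (Matrix.mem_orthogonalGroup_iff _ _).1 (Matrix.mem_specialOrthogonalGroup_iff.1 hR).1
  rw [act_act, h, add_neg_cancel, act_zero_one]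

theorem act_inv_act (θ : ℝ) {R : Matrix (Fin n) (Fin n) ℝ}
    (hR : R ∈ Matrix.specialOrthogonalGroup (Fin n) ℝ) (z : V n) :
    act n d (-θ) Rᵀ (act n d θ R z) = z := by
  have h : Rᵀ * R = 1 :=
    (Matrix.mem_orthogonalGroup_iff' _ _).1 (Matrix.mem_specialOrthogonalGroup_iff.1 hR).1
  rw [act_act, h, neg_add_cancel, act_zero_one]

theorem act1_exp_pow (θ : ℝ) :
    Complex.exp (2 * θ * Complex.I) ^ d = Complex.exp (d * θ * Complex.I) ^ 2 := by
  rw [← Complex.exp_nat_mul, ← Complex.exp_nat_mul]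
  congr 1
  push_cast; ring

theorem act1_orth {R : Matrix (Fin n) (Fin n) ℝ}
    (hR : R ∈ Matrix.specialOrthogonalGroup (Fin n) ℝ) (a b : Fin n → ℂ) :
    ∑ i, (∑ j, (R i j : ℂ) * a j) * (∑ j, (R i j : ℂ) * b j) = ∑ j, a j * b j := by
  have h : Rᵀ * R = 1 :=
    (Matrix.mem_orthogonalGroup_iff' _ _).1 (Matrix.mem_specialOrthogonalGroup_iff.1 hR).1
  have h' : ∀ j k, ∑ i, (R i j : ℂ) * (R i k : ℂ) = if j = k then 1 else 0 := by
    intro j k
    have := congrFun (congrFun h j) k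
    rw [Matrix.mul_apply, Matrix.one_apply] at this
    simp only [Matrix.transpose_apply] at this
    have e : ∑ i, (R i j : ℂ) * (R i k : ℂ) = ((∑ i, R i j * R i k : ℝ) : ℂ) := by push_cast; rfl
    rw [e, this]
    split_ifs <;> simp
  calc ∑ i, (∑ j, (R i j : ℂ) * a j) * (∑ j, (R i j : ℂ) * b j)
      = ∑ i, ∑ j, ∑ k, (a j * b k) * ((R i j : ℂ) * (R i k : ℂ)) := by
        refine Finset.sum_congr rfl fun i _ => ?_
        rw [Finset.sum_mul_sum]
        exact Finset.sum_congr rfl fun j _ => Finset.sum_congr rfl fun k _ => by ring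
    _ = ∑ j, ∑ k, (a j * b k) * ∑ i, (R i j : ℂ) * (R i k : ℂ) := by
        rw [Finset.sum_comm]
        refine Finset.sum_congr rfl fun j _ => ?_
        rw [Finset.sum_comm]
        exact Finset.sum_congr rfl fun k _ => by rw [Finset.mul_sum]
    _ = ∑ j, a j * b j := by
        refine Finset.sum_congr rfl fun j _ => ?_
        simp [h']

theorem act1_sum_mul (θ : ℝ) {R : Matrix (Fin n) (Fin n) ℝ}
    (hR : R ∈ Matrix.specialOrthogonalGroup (Fin n) ℝ) (z v : V n) :
    ∑ i, (act n d θ R z).2 i * (act n d θ R v).2 i =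
      Complex.exp (d * θ * Complex.I) ^ 2 * ∑ i, z.2 i * v.2 i := by
  rw [← act1_orth hR z.2 v.2, Finset.mul_sum]
  exact Finset.sum_congr rfl fun i _ => by simp only [act]; ring

theorem act1_conj_exp (r : ℝ) :
    (starRingEnd ℂ) (Complex.exp (r * Complex.I)) * Complex.exp (r * Complex.I) = 1 := by
  rw [Complex.conj_mul', Complex.norm_exp_ofReal_mul_I]
  simp

theorem act1_sum_conj (θ : ℝ) {R : Matrix (Fin n) (Fin n) ℝ}
    (hR : R ∈ Matrix.specialOrthogonalGroup (Fin n) ℝ) (z v : V n) :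
    ∑ i, (starRingEnd ℂ) ((act n d θ R z).2 i) * (act n d θ R v).2 i =
      ∑ i, (starRingEnd ℂ) (z.2 i) * v.2 i := by
  rw [← act1_orth hR (fun i => (starRingEnd ℂ) (z.2 i)) v.2]
  refine Finset.sum_congr rfl fun i _ => ?_
  have h := act1_conj_exp (d * θ)
  push_cast at h
  simp only [act, map_mul, map_sum, Complex.conj_ofReal]
  linear_combination
    ((∑ j, (R i j : ℂ) * (starRingEnd ℂ) (z.2 j)) * ∑ j, (R i j : ℂ) * v.2 j) * h

theorem act1_fst_conj (θ : ℝ) (R : Matrix (Fin n) (Fin n) ℝ) (z v : V n) :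
    (starRingEnd ℂ) (act n d θ R z).1 * (act n d θ R v).1 = (starRingEnd ℂ) z.1 * v.1 := by
  have h := act1_conj_exp (2 * θ)
  push_cast at h
  simp only [act, map_mul]
  linear_combination ((starRingEnd ℂ) z.1 * v.1) * h

theorem act_mem_W (θ : ℝ) {R : Matrix (Fin n) (Fin n) ℝ}
    (hR : R ∈ Matrix.specialOrthogonalGroup (Fin n) ℝ) {z : V n} (hz : z ∈ W n d) :
    act n d θ R z ∈ W n d := by
  obtain ⟨h1, h2⟩ := hz
  refine ⟨?_, ?_⟩
  · have e := act1_sum_mul (d := d) θ hR z z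
    simp only [sq]
    rw [e]
    simp only [sq] at h1
    have : (act n d θ R z).1 ^ d = Complex.exp (d * θ * Complex.I) ^ 2 * z.1 ^ d := by
      simp only [act, mul_pow, act1_exp_pow]
    rw [this, ← mul_add, h1, mul_zero]
  · have e := act1_sum_conj (d := d) θ hR z z
    have e1 := act1_fst_conj (d := d) θ R z z
    have key : ((‖(act n d θ R z).1‖ ^ 2 + ∑ i, ‖(act n d θ R z).2 i‖ ^ 2 : ℝ) : ℂ) =
        ((‖z.1‖ ^ 2 + ∑ i, ‖z.2 i‖ ^ 2 : ℝ) : ℂ) := by
      push_cast
      simp only [← Complex.conj_mul']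
      rw [e, e1]
    rw [Complex.ofReal_injective key, h2]

theorem act_mem_Tan (hd : 1 ≤ d) (θ : ℝ) {R : Matrix (Fin n) (Fin n) ℝ}
    (hR : R ∈ Matrix.specialOrthogonalGroup (Fin n) ℝ) {z v : V n} (hv : v ∈ Tan n d z) :
    act n d θ R v ∈ Tan n d (act n d θ R z) := by
  obtain ⟨h1, h2⟩ := hv
  refine ⟨?_, ?_⟩
  · rw [act1_sum_mul θ hR z v]
    have : (d : ℂ) * (act n d θ R z).1 ^ (d - 1) * (act n d θ R v).1 =
        Complex.exp (d * θ * Complex.I) ^ 2 * ((d : ℂ) * z.1 ^ (d - 1) * v.1) := by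
      rw [← act1_exp_pow]
      obtain ⟨k, rfl⟩ := Nat.exists_eq_add_of_le' hd
      simp only [act, mul_pow, Nat.add_sub_cancel]
      ring
    rw [this]
    linear_combination Complex.exp (d * θ * Complex.I) ^ 2 * h1
  · rw [act1_sum_conj θ hR z v, act1_fst_conj θ R z v]
    exact h2

theorem zero_mem_Tan (z : V n) : (0 : V n) ∈ Tan n d z := by
  constructor <;> simp

theorem add_mem_Tan {z u v : V n} (hu : u ∈ Tan n d z) (hv : v ∈ Tan n d z) :
    u + v ∈ Tan n d z := by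
  obtain ⟨h1, h2⟩ := hu
  obtain ⟨h3, h4⟩ := hv
  refine ⟨?_, ?_⟩
  · simp only [Prod.fst_add, Prod.snd_add, Pi.add_apply, mul_add, Finset.sum_add_distrib]
    linear_combination h1 + h3
  · simp only [Prod.fst_add, Prod.snd_add, Pi.add_apply, mul_add, Finset.sum_add_distrib,
      Complex.add_re] at h2 h4 ⊢
    linarith

theorem smul_mem_Tan {z u : V n} (r : ℝ) (hu : u ∈ Tan n d z) : r • u ∈ Tan n d z := by
  obtain ⟨h1, h2⟩ := hu
  have e1 : ∑ i, z.2 i * (r • u).2 i = (r : ℂ) * ∑ i, z.2 i * u.2 i := by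
    rw [Finset.mul_sum]
    exact Finset.sum_congr rfl fun j _ => by
      simp only [Prod.smul_snd, Pi.smul_apply, Complex.real_smul]; ring
  have e2 : ∑ i, (starRingEnd ℂ) (z.2 i) * (r • u).2 i =
      (r : ℂ) * ∑ i, (starRingEnd ℂ) (z.2 i) * u.2 i := by
    rw [Finset.mul_sum]
    exact Finset.sum_congr rfl fun j _ => by
      simp only [Prod.smul_snd, Pi.smul_apply, Complex.real_smul]; ring
  refine ⟨?_, ?_⟩
  · rw [e1, Prod.smul_fst, Complex.real_smul]
    linear_combination (r : ℂ) * h1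
  · rw [e2, Prod.smul_fst, Complex.real_smul]
    have : (starRingEnd ℂ) z.1 * ((r : ℂ) * u.1) + (r : ℂ) * ∑ i, (starRingEnd ℂ) (z.2 i) * u.2 i =
        (r : ℂ) * ((starRingEnd ℂ) z.1 * u.1 + ∑ i, (starRingEnd ℂ) (z.2 i) * u.2 i) := by ring
    rw [this, Complex.re_ofReal_mul, h2, mul_zero]

theorem neg_mem_Tan {z u : V n} (hu : u ∈ Tan n d z) : -u ∈ Tan n d z := by
  simpa using smul_mem_Tan (-1) hu

theorem sub_mem_Tan {z u v : V n} (hu : u ∈ Tan n d z) (hv : v ∈ Tan n d z) :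
    u - v ∈ Tan n d z := by
  rw [sub_eq_add_neg]
  exact add_mem_Tan hu (neg_mem_Tan hv)

/-- the velocity of a curve in the manifold is a tangent vector -/
theorem tan_of_curve {γ : ℝ → V n} {v : V n} {t : ℝ} (hγ : HasDerivAt γ v t)
    (hW : ∀ᶠ s in 𝓝 t, γ s ∈ W n d) : v ∈ Tan n d (γ t) := by
  have h1 : HasDerivAt (fun s => (γ s).1) v.1 t :=
    (ContinuousLinearMap.fst ℝ ℂ (Fin n → ℂ)).hasFDerivAt.comp_hasDerivAt t hγ
  have h2' : HasDerivAt (fun s => (γ s).2) v.2 t :=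
    (ContinuousLinearMap.snd ℝ ℂ (Fin n → ℂ)).hasFDerivAt.comp_hasDerivAt t hγ
  have h2 : ∀ i, HasDerivAt (fun s => (γ s).2 i) (v.2 i) t := hasDerivAt_pi.1 h2'
  refine ⟨?_, ?_⟩
  · have a1 : HasDerivAt (fun s => (γ s).1 ^ d + ∑ i, (γ s).2 i ^ 2)
        ((d : ℂ) * (γ t).1 ^ (d - 1) * v.1 + ∑ i, ((2 : ℕ) : ℂ) * (γ t).2 i ^ (2 - 1) * v.2 i) t :=
      (h1.fun_pow d).fun_add (HasDerivAt.fun_sum fun i _ => (h2 i).fun_pow 2)
    have a2 : HasDerivAt (fun s => (γ s).1 ^ d + ∑ i, (γ s).2 i ^ 2) 0 t :=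
      (hasDerivAt_const t (0 : ℂ)).congr_of_eventuallyEq (hW.mono fun s hs => hs.1)
    have := a1.unique a2
    rw [← this, Finset.mul_sum]
    congr 1
    exact Finset.sum_congr rfl fun j _ => by push_cast; ring
  · have a1 : HasDerivAt (fun s => ‖(γ s).1‖ ^ 2 + ∑ i, ‖(γ s).2 i‖ ^ 2)
        (2 * inner ℝ (γ t).1 v.1 + ∑ i, 2 * inner ℝ ((γ t).2 i) (v.2 i)) t :=
      h1.norm_sq.fun_add (HasDerivAt.fun_sum fun i _ => (h2 i).norm_sq)
    have a2 : HasDerivAt (fun s => ‖(γ s).1‖ ^ 2 + ∑ i, ‖(γ s).2 i‖ ^ 2) 0 t :=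
      (hasDerivAt_const t (1 : ℝ)).congr_of_eventuallyEq (hW.mono fun s hs => hs.2)
    have := a1.unique a2
    rw [← Finset.mul_sum, ← mul_add] at this
    have h0 := (mul_eq_zero.1 this).resolve_left two_ne_zero
    rw [Complex.add_re, Complex.re_sum, ← h0]
    simp only [Complex.inner, mul_comm]

theorem vX_mem_Tan (hd : 1 ≤ d) {z : V n} (hz : z ∈ W n d) : vX d z ∈ Tan n d z := by
  obtain ⟨h1, _⟩ := hz
  refine ⟨?_, ?_⟩
  · obtain ⟨k, rfl⟩ := Nat.exists_eq_add_of_le' hd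
    have e : ∑ i, z.2 i * (vX (k + 1) z).2 i = ((k + 1 : ℕ) : ℂ) * Complex.I * ∑ i, z.2 i ^ 2 := by
      rw [Finset.mul_sum]
      exact Finset.sum_congr rfl fun j _ => by simp only [vX]; ring
    rw [e]
    simp only [vX, Nat.add_sub_cancel]
    linear_combination 2 * ((k + 1 : ℕ) : ℂ) * Complex.I * h1
  · rw [Complex.add_re, Complex.re_sum, Finset.sum_eq_zero]
    · simp [vX]; ring
    · intro i _
      simp [vX]; ring

theorem mv_mem_Tan {A : Matrix (Fin n) (Fin n) ℝ} (hA : Aᵀ = -A) (z : V n) :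
    mv A z ∈ Tan n d z := by
  have hs : ∀ i j, A j i = -A i j := fun i j => by
    have := congrFun (congrFun hA i) j
    simpa using this
  have anti : ∀ (F : Fin n → Fin n → ℂ), (∀ i j, F j i = -F i j) → ∑ i, ∑ j, F i j = 0 := by
    intro F hF
    have : ∑ i, ∑ j, F i j = -∑ i, ∑ j, F i j := by
      conv_lhs => rw [Finset.sum_comm]
      simp only [← Finset.sum_neg_distrib]
      exact Finset.sum_congr rfl fun i _ => Finset.sum_congr rfl fun j _ => hF i j
    linear_combination (1 / 2 : ℂ) * this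
  refine ⟨?_, ?_⟩
  · have := anti (fun i j => z.2 i * ((A i j : ℂ) * z.2 j)) (fun i j => by
      rw [hs i j]; push_cast; ring)
    simp only [mv, mul_zero, zero_add, Finset.mul_sum]
    simp only [← Finset.mul_sum] at this ⊢
    rw [this, mul_zero]
  · have := anti (fun i j => (((starRingEnd ℂ) (z.2 i) * ((A i j : ℂ) * z.2 j)).re : ℂ))
      (fun i j => by
        rw [hs i j, ← Complex.ofReal_neg]
        congr 1
        simp
        ring)
    simp only [mv, mul_zero, zero_add, Finset.mul_sum, Complex.re_sum]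
    exact_mod_cast this

theorem vY_mem_Tan {m : ℕ} (z : V (m + 2)) : vY z ∈ Tan (m + 2) d z := by
  refine ⟨?_, ?_⟩
  · rw [sum_two]
    simp [vY]
    ring
  · rw [sum_two]
    simp [vY]
    ring

theorem io_mem_Tan {m : ℕ} {z : V (m + 2)} (hz : IsPl z) (w : Fin m → ℂ) :
    io w ∈ Tan (m + 2) d z := by
  refine ⟨?_, ?_⟩
  · rw [sum_two]
    simp [hz _]
  · rw [sum_two]
    simp [hz _]

theorem act_vX (θ : ℝ) (R : Matrix (Fin n) (Fin n) ℝ) (z : V n) :
    act n d θ R (vX d z) = vX d (act n d θ R z) := by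
  refine Prod.ext ?_ (funext fun i => ?_)
  · simp only [act, vX]; ring
  · simp only [act, vX, Finset.mul_sum]
    exact Finset.sum_congr rfl fun j _ => by ring

theorem contDiff_vX : ContDiff ℝ ∞ (vX d : V n → V n) := by
  unfold vX
  refine ContDiff.prodMk (contDiff_const.mul contDiff_fst) (contDiff_pi.2 fun i => ?_)
  exact contDiff_const.mul ((contDiff_apply ℝ ℂ i).comp contDiff_snd)

theorem act1_contDiff_pl {m : ℕ} :
    ContDiff ℝ ∞ (fun p : ℂ × ℂ × ℂ => (pl p.1 p.2.1 p.2.2 : V (m + 2))) := by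
  refine ContDiff.prodMk contDiff_fst (contDiff_pi.2 fun i => ?_)
  refine Fin.cases ?_ (fun j => ?_) i
  · exact contDiff_fst.comp contDiff_snd
  · refine Fin.cases ?_ (fun k => ?_) j
    · exact contDiff_snd.comp contDiff_snd
    · exact contDiff_const

theorem contDiff_vY {m : ℕ} : ContDiff ℝ ∞ (vY : V (m + 2) → V (m + 2)) := by
  have h : ∀ i : Fin (m + 2), ContDiff ℝ ∞ (fun z : V (m + 2) => z.2 i) := fun i =>
    (contDiff_apply ℝ ℂ i).comp contDiff_snd
  exact act1_contDiff_pl.comp (contDiff_const.prodMk ((h 1).prodMk (h 0).neg))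

theorem contDiff_io {m : ℕ} : ContDiff ℝ ∞ (io : (Fin m → ℂ) → V (m + 2)) := by
  refine ContDiff.prodMk contDiff_const (contDiff_pi.2 fun i => ?_)
  refine Fin.cases ?_ (fun j => ?_) i
  · exact contDiff_const
  · refine Fin.cases ?_ (fun k => ?_) j
    · exact contDiff_const
    · exact contDiff_apply ℝ ℂ k

theorem contDiff_pl {m : ℕ} :
    ContDiff ℝ ∞ (fun p : ℂ × ℂ × ℂ => (pl p.1 p.2.1 p.2.2 : V (m + 2))) := by
  exact act1_contDiff_pl

theorem HasDerivAt.pl {m : ℕ} {a b c : ℝ → ℂ} {a' b' c' : ℂ} {t : ℝ} (ha : HasDerivAt a a' t)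
    (hb : HasDerivAt b b' t) (hc : HasDerivAt c c' t) :
    HasDerivAt (fun s => (pl (a s) (b s) (c s) : V (m + 2))) (pl a' b' c') t := by
  refine HasDerivAt.prodMk ha (hasDerivAt_pi.2 fun i => ?_)
  refine Fin.cases ?_ (fun j => ?_) i
  · exact hb
  · refine Fin.cases ?_ (fun k => ?_) j
    · exact hc
    · exact hasDerivAt_const t (0 : ℂ)

end Pool.Agent.Anco
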