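import Pool.Agent.Lib.MP_66983d_gt.Act1

set_option maxSynthPendingDepth 3

namespace Pool.Agent.Anco

open scoped ContDiff Topology
open Filter Set Matrix

variable {m d : ℕ}

theorem act2_r00 (q : ℝ) : (rot q : Matrix (Fin (m + 2)) (Fin (m + 2)) ℝ) 0 0 = Real.cos q := rfl
theorem act2_r01 (q : ℝ) : (rot q : Matrix (Fin (m + 2)) (Fin (m + 2)) ℝ) 0 1 = Real.sin q := rfl
theorem act2_r0s (q : ℝ) (j : Fin m) :
    (rot q : Matrix (Fin (m + 2)) (Fin (m + 2)) ℝ) 0 j.succ.succ = 0 := rfl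
theorem act2_r10 (q : ℝ) : (rot q : Matrix (Fin (m + 2)) (Fin (m + 2)) ℝ) 1 0 = -Real.sin q := rfl
theorem act2_r11 (q : ℝ) : (rot q : Matrix (Fin (m + 2)) (Fin (m + 2)) ℝ) 1 1 = Real.cos q := rfl
theorem act2_r1s (q : ℝ) (j : Fin m) :
    (rot q : Matrix (Fin (m + 2)) (Fin (m + 2)) ℝ) 1 j.succ.succ = 0 := rfl
theorem act2_rs0 (q : ℝ) (i : Fin m) :
    (rot q : Matrix (Fin (m + 2)) (Fin (m + 2)) ℝ) i.succ.succ 0 = 0 := rfl
theorem act2_rs1 (q : ℝ) (i : Fin m) :
    (rot q : Matrix (Fin (m + 2)) (Fin (m + 2)) ℝ) i.succ.succ 1 = 0 := rfl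
theorem act2_rss (q : ℝ) (i j : Fin m) :
    (rot q : Matrix (Fin (m + 2)) (Fin (m + 2)) ℝ) i.succ.succ j.succ.succ =
      if j = i then 1 else 0 := by
  have : (rot q : Matrix (Fin (m + 2)) (Fin (m + 2)) ℝ) i.succ.succ j.succ.succ =
    (Pi.single i (1 : ℝ) : Fin m → ℝ) j := rfl
  rw [this, Pi.single_apply]

theorem act2_cases {p : Fin (m + 2) → Prop} (h0 : p 0) (h1 : p 1)
    (hs : ∀ i : Fin m, p i.succ.succ) (i : Fin (m + 2)) : p i := by
  refine Fin.cases h0 (fun j => ?_) i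
  exact Fin.cases h1 (fun k => hs k) j

theorem act2_rot_zero : (rot 0 : Matrix (Fin (m + 2)) (Fin (m + 2)) ℝ) = 1 := by
  ext i j
  have n01 : (0 : Fin (m + 2)) ≠ 1 := Fin.zero_ne_one
  have n0s : ∀ k : Fin m, (0 : Fin (m + 2)) ≠ k.succ.succ := fun k => (Fin.succ_ne_zero _).symm
  have n1s : ∀ k : Fin m, (1 : Fin (m + 2)) ≠ k.succ.succ := fun k h => by
    have h' : (0 : Fin (m + 1)).succ = k.succ.succ := h
    exact Fin.succ_ne_zero k (Fin.succ_injective _ h').symm
  induction i using act2_cases with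
  | h0 =>
    induction j using act2_cases with
    | h0 => rw [act2_r00, Real.cos_zero, one_apply_eq]
    | h1 => rw [act2_r01, Real.sin_zero, one_apply_ne n01]
    | hs k => rw [act2_r0s, one_apply_ne (n0s k)]
  | h1 =>
    induction j using act2_cases with
    | h0 => rw [act2_r10, Real.sin_zero, neg_zero, one_apply_ne n01.symm]
    | h1 => rw [act2_r11, Real.cos_zero, one_apply_eq]
    | hs k => rw [act2_r1s, one_apply_ne (n1s k)]
  | hs i =>
    induction j using act2_cases with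
    | h0 => rw [act2_rs0, one_apply_ne (n0s i).symm]
    | h1 => rw [act2_rs1, one_apply_ne (n1s i).symm]
    | hs k =>
      rw [act2_rss, one_apply]
      simp only [Fin.succ_inj, eq_comm]

theorem act2_rot_mul (a b : ℝ) :
    (rot a : Matrix (Fin (m + 2)) (Fin (m + 2)) ℝ) * rot b = rot (a + b) := by
  ext i j
  rw [Matrix.mul_apply, sum_two]
  induction i using act2_cases <;> induction j using act2_cases <;>
    simp only [act2_r00, act2_r01, act2_r0s, act2_r10, act2_r11, act2_r1s, act2_rs0, act2_rs1,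
      act2_rss, Real.cos_add, Real.sin_add, zero_mul, mul_zero, Finset.sum_const_zero, add_zero,
      zero_add, ite_mul, one_mul, Finset.sum_ite_eq', Finset.mem_univ, if_true] <;> ring

theorem act2_rot_transpose (q : ℝ) :
    (rot q : Matrix (Fin (m + 2)) (Fin (m + 2)) ℝ)ᵀ = rot (-q) := by
  ext i j
  rw [transpose_apply]
  induction i using act2_cases <;> induction j using act2_cases <;>
    simp only [act2_r00, act2_r01, act2_r0s, act2_r10, act2_r11, act2_r1s, act2_rs0, act2_rs1,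
      act2_rss, Real.cos_neg, Real.sin_neg, neg_neg, eq_comm]

theorem act2_fst (θ q : ℝ) (z : V (m + 2)) :
    (act (m + 2) d θ (rot q) z).1 = Complex.exp (2 * θ * Complex.I) * z.1 := rfl

theorem act2_zero (θ q : ℝ) (z : V (m + 2)) :
    (act (m + 2) d θ (rot q) z).2 0 = Complex.exp (d * θ * Complex.I) *
      ((Real.cos q : ℝ) * z.2 0 + (Real.sin q : ℝ) * z.2 1) := by
  simp only [act, sum_two, act2_r00, act2_r01, act2_r0s, Complex.ofReal_zero, zero_mul,
    Finset.sum_const_zero, add_zero]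

theorem act2_one (θ q : ℝ) (z : V (m + 2)) :
    (act (m + 2) d θ (rot q) z).2 1 = Complex.exp (d * θ * Complex.I) *
      (-(Real.sin q : ℝ) * z.2 0 + (Real.cos q : ℝ) * z.2 1) := by
  simp only [act, sum_two, act2_r10, act2_r11, act2_r1s, Complex.ofReal_zero, zero_mul,
    Finset.sum_const_zero, add_zero, Complex.ofReal_neg]

theorem act2_ss (θ q : ℝ) (z : V (m + 2)) (i : Fin m) :
    (act (m + 2) d θ (rot q) z).2 i.succ.succ =
      Complex.exp (d * θ * Complex.I) * z.2 i.succ.succ := by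
  simp only [act, sum_two, act2_rs0, act2_rs1, act2_rss, Complex.ofReal_zero, zero_mul,
    zero_add, apply_ite (fun r : ℝ => (r : ℂ)), Complex.ofReal_one, ite_mul, one_mul,
    Finset.sum_ite_eq', Finset.mem_univ, if_true]

theorem rot_mem_SO (q : ℝ) :
    (rot q : Matrix (Fin (m + 2)) (Fin (m + 2)) ℝ) ∈
      Matrix.specialOrthogonalGroup (Fin (m + 2)) ℝ := by
  rw [Matrix.mem_specialOrthogonalGroup_iff, Matrix.mem_orthogonalGroup_iff]
  refine ⟨?_, ?_⟩
  · rw [act2_rot_transpose, act2_rot_mul, add_neg_cancel, act2_rot_zero]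
  · have h1 : (rot q : Matrix (Fin (m + 2)) (Fin (m + 2)) ℝ) = rot (q / 2) * rot (q / 2) := by
      rw [act2_rot_mul, add_halves]
    have h2 : (rot (q / 2) : Matrix (Fin (m + 2)) (Fin (m + 2)) ℝ) * (rot (q / 2))ᵀ = 1 := by
      rw [act2_rot_transpose, act2_rot_mul, add_neg_cancel, act2_rot_zero]
    have h3 := congrArg Matrix.det h2
    rw [det_mul, det_transpose, det_one] at h3
    rw [h1, det_mul, h3]

theorem rot_zero : (rot 0 : Matrix (Fin (m + 2)) (Fin (m + 2)) ℝ) = 1 := by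
  exact act2_rot_zero

theorem act_rot_pl (θ q : ℝ) (a b c : ℂ) :
    act (m + 2) d θ (rot q) (pl a b c) =
      pl (Complex.exp (2 * θ * Complex.I) * a)
        (Complex.exp (d * θ * Complex.I) * ((Real.cos q : ℝ) * b + (Real.sin q : ℝ) * c))
        (Complex.exp (d * θ * Complex.I) * (-(Real.sin q : ℝ) * b + (Real.cos q : ℝ) * c)) := by
  refine V_ext ?_ ?_ ?_ fun i => ?_
  · rw [act2_fst, pl_fst, pl_fst]
  · rw [act2_zero, pl_zero, pl_zero, pl_one]
  · rw [act2_one, pl_zero, pl_one, pl_one]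
  · rw [act2_ss, pl_ss, pl_ss, mul_zero]

theorem act_rot_io (θ q : ℝ) (w : Fin m → ℂ) :
    act (m + 2) d θ (rot q) (io w) = io (fun i => Complex.exp (d * θ * Complex.I) * w i) := by
  refine V_ext ?_ ?_ ?_ fun i => ?_
  · rw [act2_fst, io_fst, io_fst, mul_zero]
  · rw [act2_zero, io_zero, io_zero, io_one]; simp
  · rw [act2_one, io_zero, io_one, io_one]; simp
  · rw [act2_ss, io_ss, io_ss]

theorem act_rot_isPl (θ q : ℝ) {z : V (m + 2)} (hz : IsPl z) :
    IsPl (act (m + 2) d θ (rot q) z) := by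
  intro i
  rw [act2_ss, hz i, mul_zero]

theorem act_rot_vY (θ q : ℝ) (z : V (m + 2)) :
    act (m + 2) d θ (rot q) (vY z) = vY (act (m + 2) d θ (rot q) z) := by
  unfold vY
  rw [act_rot_pl, act2_zero, act2_one]
  congr 1 <;> ring

theorem contDiff_act_rot :
    ContDiff ℝ ∞ (fun p : ℝ × ℝ × V (m + 2) => act (m + 2) d p.1 (rot p.2.1) p.2.2) := by
  have hθ : ContDiff ℝ ∞ (fun p : ℝ × ℝ × V (m + 2) => (p.1 : ℂ)) :=
    Complex.ofRealCLM.contDiff.comp contDiff_fst
  have hc : ContDiff ℝ ∞ (fun p : ℝ × ℝ × V (m + 2) => ((Real.cos p.2.1 : ℝ) : ℂ)) :=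
    Complex.ofRealCLM.contDiff.comp (Real.contDiff_cos.comp (contDiff_fst.comp contDiff_snd))
  have hs : ContDiff ℝ ∞ (fun p : ℝ × ℝ × V (m + 2) => ((Real.sin p.2.1 : ℝ) : ℂ)) :=
    Complex.ofRealCLM.contDiff.comp (Real.contDiff_sin.comp (contDiff_fst.comp contDiff_snd))
  have hz1 : ContDiff ℝ ∞ (fun p : ℝ × ℝ × V (m + 2) => p.2.2.1) :=
    contDiff_fst.comp (contDiff_snd.comp contDiff_snd)
  have hz2 : ∀ i, ContDiff ℝ ∞ (fun p : ℝ × ℝ × V (m + 2) => p.2.2.2 i) := fun i =>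
    contDiff_pi.1 (contDiff_snd.comp (contDiff_snd.comp contDiff_snd)) i
  have hE : ContDiff ℝ ∞
      (fun p : ℝ × ℝ × V (m + 2) => Complex.exp (d * (p.1 : ℂ) * Complex.I)) :=
    ((contDiff_const.mul hθ).mul contDiff_const).cexp
  have hE2 : ContDiff ℝ ∞
      (fun p : ℝ × ℝ × V (m + 2) => Complex.exp (2 * (p.1 : ℂ) * Complex.I)) :=
    ((contDiff_const.mul hθ).mul contDiff_const).cexp
  have h1 : ContDiff ℝ ∞
      (fun p : ℝ × ℝ × V (m + 2) => (act (m + 2) d p.1 (rot p.2.1) p.2.2).1) := by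
    simp only [act2_fst]
    exact hE2.mul hz1
  have h2 : ContDiff ℝ ∞
      (fun p : ℝ × ℝ × V (m + 2) => (act (m + 2) d p.1 (rot p.2.1) p.2.2).2) := by
    refine contDiff_pi.2 fun i => ?_
    induction i using act2_cases with
    | h0 =>
      simp only [act2_zero]
      exact hE.mul ((hc.mul (hz2 0)).add (hs.mul (hz2 1)))
    | h1 =>
      simp only [act2_one]
      exact hE.mul ((hs.neg.mul (hz2 0)).add (hc.mul (hz2 1)))
    | hs i =>
      simp only [act2_ss]
      exact hE.mul (hz2 _)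
  exact h1.prodMk h2

theorem hasDerivAt_act_rot {P Q : ℝ → ℝ} {c : ℝ → V (m + 2)} {P' Q' : ℝ} {c' : V (m + 2)} {t : ℝ}
    (hP : HasDerivAt P P' t) (hQ : HasDerivAt Q Q' t) (hc : HasDerivAt c c' t) :
    HasDerivAt (fun s => act (m + 2) d (P s) (rot (Q s)) (c s))
      (act (m + 2) d (P t) (rot (Q t)) (c' + P' • vX d (c t) + Q' • vY (c t))) t := by
  have hθ : HasDerivAt (fun s => (P s : ℂ)) (P' : ℂ) t := hP.ofReal_comp
  have hco : HasDerivAt (fun s => ((Real.cos (Q s) : ℝ) : ℂ)) ((-Real.sin (Q t) * Q' : ℝ) : ℂ) t :=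
    hQ.cos.ofReal_comp
  have hsi : HasDerivAt (fun s => ((Real.sin (Q s) : ℝ) : ℂ)) ((Real.cos (Q t) * Q' : ℝ) : ℂ) t :=
    hQ.sin.ofReal_comp
  have hz1 : HasDerivAt (fun s => (c s).1) c'.1 t :=
    (ContinuousLinearMap.fst ℝ ℂ (Fin (m + 2) → ℂ)).hasFDerivAt.comp_hasDerivAt t hc
  have hz2' : HasDerivAt (fun s => (c s).2) c'.2 t :=
    (ContinuousLinearMap.snd ℝ ℂ (Fin (m + 2) → ℂ)).hasFDerivAt.comp_hasDerivAt t hc
  have hz2 : ∀ i, HasDerivAt (fun s => (c s).2 i) (c'.2 i) t := fun i => hasDerivAt_pi.1 hz2' i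
  have hE := ((hθ.const_mul (d : ℂ)).mul_const Complex.I).cexp
  have hE2 := ((hθ.const_mul (2 : ℂ)).mul_const Complex.I).cexp
  have e1 : (c' + P' • vX d (c t) + Q' • vY (c t)).1 =
      c'.1 + (P' : ℂ) * (2 * Complex.I * (c t).1) := by
    simp [vX, vY]
  have e0 : (c' + P' • vX d (c t) + Q' • vY (c t)).2 0 =
      c'.2 0 + (P' : ℂ) * (d * Complex.I * (c t).2 0) + (Q' : ℂ) * (c t).2 1 := by
    simp [vX, vY]
  have e2 : (c' + P' • vX d (c t) + Q' • vY (c t)).2 1 =
      c'.2 1 + (P' : ℂ) * (d * Complex.I * (c t).2 1) - (Q' : ℂ) * (c t).2 0 := by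
    simp [vX, vY, sub_eq_add_neg]
  have es : ∀ i : Fin m, (c' + P' • vX d (c t) + Q' • vY (c t)).2 i.succ.succ =
      c'.2 i.succ.succ + (P' : ℂ) * (d * Complex.I * (c t).2 i.succ.succ) := by
    intro i
    simp [vX, vY]
  have h1 : HasDerivAt (fun s => (act (m + 2) d (P s) (rot (Q s)) (c s)).1)
      (act (m + 2) d (P t) (rot (Q t)) (c' + P' • vX d (c t) + Q' • vY (c t))).1 t := by
    simp only [act2_fst, e1]
    refine (hE2.fun_mul hz1).congr_deriv ?_
    ring
  have h2 : HasDerivAt (fun s => (act (m + 2) d (P s) (rot (Q s)) (c s)).2)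
      (act (m + 2) d (P t) (rot (Q t)) (c' + P' • vX d (c t) + Q' • vY (c t))).2 t := by
    refine hasDerivAt_pi.2 fun i => ?_
    induction i using act2_cases with
    | h0 =>
      simp only [act2_zero, e0, e2]
      refine (hE.fun_mul ((hco.fun_mul (hz2 0)).fun_add (hsi.fun_mul (hz2 1)))).congr_deriv ?_
      push_cast
      ring
    | h1 =>
      simp only [act2_one, e0, e2]
      refine (hE.fun_mul
        ((hsi.fun_neg.fun_mul (hz2 0)).fun_add (hco.fun_mul (hz2 1)))).congr_deriv ?_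
      push_cast
      ring
    | hs i =>
      simp only [act2_ss, es]
      refine (hE.fun_mul (hz2 i.succ.succ)).congr_deriv ?_
      ring
  exact h1.prodMk h2

variable [NeZero m] {g : V (m + 2) → V (m + 2) →L[ℝ] V (m + 2) →L[ℝ] ℝ}

theorem act2_io_add (a b : ℂ) :
    (io (Pi.single 0 (a + b)) : V (m + 2)) = io (Pi.single 0 a) + io (Pi.single 0 b) := by
  refine V_ext ?_ ?_ ?_ fun i => ?_
  · simp
  · simp
  · simp
  · simp [Pi.single_add]

theorem act2_io_smul (r : ℝ) (a : ℂ) :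
    (io (Pi.single 0 ((r : ℂ) * a)) : V (m + 2)) = r • io (Pi.single 0 a) := by
  refine V_ext ?_ ?_ ?_ fun i => ?_
  · simp
  · simp
  · simp
  · simp only [Prod.smul_snd, Pi.smul_apply, io_ss]
    by_cases hi : i = 0
    · subst hi; simp
    · simp [hi]

theorem beta_add_left (z : V (m + 2)) (a b w : ℂ) :
    beta g z (a + b) w = beta g z a w + beta g z b w := by
  simp only [beta, act2_io_add, map_add, ContinuousLinearMap.add_apply]

theorem beta_add_right (z : V (m + 2)) (a b w : ℂ) :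
    beta g z w (a + b) = beta g z w a + beta g z w b := by
  simp only [beta, act2_io_add, map_add]

theorem beta_smul_left (z : V (m + 2)) (r : ℝ) (a w : ℂ) :
    beta g z ((r : ℂ) * a) w = r * beta g z a w := by
  simp only [beta, act2_io_smul, map_smul, ContinuousLinearMap.smul_apply, smul_eq_mul]

theorem beta_smul_right (z : V (m + 2)) (r : ℝ) (a w : ℂ) :
    beta g z w ((r : ℂ) * a) = r * beta g z w a := by
  simp only [beta, act2_io_smul, map_smul, smul_eq_mul]

theorem beta_symm (hg : IsMetric (m + 2) d g) (z : V (m + 2)) (a b : ℂ) :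
    beta g z a b = beta g z b a := by
  exact hg.2.1 z _ _

theorem beta_pos (hg : IsMetric (m + 2) d g) {z : V (m + 2)} (hz : z ∈ W (m + 2) d)
    (hp : IsPl z) {a : ℂ} (ha : a ≠ 0) : 0 < beta g z a a := by
  refine hg.2.2 z hz _ (io_mem_Tan hp _) fun h => ha ?_
  have h1 := congrArg (fun v : V (m + 2) => v.2 (0 : Fin m).succ.succ) h
  simp only [io_ss, Pi.single_eq_same] at h1
  exact h1

theorem contDiff_beta (hg : IsMetric (m + 2) d g) :
    ContDiff ℝ ∞ (fun p : V (m + 2) × ℂ × ℂ => beta g p.1 p.2.1 p.2.2) := by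
  have hs : ContDiff ℝ ∞ (fun a : ℂ => (io (Pi.single 0 a) : V (m + 2))) :=
    contDiff_io.comp (contDiff_single (F' := fun _ : Fin m => ℂ) ∞ (0 : Fin m))
  exact ((hg.1.comp contDiff_fst).clm_apply
    (hs.comp (contDiff_fst.comp contDiff_snd))).clm_apply
      (hs.comp (contDiff_snd.comp contDiff_snd))

theorem beta_act_rot (hI : Invariant (m + 2) d g) (θ q : ℝ) {z : V (m + 2)}
    (hz : z ∈ W (m + 2) d) (hp : IsPl z) (a b : ℂ) :
    beta g (act (m + 2) d θ (rot q) z) (Complex.exp (d * θ * Complex.I) * a)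
      (Complex.exp (d * θ * Complex.I) * b) = beta g z a b := by
  have h := hI θ (rot q) (rot_mem_SO q) z hz _ (io_mem_Tan hp (Pi.single 0 a)) _
    (io_mem_Tan hp (Pi.single 0 b))
  have e : ∀ u : ℂ, (fun i => Complex.exp (d * θ * Complex.I) * (Pi.single 0 u : Fin m → ℂ) i) =
      Pi.single 0 (Complex.exp (d * θ * Complex.I) * u) := by
    intro u
    funext i
    by_cases hi : i = 0
    · subst hi; simp
    · simp [hi]
  rw [act_rot_io, act_rot_io, e, e] at h
  exact h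

/-- the Gram coefficients at a rotated point -/
theorem rot_gram (hd : 1 ≤ d) (hg : IsMetric (m + 2) d g) (hI : Invariant (m + 2) d g) (θ q : ℝ)
    {z : V (m + 2)} (hz : z ∈ W (m + 2) d) (hp : IsPl z) :
    cXX d g (act (m + 2) d θ (rot q) z) = cXX d g z ∧
    cXY d g (act (m + 2) d θ (rot q) z) = cXY d g z ∧
    cYY g (act (m + 2) d θ (rot q) z) = cYY g z ∧
    cAA g (act (m + 2) d θ (rot q) z) = Real.cos q ^ 2 * cAA g z +
      2 * Real.cos q * Real.sin q * cAB g z + Real.sin q ^ 2 * cBB g z ∧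
    cAB g (act (m + 2) d θ (rot q) z) = Real.cos q * Real.sin q * (cBB g z - cAA g z) +
      (Real.cos q ^ 2 - Real.sin q ^ 2) * cAB g z ∧
    cBB g (act (m + 2) d θ (rot q) z) = Real.sin q ^ 2 * cAA g z -
      2 * Real.cos q * Real.sin q * cAB g z + Real.cos q ^ 2 * cBB g z := by
  have hX := vX_mem_Tan hd hz
  have hY : vY z ∈ Tan (m + 2) d z := vY_mem_Tan z
  have hR := rot_mem_SO (m := m) q
  have hs := beta_symm hg z (z.2 1) (z.2 0)
  have en : -((Real.sin q : ℝ) : ℂ) = ((-Real.sin q : ℝ) : ℂ) := (Complex.ofReal_neg _).symm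
  refine ⟨?_, ?_, ?_, ?_, ?_, ?_⟩
  · simp only [cXX]
    rw [← act_vX, hI θ _ hR z hz _ hX _ hX]
  · simp only [cXY]
    rw [← act_vX, ← act_rot_vY, hI θ _ hR z hz _ hX _ hY]
  · simp only [cYY]
    rw [← act_rot_vY, hI θ _ hR z hz _ hY _ hY]
  · simp only [cAA, cAB, cBB]
    rw [act2_zero, beta_act_rot hI θ q hz hp]
    simp only [beta_add_left, beta_add_right, beta_smul_left, beta_smul_right, hs]
    ring
  · simp only [cAA, cAB, cBB]
    rw [act2_zero, act2_one, beta_act_rot hI θ q hz hp, en]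
    simp only [beta_add_left, beta_add_right, beta_smul_left, beta_smul_right, hs]
    ring
  · simp only [cAA, cAB, cBB]
    rw [act2_one, beta_act_rot hI θ q hz hp, en]
    simp only [beta_add_left, beta_add_right, beta_smul_left, beta_smul_right, hs]
    ring

end Pool.Agent.Anco
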