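import Pool.Agent.Lib.MP_66983d_gt.Defs

/-!
Auxiliary definitions for the proof (none of them occurs in the final statement).
-/

set_option maxSynthPendingDepth 3

namespace Pool.Agent.Anco

open scoped ContDiff Topology
open Filter Set Matrix

section Vectors

variable {m n : ℕ}

/-- points and vectors in the plane of the first three coordinates -/
def pl (z0 z1 z2 : ℂ) : V (m + 2) := (z0, vecCons z1 (vecCons z2 0))

/-- vectors in the remaining `m` coordinates -/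
def io (w : Fin m → ℂ) : V (m + 2) := (0, vecCons 0 (vecCons 0 w))

/-- the last `m` coordinates vanish -/
def IsPl (z : V (m + 2)) : Prop := ∀ i : Fin m, z.2 i.succ.succ = 0

/-- action field of the circle factor -/
noncomputable def vX (d : ℕ) (z : V n) : V n :=
  (2 * Complex.I * z.1, fun i => d * Complex.I * z.2 i)

/-- action field of the rotation in the first two coordinates of `ℂ^n` -/
def vY (z : V (m + 2)) : V (m + 2) := pl 0 (z.2 1) (-z.2 0)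

/-- a real matrix applied to the `ℂ^n` part -/
noncomputable def mv (A : Matrix (Fin n) (Fin n) ℝ) (z : V n) : V n :=
  (0, fun i => ∑ j, (A i j : ℂ) * z.2 j)

/-- rotation in the first two coordinates -/
noncomputable def rot (q : ℝ) : Matrix (Fin (m + 2)) (Fin (m + 2)) ℝ :=
  Matrix.of (vecCons (vecCons (Real.cos q) (vecCons (Real.sin q) 0))
    (vecCons (vecCons (-Real.sin q) (vecCons (Real.cos q) 0))
      (fun i => vecCons 0 (vecCons 0 (Pi.single i 1)))))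

@[simp] theorem pl_fst (a b c : ℂ) : (pl a b c : V (m + 2)).1 = a := rfl
@[simp] theorem pl_zero (a b c : ℂ) : (pl a b c : V (m + 2)).2 0 = b := rfl
@[simp] theorem pl_one (a b c : ℂ) : (pl a b c : V (m + 2)).2 1 = c := rfl
@[simp] theorem pl_ss (a b c : ℂ) (i : Fin m) : (pl a b c : V (m + 2)).2 i.succ.succ = 0 := rfl
@[simp] theorem io_fst (w : Fin m → ℂ) : (io w).1 = 0 := rfl
@[simp] theorem io_zero (w : Fin m → ℂ) : (io w).2 0 = 0 := rfl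
@[simp] theorem io_one (w : Fin m → ℂ) : (io w).2 1 = 0 := rfl
@[simp] theorem io_ss (w : Fin m → ℂ) (i : Fin m) : (io w).2 i.succ.succ = w i := rfl

theorem isPl_pl (a b c : ℂ) : IsPl (pl a b c : V (m + 2)) := fun _ => rfl

theorem sum_two {α : Type*} [AddCommMonoid α] (f : Fin (m + 2) → α) :
    ∑ i, f i = f 0 + f 1 + ∑ i : Fin m, f i.succ.succ := by
  rw [Fin.sum_univ_succ, Fin.sum_univ_succ]
  exact (add_assoc _ _ _).symm

theorem V_ext {u v : V (m + 2)} (h0 : u.1 = v.1) (h1 : u.2 0 = v.2 0) (h2 : u.2 1 = v.2 1)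
    (h3 : ∀ i : Fin m, u.2 i.succ.succ = v.2 i.succ.succ) : u = v := by
  refine Prod.ext h0 (funext fun i => ?_)
  refine Fin.cases h1 (fun j => ?_) i
  exact Fin.cases h2 (fun k => h3 k) j

theorem IsPl.eq_pl {z : V (m + 2)} (h : IsPl z) : z = pl z.1 (z.2 0) (z.2 1) :=
  V_ext rfl rfl rfl (fun i => h i)

end Vectors

section Gram

variable {m : ℕ} [NeZero m]

/-- the metric on the complex line of the third coordinate -/
noncomputable def beta (g : V (m + 2) → V (m + 2) →L[ℝ] V (m + 2) →L[ℝ] ℝ) (z : V (m + 2))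
    (w w' : ℂ) : ℝ :=
  g z (io (Pi.single 0 w)) (io (Pi.single 0 w'))

variable (d : ℕ) (g : V (m + 2) → V (m + 2) →L[ℝ] V (m + 2) →L[ℝ] ℝ) (z : V (m + 2))

noncomputable def cXX : ℝ := g z (vX d z) (vX d z)
noncomputable def cXY : ℝ := g z (vX d z) (vY z)
noncomputable def cYY : ℝ := g z (vY z) (vY z)
noncomputable def cAA : ℝ := beta g z (z.2 0) (z.2 0)
noncomputable def cAB : ℝ := beta g z (z.2 0) (z.2 1)
noncomputable def cBB : ℝ := beta g z (z.2 1) (z.2 1)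

noncomputable def fphi : ℝ := Real.sqrt (cAA g z - cAB g z ^ 2 / cBB g z)
noncomputable def fb : ℝ := Real.sqrt (cBB g z)
noncomputable def fmu : ℝ := cAB g z / cBB g z
noncomputable def fh : ℝ := Real.sqrt (cYY g z - cXY d g z ^ 2 / cXX d g z)

/-- `c` is, near `t0`, a unit speed curve in the plane part of the manifold, orthogonal to the
orbits, and `c t0` is a principal point -/
structure NCat (c : ℝ → V (m + 2)) (t0 : ℝ) : Prop where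
  smooth : ContDiffAt ℝ ∞ c t0
  mem : ∀ᶠ t in 𝓝 t0, c t ∈ W (m + 2) d ∧ IsPl (c t)
  unit : ∀ᶠ t in 𝓝 t0, g (c t) (deriv c t) (deriv c t) = 1 ∧
    g (c t) (deriv c t) (vX d (c t)) = 0 ∧ g (c t) (deriv c t) (vY (c t)) = 0
  gen0 : (c t0).1 ≠ 0
  gen1 : ((starRingEnd ℂ) ((c t0).2 0) * (c t0).2 1).im ≠ 0

end Gram

section Model

/-- the Koszul form of a frame with brackets `br`, metric `B0` depending on the coordinate `τ`
with derivative `B1` -/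
noncomputable def kos {E : Type} (τ : E → ℝ) (B0 B1 : E → E → ℝ) (br : E → E → E) (a b c : E) :
    ℝ :=
  (τ a * B1 b c + τ b * B1 a c - τ c * B1 a b + B0 (br a b) c - B0 b (br a c) - B0 a (br b c)) / 2

/-- the curvature tensor in terms of the frame data -/
noncomputable def RmF {E : Type} (τ : E → ℝ) (B0 B1 B2 : E → E → ℝ) (br : E → E → E)
    (ha : E → E → E → E) (Λ : E → E → E) (u v w z : E) : ℝ :=
  τ u * kos τ B1 B2 br v w z - τ v * kos τ B1 B2 br u w z - kos τ B0 B1 br (br u v) w z -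
    B0 (ha u v w) z - B0 (Λ v w) (Λ u z) + B0 (Λ u w) (Λ v z)

/-- model tangent space with coordinates `T, X, Y, A_i, B_i` -/
abbrev M (m : ℕ) : Type := ℝ × ℝ × ℝ × (Fin m → ℝ) × (Fin m → ℝ)

/-- coefficients of an invariant bilinear form on the model space -/
structure Co where
  tt : ℝ
  xx : ℝ
  xy : ℝ
  yy : ℝ
  aa : ℝ
  ab : ℝ
  bb : ℝ

variable {m : ℕ}

def bf (p : Co) (u v : M m) : ℝ :=
  p.tt * (u.1 * v.1) + p.xx * (u.2.1 * v.2.1) +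
    p.xy * (u.2.1 * v.2.2.1 + u.2.2.1 * v.2.1) + p.yy * (u.2.2.1 * v.2.2.1) +
    p.aa * (u.2.2.2.1 ⬝ᵥ v.2.2.2.1) +
    p.ab * (u.2.2.2.1 ⬝ᵥ v.2.2.2.2 + u.2.2.2.2 ⬝ᵥ v.2.2.2.1) +
    p.bb * (u.2.2.2.2 ⬝ᵥ v.2.2.2.2)

/-- the part of the bracket in the model space -/
def brm (u v : M m) : M m :=
  (0, 0, u.2.2.2.2 ⬝ᵥ v.2.2.2.1 - u.2.2.2.1 ⬝ᵥ v.2.2.2.2,
    u.2.2.1 • v.2.2.2.2 - v.2.2.1 • u.2.2.2.2, v.2.2.1 • u.2.2.2.1 - u.2.2.1 • v.2.2.2.1)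

def hact1 (u v : M m) (γ : Fin m → ℝ) : Fin m → ℝ :=
  -((v.2.2.2.1 ⬝ᵥ γ) • u.2.2.2.1 - (u.2.2.2.1 ⬝ᵥ γ) • v.2.2.2.1 +
    (v.2.2.2.2 ⬝ᵥ γ) • u.2.2.2.2 - (u.2.2.2.2 ⬝ᵥ γ) • v.2.2.2.2)

/-- the action of the isotropy part of the bracket of `u` and `v` on `w` -/
def hact (u v w : M m) : M m := (0, 0, 0, hact1 u v w.2.2.2.1, hact1 u v w.2.2.2.2)

/-- the skew matrix `y E_12 + ∑ α_i E_1i + ∑ β_i E_2i` -/
def Sm (u : M m) : Matrix (Fin (m + 2)) (Fin (m + 2)) ℝ :=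
  Matrix.of (vecCons (vecCons 0 (vecCons u.2.2.1 u.2.2.2.1))
    (vecCons (vecCons (-u.2.2.1) (vecCons 0 u.2.2.2.2))
      (fun i => vecCons (-u.2.2.2.1 i) (vecCons (-u.2.2.2.2 i) 0))))

/-- the isotropy part of the bracket -/
def Hm (u v : M m) : Matrix (Fin (m + 2)) (Fin (m + 2)) ℝ :=
  Matrix.of (vecCons 0 (vecCons 0 (fun i => vecCons 0 (vecCons 0 (fun j =>
    -(u.2.2.2.1 i * v.2.2.2.1 j - u.2.2.2.1 j * v.2.2.2.1 i +
      u.2.2.2.2 i * v.2.2.2.2 j - u.2.2.2.2 j * v.2.2.2.2 i))))))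

/-- the curvature operator inequality in the model, for a 2-jet of coefficients -/
def CurvM (m : ℕ) (ε : ℝ) (p0 p1 p2 : Co) : Prop :=
  ∃ Λ : M m → M m → M m,
    (∀ a b c, bf p0 (Λ a b) c = kos (fun u : M m => u.1) (bf p0) (bf p1) brm a b c) ∧
    ∀ (N : ℕ) (X Y : Fin N → M m),
      -ε * ∑ a, ∑ b, (bf p0 (X a) (X b) * bf p0 (Y a) (Y b) -
          bf p0 (X a) (Y b) * bf p0 (Y a) (X b)) ≤
        ∑ a, ∑ b, RmF (fun u : M m => u.1) (bf p0) (bf p1) (bf p2) brm hact Λ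
          (X a) (Y a) (Y b) (X b)

/-- 2-jets of `P = f^2 + ν^2 g^2`, `Q = ν g^2`, `R = g^2` in terms of those of `f, ν, g` -/
def Blk (f0 f1 f2 ν0 ν1 ν2 g0 g1 g2 P0 P1 P2 Q0 Q1 Q2 R0 R1 R2 : ℝ) : Prop :=
  R0 = g0 ^ 2 ∧ R1 = 2 * g0 * g1 ∧ R2 = 2 * g1 ^ 2 + 2 * g0 * g2 ∧
  Q0 = ν0 * R0 ∧ Q1 = ν1 * R0 + ν0 * R1 ∧ Q2 = ν2 * R0 + 2 * ν1 * R1 + ν0 * R2 ∧
  P0 = f0 ^ 2 + ν0 ^ 2 * R0 ∧ P1 = 2 * f0 * f1 + 2 * ν0 * ν1 * R0 + ν0 ^ 2 * R1 ∧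
  P2 = 2 * f1 ^ 2 + 2 * f0 * f2 + (2 * ν1 ^ 2 + 2 * ν0 * ν2) * R0 + 4 * ν0 * ν1 * R1 +
    ν0 ^ 2 * R2

/-- the five differential inequalities, on the level of jets -/
def Five (ε φ0 φ1 φ2 b0 b1 b2 h0 h1 h2 μ0 μ1 : ℝ) : Prop :=
  φ2 ≤ ε * φ0 - 3 * (μ1 * b0 / (2 * φ0)) ^ 2 * φ0 ∧
  b2 ≤ (ε + (μ1 * b0 / (2 * φ0)) ^ 2) * b0 ∧
  h2 ≤ ε * h0 ∧
  (φ0 ^ 2 - (1 + μ0 ^ 2) * b0 ^ 2) -
      (h0 ^ 2 + (φ0 ^ 2 - (1 + μ0 ^ 2) * b0 ^ 2)) ^ 2 / (4 * φ0 ^ 2) - ε * b0 ^ 2 * h0 ^ 2 ≤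
    -(b0 * b1 * h0 * h1) ∧
  (h0 ^ 2 - (φ0 ^ 2 - (1 + μ0 ^ 2) * b0 ^ 2) ^ 2 / h0 ^ 2) / 4 ≤
    φ0 ^ 2 * b0 ^ 2 * (ε + (μ1 * b0 / (2 * φ0)) ^ 2 + μ0 ^ 2 / h0 ^ 2) - φ0 * φ1 * b0 * b1

/-- the profile functions are twice differentiable, positive and satisfy the inequalities at `t` -/
structure Good (ε : ℝ) (φ b h μ : ℝ → ℝ) (t : ℝ) : Prop where
  cφ : ContDiffAt ℝ 2 φ t
  cb : ContDiffAt ℝ 2 b t
  ch : ContDiffAt ℝ 2 h t
  cμ : ContDiffAt ℝ 2 μ t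
  pφ : 0 < φ t
  pb : 0 < b t
  ph : 0 < h t
  five : Five ε (φ t) (deriv φ t) (deriv (deriv φ) t) (b t) (deriv b t) (deriv (deriv b) t)
    (h t) (deriv h t) (deriv (deriv h) t) (μ t) (deriv μ t)

end Model

section Jets

variable {m : ℕ} [NeZero m] (d : ℕ) (g : V (m + 2) → V (m + 2) →L[ℝ] V (m + 2) →L[ℝ] ℝ)

noncomputable def co0 (z : V (m + 2)) : Co :=
  ⟨1, cXX d g z, cXY d g z, cYY g z, cAA g z, cAB g z, cBB g z⟩

noncomputable def co1 (c : ℝ → V (m + 2)) (t0 : ℝ) : Co :=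
  ⟨0, deriv (fun t => cXX d g (c t)) t0, deriv (fun t => cXY d g (c t)) t0,
    deriv (fun t => cYY g (c t)) t0, deriv (fun t => cAA g (c t)) t0,
    deriv (fun t => cAB g (c t)) t0, deriv (fun t => cBB g (c t)) t0⟩

noncomputable def co2 (c : ℝ → V (m + 2)) (t0 : ℝ) : Co :=
  ⟨0, deriv (deriv fun t => cXX d g (c t)) t0, deriv (deriv fun t => cXY d g (c t)) t0,
    deriv (deriv fun t => cYY g (c t)) t0, deriv (deriv fun t => cAA g (c t)) t0,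
    deriv (deriv fun t => cAB g (c t)) t0, deriv (deriv fun t => cBB g (c t)) t0⟩

end Jets

section Curve

/-- the data of the explicit transversal curve -/
structure C0 (d : ℕ) (δ : ℝ) (s x : ℝ → ℝ) : Prop where
  δpos : 0 < δ
  δle : δ ≤ 1
  cs : ContDiffOn ℝ ∞ s (Ioo (-δ) (Real.pi + δ))
  cx : ContDiffOn ℝ ∞ x (Ioo (-δ) (Real.pi + δ))
  e1 : ∀ τ ∈ Ioo (-δ) (Real.pi + δ), s τ ^ 2 + s τ ^ d = Real.sin τ ^ 2
  e2 : ∀ τ ∈ Ioo (-δ) (Real.pi + δ), x τ ^ 2 = s τ ^ d + Real.cos τ ^ 2 / 2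
  xpos : ∀ τ ∈ Ioo (-δ) (Real.pi + δ), 0 < x τ
  s0 : s 0 = 0
  ds0 : deriv s 0 = 1
  spos : ∀ τ ∈ Ioo 0 Real.pi, 0 < s τ
  dspos : ∀ τ ∈ Ioo 0 (Real.pi / 2), 0 < deriv s τ
  symm_s : ∀ τ, s (Real.pi - τ) = s τ
  symm_x : ∀ τ, x (Real.pi - τ) = x τ

variable {m : ℕ}

/-- the explicit transversal curve -/
noncomputable def c0 (s x : ℝ → ℝ) (τ : ℝ) : V (m + 2) :=
  pl (-(s τ : ℂ)) (x τ : ℂ) (Complex.I * ((Real.cos τ / Real.sqrt 2 : ℝ) : ℂ))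

/-- its velocity -/
noncomputable def dc0 (s x : ℝ → ℝ) (τ : ℝ) : V (m + 2) :=
  pl (-((deriv s τ : ℝ) : ℂ)) ((deriv x τ : ℝ) : ℂ)
    (Complex.I * ((-Real.sin τ / Real.sqrt 2 : ℝ) : ℂ))

/-- the part of the velocity orthogonal to the orbit -/
noncomputable def hor (d : ℕ) (s x p q : ℝ → ℝ) (τ : ℝ) : V (m + 2) :=
  dc0 s x τ - p τ • vX d (c0 s x τ) - q τ • vY (c0 s x τ)

/-- the curve moved by group elements -/
noncomputable def chat (d : ℕ) (s x P Q : ℝ → ℝ) (τ : ℝ) : V (m + 2) :=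
  act (m + 2) d (P τ) (rot (Q τ)) (c0 s x τ)

/-- horizontal decomposition of the velocity of the explicit curve -/
structure Lift (d : ℕ) (g : V (m + 2) → V (m + 2) →L[ℝ] V (m + 2) →L[ℝ] ℝ) (s x : ℝ → ℝ)
    (δ' : ℝ) (p q N : ℝ → ℝ) : Prop where
  δpos : 0 < δ'
  cN : ContDiffOn ℝ ∞ N (Ioo (-δ') Real.pi)
  Npos : ∀ τ ∈ Ioo (-δ') Real.pi, 0 < N τ
  N0 : N 0 ^ 2 = g (c0 s x 0) (pl (-1) 0 0) (pl (-1) 0 0)
  cp : ContDiffOn ℝ ∞ p (Ioo 0 Real.pi)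
  cq : ContDiffOn ℝ ∞ q (Ioo 0 Real.pi)
  hN : ∀ τ ∈ Ioo 0 Real.pi, g (c0 s x τ) (hor d s x p q τ) (hor d s x p q τ) = N τ ^ 2
  hX : ∀ τ ∈ Ioo 0 Real.pi, g (c0 s x τ) (hor d s x p q τ) (vX d (c0 s x τ)) = 0
  hY : ∀ τ ∈ Ioo 0 Real.pi, g (c0 s x τ) (hor d s x p q τ) (vY (c0 s x τ)) = 0

end Curve

end Pool.Agent.Anco
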