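import Pool.Agent.Lib.MP_66983d_gt.Main

set_option maxSynthPendingDepth 3

namespace Pool.Agent.Anco

open scoped ContDiff Topology
open Filter Set Matrix

theorem bridge_Rm {E : Type} [NormedAddCommGroup E] [NormedSpace ℝ E] [FiniteDimensional ℝ E]
    {G : E → E →L[ℝ] E →L[ℝ] ℝ} {x : E} (hG : ContDiffAt ℝ 2 G x)
    (hpos : ∀ a, a ≠ 0 → 0 < G x a a) (u v w z : E) :
    S.Rm (fun y a b => G y a b) x u v w z = Rm G x u v w z := by
  have : CompleteSpace E := FiniteDimensional.complete ℝ E
  obtain ⟨e, he⟩ := low_inv hpos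
  have hd : ∀ᶠ y in 𝓝 x, DifferentiableAt ℝ G y :=
    (hG.eventually (by simp)).mono fun y hy => hy.differentiableAt (by norm_num)
  have hev : ∀ᶠ y in 𝓝 x, ∀ a b, S.chr (fun y a b => G y a b) y a b = chr G y a b := by
    have h1 := hG.continuousAt.eventually (he ▸ e.nhds)
    filter_upwards [h1, hd] with y hy hdy a b
    obtain ⟨f, hf⟩ := hy
    have hi : (G y).IsInvertible := ⟨f, hf⟩
    have hinj : Function.Injective fun a b : E => G y a b := by
      intro a a' h
      apply hi.bijective.1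
      ext c
      exact congrFun h c
    have hl : S.lowChr (fun y a b => G y a b) y a b = fun c => G y (chr G y a b) c := by
      funext c
      rw [chr, hi.self_apply_inverse]
      simp only [S.lowChr, S.dir, lowChr, _root_.smul_apply, _root_.sub_apply,
        _root_.add_apply, smul_eq_mul, low_fd hdy]
      ring
    rw [S.chr, hl]
    exact Function.leftInverse_invFun hinj _
  have h1 : ∀ a b, (fun y => S.chr (fun y a b => G y a b) y a b) =ᶠ[𝓝 x] fun y => chr G y a b :=
    fun a b => hev.mono fun y hy => hy a b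
  simp only [S.Rm, Rm, S.riem, riem, S.dir, (h1 _ _).fderiv_eq, hev.self_of_nhds]

variable {n d : ℕ}

theorem bridge_exists {g : V n → V n → V n → ℝ} (hg : S.IsMetric n d g) :
    ∃ g' : V n → V n →L[ℝ] V n →L[ℝ] ℝ, ∀ z u v, g' z u v = g z u v := by
  have hl := hg.2.1
  have hs := hg.2.2.1
  refine ⟨fun z => LinearMap.toContinuousLinearMap
    { toFun := fun u => LinearMap.toContinuousLinearMap ((hl z u).mk' (g z u))
      map_add' := fun a b => ?_
      map_smul' := fun r a => ?_ }, fun _ _ _ => rfl⟩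
  · refine ContinuousLinearMap.ext fun c => ?_
    change g z (a + b) c = g z a c + g z b c
    rw [hs z _ c, (hl z c).map_add, hs z c, hs z c]
  · refine ContinuousLinearMap.ext fun c => ?_
    change g z (r • a) c = r • g z a c
    rw [hs z _ c, (hl z c).map_smul, hs z c]

theorem bridge_smooth {E F : Type} [NormedAddCommGroup E] [NormedSpace ℝ E]
    [FiniteDimensional ℝ E] [NormedAddCommGroup F] [NormedSpace ℝ F]
    {B : E → F →L[ℝ] F →L[ℝ] ℝ} {D : E → E →L[ℝ] F} {x : E} (hB : ContDiffAt ℝ 2 B x)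
    (hD : ContDiffAt ℝ 2 D x) : ContDiffAt ℝ 2 (fun y => (B y).bilinearComp (D y) (D y)) x := by
  have hF : ContDiff ℝ 2 fun p : (F →L[ℝ] F →L[ℝ] ℝ) × (E →L[ℝ] F) =>
      p.1.bilinearComp p.2 p.2 := by
    rw [contDiff_clm_apply_iff]
    intro a
    rw [contDiff_clm_apply_iff]
    intro b
    exact (contDiff_fst.clm_apply (contDiff_snd.clm_apply contDiff_const)).clm_apply
      (contDiff_snd.clm_apply contDiff_const)
  have := hF.comp_contDiffAt x (hB.prodMk hD)
  exact this

theorem bridge_curv {g : V n → V n →L[ℝ] V n →L[ℝ] ℝ} (hg : IsMetric n d g) {c : ℝ}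
    (hC : S.CurvOpGe n d (fun z u v => g z u v) c) : CurvOpGe n d g c := by
  intro E _ _ _ hE φ x hφ hW hinj
  have h0 := hC E hE φ x hφ hW hinj
  have hD : ContDiffAt ℝ 2 (fderiv ℝ φ) x := hφ.fderiv_right (m := 2) (by norm_cast)
  have hgφ : ContDiffAt ℝ 2 (fun y => g (φ y)) x :=
    (hg.1.contDiffAt.comp x hφ).of_le (by norm_cast)
  have hG : ContDiffAt ℝ 2 (pull g φ) x := bridge_smooth hgφ hD
  have hd : DifferentiableAt ℝ φ x := hφ.differentiableAt (by simp)
  have hpos : ∀ a, a ≠ 0 → 0 < pull g φ x a a := by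
    intro a ha
    have hline : HasDerivAt (fun t : ℝ => x + t • a) a 0 := by
      simpa using ((hasDerivAt_id (0 : ℝ)).smul_const a).const_add x
    have hc : HasDerivAt (fun t : ℝ => φ (x + t • a)) (fderiv ℝ φ x a) 0 :=
      HasFDerivAt.comp_hasDerivAt_of_eq 0 hd.hasFDerivAt hline (by simp)
    have hlim : Tendsto (fun t : ℝ => x + t • a) (𝓝 0) (𝓝 x) := by
      simpa using hline.continuousAt.tendsto
    have hT := tan_of_curve hc (hlim.eventually hW)
    simp only [zero_smul, add_zero] at hT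
    refine hg.2.2 _ hW.self_of_nhds _ hT ?_
    intro h0
    have h1 : fderiv ℝ φ x a = 0 := h0
    exact ha (hinj (by rw [h1, map_zero]))
  intro N X Y
  have h1 := h0 N X Y
  have e : S.pull (fun z u v => g z u v) φ = fun y a b => pull g φ y a b := rfl
  rw [e] at h1
  simpa only [bridge_Rm hG hpos] using h1

theorem bridge_main (hn : 5 ≤ n) (hd : 3 ≤ d) (hodd : Odd d) {g : V n → V n → V n → ℝ}
    (hg : S.IsMetric n d g) (hI : S.Invariant n d g) (hD : S.DiamLe n d g 1)
    (hC : S.CurvOpGe n d g (-(1 / 10 ^ 46))) : False := by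
  obtain ⟨g', hg'⟩ := bridge_exists hg
  have e : g = fun z u v => g' z u v := by
    funext z u v; rw [hg']
  subst e
  have hm : IsMetric n d g' := by
    refine ⟨?_, hg.2.2.1, hg.2.2.2⟩
    rw [contDiff_clm_apply_iff]
    intro a
    rw [contDiff_clm_apply_iff]
    intro b
    exact hg.1 a b
  obtain ⟨k, rfl⟩ : ∃ k, n = (k + 3) + 2 := ⟨n - 5, by omega⟩
  exact main_false (m := k + 3) (by omega) hd hodd hm hI hD (bridge_curv hm hC)

end Pool.Agent.Anco
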