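import Pool.Agent.Lib.MP_66983d_gt.Base

set_option maxSynthPendingDepth 3

namespace Pool.Agent.Anco

open scoped ContDiff Topology
open Filter Set Matrix

variable {m : ℕ}

theorem brk_ext {A B : Matrix (Fin (m + 2)) (Fin (m + 2)) ℝ}
    (h00 : A 0 0 = B 0 0) (h01 : A 0 1 = B 0 1)
    (h0s : ∀ j : Fin m, A 0 j.succ.succ = B 0 j.succ.succ)
    (h10 : A 1 0 = B 1 0) (h11 : A 1 1 = B 1 1)
    (h1s : ∀ j : Fin m, A 1 j.succ.succ = B 1 j.succ.succ)
    (hs0 : ∀ i : Fin m, A i.succ.succ 0 = B i.succ.succ 0)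
    (hs1 : ∀ i : Fin m, A i.succ.succ 1 = B i.succ.succ 1)
    (hss : ∀ i j : Fin m, A i.succ.succ j.succ.succ = B i.succ.succ j.succ.succ) : A = B := by
  ext i j
  refine Fin.cases ?_ (fun i => Fin.cases ?_ (fun i => ?_) i) i
  · exact Fin.cases h00 (fun j => Fin.cases h01 h0s j) j
  · exact Fin.cases h10 (fun j => Fin.cases h11 h1s j) j
  · exact Fin.cases (hs0 i) (fun j => Fin.cases (hs1 i) (hss i) j) j

theorem brk_S00 (u : M m) : Sm u 0 0 = 0 := rfl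
theorem brk_S01 (u : M m) : Sm u 0 1 = u.2.2.1 := rfl
theorem brk_S0s (u : M m) (j : Fin m) : Sm u 0 j.succ.succ = u.2.2.2.1 j := rfl
theorem brk_S10 (u : M m) : Sm u 1 0 = -u.2.2.1 := rfl
theorem brk_S11 (u : M m) : Sm u 1 1 = 0 := rfl
theorem brk_S1s (u : M m) (j : Fin m) : Sm u 1 j.succ.succ = u.2.2.2.2 j := rfl
theorem brk_Ss0 (u : M m) (i : Fin m) : Sm u i.succ.succ 0 = -u.2.2.2.1 i := rfl
theorem brk_Ss1 (u : M m) (i : Fin m) : Sm u i.succ.succ 1 = -u.2.2.2.2 i := rfl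
theorem brk_Sss (u : M m) (i j : Fin m) : Sm u i.succ.succ j.succ.succ = 0 := rfl
theorem brk_H0 (u v : M m) (j : Fin (m + 2)) : Hm u v 0 j = 0 := rfl
theorem brk_H1 (u v : M m) (j : Fin (m + 2)) : Hm u v 1 j = 0 := rfl
theorem brk_Hs0 (u v : M m) (i : Fin m) : Hm u v i.succ.succ 0 = 0 := rfl
theorem brk_Hs1 (u v : M m) (i : Fin m) : Hm u v i.succ.succ 1 = 0 := rfl
theorem brk_Hss (u v : M m) (i j : Fin m) : Hm u v i.succ.succ j.succ.succ =
    -(u.2.2.2.1 i * v.2.2.2.1 j - u.2.2.2.1 j * v.2.2.2.1 i +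
      u.2.2.2.2 i * v.2.2.2.2 j - u.2.2.2.2 j * v.2.2.2.2 i) := rfl

theorem Sm_add (u v : M m) : Sm (u + v) = Sm u + Sm v := by
  apply brk_ext <;> intros <;>
    simp only [Matrix.add_apply, brk_S00, brk_S01, brk_S0s, brk_S10, brk_S11, brk_S1s, brk_Ss0,
      brk_Ss1, brk_Sss, Prod.snd_add, Prod.fst_add, Pi.add_apply] <;> ring

theorem Sm_smul (r : ℝ) (u : M m) : Sm (r • u) = r • Sm u := by
  apply brk_ext <;> intros <;>
    simp only [Matrix.smul_apply, brk_S00, brk_S01, brk_S0s, brk_S10, brk_S11, brk_S1s, brk_Ss0,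
      brk_Ss1, brk_Sss, Prod.smul_snd, Prod.smul_fst, Pi.smul_apply, smul_eq_mul] <;> ring

theorem Sm_skew (u : M m) : (Sm u)ᵀ = -Sm u := by
  apply brk_ext <;> intros <;>
    simp only [Matrix.transpose_apply, Matrix.neg_apply, brk_S00, brk_S01, brk_S0s, brk_S10,
      brk_S11, brk_S1s, brk_Ss0, brk_Ss1, brk_Sss, neg_zero, neg_neg]

theorem Sm_br (u v : M m) : Sm u * Sm v - Sm v * Sm u = Sm (brm u v) + Hm u v := by
  apply brk_ext <;> intros <;>
    simp only [Matrix.add_apply, Matrix.sub_apply, Matrix.mul_apply, sum_two, brk_S00, brk_S01,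
      brk_S0s, brk_S10, brk_S11, brk_S1s, brk_Ss0, brk_Ss1, brk_Sss, brk_H0, brk_H1, brk_Hs0,
      brk_Hs1, brk_Hss, brm, dotProduct, mul_neg, neg_mul, Finset.sum_neg_distrib, mul_zero,
      zero_mul, Finset.sum_const_zero, Pi.sub_apply, Pi.smul_apply, smul_eq_mul,
      mul_comm (v.2.2.2.1 _) (u.2.2.2.1 _), mul_comm (v.2.2.2.2 _) (u.2.2.2.2 _),
      mul_comm (v.2.2.2.1 _) (u.2.2.2.2 _), mul_comm (v.2.2.2.2 _) (u.2.2.2.1 _)] <;> ring

theorem brk_sum (u v : M m) (γ : Fin m → ℝ) (i : Fin m) :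
    ∑ k : Fin m, Hm u v i.succ.succ k.succ.succ * γ k = hact1 u v γ i := by
  simp only [brk_Hss, hact1, dotProduct, Pi.neg_apply, Pi.sub_apply, Pi.add_apply, Pi.smul_apply,
    smul_eq_mul, Finset.sum_mul, ← Finset.sum_sub_distrib, ← Finset.sum_add_distrib,
    ← Finset.sum_neg_distrib]
  exact Finset.sum_congr rfl fun k _ => by ring

theorem brk_sum' (u v : M m) (γ : Fin m → ℝ) (i : Fin m) :
    ∑ k : Fin m, γ k * Hm u v k.succ.succ i.succ.succ = -hact1 u v γ i := by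
  rw [← brk_sum, ← Finset.sum_neg_distrib]
  exact Finset.sum_congr rfl fun k _ => by rw [brk_Hss, brk_Hss]; ring

theorem Hm_br (u v w : M m) : Hm u v * Sm w - Sm w * Hm u v = Sm (hact u v w) := by
  apply brk_ext <;> intros <;>
    simp only [Matrix.sub_apply, Matrix.mul_apply, sum_two, brk_S00, brk_S01,
      brk_S0s, brk_S10, brk_S11, brk_S1s, brk_Ss0, brk_Ss1, brk_Sss, brk_H0, brk_H1, brk_Hs0,
      brk_Hs1, hact, mul_neg, Finset.sum_neg_distrib, mul_zero,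
      zero_mul, Finset.sum_const_zero, brk_sum, brk_sum'] <;> ring

theorem mv_Hm (u v : M m) {z : V (m + 2)} (hz : IsPl z) : mv (Hm u v) z = 0 := by
  have hz' : ∀ i : Fin m, z.2 i.succ.succ = 0 := hz
  apply V_ext
  · rfl
  · simp [mv, brk_H0]
  · simp [mv, brk_H1]
  · intro i
    simp only [mv, sum_two, brk_Hs0, brk_Hs1, hz']
    simp

theorem mv_Sm (u : M m) {z : V (m + 2)} (hz : IsPl z) :
    mv (Sm u) z = u.2.2.1 • vY z -
      io (fun i => (u.2.2.2.1 i : ℂ) * z.2 0 + (u.2.2.2.2 i : ℂ) * z.2 1) := by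
  have hz' : ∀ i : Fin m, z.2 i.succ.succ = 0 := hz
  apply V_ext
  · simp [mv, vY]
  · simp only [mv, sum_two, brk_S00, brk_S01, hz', vY, Prod.snd_sub, Prod.smul_snd, Pi.sub_apply,
      Pi.smul_apply, pl_zero, io_zero]
    simp
  · simp only [mv, sum_two, brk_S10, brk_S11, hz', vY, Prod.snd_sub, Prod.smul_snd, Pi.sub_apply,
      Pi.smul_apply, pl_one, io_one]
    simp
  · intro i
    simp only [mv, sum_two, brk_Ss0, brk_Ss1, hz', vY, Prod.snd_sub, Prod.smul_snd, Pi.sub_apply,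
      Pi.smul_apply, pl_ss, io_ss]
    simp
    ring

theorem bf_symm (p : Co) (u v : M m) : bf p u v = bf p v u := by
  simp only [bf, dotProduct_comm v.2.2.2.1, dotProduct_comm v.2.2.2.2]
  ring

theorem brk_skew (u v : M m) (a b : Fin m → ℝ) :
    hact1 u v a ⬝ᵥ b = -(a ⬝ᵥ hact1 u v b) := by
  simp only [hact1, neg_dotProduct, dotProduct_neg, sub_dotProduct, dotProduct_sub,
    add_dotProduct, dotProduct_add, smul_dotProduct, dotProduct_smul, smul_eq_mul,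
    dotProduct_comm a]
  ring

theorem bf_hact (p : Co) (u v w z : M m) :
    bf p (hact u v w) z + bf p w (hact u v z) = 0 := by
  simp only [bf, hact, brk_skew]
  ring

theorem brk_dot_nonneg (a : Fin m → ℝ) : 0 ≤ a ⬝ᵥ a :=
  Finset.sum_nonneg fun i _ => mul_self_nonneg (a i)

theorem bf_pos (p : Co) (h1 : 0 < p.tt) (h2 : 0 < p.xx) (h3 : p.xy ^ 2 < p.xx * p.yy)
    (h4 : 0 < p.bb) (h5 : p.ab ^ 2 < p.aa * p.bb) (a : M m) (ha : a ≠ 0) : 0 < bf p a a := by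
  obtain ⟨t, x, y, α, β⟩ := a
  have e1 : p.xx * (p.xx * (x * x) + p.xy * (x * y + y * x) + p.yy * (y * y)) =
      (p.xx * x + p.xy * y) ^ 2 + (p.xx * p.yy - p.xy ^ 2) * y ^ 2 := by ring
  have e2 : p.bb * (p.aa * (α ⬝ᵥ α) + p.ab * (α ⬝ᵥ β + β ⬝ᵥ α) + p.bb * (β ⬝ᵥ β)) =
      (p.ab • α + p.bb • β) ⬝ᵥ (p.ab • α + p.bb • β) + (p.aa * p.bb - p.ab ^ 2) * (α ⬝ᵥ α) := by
    simp only [add_dotProduct, dotProduct_add, smul_dotProduct, dotProduct_smul, smul_eq_mul]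
    ring
  have n1 := brk_dot_nonneg (p.ab • α + p.bb • β)
  have n2 := mul_nonneg (sub_pos.2 h5).le (brk_dot_nonneg α)
  have n3 := sq_nonneg (p.xx * x + p.xy * y)
  have n4 := mul_nonneg (sub_pos.2 h3).le (sq_nonneg y)
  have n5 := mul_nonneg h1.le (mul_self_nonneg t)
  have b1 : 0 ≤ p.xx * (x * x) + p.xy * (x * y + y * x) + p.yy * (y * y) :=
    nonneg_of_mul_nonneg_right (by rw [e1]; positivity) h2
  have b2 : 0 ≤ p.aa * (α ⬝ᵥ α) + p.ab * (α ⬝ᵥ β + β ⬝ᵥ α) + p.bb * (β ⬝ᵥ β) :=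
    nonneg_of_mul_nonneg_right (by rw [e2]; positivity) h4
  have eb : bf p (t, x, y, α, β) (t, x, y, α, β) = p.tt * (t * t) +
      (p.xx * (x * x) + p.xy * (x * y + y * x) + p.yy * (y * y)) +
      (p.aa * (α ⬝ᵥ α) + p.ab * (α ⬝ᵥ β + β ⬝ᵥ α) + p.bb * (β ⬝ᵥ β)) := by
    simp only [bf]; ring
  rw [eb]
  by_contra hc
  have z1 : p.tt * (t * t) = 0 := by linarith
  have z2 : p.xx * (x * x) + p.xy * (x * y + y * x) + p.yy * (y * y) = 0 := by linarith
  have z3 : p.aa * (α ⬝ᵥ α) + p.ab * (α ⬝ᵥ β + β ⬝ᵥ α) + p.bb * (β ⬝ᵥ β) = 0 := by linarith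
  rw [z2, mul_zero] at e1
  rw [z3, mul_zero] at e2
  have ht : t = 0 := mul_self_eq_zero.1 ((mul_eq_zero.1 z1).resolve_left h1.ne')
  have hy : y = 0 := by
    have : (p.xx * p.yy - p.xy ^ 2) * y ^ 2 = 0 := by linarith
    exact pow_eq_zero_iff two_ne_zero |>.1 ((mul_eq_zero.1 this).resolve_left (sub_pos.2 h3).ne')
  have hx : x = 0 := by
    have : (p.xx * x + p.xy * y) ^ 2 = 0 := by linarith
    have := pow_eq_zero_iff two_ne_zero |>.1 this
    rw [hy, mul_zero, add_zero] at this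
    exact (mul_eq_zero.1 this).resolve_left h2.ne'
  have hα : α = 0 := by
    have : (p.aa * p.bb - p.ab ^ 2) * (α ⬝ᵥ α) = 0 := by linarith
    exact dotProduct_self_eq_zero.1 ((mul_eq_zero.1 this).resolve_left (sub_pos.2 h5).ne')
  have hβ : β = 0 := by
    have : (p.ab • α + p.bb • β) ⬝ᵥ (p.ab • α + p.bb • β) = 0 := by linarith
    have := dotProduct_self_eq_zero.1 this
    rw [hα, smul_zero, zero_add] at this
    exact (smul_eq_zero.1 this).resolve_left h4.ne'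
  exact ha (by rw [ht, hx, hy, hα, hβ]; rfl)

theorem finrank_M : Module.finrank ℝ (M m) = 2 * (m + 2) - 1 := by
  simp only [M, Module.finrank_prod, Module.finrank_self, Module.finrank_fin_fun]
  omega

end Pool.Agent.Anco
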