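import Pool.Agent.Lib.MP_66983d_gt.Mat

set_option maxSynthPendingDepth 3

namespace Pool.Agent.Anco

open scoped ContDiff Topology
open Filter Set Matrix

section
variable {E : Type} [NormedAddCommGroup E] [NormedSpace ℝ E] {A : Type} [NormedRing A]
  [NormedAlgebra ℝ A] [CompleteSpace A]

theorem cayley_hd (T : E →L[ℝ] A) {x : E} (hx : IsUnit (1 + T x)) :
    HasFDerivAt (fun y => Ring.inverse (1 + T y))
      ((-ContinuousLinearMap.mulLeftRight ℝ A (Ring.inverse (1 + T x))
        (Ring.inverse (1 + T x))).comp T) x := by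
  obtain ⟨U, hU⟩ := hx
  have h1 := hasFDerivAt_ringInverse (𝕜 := ℝ) U
  rw [← Ring.inverse_unit U, hU] at h1
  exact h1.comp x (T.hasFDerivAt.const_add 1)

theorem cayley_cd (T : E →L[ℝ] A) {x : E} (hx : IsUnit (1 + T x)) :
    ContDiffAt ℝ ∞ (fun y => Ring.inverse (1 + T y)) x := by
  obtain ⟨U, hU⟩ := hx
  have h1 : ContDiffAt ℝ ∞ Ring.inverse (U : A) := contDiffAt_ringInverse ℝ U
  rw [hU] at h1
  exact h1.comp x (contDiffAt_const.add T.contDiff.contDiffAt)

theorem cayley_ev (T : E →L[ℝ] A) : ∀ᶠ x in 𝓝 (0 : E), IsUnit (1 + T x) := by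
  have hc : Continuous fun x => 1 + T x := continuous_const.add T.continuous
  exact (Units.isOpen.preimage hc).mem_nhds (by simp)

/-- The one form of the Cayley chart. -/
noncomputable def cayleyEta (S T : E →L[ℝ] A) (x : E) : E →L[ℝ] A :=
  (ContinuousLinearMap.mulLeftRight ℝ A (Ring.inverse (1 + T x))
    (Ring.inverse (1 + (-T) x))).comp S

omit [CompleteSpace A] in
theorem cayleyEta_apply (S T : E →L[ℝ] A) (x u : E) :
    cayleyEta S T x u = Ring.inverse (1 + T x) * S u * Ring.inverse (1 + (-T) x) := rfl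

theorem cayley_cd_eta (S T : E →L[ℝ] A) {x : E} (h1 : IsUnit (1 + T x))
    (h2 : IsUnit (1 + (-T) x)) : ContDiffAt ℝ ∞ (cayleyEta S T) x :=
  ((contDiffAt_const.clm_apply (cayley_cd T h1)).clm_apply (cayley_cd (-T) h2)).clm_comp
    contDiffAt_const

theorem cayley_fderiv_eta (S T : E →L[ℝ] A) {x : E} (h1 : IsUnit (1 + T x))
    (h2 : IsUnit (1 + (-T) x)) (u v : E) :
    fderiv ℝ (cayleyEta S T) x u v =
      Ring.inverse (1 + T x) * S v * (Ring.inverse (1 + (-T) x) * T u * Ring.inverse (1 + (-T) x)) -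
        Ring.inverse (1 + T x) * T u * Ring.inverse (1 + T x) * S v *
          Ring.inverse (1 + (-T) x) := by
  have hd := ((cayley_cd_eta S T h1 h2).differentiableAt (by simp)).hasFDerivAt
  have ha := hd.clm_apply (hasFDerivAt_const v x)
  have hb := ((cayley_hd T h1).mul_const' (S v)).mul' (cayley_hd (-T) h2)
  have := congrArg (fun f : E →L[ℝ] A => f u) (ha.unique hb)
  simp only [_root_.add_apply, ContinuousLinearMap.comp_apply,
    _root_.zero_apply, map_zero, zero_add, ContinuousLinearMap.flip_apply,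
    _root_.smul_apply, _root_.neg_apply,
    ContinuousLinearMap.mulLeftRight_apply, smul_eq_mul, MulOpposite.smul_eq_mul_unop,
    MulOpposite.unop_op] at this
  rw [this]
  simp only [_root_.neg_apply]
  noncomm_ring

end

theorem cayley_ring {A : Type} [Ring A] {t p q : A} (h1 : (1 + t) * p = 1)
    (h2 : q * (1 + -t) = 1) : p + q = q * p + q * p ∧ (q + q - 1) * p = q ∧
      q + q - 1 = q * (1 + t) := by
  have e1 : q + q - 1 = q * (1 + t) := by
    calc q + q - 1 = q + q - q * (1 + -t) := by rw [h2]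
      _ = q * (1 + t) := by noncomm_ring
  have e2 : (q + q - 1) * p = q := by rw [e1, mul_assoc, h1, mul_one]
  refine ⟨?_, e2, e1⟩
  calc p + q = p + (q + q - 1) * p := by rw [e2]
    _ = q * p + q * p := by noncomm_ring

theorem cayley {E : Type} [NormedAddCommGroup E] [NormedSpace ℝ E] {n : ℕ}
    (S : E →L[ℝ] Mat n) (hS : ∀ u, (S u).mxᵀ = -(S u).mx) :
    ∃ (R : E → Mat n) (η : E → E →L[ℝ] Mat n),
      ContDiffAt ℝ ∞ R 0 ∧ ContDiffAt ℝ ∞ η 0 ∧ R 0 = 1 ∧ η 0 = S ∧
      (∀ᶠ x in 𝓝 (0 : E), DifferentiableAt ℝ R x ∧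
        (R x).mx ∈ Matrix.specialOrthogonalGroup (Fin n) ℝ ∧
        ∀ u, fderiv ℝ R x u = R x * η x u ∧ (η x u).mxᵀ = -(η x u).mx) ∧
      (∀ᶠ x in 𝓝 (0 : E), ∀ u v,
        fderiv ℝ η x u v - fderiv ℝ η x v u = -(η x u * η x v - η x v * η x u)) ∧
      ∀ u v, fderiv ℝ η 0 u v = (-(1 / 2) : ℝ) • (S u * S v - S v * S u) := by
  obtain ⟨T, hT⟩ : ∃ T : E →L[ℝ] Mat n, T = (1 / 2 : ℝ) • S := ⟨_, rfl⟩
  have hTu : ∀ u, T u = (1 / 2 : ℝ) • S u := fun u => by rw [hT]; rfl
  have hST : ∀ u, S u = T u + T u := fun u => by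
    rw [hTu, ← add_smul]; norm_num
  have hTt : ∀ u, (T u).mxᵀ = -(T u).mx := fun u => by
    rw [hTu, Mat.mx_smul, transpose_smul, hS, smul_neg]
  have h01 : IsUnit (1 + T 0) := by simp
  have h02 : IsUnit (1 + (-T) 0) := by simp
  refine ⟨fun x => Ring.inverse (1 + (-T) x) + Ring.inverse (1 + (-T) x) - 1, cayleyEta S T,
    ((cayley_cd (-T) h02).add (cayley_cd (-T) h02)).sub contDiffAt_const,
    cayley_cd_eta S T h01 h02, by simp, ?_, ?_, ?_, fun u v => ?_⟩
  · ext1 u
    simp [cayleyEta_apply]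
  · filter_upwards [cayley_ev T, cayley_ev (-T)] with x h1 h2
    have hd := ((cayley_hd (-T) h2).add (cayley_hd (-T) h2)).sub_const 1
    have a1 := Ring.mul_inverse_cancel _ h1
    have a2 := Ring.inverse_mul_cancel _ h1
    have b1 := Ring.mul_inverse_cancel _ h2
    have b2 := Ring.inverse_mul_cancel _ h2
    have hdu : ∀ u, fderiv ℝ (fun x => Ring.inverse (1 + (-T) x) + Ring.inverse (1 + (-T) x) - 1)
        x u = Ring.inverse (1 + (-T) x) * S u * Ring.inverse (1 + (-T) x) := fun u => by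
      have := congrArg (fun f : E →L[ℝ] Mat n => f u) hd.fderiv
      simp only [_root_.add_apply, ContinuousLinearMap.comp_apply,
        _root_.neg_apply, ContinuousLinearMap.mulLeftRight_apply] at this
      simp only [_root_.neg_apply]
      refine Eq.trans this ?_
      rw [hST]
      noncomm_ring
    simp only [cayleyEta_apply, hdu]
    generalize Ring.inverse (1 + T x) = p at a1 a2 ⊢
    generalize Ring.inverse (1 + (-T) x) = q at b1 b2 ⊢
    rw [_root_.neg_apply] at b1 b2
    obtain ⟨e1, e2, e3⟩ := cayley_ring a1 b2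
    have ta : ((1 + T x : Mat n).mx)ᵀ = (1 + -T x : Mat n).mx := by
      rw [Mat.mx_add, Mat.mx_add, Mat.mx_one, Mat.mx_neg, transpose_add, transpose_one, hTt]
    have tq : q.mxᵀ = p.mx := by
      have c1 : (1 + T x : Mat n).mx * p.mx = 1 := congrArg Mat.mx a1
      have c2 : (1 + -T x : Mat n).mx * q.mx = 1 := congrArg Mat.mx b1
      have c3 : q.mxᵀ * (1 + T x : Mat n).mx = 1 := by
        have := congrArg transpose c2
        rwa [transpose_mul, ← ta, transpose_transpose, transpose_one] at this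
      calc q.mxᵀ = q.mxᵀ * ((1 + T x : Mat n).mx * p.mx) := by rw [c1, mul_one]
        _ = p.mx := by rw [← mul_assoc, c3, one_mul]
    have tp : p.mxᵀ = q.mx := by rw [← tq, transpose_transpose]
    refine ⟨hd.differentiableAt, ?_, fun u => ⟨?_, ?_⟩⟩
    · rw [Matrix.mem_specialOrthogonalGroup_iff, Matrix.mem_orthogonalGroup_iff, e3]
      have c2 : q.mx * (1 + -T x : Mat n).mx = 1 := congrArg Mat.mx b2
      constructor
      · rw [Mat.mx_mul, transpose_mul, ta, tq]
        have : q * (1 + T x) * ((1 + -T x) * p) = 1 := by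
          calc q * (1 + T x) * ((1 + -T x) * p) = q * (1 + -T x) * ((1 + T x) * p) := by
                noncomm_ring
            _ = 1 := by rw [a1, b2, mul_one]
        exact congrArg Mat.mx this
      · rw [Mat.mx_mul, det_mul, ← det_transpose (1 + T x : Mat n).mx, ta, ← det_mul, c2, det_one]
    · rw [← mul_assoc, ← mul_assoc, e2]
    · rw [Mat.mx_mul, Mat.mx_mul, transpose_mul, transpose_mul, tq, tp, hS, neg_mul, mul_neg,
        mul_assoc]
  · filter_upwards [cayley_ev T, cayley_ev (-T)] with x h1 h2 u v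
    rw [cayley_fderiv_eta S T h1 h2, cayley_fderiv_eta S T h1 h2, cayleyEta_apply, cayleyEta_apply]
    have a1 := Ring.mul_inverse_cancel _ h1
    have b2 := Ring.inverse_mul_cancel _ h2
    generalize Ring.inverse (1 + T x) = p at a1 ⊢
    generalize Ring.inverse (1 + (-T) x) = q at b2 ⊢
    rw [_root_.neg_apply] at b2
    obtain ⟨e1, -, -⟩ := cayley_ring a1 b2
    rw [hST u, hST v]
    generalize T u = a
    generalize T v = b
    calc _ = -(p * (a + a) * (p + q) * b * q - p * (b + b) * (p + q) * a * q) := by noncomm_ring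
      _ = _ := by rw [e1]; noncomm_ring
  · rw [cayley_fderiv_eta S T h01 h02, hTu u]
    simp only [map_zero, add_zero, Ring.inverse_one, one_mul, mul_one, mul_smul_comm,
      smul_mul_assoc, neg_smul, smul_sub]
    abel

end Pool.Agent.Anco
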