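import Pool.Agent.Lib.MP_66983d_gt.Cayley
import Pool.Agent.Lib.MP_66983d_gt.Brk

set_option maxSynthPendingDepth 3

namespace Pool.Agent.Anco

open scoped ContDiff Topology
open Filter Set Matrix

theorem chartA_contDiff (n d : ℕ) :
    ContDiff ℝ ∞ (fun p : ℝ × Mat n × V n => act n d p.1 p.2.1.mx p.2.2) := by
  have h0 : ContDiff ℝ ∞ (fun p : ℝ × Mat n × V n => (p.1 : ℂ)) :=
    Complex.ofRealCLM.contDiff.comp contDiff_fst
  refine ContDiff.prodMk ?_ (contDiff_pi.2 fun i => ?_)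
  · exact (((contDiff_const.mul h0).mul contDiff_const).cexp).mul contDiff_snd.snd.fst
  · refine (((contDiff_const.mul h0).mul contDiff_const).cexp).mul (ContDiff.sum fun j _ => ?_)
    refine ContDiff.mul ?_ ((contDiff_apply ℝ ℂ j).comp contDiff_snd.snd.snd)
    exact Complex.ofRealCLM.contDiff.comp ((Mat.entry i j).contDiff.comp contDiff_snd.fst)

theorem chartA_hasDerivAt {n d : ℕ} {P : ℝ → ℝ} {Q : ℝ → Mat n} {c : ℝ → V n} {P' : ℝ}
    {B : Mat n} {c' : V n} {t : ℝ} (hP : HasDerivAt P P' t) (hQ : HasDerivAt Q (Q t * B) t)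
    (hc : HasDerivAt c c' t) :
    HasDerivAt (fun s => act n d (P s) (Q s).mx (c s))
      (act n d (P t) (Q t).mx (c' + P' • vX d (c t) + mv B.mx (c t))) t := by
  have h0 : HasDerivAt (fun s => (P s : ℂ)) (P' : ℂ) t := hP.ofReal_comp
  have h1 : HasDerivAt (fun s => (c s).1) c'.1 t :=
    (ContinuousLinearMap.fst ℝ ℂ (Fin n → ℂ)).hasFDerivAt.comp_hasDerivAt t hc
  have h2 : HasDerivAt (fun s => (c s).2) c'.2 t :=
    (ContinuousLinearMap.snd ℝ ℂ (Fin n → ℂ)).hasFDerivAt.comp_hasDerivAt t hc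
  have h3 : ∀ i j, HasDerivAt (fun s => (((Q s).mx i j : ℝ) : ℂ))
      ((((Q t * B).mx i j : ℝ)) : ℂ) t := fun i j =>
    ((Mat.entry i j).hasFDerivAt.comp_hasDerivAt t hQ).ofReal_comp
  refine HasDerivAt.prodMk ?_ (hasDerivAt_pi.2 fun i => ?_)
  · refine ((((h0.const_mul 2).mul_const Complex.I).cexp).mul h1).congr_deriv ?_
    simp only [vX, mv, Prod.fst_add, Prod.smul_fst, Complex.real_smul]
    ring
  · refine ((((h0.const_mul (d : ℂ)).mul_const Complex.I).cexp).mul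
      (HasDerivAt.fun_sum (u := Finset.univ) fun j _ =>
        (h3 i j).mul (hasDerivAt_pi.1 h2 j))).congr_deriv ?_
    have e : ∑ j, (((Q t * B).mx i j : ℝ) : ℂ) * (c t).2 j =
        ∑ j, (((Q t).mx i j : ℝ) : ℂ) * ∑ l, ((B.mx j l : ℝ) : ℂ) * (c t).2 l := by
      simp only [Mat.mx_mul, Matrix.mul_apply, Complex.ofReal_sum, Complex.ofReal_mul,
        Finset.sum_mul, Finset.mul_sum, mul_assoc]
      exact Finset.sum_comm
    have e2 : ∑ j, (((Q t).mx i j : ℝ) : ℂ) * ((P' : ℂ) * (d * Complex.I * (c t).2 j)) =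
        (d : ℂ) * P' * Complex.I * ∑ j, (((Q t).mx i j : ℝ) : ℂ) * (c t).2 j := by
      rw [Finset.mul_sum]
      exact Finset.sum_congr rfl fun j _ => by ring
    simp only [vX, mv, Prod.snd_add, Prod.smul_snd, Pi.add_apply, Pi.smul_apply,
      Complex.real_smul, Pi.mul_apply, mul_add, Finset.sum_add_distrib, e, e2]
    ring

variable {m d : ℕ} [NeZero m] {g : V (m + 2) → V (m + 2) →L[ℝ] V (m + 2) →L[ℝ] ℝ}

/-- the chart `x ↦ k(x) c(t0 + x_T)` and its Maurer-Cartan form -/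
theorem chart_exists (hd : 1 ≤ d) (hI : Invariant (m + 2) d g) {c : ℝ → V (m + 2)} {t0 : ℝ}
    (hc : ContDiffAt ℝ ∞ c t0) (hW : ∀ᶠ t in 𝓝 t0, c t ∈ W (m + 2) d) :
    ∃ (Φ : M m → V (m + 2)) (η : M m → M m →L[ℝ] Lie (m + 2)),
      ContDiffAt ℝ ∞ Φ 0 ∧ (∀ᶠ x in 𝓝 (0 : M m), Φ x ∈ W (m + 2) d) ∧ ContDiffAt ℝ 2 η 0 ∧
      (∀ u, η 0 u = Jm u) ∧
      (pull g Φ =ᶠ[𝓝 0] fun x => (Bh d g c (t0 + x.1)).bilinearComp (η x) (η x)) ∧
      (∀ᶠ x in 𝓝 (0 : M m), ∀ u v,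
        fderiv ℝ η x u v - fderiv ℝ η x v u = -brL (m + 2) (η x u) (η x v)) ∧
      ∀ u v, fderiv ℝ η 0 u v = (-(1 / 2) : ℝ) • brL (m + 2) (η 0 u) (η 0 v) := by
  let S : M m →L[ℝ] Mat (m + 2) := LinearMap.toContinuousLinearMap
    { toFun := fun u => Mat.mk (Sm u)
      map_add' := fun u v => Mat.ext (Sm_add u v)
      map_smul' := fun r u => Mat.ext (Sm_smul r u) }
  obtain ⟨R, η0, hR, hη, hR0, hη0, hev, hMC, hD0⟩ := cayley S (fun u => Sm_skew u)
  let A : M m →L[ℝ] Lie (m + 2) := (ContinuousLinearMap.fst ℝ _ _).prod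
    (((ContinuousLinearMap.fst ℝ _ _).comp (ContinuousLinearMap.snd ℝ _ _)).prod 0)
  let L : (M m →L[ℝ] Mat (m + 2)) →L[ℝ] (M m →L[ℝ] Lie (m + 2)) :=
    ContinuousLinearMap.compL ℝ (M m) (Mat (m + 2)) (Lie (m + 2))
      ((ContinuousLinearMap.inr ℝ ℝ (ℝ × Mat (m + 2))).comp
        (ContinuousLinearMap.inr ℝ ℝ (Mat (m + 2))))
  have hL : ∀ (T : M m →L[ℝ] Mat (m + 2)) (u : M m), L T u = (0, 0, T u) := fun _ _ => rfl
  have hηu : ∀ x u, (A + L (η0 x)) u = (u.1, u.2.1, η0 x u) := fun x u => by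
    rw [_root_.add_apply, hL]
    simp [A]
  have hD : ∀ x, DifferentiableAt ℝ η0 x → ∀ u v,
      fderiv ℝ (fun x => A + L (η0 x)) x u v = (0, 0, fderiv ℝ η0 x u v) := fun x hx u v => by
    have h1 : HasFDerivAt (fun x => A + L (η0 x)) (L.comp (fderiv ℝ η0 x)) x :=
      (L.hasFDerivAt.comp x hx.hasFDerivAt).const_add A
    rw [h1.fderiv]
    rfl
  have hT : Tendsto (fun x : M m => t0 + x.1) (𝓝 0) (𝓝 t0) :=
    (continuous_const.add continuous_fst).tendsto' _ _ (by simp)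
  have hc0 : ContDiffAt ℝ ∞ (fun x : M m => c (t0 + x.1)) 0 :=
    ContDiffAt.comp (g := c) (f := fun x : M m => t0 + x.1) 0 (by simpa using hc)
      (contDiffAt_const.add contDiffAt_fst)
  have hΦ : ContDiffAt ℝ ∞ (fun x : M m => act (m + 2) d x.2.1 (R x).mx (c (t0 + x.1))) 0 :=
    (chartA_contDiff (m + 2) d).contDiffAt.comp 0
      (contDiffAt_snd.fst.prodMk (hR.prodMk hc0))
  have hΦd : ∀ᶠ x in 𝓝 (0 : M m), DifferentiableAt ℝ
      (fun x : M m => act (m + 2) d x.2.1 (R x).mx (c (t0 + x.1))) x :=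
    ((hΦ.of_le (m := 1) (by norm_cast)).eventually (by simp)).mono fun x hx =>
      hx.differentiableAt one_ne_zero
  have hηd : ∀ᶠ x in 𝓝 (0 : M m), DifferentiableAt ℝ η0 x :=
    ((hη.of_le (m := 1) (by norm_cast)).eventually (by simp)).mono fun x hx =>
      hx.differentiableAt one_ne_zero
  have hcd : ∀ᶠ t in 𝓝 t0, DifferentiableAt ℝ c t :=
    ((hc.of_le (m := 1) (by norm_cast)).eventually (by simp)).mono fun x hx =>
      hx.differentiableAt one_ne_zero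
  refine ⟨fun x => act (m + 2) d x.2.1 (R x).mx (c (t0 + x.1)), fun x => A + L (η0 x), hΦ,
    ?_, ?_, fun u => ?_, ?_, ?_, fun u v => ?_⟩
  · filter_upwards [hT.eventually hW, hev] with x h1 h2
    exact act_mem_W _ h2.2.1 h1
  · exact contDiffAt_const.add (L.contDiff.contDiffAt.comp 0 (hη.of_le (by norm_cast)))
  · rw [hηu, hη0]
    rfl
  · filter_upwards [hT.eventually hW.eventually_nhds, hT.eventually hcd, hev, hΦd]
      with x h1 h2 h3 h4
    have hf : ∀ u : M m,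
        fderiv ℝ (fun x : M m => act (m + 2) d x.2.1 (R x).mx (c (t0 + x.1))) x u =
          act (m + 2) d x.2.1 (R x).mx
            (evL d (c (t0 + x.1)) (deriv c (t0 + x.1)) ((A + L (η0 x)) u)) := fun u => by
      have hl : HasDerivAt (fun s : ℝ => x + s • u) u 0 := by
        simpa using ((hasDerivAt_id (0 : ℝ)).smul_const u).const_add x
      have e0 : x + (0 : ℝ) • u = x := by simp
      have k1 := h4.hasFDerivAt.comp_hasDerivAt_of_eq 0 hl e0.symm
      have k2 : HasDerivAt (fun s : ℝ => (x + s • u).2.1) u.2.1 0 := by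
        simpa using ((hasDerivAt_id (0 : ℝ)).mul_const u.2.1).const_add x.2.1
      have k3 : HasDerivAt (fun s : ℝ => R (x + s • u)) (R (x + (0 : ℝ) • u) * η0 x u) 0 := by
        rw [e0, ← (h3.2.2 u).1]
        exact h3.1.hasFDerivAt.comp_hasDerivAt_of_eq 0 hl e0.symm
      have k4 : HasDerivAt (fun s : ℝ => t0 + (x + s • u).1) u.1 0 := by
        simpa using (((hasDerivAt_id (0 : ℝ)).mul_const u.1).const_add x.1).const_add t0
      have k5 : HasDerivAt (fun s : ℝ => c (t0 + (x + s • u).1))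
          (u.1 • deriv c (t0 + x.1)) 0 :=
        h2.hasDerivAt.scomp_of_eq 0 k4 (by rw [e0])
      have k6 := chartA_hasDerivAt (d := d) k2 k3 k5
      rw [k1.unique k6, hηu, evL_apply, e0]
    have ht : ∀ u : M m, evL d (c (t0 + x.1)) (deriv c (t0 + x.1)) ((A + L (η0 x)) u) ∈
        Tan (m + 2) d (c (t0 + x.1)) := fun u => by
      rw [hηu, evL_apply]
      exact add_mem_Tan (add_mem_Tan (smul_mem_Tan _ (tan_of_curve h2.hasDerivAt h1))
        (smul_mem_Tan _ (vX_mem_Tan hd h1.self_of_nhds))) (mv_mem_Tan (h3.2.2 u).2 _)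
    refine ContinuousLinearMap.ext fun u => ContinuousLinearMap.ext fun v => ?_
    rw [pull, ContinuousLinearMap.bilinearComp_apply, ContinuousLinearMap.bilinearComp_apply,
      Bh_apply, hf, hf]
    exact hI _ _ h3.2.1 _ h1.self_of_nhds _ (ht u) _ (ht v)
  · filter_upwards [hηd, hMC] with x h1 h2 u v
    rw [hD x h1, hD x h1, brL_apply, hηu, hηu, Prod.mk_sub_mk, Prod.mk_sub_mk, h2]
    simp
  · rw [hD 0 hηd.self_of_nhds, brL_apply, hηu, hηu, hD0, hη0]
    simp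

end Pool.Agent.Anco
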