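import Pool.Agent.Lib.MP_66983d_gt.Act1

/-!
Square matrices as a Banach algebra (a type synonym, so that the topology comes from the norm),
and the objects used in the chart computation.
-/

set_option maxSynthPendingDepth 3

namespace Pool.Agent.Anco

open scoped ContDiff Topology
open Filter Set Matrix

/-- real square matrices with the operator norm -/
@[instance_reducible] def Mat (n : ℕ) : Type := Matrix (Fin n) (Fin n) ℝ

namespace Mat

variable {n : ℕ}

noncomputable instance : NormedRing (Mat n) := Matrix.linftyOpNormedRing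
noncomputable instance : NormedAlgebra ℝ (Mat n) := Matrix.linftyOpNormedAlgebra
instance : FiniteDimensional ℝ (Mat n) :=
  inferInstanceAs (FiniteDimensional ℝ (Matrix (Fin n) (Fin n) ℝ))
instance : CompleteSpace (Mat n) := FiniteDimensional.complete ℝ _

/-- the underlying matrix -/
def mx (A : Mat n) : Matrix (Fin n) (Fin n) ℝ := A

/-- a matrix as an element of the Banach algebra -/
def mk (A : Matrix (Fin n) (Fin n) ℝ) : Mat n := A

@[simp] theorem mx_mk (A : Matrix (Fin n) (Fin n) ℝ) : (mk A).mx = A := rfl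
@[simp] theorem mk_mx (A : Mat n) : mk A.mx = A := rfl
theorem ext {A B : Mat n} (h : A.mx = B.mx) : A = B := h
@[simp] theorem mx_mul (A B : Mat n) : (A * B).mx = A.mx * B.mx := rfl
@[simp] theorem mx_add (A B : Mat n) : (A + B).mx = A.mx + B.mx := rfl
@[simp] theorem mx_sub (A B : Mat n) : (A - B).mx = A.mx - B.mx := rfl
@[simp] theorem mx_neg (A : Mat n) : (-A).mx = -A.mx := rfl
@[simp] theorem mx_one : (1 : Mat n).mx = 1 := rfl
@[simp] theorem mx_zero : (0 : Mat n).mx = 0 := rfl
@[simp] theorem mx_smul (r : ℝ) (A : Mat n) : (r • A).mx = r • A.mx := rfl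

/-- an entry as a continuous linear map -/
noncomputable def entry (i j : Fin n) : Mat n →L[ℝ] ℝ :=
  LinearMap.toContinuousLinearMap
    { toFun := fun A => A.mx i j, map_add' := fun _ _ => rfl, map_smul' := fun _ _ => rfl }

@[simp] theorem entry_apply (i j : Fin n) (A : Mat n) : entry i j A = A.mx i j := rfl

end Mat

/-- coordinates: `T`, the circle direction, a matrix -/
abbrev Lie (n : ℕ) : Type := ℝ × ℝ × Mat n

variable {n : ℕ}

/-- the bracket -/
noncomputable def brL (n : ℕ) : Lie n →L[ℝ] Lie n →L[ℝ] Lie n :=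
  (ContinuousLinearMap.compL ℝ (Lie n) (Mat n) (Lie n)
    ((ContinuousLinearMap.inr ℝ ℝ (ℝ × Mat n)).comp (ContinuousLinearMap.inr ℝ ℝ (Mat n)))).comp
   ((ContinuousLinearMap.mul ℝ (Mat n) - (ContinuousLinearMap.mul ℝ (Mat n)).flip).bilinearComp
     ((ContinuousLinearMap.snd ℝ ℝ (Mat n)).comp (ContinuousLinearMap.snd ℝ ℝ (ℝ × Mat n)))
     ((ContinuousLinearMap.snd ℝ ℝ (Mat n)).comp (ContinuousLinearMap.snd ℝ ℝ (ℝ × Mat n))))

@[simp] theorem brL_apply (a b : Lie n) :
    brL n a b = (0, 0, a.2.2 * b.2.2 - b.2.2 * a.2.2) := rfl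

theorem mv_add (A B : Matrix (Fin n) (Fin n) ℝ) (z : V n) : mv (A + B) z = mv A z + mv B z := by
  refine Prod.ext (by simp [mv]) (funext fun i => ?_)
  simp [mv, add_mul, Finset.sum_add_distrib]

theorem mv_smul (r : ℝ) (A : Matrix (Fin n) (Fin n) ℝ) (z : V n) : mv (r • A) z = r • mv A z := by
  refine Prod.ext (by simp [mv]) (funext fun i => ?_)
  simp [mv, Finset.mul_sum, mul_assoc]

/-- evaluation of an element of `Lie n` at the point `z` with normal velocity `v` -/
noncomputable def evL (d : ℕ) (z v : V n) : Lie n →L[ℝ] V n :=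
  LinearMap.toContinuousLinearMap
    { toFun := fun a => a.1 • v + a.2.1 • vX d z + mv a.2.2.mx z
      map_add' := fun a b => by
        simp only [Prod.fst_add, Prod.snd_add, Mat.mx_add, mv_add, add_smul]; abel
      map_smul' := fun r a => by
        simp only [Prod.smul_fst, Prod.smul_snd, Mat.mx_smul, mv_smul, smul_eq_mul, mul_smul,
          RingHom.id_apply, smul_add] }

@[simp] theorem evL_apply (d : ℕ) (z v : V n) (a : Lie n) :
    evL d z v a = a.1 • v + a.2.1 • vX d z + mv a.2.2.mx z := rfl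

/-- the metric along the curve `c`, as a degenerate form on `Lie n` -/
noncomputable def Bh (d : ℕ) (g : V n → V n →L[ℝ] V n →L[ℝ] ℝ) (c : ℝ → V n) (t : ℝ) :
    Lie n →L[ℝ] Lie n →L[ℝ] ℝ :=
  (g (c t)).bilinearComp (evL d (c t) (deriv c t)) (evL d (c t) (deriv c t))

theorem Bh_apply (d : ℕ) (g : V n → V n →L[ℝ] V n →L[ℝ] ℝ) (c : ℝ → V n) (t : ℝ) (a b : Lie n) :
    Bh d g c t a b = g (c t) (evL d (c t) (deriv c t) a) (evL d (c t) (deriv c t) b) := rfl

/-- the inclusion of the model space -/
def Jm {m : ℕ} (u : M m) : Lie (m + 2) := (u.1, u.2.1, Mat.mk (Sm u))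

end Pool.Agent.Anco
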