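import Pool.Agent.Lib.MP_66983d_gt.Gram
import Pool.Agent.Lib.MP_66983d_gt.Mat
import Pool.Agent.Lib.MP_66983d_gt.Brk

set_option maxSynthPendingDepth 3

namespace Pool.Agent.Anco

open scoped ContDiff Topology
open Filter Set Matrix

variable {m d : ℕ} [NeZero m] {g : V (m + 2) → V (m + 2) →L[ℝ] V (m + 2) →L[ℝ] ℝ}

theorem contDiff_co (hg : IsMetric (m + 2) d g) :
    ContDiff ℝ ∞ (cXX d g) ∧ ContDiff ℝ ∞ (cXY d g) ∧ ContDiff ℝ ∞ (cYY g) ∧
    ContDiff ℝ ∞ (cAA g) ∧ ContDiff ℝ ∞ (cAB g) ∧ ContDiff ℝ ∞ (cBB g) := by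
  have hc : ∀ i : Fin (m + 2), ContDiff ℝ ∞ (fun z : V (m + 2) => z.2 i) := fun i =>
    (contDiff_apply ℝ ℂ i).comp contDiff_snd
  refine ⟨(hg.1.clm_apply contDiff_vX).clm_apply contDiff_vX,
    (hg.1.clm_apply contDiff_vX).clm_apply contDiff_vY,
    (hg.1.clm_apply contDiff_vY).clm_apply contDiff_vY, ?_, ?_, ?_⟩
  · exact (contDiff_beta hg).comp (contDiff_id.prodMk ((hc 0).prodMk (hc 0)))
  · exact (contDiff_beta hg).comp (contDiff_id.prodMk ((hc 0).prodMk (hc 1)))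
  · exact (contDiff_beta hg).comp (contDiff_id.prodMk ((hc 1).prodMk (hc 1)))

/-- positivity of the Gram blocks at a principal point -/
theorem co_pos (hd : 1 ≤ d) (hg : IsMetric (m + 2) d g) {z : V (m + 2)} (hz : z ∈ W (m + 2) d)
    (hp : IsPl z) (h0 : z.1 ≠ 0) (h1 : ((starRingEnd ℂ) (z.2 0) * z.2 1).im ≠ 0) :
    0 < cXX d g z ∧ cXY d g z ^ 2 < cYY g z * cXX d g z ∧
    0 < cBB g z ∧ cAB g z ^ 2 < cAA g z * cBB g z := by
  have hz1 : z.2 1 ≠ 0 := fun e => h1 (by rw [e, mul_zero, Complex.zero_im])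
  have hX0 : (vX d z).1 ≠ 0 := mul_ne_zero (mul_ne_zero two_ne_zero Complex.I_ne_zero) h0
  have hXX : 0 < cXX d g z :=
    hg.2.2 z hz _ (vX_mem_Tan hd hz) fun e => hX0 (by rw [e, Prod.fst_zero])
  have hBB : 0 < cBB g z := beta_pos hg hz hp hz1
  refine ⟨hXX, ?_, hBB, ?_⟩
  · have h := hg.2.2 z hz ((-cXY d g z) • vX d z + cXX d g z • vY z)
      (add_mem_Tan (smul_mem_Tan _ (vX_mem_Tan hd hz)) (smul_mem_Tan _ (vY_mem_Tan z))) fun e => by
        have e1 : (-cXY d g z) • (vX d z).1 + cXX d g z • (0 : ℂ) = 0 := congrArg Prod.fst e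
        rw [smul_zero, add_zero, smul_eq_zero] at e1
        rw [e1.resolve_right hX0, zero_smul, zero_add, smul_eq_zero] at e
        exact hz1 (congrArg (fun v : V (m + 2) => v.2 0) (e.resolve_left hXX.ne'))
    simp only [map_add, map_smul, _root_.add_apply, _root_.smul_apply,
      smul_eq_mul, hg.2.1 z (vY z) (vX d z)] at h
    change 0 < -cXY d g z * (-cXY d g z * cXX d g z + cXX d g z * cXY d g z) +
      cXX d g z * (-cXY d g z * cXY d g z + cXX d g z * cYY g z) at h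
    by_contra hn
    nlinarith [mul_le_mul_of_nonneg_left (not_lt.1 hn) hXX.le]
  · have h := beta_pos hg hz hp (a := (cBB g z : ℂ) * z.2 0 + ((-cAB g z : ℝ) : ℂ) * z.2 1)
      fun e => by
        have e1 := congrArg (fun a : ℂ => ((starRingEnd ℂ) a * z.2 1).im) e
        have e2 : cBB g z * ((starRingEnd ℂ) (z.2 0) * z.2 1).im = 0 := by
          simp at e1 ⊢
          rw [← mul_eq_zero]
          linear_combination e1
        exact mul_ne_zero hBB.ne' h1 e2
    simp only [beta_add_left, beta_add_right, beta_smul_left, beta_smul_right,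
      beta_symm hg z (z.2 1) (z.2 0)] at h
    change 0 < cBB g z * (cBB g z * cAA g z + -cAB g z * cAB g z) +
      -cAB g z * (cBB g z * cAB g z + -cAB g z * cBB g z) at h
    by_contra hn
    nlinarith [mul_le_mul_of_nonneg_left (not_lt.1 hn) hBB.le]

theorem copos_mv {n : ℕ} (A : Matrix (Fin n) (Fin n) ℝ) : ContDiff ℝ ∞ (mv A : V n → V n) :=
  contDiff_const.prodMk (contDiff_pi.2 fun _ => ContDiff.sum fun j _ =>
    contDiff_const.mul ((contDiff_apply ℝ ℂ j).comp contDiff_snd))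

theorem copos_evL {n : ℕ} (a : Lie n) :
    ContDiff ℝ ∞ (fun p : V n × V n => evL d p.1 p.2 a) :=
  ((contDiff_snd.const_smul a.1).add ((contDiff_vX.comp contDiff_fst).const_smul a.2.1)).add
    ((copos_mv a.2.2.mx).comp contDiff_fst)

/-- the form `Bh` as a function of position and velocity -/
noncomputable def coposF {n : ℕ} (d : ℕ) (g : V n → V n →L[ℝ] V n →L[ℝ] ℝ) (p : V n × V n) :
    Lie n →L[ℝ] Lie n →L[ℝ] ℝ :=
  (g p.1).bilinearComp (evL d p.1 p.2) (evL d p.1 p.2)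

omit [NeZero m] in
theorem copos_F (hg : IsMetric (m + 2) d g) : ContDiff ℝ ∞ (coposF d g) := by
  refine contDiff_clm_apply_iff.2 fun a => contDiff_clm_apply_iff.2 fun b => ?_
  have h := ((hg.1.comp contDiff_fst).clm_apply (copos_evL (d := d) a)).clm_apply
    (copos_evL (d := d) b)
  refine (congrArg (ContDiff ℝ ∞) (funext fun p => ?_)).mp h
  simp only [coposF, ContinuousLinearMap.bilinearComp_apply, Function.comp_apply]

theorem contDiffAt_Bh (hg : IsMetric (m + 2) d g) {c : ℝ → V (m + 2)} {t0 : ℝ}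
    (hc : ContDiffAt ℝ ∞ c t0) : ContDiffAt ℝ 2 (Bh d g c) t0 := by
  have h2 : (2 : WithTop ℕ∞) ≤ ∞ := WithTop.coe_le_coe.2 (le_top : (2 : ℕ∞) ≤ ⊤)
  have h3 : (2 : WithTop ℕ∞) + 1 ≤ ∞ := WithTop.coe_le_coe.2 (le_top : (2 : ℕ∞) + 1 ≤ ⊤)
  have hp : ContDiffAt ℝ 2 (fun t => (c t, deriv c t)) t0 :=
    (hc.of_le h2).prodMk (hc.derivWithin h3)
  have e : Bh d g c = coposF d g ∘ fun t => (c t, deriv c t) := by
    funext t
    simp only [Bh, coposF, Function.comp_apply]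
  rw [e]
  exact ContDiffAt.comp t0 ((copos_F hg).of_le h2).contDiffAt hp

/-- along a normal curve the metric has the model form -/
theorem Bh_model (hm : 3 ≤ m) (hd : 1 ≤ d) (hg : IsMetric (m + 2) d g)
    (hI : Invariant (m + 2) d g) {c : ℝ → V (m + 2)} {t0 : ℝ} (hc : NCat d g c t0) :
    ∀ᶠ t in 𝓝 t0, ∀ a b : M m, Bh d g c t (Jm a) (Jm b) = bf (co0 d g (c t)) a b := by
  have h1 : (1 : WithTop ℕ∞) ≤ ∞ := by exact_mod_cast le_top
  filter_upwards [hc.mem.eventually_nhds, hc.unit,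
    (hc.smooth.of_le h1).eventually (by simp)] with t hmem hun hsm a b
  obtain ⟨hz, hp⟩ := hmem.self_of_nhds
  obtain ⟨u1, u2, u3⟩ := hun
  have hder : HasDerivAt c (deriv c t) t := (hsm.differentiableAt one_ne_zero).hasDerivAt
  have hT : deriv c t ∈ Tan (m + 2) d (c t) := tan_of_curve hder (hmem.mono fun _ h => h.1)
  have hP : IsPl (deriv c t) := fun i => by
    have e1 : HasDerivAt (fun s => (c s).2 i.succ.succ) ((deriv c t).2 i.succ.succ) t :=
      hasDerivAt_pi.1 hder.snd i.succ.succ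
    have e2 : (fun s => (c s).2 i.succ.succ) =ᶠ[𝓝 t] fun _ => 0 := hmem.mono fun _ h => h.2 i
    exact e1.unique ((hasDerivAt_const t (0 : ℂ)).congr_of_eventuallyEq e2)
  rw [Bh_apply]
  generalize deriv c t = v at u1 u2 u3 hT hP
  generalize c t = z at u1 u2 u3 hT hP hz hp
  have hXP : IsPl (vX d z) := fun i => by
    change (d : ℂ) * Complex.I * z.2 i.succ.succ = 0
    rw [hp i, mul_zero]
  have o1 := gram_pl_io hm hI hz hp hT hP
  have o2 := gram_pl_io hm hI hz hp (vX_mem_Tan hd hz) hXP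
  have o3 := gram_pl_io hm hI hz hp (vY_mem_Tan z) (isPl_pl _ _ _)
  have s1 : ∀ w, g z (io w) v = 0 := fun w => by rw [hg.2.1, o1]
  have s2 : ∀ w, g z (io w) (vX d z) = 0 := fun w => by rw [hg.2.1, o2]
  have s3 : ∀ w, g z (io w) (vY z) = 0 := fun w => by rw [hg.2.1, o3]
  have e : ∀ u : M m, evL d z v (Jm u) = u.1 • v + u.2.1 • vX d z + (u.2.2.1 • vY z -
      io (fun i => (u.2.2.2.1 i : ℂ) * z.2 0 + (u.2.2.2.2 i : ℂ) * z.2 1)) := fun u => by
    rw [← mv_Sm u hp]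
    rfl
  rw [e, e]
  simp only [map_add, map_sub, map_smul, _root_.add_apply,
    _root_.sub_apply, _root_.smul_apply, smul_eq_mul, o1, o2, o3, s1, s2,
    s3, u1, u2, u3, hg.2.1 z (vX d z) v, hg.2.1 z (vY z) v, hg.2.1 z (vY z) (vX d z),
    gram_io_io hm hI hz hp, beta_add_left, beta_add_right, beta_smul_left, beta_smul_right,
    beta_symm hg z (z.2 1) (z.2 0), bf, co0, cXX, cXY, cYY, cAA, cAB, cBB, dotProduct,
    Finset.sum_add_distrib, Finset.mul_sum, mul_add]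
  simp only [mul_comm, mul_left_comm, mul_assoc]
  ring

end Pool.Agent.Anco
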