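import Pool.Agent.Lib.MP_66983d_gt.Low

set_option maxSynthPendingDepth 3

namespace Pool.Agent.Anco

open scoped ContDiff Topology
open Filter Set Matrix

section aux

variable {E L A F : Type} [NormedAddCommGroup E] [NormedSpace ℝ E]
  [NormedAddCommGroup L] [NormedSpace ℝ L] [NormedAddCommGroup A] [NormedSpace ℝ A]
  [NormedAddCommGroup F] [NormedSpace ℝ F]

/-- `f` is differentiable at `x` with value `a` and derivative `d` in direction `u`. -/
def FrameHD (x u : E) (f : E → F) (a d : F) : Prop :=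
  DifferentiableAt ℝ f x ∧ f x = a ∧ fderiv ℝ f x u = d

theorem frame_of {x : E} (u : E) {f : E → F} (h : DifferentiableAt ℝ f x) :
    FrameHD x u f (f x) (fderiv ℝ f x u) := ⟨h, rfl, rfl⟩

theorem frame_const (x u : E) (a : F) : FrameHD x u (fun _ => a) a 0 :=
  ⟨differentiableAt_const a, rfl, by simp⟩

theorem FrameHD.app {x u : E} {c : E → A →L[ℝ] F} {a : E → A} {c0 c1 : A →L[ℝ] F} {a0 a1 : A}
    (hc : FrameHD x u c c0 c1) (h : FrameHD x u a a0 a1) :
    FrameHD x u (fun y => c y (a y)) (c0 a0) (c1 a0 + c0 a1) := by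
  obtain ⟨h1, rfl, rfl⟩ := hc
  obtain ⟨h2, rfl, rfl⟩ := h
  refine ⟨h1.clm_apply h2, rfl, ?_⟩
  rw [fderiv_clm_apply h1 h2]
  simp [add_comm]

theorem FrameHD.appc {x u : E} {c : E → A →L[ℝ] F} {c0 c1 : A →L[ℝ] F}
    (hc : FrameHD x u c c0 c1) (a : A) : FrameHD x u (fun y => c y a) (c0 a) (c1 a) := by
  simpa using hc.app (frame_const x u a)

theorem FrameHD.add {x u : E} {f g : E → F} {a d b e : F} (hf : FrameHD x u f a d)
    (hg : FrameHD x u g b e) : FrameHD x u (fun y => f y + g y) (a + b) (d + e) := by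
  obtain ⟨h1, rfl, rfl⟩ := hf
  obtain ⟨h2, rfl, rfl⟩ := hg
  exact ⟨h1.add h2, rfl, by rw [fderiv_fun_add h1 h2]; rfl⟩

theorem FrameHD.sub {x u : E} {f g : E → F} {a d b e : F} (hf : FrameHD x u f a d)
    (hg : FrameHD x u g b e) : FrameHD x u (fun y => f y - g y) (a - b) (d - e) := by
  obtain ⟨h1, rfl, rfl⟩ := hf
  obtain ⟨h2, rfl, rfl⟩ := hg
  exact ⟨h1.sub h2, rfl, by rw [fderiv_fun_sub h1 h2]; rfl⟩

theorem FrameHD.cmul {x u : E} {f : E → ℝ} {a d : ℝ} (hf : FrameHD x u f a d) (p : ℝ) :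
    FrameHD x u (fun y => p * f y) (p * a) (p * d) := by
  obtain ⟨h1, rfl, rfl⟩ := hf
  exact ⟨h1.const_mul p, rfl, by rw [fderiv_const_mul h1]; rfl⟩

theorem FrameHD.congr {x u : E} {f g : E → F} {a d : F} (hf : FrameHD x u f a d)
    (h : g =ᶠ[𝓝 x] f) : FrameHD x u g a d :=
  ⟨hf.1.congr_of_eventuallyEq h, h.self_of_nhds.trans hf.2.1, by rw [h.fderiv_eq]; exact hf.2.2⟩

theorem FrameHD.brk {x u : E} (br : L →L[ℝ] L →L[ℝ] L) {a b : E → L} {a0 a1 b0 b1 : L}
    (ha : FrameHD x u a a0 a1) (hb : FrameHD x u b b0 b1) :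
    FrameHD x u (fun y => br (a y) (b y)) (br a0 b0) (br a1 b0 + br a0 b1) := by
  simpa using ((frame_const x u br).app ha).app hb

theorem frame_time {x : E} (u : E) (τ : E →L[ℝ] ℝ) (t0 : ℝ) {B : ℝ → F}
    (hB : DifferentiableAt ℝ B (t0 + τ x)) :
    FrameHD x u (fun y => B (t0 + τ y)) (B (t0 + τ x)) (τ u • deriv B (t0 + τ x)) := by
  have h1 : HasFDerivAt (fun y => t0 + τ y) τ x := τ.hasFDerivAt.const_add t0
  have h2 := hB.hasDerivAt.hasFDerivAt.comp x h1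
  refine ⟨h2.differentiableAt, rfl, ?_⟩
  have h3 := h2.fderiv
  rw [Function.comp_def] at h3
  rw [h3]
  simp

/-- The Koszul expression on the space `L`. -/
noncomputable def frameK (br : L →L[ℝ] L →L[ℝ] L) (B B' : L →L[ℝ] L →L[ℝ] ℝ) (p q r : ℝ)
    (a b c : L) : ℝ :=
  (1 / 2) * (p * B' b c + q * B' a c - r * B' a b + B (br a b) c - B b (br a c) - B a (br b c))

theorem frame_HK {x u : E} (br : L →L[ℝ] L →L[ℝ] L) {B B' : E → L →L[ℝ] L →L[ℝ] ℝ}
    {B0 B1 B0' B1' : L →L[ℝ] L →L[ℝ] ℝ} (hB : FrameHD x u B B0 B1) (hB' : FrameHD x u B' B0' B1')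
    (p q r : ℝ) {a b c : E → L} {a0 a1 b0 b1 c0 c1 : L} (ha : FrameHD x u a a0 a1)
    (hb : FrameHD x u b b0 b1) (hc : FrameHD x u c c0 c1) :
    FrameHD x u (fun y => frameK br (B y) (B' y) p q r (a y) (b y) (c y))
      (frameK br B0 B0' p q r a0 b0 c0)
      (frameK br B1 B1' p q r a0 b0 c0 + frameK br B0 B0' 0 q r a1 b0 c0 +
        frameK br B0 B0' p 0 r a0 b1 c0 + frameK br B0 B0' p q 0 a0 b0 c1) := by
  have h := ((((((((hB'.app hb).app hc).cmul p).add (((hB'.app ha).app hc).cmul q)).sub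
    (((hB'.app ha).app hb).cmul r)).add ((hB.app (ha.brk br hb)).app hc)).sub
    ((hB.app hb).app (ha.brk br hc))).sub ((hB.app ha).app (hb.brk br hc))).cmul (1 / 2)
  refine ⟨h.1, h.2.1, h.2.2.trans ?_⟩
  simp only [frameK, map_add, _root_.add_apply]
  ring

theorem frame_low {G : E → E →L[ℝ] E →L[ℝ] ℝ} {Bh : ℝ → L →L[ℝ] L →L[ℝ] ℝ}
    {η : E → E →L[ℝ] L} {br : L →L[ℝ] L →L[ℝ] L} {τ : E →L[ℝ] ℝ} {t0 : ℝ} {x : E}
    (hGd : DifferentiableAt ℝ G x) (hB : DifferentiableAt ℝ Bh (t0 + τ x))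
    (hsymm : ∀ t a b, Bh t a b = Bh t b a) (hη : DifferentiableAt ℝ η x)
    (hG : G =ᶠ[𝓝 x] fun x => (Bh (t0 + τ x)).bilinearComp (η x) (η x))
    (hMC : ∀ u v, fderiv ℝ η x u v - fderiv ℝ η x v u = -br (η x u) (η x v)) (v w z : E) :
    lowChr G x v w z = Bh (t0 + τ x) (fderiv ℝ η x v w) (η x z) +
      frameK br (Bh (t0 + τ x)) (deriv Bh (t0 + τ x)) (τ v) (τ w) (τ z)
        (η x v) (η x w) (η x z) := by
  have h1 : ∀ u a b, fderiv ℝ (fun y => G y a b) x u =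
      τ u * deriv Bh (t0 + τ x) (η x a) (η x b) + Bh (t0 + τ x) (fderiv ℝ η x u a) (η x b) +
        Bh (t0 + τ x) (η x a) (fderiv ℝ η x u b) := by
    intro u a b
    have h := (((frame_time u τ t0 hB).app ((frame_of u hη).appc a)).app
      ((frame_of u hη).appc b)).congr (g := fun y => G y a b)
      (hG.mono fun y hy => by simp only [hy]; rfl)
    rw [h.2.2]
    simp
  have h2 : ∀ u a b, fderiv ℝ G x u a b = fderiv ℝ (fun y => G y a b) x u := fun u a b =>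
    (((frame_of u hGd).appc a).appc b).2.2.symm
  have h3 : ∀ a b, fderiv ℝ η x b a = fderiv ℝ η x a b + br (η x a) (η x b) := fun a b => by
    have := hMC a b
    rw [sub_eq_iff_eq_add] at this
    rw [this]
    abel
  simp only [lowChr, _root_.smul_apply, _root_.sub_apply,
    _root_.add_apply, h2, h1, smul_eq_mul, frameK]
  rw [h3 v w, h3 v z, h3 w z]
  simp only [map_add, _root_.add_apply]
  rw [hsymm _ (fderiv ℝ η x v z) (η x w), hsymm _ (br (η x v) (η x z)) (η x w)]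
  ring

theorem frame_deriv2 {B : ℝ → F} {t : ℝ} (h : ContDiffAt ℝ 2 B t) :
    DifferentiableAt ℝ (deriv B) t := by
  have h1 : ContDiffAt ℝ 1 (fderiv ℝ B) t := h.fderiv_right (m := 1) (by norm_num)
  exact (h1.differentiableAt one_ne_zero).clm_apply (differentiableAt_const (1 : ℝ))

theorem frame_deriv_app {B : ℝ → L →L[ℝ] L →L[ℝ] ℝ} {t : ℝ} (h : DifferentiableAt ℝ B t)
    (a b : L) : deriv (fun t => B t a b) t = deriv B t a b := by
  have := ((h.hasDerivAt.clm_apply (hasDerivAt_const t a)).clm_apply (hasDerivAt_const t b)).deriv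
  simpa using this

end aux

theorem frame {E L : Type} [NormedAddCommGroup E] [NormedSpace ℝ E] [FiniteDimensional ℝ E]
    [NormedAddCommGroup L] [NormedSpace ℝ L]
    (G : E → E →L[ℝ] E →L[ℝ] ℝ) (Bh : ℝ → L →L[ℝ] L →L[ℝ] ℝ) (η : E → E →L[ℝ] L)
    (br : L →L[ℝ] L →L[ℝ] L) (τ : E →L[ℝ] ℝ) (t0 : ℝ)
    (hB : ContDiffAt ℝ 2 Bh t0) (hsymm : ∀ t a b, Bh t a b = Bh t b a)
    (hη : ContDiffAt ℝ 2 η 0)
    (hG : G =ᶠ[𝓝 0] fun x => (Bh (t0 + τ x)).bilinearComp (η x) (η x))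
    (hanti : ∀ a b, br a b = -br b a)
    (hMC : ∀ᶠ x in 𝓝 (0 : E), ∀ u v,
      fderiv ℝ η x u v - fderiv ℝ η x v u = -br (η x u) (η x v))
    (hD : ∀ u v, fderiv ℝ η 0 u v = (-(1 / 2) : ℝ) • br (η 0 u) (η 0 v))
    (brm : E → E → E) (hp : E → E → L) (ha : E → E → E → E)
    (hbr : ∀ u v, br (η 0 u) (η 0 v) = η 0 (brm u v) + hp u v)
    (hτ : ∀ u v, τ (brm u v) = 0)
    (hker : ∀ u v, ∀ᶠ t in 𝓝 t0, ∀ b, Bh t (hp u v) b = 0)
    (hact : ∀ u v w, br (hp u v) (η 0 w) = η 0 (ha u v w))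
    (B0 B1 B2 : E → E → ℝ)
    (hB0 : ∀ a b, B0 a b = Bh t0 (η 0 a) (η 0 b))
    (hB1 : ∀ a b, B1 a b = deriv (fun t => Bh t (η 0 a) (η 0 b)) t0)
    (hB2 : ∀ a b, B2 a b = deriv (deriv fun t => Bh t (η 0 a) (η 0 b)) t0)
    (hinv : ∀ u v w z, B0 (ha u v w) z + B0 w (ha u v z) = 0)
    (hpos : ∀ a, a ≠ 0 → 0 < B0 a a) :
    (∀ a b, G 0 a b = B0 a b) ∧
    ∃ Λ : E → E → E, (∀ a b c, B0 (Λ a b) c = kos τ B0 B1 brm a b c) ∧
      ∀ u v w z, Rm G 0 u v w z = RmF τ B0 B1 B2 brm ha Λ u v w z := by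
  have ht : t0 + τ 0 = t0 := by simp
  have hG0 : ∀ a b, G 0 a b = B0 a b := fun a b => by
    rw [hG.self_of_nhds, hB0]
    simp
  refine ⟨hG0, ?_⟩
  have hτc : ContDiffAt ℝ 2 (fun x : E => t0 + τ x) 0 :=
    contDiffAt_const.add τ.contDiff.contDiffAt
  have hBτ : ContDiffAt ℝ 2 (fun x : E => Bh (t0 + τ x)) 0 :=
    ContDiffAt.comp (g := Bh) 0 (by rw [ht]; exact hB) hτc
  have hG2 : ContDiffAt ℝ 2 G 0 := by
    refine ContDiffAt.congr_of_eventuallyEq ?_ hG
    exact (((ContinuousLinearMap.compL ℝ E L ℝ).flip.contDiff.contDiffAt.comp 0 hη).clm_comp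
      (hBτ.clm_comp hη)).congr_of_eventuallyEq (Eventually.of_forall fun x => by ext; simp)
  obtain ⟨hc, hR⟩ := Rm_lowered hG2 (hG.mono fun y hy u v => by
    rw [hy]; exact hsymm _ _ _) (fun a h => by rw [hG0]; exact hpos a h)
  have hBev : ∀ᶠ t in 𝓝 t0, DifferentiableAt ℝ Bh t :=
    (hB.eventually (by simp)).mono fun t h => h.differentiableAt (by norm_num)
  have hlow : ∀ᶠ x in 𝓝 (0 : E), ∀ v w z, lowChr G x v w z =
      Bh (t0 + τ x) (fderiv ℝ η x v w) (η x z) +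
      frameK br (Bh (t0 + τ x)) (deriv Bh (t0 + τ x)) (τ v) (τ w) (τ z)
        (η x v) (η x w) (η x z) := by
    have h1 : Tendsto (fun x : E => t0 + τ x) (𝓝 0) (𝓝 t0) := by
      have := hτc.continuousAt.tendsto
      rwa [ht] at this
    filter_upwards [hG2.eventually (by simp), h1.eventually hBev, hη.eventually (by simp),
      hG.eventuallyEq_nhds, hMC] with x a1 a2 a3 a4 a5
    exact frame_low (a1.differentiableAt (by norm_num)) a2 hsymm
      (a3.differentiableAt (by norm_num)) a4 a5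
  have hBd : DifferentiableAt ℝ Bh t0 := hBev.self_of_nhds
  have hBd2 := frame_deriv2 hB
  have hηd : DifferentiableAt ℝ η 0 := hη.differentiableAt (by norm_num)
  have hηd2 : DifferentiableAt ℝ (fderiv ℝ η) 0 :=
    (hη.fderiv_right (m := 1) (by norm_num)).differentiableAt one_ne_zero
  have hsym2 : ∀ u v, fderiv ℝ (fderiv ℝ η) 0 u v = fderiv ℝ (fderiv ℝ η) 0 v u :=
    hη.isSymmSndFDerivAt (by simp)
  obtain ⟨β, hβ⟩ : ∃ β, β = Bh t0 := ⟨_, rfl⟩
  obtain ⟨β1, hβ1⟩ : ∃ β1, β1 = deriv Bh t0 := ⟨_, rfl⟩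
  obtain ⟨β2, hβ2⟩ : ∃ β2, β2 = deriv (deriv Bh) t0 := ⟨_, rfl⟩
  obtain ⟨D, hDD⟩ : ∃ D, D = fderiv ℝ η 0 := ⟨_, rfl⟩
  obtain ⟨S, hS⟩ : ∃ S, S = fderiv ℝ (fderiv ℝ η) 0 := ⟨_, rfl⟩
  obtain ⟨J, hJ⟩ : ∃ J, J = η 0 := ⟨_, rfl⟩
  have hder : ∀ u v w z, fderiv ℝ (fun y => lowChr G y v w z) 0 u =
      τ u * β1 (D v w) (J z) + β (S u v w) (J z) + β (D v w) (D u z) +
      (τ u * frameK br β1 β2 (τ v) (τ w) (τ z) (J v) (J w) (J z) +
        frameK br β β1 0 (τ w) (τ z) (D u v) (J w) (J z) +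
        frameK br β β1 (τ v) 0 (τ z) (J v) (D u w) (J z) +
        frameK br β β1 (τ v) (τ w) 0 (J v) (J w) (D u z)) := by
    intro u v w z
    have b0 := frame_time (x := (0 : E)) u τ t0 (B := Bh) (by rw [ht]; exact hBd)
    have b1 := frame_time (x := (0 : E)) u τ t0 (B := deriv Bh) (by rw [ht]; exact hBd2)
    rw [ht] at b0 b1
    have e := frame_of u hηd
    have h := (((b0.app (((frame_of u hηd2).appc v).appc w)).app (e.appc z)).add
      (frame_HK br b0 b1 (τ v) (τ w) (τ z) (e.appc v) (e.appc w) (e.appc z))).congr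
      (g := fun y => lowChr G y v w z) (hlow.mono fun y hy => hy v w z)
    rw [h.2.2, hβ, hβ1, hβ2, hDD, hS, hJ]
    simp only [frameK, _root_.add_apply, _root_.smul_apply, smul_eq_mul]
    ring
  have hl0 : ∀ v w z, lowChr G 0 v w z =
      β (D v w) (J z) + frameK br β β1 (τ v) (τ w) (τ z) (J v) (J w) (J z) := by
    intro v w z
    rw [hlow.self_of_nhds, ht, hβ, hβ1, hDD, hJ]
  have s0 : ∀ a b, β a b = β b a := fun a b => by rw [hβ]; exact hsymm _ _ _
  have s1 : ∀ a b, β1 a b = β1 b a := fun a b => by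
    rw [hβ1, ← frame_deriv_app hBd, ← frame_deriv_app hBd]
    simp only [fun t => hsymm t a b]
  have k0 : ∀ u v b, β (hp u v) b = 0 := fun u v b => by
    rw [hβ]; exact (hker u v).self_of_nhds b
  have k1 : ∀ u v b, β1 (hp u v) b = 0 := fun u v b => by
    rw [hβ1, ← frame_deriv_app hBd]
    have : (fun t => Bh t (hp u v) b) =ᶠ[𝓝 t0] fun _ => 0 := (hker u v).mono fun t h => h b
    rw [this.deriv_eq, deriv_const]
  have k0' : ∀ u v b, β b (hp u v) = 0 := fun u v b => by rw [s0, k0]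
  have k1' : ∀ u v b, β1 b (hp u v) = 0 := fun u v b => by rw [s1, k1]
  have e0 : ∀ a b, B0 a b = β (J a) (J b) := fun a b => by rw [hB0, hβ, hJ]
  have e1 : ∀ a b, B1 a b = β1 (J a) (J b) := fun a b => by
    rw [hB1, hβ1, hJ, frame_deriv_app hBd]
  have e2 : ∀ a b, B2 a b = β2 (J a) (J b) := fun a b => by
    have : deriv (fun t => Bh t (η 0 a) (η 0 b)) =ᶠ[𝓝 t0] fun t => deriv Bh t (η 0 a) (η 0 b) :=
      hBev.mono fun t h => frame_deriv_app h _ _
    rw [hB2, hβ2, hJ, this.deriv_eq, frame_deriv_app hBd2]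
  rw [← hS] at hsym2
  rw [← hDD, ← hJ] at hD
  rw [← hJ] at hbr hact
  have hact' : ∀ u v w, br (J w) (hp u v) = -J (ha u v w) := fun u v w => by rw [hanti, hact]
  have q0 : ∀ a b c, kos τ B0 B1 brm a b c =
      frameK br β β1 (τ a) (τ b) (τ c) (J a) (J b) (J c) := fun a b c => by
    simp only [kos, frameK, e0, e1, hbr, map_add, _root_.add_apply, k0, k0']
    ring
  have q1 : ∀ a b c, kos τ B1 B2 brm a b c =
      frameK br β1 β2 (τ a) (τ b) (τ c) (J a) (J b) (J c) := fun a b c => by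
    simp only [kos, frameK, e1, e2, hbr, map_add, _root_.add_apply, k1, k1']
    ring
  have hD' : ∀ u v, D u v = (-(1 / 2) : ℝ) • (J (brm u v) + hp u v) := fun u v => by
    rw [hD, hbr]
  have Ka : ∀ u v w z, frameK br β β1 0 (τ w) (τ z) (D u v) (J w) (J z) =
      -(1 / 2) * kos τ B0 B1 brm (brm u v) w z - (1 / 2) * B0 (ha u v w) z := by
    intro u v w z
    have i1 := hinv u v w z
    rw [q0, hτ, hD']
    simp only [e0] at i1 ⊢
    simp only [frameK, map_add, map_smul, _root_.add_apply,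
      _root_.smul_apply, smul_eq_mul, k0, k1, hact]
    linarith
  have Ka' : ∀ u v w z, frameK br β β1 0 (τ w) (τ z) (D v u) (J w) (J z) =
      -frameK br β β1 0 (τ w) (τ z) (D u v) (J w) (J z) := by
    intro u v w z
    have : D v u = -D u v := by rw [hD, hD, hanti, smul_neg]
    rw [this]
    simp only [frameK, map_neg, _root_.neg_apply]
    ring
  have Kb : ∀ u v w z, frameK br β β1 (τ v) 0 (τ z) (J v) (D u w) (J z) =
      -(1 / 2) * kos τ B0 B1 brm v (brm u w) z := by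
    intro u v w z
    have i1 := hinv u w v z
    rw [q0, hτ, hD']
    simp only [e0] at i1
    simp only [frameK, map_add, map_smul, map_neg, _root_.add_apply,
      _root_.neg_apply, _root_.smul_apply, smul_eq_mul, k0, k1, k1',
      hact, hact']
    linarith
  have Kc : ∀ u v w z, frameK br β β1 (τ v) (τ w) 0 (J v) (J w) (D u z) =
      -(1 / 2) * kos τ B0 B1 brm v w (brm u z) := by
    intro u v w z
    have i1 := hinv u z v w
    rw [q0, hτ, hD']
    simp only [e0] at i1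
    rw [s0 (J (ha u z v))] at i1
    simp only [frameK, map_add, map_smul, map_neg, smul_eq_mul, k0', k1', hact']
    linarith
  have Ks : ∀ u a z, kos τ B0 B1 brm u a z + kos τ B0 B1 brm u z a = τ u * B1 a z := by
    intro u a z
    rw [q0, q0, e1]
    simp only [frameK]
    rw [hanti (J z) (J a), map_neg, s1 (J z) (J a), s0 (J a) (br (J u) (J z)),
      s0 (J z) (br (J u) (J a))]
    ring
  have hΛ : ∀ a b c, B0 (chr G 0 a b + (1 / 2 : ℝ) • brm a b) c = kos τ B0 B1 brm a b c := by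
    intro a b c
    have i1 := hc a b c
    rw [hl0, hG0, ← q0, hD'] at i1
    simp only [e0, map_add, map_smul, _root_.add_apply,
      _root_.smul_apply, smul_eq_mul, k0] at i1 ⊢
    linarith
  refine ⟨fun a b => chr G 0 a b + (1 / 2 : ℝ) • brm a b, hΛ, fun u v w z => ?_⟩
  have hC : ∀ a b c d, G 0 (chr G 0 a b) (chr G 0 c d) =
      B0 (chr G 0 a b + (1 / 2 : ℝ) • brm a b) (chr G 0 c d + (1 / 2 : ℝ) • brm c d) -
        (1 / 2) * kos τ B0 B1 brm a b (brm c d) - (1 / 2) * kos τ B0 B1 brm c d (brm a b) +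
        (1 / 4) * B0 (brm a b) (brm c d) := by
    intro a b c d
    rw [← hΛ, ← hΛ, hG0]
    simp only [e0, map_add, map_smul, _root_.add_apply,
      _root_.smul_apply, smul_eq_mul]
    rw [s0 (J (chr G 0 c d)) (J (brm a b)), s0 (J (brm c d)) (J (brm a b))]
    ring
  have d1 : ∀ a b c, β1 (D a b) (J c) = -(1 / 2) * B1 (brm a b) c := fun a b c => by
    rw [hD', e1]
    simp only [map_add, map_smul, _root_.add_apply, _root_.smul_apply,
      smul_eq_mul, k1]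
    ring
  have d2 : ∀ a b c d, β (D a b) (D c d) = (1 / 4) * B0 (brm a b) (brm c d) := fun a b c d => by
    rw [hD', hD', e0]
    simp only [map_add, map_smul, _root_.add_apply, _root_.smul_apply,
      smul_eq_mul, k0, k0']
    ring
  have j1 := Ks u (brm v w) z
  have j2 := Ks v (brm u w) z
  rw [hR, hder, hder, hC, hC, Ka' u v, Ka, Kb, Kb, Kc, Kc, ← q1, ← q1, d1, d1, d2, d2, hsym2 v u,
    RmF]
  linarith

end Pool.Agent.Anco
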