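import Pool.Agent.Lib.MP_66983d_gt.ChartA
import Pool.Agent.Lib.MP_66983d_gt.CoPos
import Pool.Agent.Lib.MP_66983d_gt.Frame

set_option maxSynthPendingDepth 3

namespace Pool.Agent.Anco

open scoped ContDiff Topology
open Filter Set Matrix

variable {m d : ℕ} [NeZero m] {g : V (m + 2) → V (m + 2) →L[ℝ] V (m + 2) →L[ℝ] ℝ}

omit [NeZero m] in
theorem chartB_deriv {f1 f2 f3 f4 f5 f6 : ℝ → ℝ} {t : ℝ} (r : ℝ)
    (h1 : DifferentiableAt ℝ f1 t) (h2 : DifferentiableAt ℝ f2 t) (h3 : DifferentiableAt ℝ f3 t)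
    (h4 : DifferentiableAt ℝ f4 t) (h5 : DifferentiableAt ℝ f5 t) (h6 : DifferentiableAt ℝ f6 t)
    (a b : M m) :
    deriv (fun s => bf ⟨r, f1 s, f2 s, f3 s, f4 s, f5 s, f6 s⟩ a b) t =
      bf ⟨0, deriv f1 t, deriv f2 t, deriv f3 t, deriv f4 t, deriv f5 t, deriv f6 t⟩ a b := by
  have h := ((((((hasDerivAt_const t (r * (a.1 * b.1))).add
    (h1.hasDerivAt.mul_const (a.2.1 * b.2.1))).add
    (h2.hasDerivAt.mul_const (a.2.1 * b.2.2.1 + a.2.2.1 * b.2.1))).add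
    (h3.hasDerivAt.mul_const (a.2.2.1 * b.2.2.1))).add
    (h4.hasDerivAt.mul_const (a.2.2.2.1 ⬝ᵥ b.2.2.2.1))).add
    (h5.hasDerivAt.mul_const (a.2.2.2.1 ⬝ᵥ b.2.2.2.2 + a.2.2.2.2 ⬝ᵥ b.2.2.2.1))).add
    (h6.hasDerivAt.mul_const (a.2.2.2.2 ⬝ᵥ b.2.2.2.2))
  have h' := h.deriv
  simp only [bf]
  rw [zero_mul]
  exact h'

theorem chartB_ev {f : ℝ → ℝ} {t : ℝ} (hf : ContDiffAt ℝ ∞ f t) :
    (∀ᶠ s in 𝓝 t, DifferentiableAt ℝ f s) ∧ DifferentiableAt ℝ (deriv f) t := by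
  have h2 : ContDiffAt ℝ 2 f t := hf.of_le (WithTop.coe_le_coe.2 (le_top : (2 : ℕ∞) ≤ ⊤))
  constructor
  · filter_upwards [h2.eventually (by simp)] with s hs
    exact hs.differentiableAt (by simp)
  · have h3 : ContDiffAt ℝ 1 (fderiv ℝ f) t := h2.fderiv_right (by norm_num)
    have h4 : DifferentiableAt ℝ (fderiv ℝ f) t := h3.differentiableAt (by simp)
    have h5 : DifferentiableAt ℝ (fun s => fderiv ℝ f s 1) t :=
      h4.clm_apply (differentiableAt_const _)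
    exact h5

theorem chart_curv (hm : 3 ≤ m) (hd : 1 ≤ d) (hg : IsMetric (m + 2) d g)
    (hI : Invariant (m + 2) d g) {ε : ℝ} (hC : CurvOpGe (m + 2) d g (-ε))
    {c : ℝ → V (m + 2)} {t0 : ℝ} (hc : NCat d g c t0) :
    CurvM m ε (co0 d g (c t0)) (co1 d g c t0) (co2 d g c t0) := by
  obtain ⟨Φ, η, hΦ, hΦW, hη, hη0, hpull, hMC, hD⟩ :=
    chart_exists hd hI hc.smooth (hc.mem.mono fun t ht => ht.1)
  have hmod := Bh_model hm hd hg hI hc
  obtain ⟨c1, c2, c3, c4, c5, c6⟩ := contDiff_co hg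
  obtain ⟨e1, d1⟩ := chartB_ev (c1.contDiffAt.comp t0 hc.smooth)
  obtain ⟨e2, d2⟩ := chartB_ev (c2.contDiffAt.comp t0 hc.smooth)
  obtain ⟨e3, d3⟩ := chartB_ev (c3.contDiffAt.comp t0 hc.smooth)
  obtain ⟨e4, d4⟩ := chartB_ev (c4.contDiffAt.comp t0 hc.smooth)
  obtain ⟨e5, d5⟩ := chartB_ev (c5.contDiffAt.comp t0 hc.smooth)
  obtain ⟨e6, d6⟩ := chartB_ev (c6.contDiffAt.comp t0 hc.smooth)
  have hev : ∀ a b : M m, (fun t => Bh d g c t (η 0 a) (η 0 b)) =ᶠ[𝓝 t0]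
      fun t => bf (co0 d g (c t)) a b := by
    intro a b
    filter_upwards [hmod] with t ht
    rw [hη0, hη0]
    exact ht a b
  have hev1 : ∀ a b : M m, deriv (fun t => Bh d g c t (η 0 a) (η 0 b)) =ᶠ[𝓝 t0]
      fun t => bf (co1 d g c t) a b := by
    intro a b
    refine (hev a b).deriv.trans ?_
    filter_upwards [e1, e2, e3, e4, e5, e6] with t h1 h2 h3 h4 h5 h6
    exact chartB_deriv 1 h1 h2 h3 h4 h5 h6 a b
  have hmem := hc.mem.self_of_nhds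
  obtain ⟨p1, p2, p3, p4⟩ := co_pos hd hg hmem.1 hmem.2 hc.gen0 hc.gen1
  have hpos : ∀ a : M m, a ≠ 0 → 0 < bf (co0 d g (c t0)) a a := fun a ha =>
    bf_pos _ one_pos p1 (by rw [mul_comm] at p2; exact p2) p3 p4 a ha
  obtain ⟨hG0, Λ, hΛ, hR⟩ := frame (pull g Φ) (Bh d g c) η (brL (m + 2))
    (ContinuousLinearMap.fst ℝ ℝ _) t0 (contDiffAt_Bh hg hc.smooth)
    (fun t a b => by rw [Bh_apply, Bh_apply, hg.2.1]) hη hpull
    (fun a b => by simp) hMC hD brm (fun u v => (0, 0, Mat.mk (Hm u v))) hact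
    (fun u v => by
      rw [hη0, hη0, hη0, brL_apply]
      refine Prod.ext (by simp [Jm, brm]) (Prod.ext (by simp [Jm, brm]) ?_)
      exact Sm_br u v)
    (fun u v => rfl)
    (fun u v => by
      filter_upwards [hc.mem] with t ht b
      rw [Bh_apply, evL_apply, Mat.mx_mk, mv_Hm u v ht.2]
      simp)
    (fun u v w => by
      rw [hη0, hη0, brL_apply]
      refine Prod.ext (by simp [Jm, hact]) (Prod.ext (by simp [Jm, hact]) ?_)
      exact Hm_br u v w)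
    (bf (co0 d g (c t0))) (bf (co1 d g c t0)) (bf (co2 d g c t0))
    (fun a b => ((hev a b).self_of_nhds).symm)
    (fun a b => ((hev1 a b).self_of_nhds).symm)
    (fun a b => by
      rw [(hev1 a b).deriv_eq]
      exact (chartB_deriv 0 d1 d2 d3 d4 d5 d6 a b).symm)
    (fun u v w z => bf_hact _ u v w z) hpos
  have hinj : Function.Injective (fderiv ℝ Φ 0) := by
    rw [injective_iff_map_eq_zero]
    intro a ha
    by_contra hne
    have h := hpos a hne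
    rw [← hG0] at h
    simp [pull, ha] at h
  have hO := hC (M m) finrank_M Φ 0 hΦ hΦW hinj
  refine ⟨Λ, hΛ, fun N X Y => ?_⟩
  have h := hO N X Y
  simp only [hG0, hR] at h
  exact h

end Pool.Agent.Anco
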