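import Pool.Agent.Lib.MP_66983d_gt.Base

set_option maxSynthPendingDepth 3

namespace Pool.Agent.Anco

open scoped ContDiff Topology
open Filter Set Matrix

theorem conv_two {f : ℝ → ℝ} {t : ℝ} (hf : ContDiffAt ℝ 2 f t) :
    HasDerivAt (deriv f) (deriv (deriv f) t) t := by
  have h1 : ContDiffAt ℝ 1 (deriv f) t := by
    have h2 := hf.fderiv_right (m := 1) (by norm_num)
    have : deriv f = fun s => fderiv ℝ f s 1 := by ext s; simp
    rw [this]
    exact h2.clm_apply contDiffAt_const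
  exact (h1.differentiableAt (by norm_num)).hasDerivAt

theorem conv_one {f : ℝ → ℝ} {t : ℝ} (hf : ContDiffAt ℝ 2 f t) : HasDerivAt f (deriv f t) t :=
  (hf.differentiableAt (by norm_num)).hasDerivAt

theorem conv_ev {f : ℝ → ℝ} {t : ℝ} (hf : ContDiffAt ℝ 2 f t) :
    ∀ᶠ s in 𝓝 t, HasDerivAt f (deriv f s) s :=
  (hf.eventually (by simp)).mono fun _ hs => conv_one hs

/-- The 2-jet of a function. -/
def ConvJet (f : ℝ → ℝ) (t a0 a1 a2 : ℝ) : Prop :=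
  ContDiffAt ℝ 2 f t ∧ f t = a0 ∧ deriv f t = a1 ∧ deriv (deriv f) t = a2

theorem conv_self {f : ℝ → ℝ} {t : ℝ} (hf : ContDiffAt ℝ 2 f t) :
    ConvJet f t (f t) (deriv f t) (deriv (deriv f) t) := ⟨hf, rfl, rfl, rfl⟩

theorem ConvJet.congr {f g : ℝ → ℝ} {t a0 a1 a2 : ℝ} (h : ConvJet f t a0 a1 a2)
    (e : g =ᶠ[𝓝 t] f) : g t = a0 ∧ deriv g t = a1 ∧ deriv (deriv g) t = a2 :=
  ⟨e.eq_of_nhds.trans h.2.1, e.deriv_eq.trans h.2.2.1, e.deriv.deriv_eq.trans h.2.2.2⟩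

theorem ConvJet.add {f g : ℝ → ℝ} {t a0 a1 a2 b0 b1 b2 : ℝ} (hf : ConvJet f t a0 a1 a2)
    (hg : ConvJet g t b0 b1 b2) :
    ConvJet (fun s => f s + g s) t (a0 + b0) (a1 + b1) (a2 + b2) := by
  obtain ⟨hf, rfl, rfl, rfl⟩ := hf
  obtain ⟨hg, rfl, rfl, rfl⟩ := hg
  have e : deriv (fun s => f s + g s) =ᶠ[𝓝 t] fun s => deriv f s + deriv g s := by
    filter_upwards [conv_ev hf, conv_ev hg] with s h1 h2
    exact (h1.fun_add h2).deriv
  exact ⟨hf.add hg, rfl, e.eq_of_nhds, e.deriv_eq.trans ((conv_two hf).fun_add (conv_two hg)).deriv⟩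

theorem ConvJet.mul {f g : ℝ → ℝ} {t a0 a1 a2 b0 b1 b2 : ℝ} (hf : ConvJet f t a0 a1 a2)
    (hg : ConvJet g t b0 b1 b2) :
    ConvJet (fun s => f s * g s) t (a0 * b0) (a1 * b0 + a0 * b1)
      (a2 * b0 + 2 * a1 * b1 + a0 * b2) := by
  obtain ⟨hf, rfl, rfl, rfl⟩ := hf
  obtain ⟨hg, rfl, rfl, rfl⟩ := hg
  have e : deriv (fun s => f s * g s) =ᶠ[𝓝 t] fun s => deriv f s * g s + f s * deriv g s := by
    filter_upwards [conv_ev hf, conv_ev hg] with s h1 h2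
    exact (h1.fun_mul h2).deriv
  refine ⟨hf.mul hg, rfl, e.eq_of_nhds, e.deriv_eq.trans ?_⟩
  rw [(((conv_two hf).fun_mul (conv_one hg)).fun_add ((conv_one hf).fun_mul (conv_two hg))).deriv]
  ring

theorem blk_of_fun {P Q R f ν k : ℝ → ℝ} {t : ℝ} (hP : ContDiffAt ℝ 2 P t)
    (hQ : ContDiffAt ℝ 2 Q t) (hR : ContDiffAt ℝ 2 R t) (hR0 : 0 < R t)
    (hD : Q t ^ 2 < P t * R t) (hf : ∀ s, f s = Real.sqrt (P s - Q s ^ 2 / R s))
    (hν : ∀ s, ν s = Q s / R s) (hk : ∀ s, k s = Real.sqrt (R s)) :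
    ContDiffAt ℝ 2 f t ∧ ContDiffAt ℝ 2 ν t ∧ ContDiffAt ℝ 2 k t ∧ 0 < f t ∧ 0 < k t ∧
    Blk (f t) (deriv f t) (deriv (deriv f) t) (ν t) (deriv ν t) (deriv (deriv ν) t)
      (k t) (deriv k t) (deriv (deriv k) t) (P t) (deriv P t) (deriv (deriv P) t)
      (Q t) (deriv Q t) (deriv (deriv Q) t) (R t) (deriv R t) (deriv (deriv R) t) := by
  obtain rfl : f = fun s => Real.sqrt (P s - Q s ^ 2 / R s) := funext hf
  obtain rfl : ν = fun s => Q s / R s := funext hν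
  obtain rfl : k = fun s => Real.sqrt (R s) := funext hk
  have h0 : 0 < P t - Q t ^ 2 / R t := by rwa [sub_pos, div_lt_iff₀ hR0]
  have cW : ContDiffAt ℝ 2 (fun s => P s - Q s ^ 2 / R s) t := hP.sub ((hQ.pow 2).div hR hR0.ne')
  have cf := cW.sqrt h0.ne'
  have cν : ContDiffAt ℝ 2 (fun s => Q s / R s) t := hQ.div hR hR0.ne'
  have ck := hR.sqrt hR0.ne'
  have e1 : ∀ᶠ s in 𝓝 t, 0 < R s := hR.continuousAt.eventually (lt_mem_nhds hR0)
  have e2 : ∀ᶠ s in 𝓝 t, 0 < P s - Q s ^ 2 / R s := cW.continuousAt.eventually (lt_mem_nhds h0)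
  obtain ⟨r0, r1, r2⟩ := ((conv_self ck).mul (conv_self ck)).congr (g := R) (by
    filter_upwards [e1] with s h1
    exact (Real.mul_self_sqrt h1.le).symm)
  obtain ⟨q0, q1, q2⟩ := ((conv_self cν).mul (conv_self hR)).congr (g := Q) (by
    filter_upwards [e1] with s h1
    exact (div_mul_cancel₀ _ h1.ne').symm)
  obtain ⟨p0, p1, p2⟩ := (((conv_self cf).mul (conv_self cf)).add
    (((conv_self cν).mul (conv_self cν)).mul (conv_self hR))).congr (g := P) (by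
    filter_upwards [e1, e2] with s h1 h2
    rw [Real.mul_self_sqrt h2.le]
    field_simp
    ring)
  refine ⟨cf, cν, ck, Real.sqrt_pos.2 h0, Real.sqrt_pos.2 hR0, ?_, ?_, ?_, q0, q1, q2, ?_, ?_, ?_⟩
  · linear_combination r0
  · linear_combination r1
  · linear_combination r2
  · linear_combination p0
  · linear_combination p1
  · linear_combination p2

end Pool.Agent.Anco
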