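import Pool.Agent.Lib.MP_66983d_gt.Act1

set_option maxSynthPendingDepth 3

namespace Pool.Agent.Anco

open scoped ContDiff Topology
open Filter Set Matrix

variable {m d : ℕ} {δ : ℝ} {s x : ℝ → ℝ}

theorem c0_isPl (τ : ℝ) : IsPl (c0 s x τ : V (m + 2)) := isPl_pl _ _ _

theorem curve0_y_sq (τ : ℝ) : (Real.cos τ / Real.sqrt 2) ^ 2 = Real.cos τ ^ 2 / 2 := by
  rw [div_pow, Real.sq_sqrt (by norm_num)]

theorem curve0_zero_mem (h : C0 d δ s x) : (0 : ℝ) ∈ Ioo (-δ) (Real.pi + δ) :=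
  ⟨by linarith [h.δpos], by linarith [h.δpos, Real.pi_pos]⟩

theorem curve0_hd {f : ℝ → ℝ} {U : Set ℝ} (hU : IsOpen U) (hf : ContDiffOn ℝ ∞ f U) {τ : ℝ}
    (hτ : τ ∈ U) : HasDerivAt f (deriv f τ) τ :=
  ((hf.contDiffAt (hU.mem_nhds hτ)).differentiableAt (by simp)).hasDerivAt

theorem curve0_pl {U : Set ℝ} {a b c : ℝ → ℝ} (ha : ContDiffOn ℝ ∞ a U) (hb : ContDiffOn ℝ ∞ b U)
    (hc : ContDiffOn ℝ ∞ c U) :
    ContDiffOn ℝ ∞ (fun τ => (pl (-(a τ : ℂ)) (b τ : ℂ) (Complex.I * (c τ : ℂ)) : V (m + 2))) U := by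
  have o : ∀ {f : ℝ → ℝ}, ContDiffOn ℝ ∞ f U → ContDiffOn ℝ ∞ (fun τ => (f τ : ℂ)) U :=
    fun hf => Complex.ofRealCLM.contDiff.comp_contDiffOn hf
  exact contDiff_pl.comp_contDiffOn
    ((o ha).neg.prodMk ((o hb).prodMk (contDiffOn_const.mul (o hc))))

theorem C0.mem_W (h : C0 d δ s x) (hodd : Odd d) {τ : ℝ} (hτ : τ ∈ Ioo (-δ) (Real.pi + δ)) :
    (c0 s x τ : V (m + 2)) ∈ W (m + 2) d := by
  have e1 := h.e1 τ hτ
  have e2 := h.e2 τ hτ
  have hy := curve0_y_sq τ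
  set y := Real.cos τ / Real.sqrt 2 with hy0
  refine ⟨?_, ?_⟩
  · rw [sum_two]
    simp only [c0, pl_fst, pl_zero, pl_one, pl_ss, ← hy0]
    rw [hodd.neg_pow, mul_pow, Complex.I_sq]
    have : -(s τ ^ d) + x τ ^ 2 - y ^ 2 = 0 := by linarith
    have h2 := congrArg (fun r : ℝ => (r : ℂ)) this
    push_cast at h2
    simp only [ne_eq, OfNat.ofNat_ne_zero, not_false_eq_true, zero_pow, Finset.sum_const_zero]
    linear_combination h2
  · rw [sum_two]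
    simp only [c0, pl_fst, pl_zero, pl_one, pl_ss, ← hy0, norm_neg, norm_mul, Complex.norm_I,
      one_mul, Complex.norm_real, Real.norm_eq_abs, sq_abs, norm_zero]
    simp only [ne_eq, OfNat.ofNat_ne_zero, not_false_eq_true, zero_pow, Finset.sum_const_zero]
    linarith [Real.sin_sq_add_cos_sq τ]

theorem C0.contDiffOn_c0 (h : C0 d δ s x) :
    ContDiffOn ℝ ∞ (c0 s x : ℝ → V (m + 2)) (Ioo (-δ) (Real.pi + δ)) :=
  curve0_pl h.cs h.cx (c := fun τ => Real.cos τ / Real.sqrt 2)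
    (Real.contDiff_cos.div_const _).contDiffOn

theorem C0.contDiffOn_dc0 (h : C0 d δ s x) :
    ContDiffOn ℝ ∞ (dc0 s x : ℝ → V (m + 2)) (Ioo (-δ) (Real.pi + δ)) :=
  curve0_pl (h.cs.deriv_of_isOpen isOpen_Ioo (by simp)) (h.cx.deriv_of_isOpen isOpen_Ioo (by simp))
    (c := fun τ => -Real.sin τ / Real.sqrt 2) (Real.contDiff_sin.neg.div_const _).contDiffOn

theorem C0.hasDerivAt_c0 (h : C0 d δ s x) {τ : ℝ} (hτ : τ ∈ Ioo (-δ) (Real.pi + δ)) :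
    HasDerivAt (c0 s x : ℝ → V (m + 2)) (dc0 s x τ) τ :=
  HasDerivAt.pl (curve0_hd isOpen_Ioo h.cs hτ).ofReal_comp.neg
    (curve0_hd isOpen_Ioo h.cx hτ).ofReal_comp
    (((Real.hasDerivAt_cos τ).div_const (Real.sqrt 2)).ofReal_comp.const_mul Complex.I)

theorem C0.dc0_mem_Tan (h : C0 d δ s x) (hodd : Odd d) {τ : ℝ}
    (hτ : τ ∈ Ioo (-δ) (Real.pi + δ)) :
    (dc0 s x τ : V (m + 2)) ∈ Tan (m + 2) d (c0 s x τ) := by
  refine tan_of_curve (h.hasDerivAt_c0 hτ) ?_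
  filter_upwards [isOpen_Ioo.mem_nhds hτ] with t ht using h.mem_W hodd ht

theorem C0.x_zero (h : C0 d δ s x) (hd : 3 ≤ d) : x 0 = 1 / Real.sqrt 2 := by
  have e2 := h.e2 0 (curve0_zero_mem h)
  have hy := curve0_y_sq 0
  rw [h.s0, zero_pow (by omega), zero_add, ← hy, Real.cos_zero] at e2
  exact (pow_left_inj₀ (h.xpos 0 (curve0_zero_mem h)).le (by positivity) two_ne_zero).1 e2

theorem C0.c0_zero (h : C0 d δ s x) (hd : 3 ≤ d) :
    (c0 s x 0 : V (m + 2)) = pl 0 ((x 0 : ℝ) : ℂ) (Complex.I * ((x 0 : ℝ) : ℂ)) := by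
  rw [c0, h.s0, Real.cos_zero, ← h.x_zero hd]
  simp

theorem curve0_dx_zero (h : C0 d δ s x) (hd : 3 ≤ d) : deriv x 0 = 0 := by
  have h0 := curve0_zero_mem h
  have a1 := (curve0_hd isOpen_Ioo h.cx h0).pow 2
  have a2 := ((curve0_hd isOpen_Ioo h.cs h0).pow d).add
    (((Real.hasDerivAt_cos 0).pow 2).div_const 2)
  have a3 := a2.congr_of_eventuallyEq (f₁ := x ^ 2) (by
    filter_upwards [isOpen_Ioo.mem_nhds h0] with t ht using h.e2 t ht)
  have e := a1.unique a3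
  rw [h.s0, zero_pow (by omega : d - 1 ≠ 0), Real.sin_zero] at e
  have hx := h.xpos 0 h0
  simpa [hx.ne'] using e

theorem C0.dc0_zero (h : C0 d δ s x) (hd : 3 ≤ d) : (dc0 s x 0 : V (m + 2)) = pl (-1) 0 0 := by
  rw [dc0, h.ds0, curve0_dx_zero h hd, Real.sin_zero]
  simp

theorem C0.c0_symm (h : C0 d δ s x) (τ : ℝ) :
    (c0 s x (Real.pi - τ) : V (m + 2)) =
      pl (-(s τ : ℂ)) (x τ : ℂ) (-(Complex.I * ((Real.cos τ / Real.sqrt 2 : ℝ) : ℂ))) := by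
  rw [c0, h.symm_s, h.symm_x, Real.cos_pi_sub]
  congr 1
  push_cast
  ring

theorem curve0_deriv_symm {f : ℝ → ℝ} (hf : ∀ τ, f (Real.pi - τ) = f τ) (τ : ℝ) :
    deriv f (Real.pi - τ) = -deriv f τ := by
  have e : (fun t => f (Real.pi - t)) = f := funext hf
  have := deriv_comp_const_sub f Real.pi τ
  rw [e] at this
  rw [this, neg_neg]

theorem C0.dc0_symm (h : C0 d δ s x) (τ : ℝ) :
    (dc0 s x (Real.pi - τ) : V (m + 2)) =
      -pl (-((deriv s τ : ℝ) : ℂ)) ((deriv x τ : ℝ) : ℂ)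
        (-(Complex.I * ((-Real.sin τ / Real.sqrt 2 : ℝ) : ℂ))) := by
  rw [dc0, curve0_deriv_symm h.symm_s, curve0_deriv_symm h.symm_x, Real.sin_pi_sub]
  refine V_ext ?_ ?_ ?_ fun i => ?_ <;> simp

theorem C0.deriv_x_half (h : C0 d δ s x) : deriv x (Real.pi / 2) = 0 := by
  have := curve0_deriv_symm h.symm_x (Real.pi / 2)
  rw [show Real.pi - Real.pi / 2 = Real.pi / 2 by ring] at this
  linarith

/-- `x` exceeds `|y|` inside the interval, and `x + y` is positive up to the left end -/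
theorem C0.add_pos (h : C0 d δ s x) {τ : ℝ} (hτ : τ ∈ Ioo (-δ) Real.pi) :
    0 < x τ + Real.cos τ / Real.sqrt 2 := by
  have hm : τ ∈ Ioo (-δ) (Real.pi + δ) := ⟨hτ.1, by linarith [hτ.2, h.δpos]⟩
  have hx := h.xpos τ hm
  rcases le_or_gt τ 0 with h0 | h0
  · have hc : 0 < Real.cos τ := Real.cos_pos_of_mem_Ioo
      ⟨by linarith [hτ.1, h.δle, Real.pi_gt_three], by linarith [Real.pi_pos]⟩
    positivity
  · have hs := pow_pos (h.spos τ ⟨h0, hτ.2⟩) d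
    have e2 := h.e2 τ hm
    have hy := curve0_y_sq τ
    by_contra hn
    nlinarith

theorem C0.s_half_lt (h : C0 d δ s x) {τ : ℝ} (hτ : τ ∈ Ioo 0 (Real.pi / 2)) :
    s τ < s (Real.pi / 2) := by
  have hp := Real.pi_pos
  have hδ := h.δpos
  have hm : StrictMonoOn s (Icc 0 (Real.pi / 2)) :=
    strictMonoOn_of_deriv_pos (convex_Icc _ _)
      (h.cs.continuousOn.mono fun t ht => ⟨by linarith [ht.1], by linarith [ht.2]⟩)
      (by rw [interior_Icc]; exact h.dspos)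
  exact hm ⟨hτ.1.le, hτ.2.le⟩ ⟨by linarith, le_rfl⟩ hτ.2

end Pool.Agent.Anco
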