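import Pool.Agent.Lib.MP_66983d_gt.Stmt

/-!
Bundled versions of the definitions of the statement, used in the proof.
-/

namespace Pool.Agent.Anco

open scoped ContDiff Topology

/-- A Riemannian metric on the Brieskorn manifold, given as a smooth field of symmetric bilinear
forms on the ambient space that is positive definite on the tangent spaces. -/
def IsMetric (n d : ℕ) (g : V n → V n →L[ℝ] V n →L[ℝ] ℝ) : Prop :=
  ContDiff ℝ ∞ g ∧ (∀ z u v, g z u v = g z v u) ∧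
    ∀ z ∈ W n d, ∀ v ∈ Tan n d z, v ≠ 0 → 0 < g z v v

/-- The metric is invariant under `SO(2) × SO(n)`. -/
def Invariant (n d : ℕ) (g : V n → V n →L[ℝ] V n →L[ℝ] ℝ) : Prop :=
  ∀ (θ : ℝ), ∀ R ∈ Matrix.specialOrthogonalGroup (Fin n) ℝ, ∀ z ∈ W n d,
    ∀ u ∈ Tan n d z, ∀ v ∈ Tan n d z,
      g (act n d θ R z) (act n d θ R u) (act n d θ R v) = g z u v

/-- The diameter is at most `D`: any two points are joined by `C¹` paths in the manifold of
length arbitrarily close to `D` or less. -/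
def DiamLe (n d : ℕ) (g : V n → V n →L[ℝ] V n →L[ℝ] ℝ) (D : ℝ) : Prop :=
  ∀ p ∈ W n d, ∀ q ∈ W n d, ∀ η : ℝ, 0 < η → ∃ γ : ℝ → V n, ContDiff ℝ 1 γ ∧ γ 0 = p ∧ γ 1 = q ∧
    (∀ t ∈ Set.Icc (0 : ℝ) 1, γ t ∈ W n d) ∧
    ∫ t in (0 : ℝ)..1, Real.sqrt (g (γ t) (deriv γ t) (deriv γ t)) ≤ D + η

section Curvature

variable {E : Type} [NormedAddCommGroup E] [NormedSpace ℝ E]

/-- Christoffel symbols of the first kind of a metric `G` in coordinates:
`w ↦ (∂_u G(v,w) + ∂_v G(u,w) - ∂_w G(u,v)) / 2`. -/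
noncomputable def lowChr (G : E → E →L[ℝ] E →L[ℝ] ℝ) (x u v : E) : E →L[ℝ] ℝ :=
  (1 / 2 : ℝ) • (fderiv ℝ G x u v + fderiv ℝ G x v u - fderiv ℝ (fun y => G y u v) x)

/-- Christoffel symbols: the covariant derivative `∇_u v` of constant coordinate fields. -/
noncomputable def chr (G : E → E →L[ℝ] E →L[ℝ] ℝ) (x u v : E) : E :=
  (G x).inverse (lowChr G x u v)

/-- The curvature tensor `R(u,v)w = ∇_u ∇_v w - ∇_v ∇_u w` in coordinates. -/
noncomputable def riem (G : E → E →L[ℝ] E →L[ℝ] ℝ) (x u v w : E) : E :=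
  fderiv ℝ (fun y => chr G y v w) x u - fderiv ℝ (fun y => chr G y u w) x v +
    chr G x u (chr G x v w) - chr G x v (chr G x u w)

/-- `Rm(u,v,w,z) = G(R(u,v)w, z)`; `Rm(u,v,v,u)` is the sectional curvature of orthonormal
`u, v`. -/
noncomputable def Rm (G : E → E →L[ℝ] E →L[ℝ] ℝ) (x u v w z : E) : ℝ :=
  G x (riem G x u v w) z

/-- The pull-back of the metric `g` under a parametrisation `φ`. -/
noncomputable def pull {n : ℕ} (g : V n → V n →L[ℝ] V n →L[ℝ] ℝ) (φ : E → V n) (x : E) :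
    E →L[ℝ] E →L[ℝ] ℝ :=
  (g (φ x)).bilinearComp (fderiv ℝ φ x) (fderiv ℝ φ x)

/-- The curvature operator of `G` at `x` is at least `c`: for every 2-vector
`ω = ∑ X a ∧ Y a` one has `c |ω|^2 ≤ ⟨R ω, ω⟩`. -/
def OpGe (G : E → E →L[ℝ] E →L[ℝ] ℝ) (x : E) (c : ℝ) : Prop :=
  ∀ (N : ℕ) (X Y : Fin N → E),
    c * ∑ a, ∑ b, (G x (X a) (X b) * G x (Y a) (Y b) - G x (X a) (Y b) * G x (Y a) (X b)) ≤
      ∑ a, ∑ b, Rm G x (X a) (Y a) (Y b) (X b)

end Curvature

/-- The curvature operator of the metric `g` on the Brieskorn manifold is at least `c`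
everywhere: this holds in every smooth local parametrisation (a smooth map from a vector space of
dimension `2n - 1` into the manifold with injective differential). -/
def CurvOpGe (n d : ℕ) (g : V n → V n →L[ℝ] V n →L[ℝ] ℝ) (c : ℝ) : Prop :=
  ∀ (E : Type) [NormedAddCommGroup E] [NormedSpace ℝ E] [FiniteDimensional ℝ E],
    Module.finrank ℝ E = 2 * n - 1 → ∀ (φ : E → V n) (x : E), ContDiffAt ℝ ∞ φ x →
      (∀ᶠ y in 𝓝 x, φ y ∈ W n d) → Function.Injective (fderiv ℝ φ x) → OpGe (pull g φ) x c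

end Pool.Agent.Anco
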