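import Pool.Agent.Lib.MP_66983d_gt.Base

set_option maxSynthPendingDepth 3

namespace Pool.Agent.Anco

open scoped ContDiff Topology
open Filter Set Matrix

theorem smooth_inverse {f : ℝ → ℝ} {a b : ℝ} (hf : ContDiffOn ℝ ∞ f (Ioo a b))
    (hpos : ∀ x ∈ Ioo a b, 0 < deriv f x) :
    ∃ k : ℝ → ℝ, IsOpen (f '' Ioo a b) ∧ ContDiffOn ℝ ∞ k (f '' Ioo a b) ∧
      (∀ x ∈ Ioo a b, k (f x) = x) ∧ StrictMonoOn f (Ioo a b) ∧
      ∀ x ∈ Ioo a b, HasDerivAt k (deriv f x)⁻¹ (f x) := by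
  have hmono : StrictMonoOn f (Ioo a b) :=
    strictMonoOn_of_deriv_pos (convex_Ioo a b) hf.continuousOn fun x hx =>
      hpos x (interior_subset hx)
  have hleft : ∀ x ∈ Ioo a b, Function.invFunOn f (Ioo a b) (f x) = x := fun x hx =>
    hmono.injOn.leftInvOn_invFunOn hx
  have hs : ∀ x ∈ Ioo a b, HasStrictDerivAt f (deriv f x) x := fun x hx =>
    (hf.contDiffAt (isOpen_Ioo.mem_nhds hx)).hasStrictDerivAt (by simp)
  have hopen : IsOpen (f '' Ioo a b) := by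
    rw [isOpen_iff_mem_nhds]
    rintro _ ⟨x, hx, rfl⟩
    rw [← (hs x hx).map_nhds_eq (hpos x hx).ne']
    exact image_mem_map (isOpen_Ioo.mem_nhds hx)
  have hk : ∀ x ∈ Ioo a b, HasDerivAt (Function.invFunOn f (Ioo a b)) (deriv f x)⁻¹ (f x) :=
    fun x hx => ((hs x hx).to_local_left_inverse (hpos x hx).ne'
      (by filter_upwards [isOpen_Ioo.mem_nhds hx] with y hy using hleft y hy)).hasDerivAt
  refine ⟨Function.invFunOn f (Ioo a b), hopen, ?_, hleft, hmono, hk⟩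
  have hdiff : DifferentiableOn ℝ (Function.invFunOn f (Ioo a b)) (f '' Ioo a b) := by
    rintro _ ⟨x, hx, rfl⟩
    exact (hk x hx).differentiableAt.differentiableWithinAt
  have hmaps : MapsTo (Function.invFunOn f (Ioo a b)) (f '' Ioo a b) (Ioo a b) := by
    rintro _ ⟨x, hx, rfl⟩
    rw [hleft x hx]; exact hx
  have hf' : ContDiffOn ℝ ∞ (deriv f) (Ioo a b) :=
    ((contDiffOn_infty_iff_deriv_of_isOpen isOpen_Ioo).1 hf).2
  rw [contDiffOn_infty]
  intro n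
  induction n with
  | zero => simpa using hdiff.continuousOn
  | succ n ih =>
    rw [Nat.cast_succ, contDiffOn_succ_iff_deriv_of_isOpen hopen]
    refine ⟨hdiff, by simp, ?_⟩
    have h1 : ContDiffOn ℝ n (fun y => (deriv f (Function.invFunOn f (Ioo a b) y))⁻¹)
        (f '' Ioo a b) :=
      ((hf'.of_le (by exact_mod_cast le_top)).comp ih hmaps).inv fun y hy =>
        (hpos _ (hmaps hy)).ne'
    refine h1.congr ?_
    rintro _ ⟨x, hx, rfl⟩
    rw [(hk x hx).deriv, hleft x hx]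

theorem smooth_primitive {f : ℝ → ℝ} {a b c : ℝ} (hc : c ∈ Ioo a b)
    (hf : ContDiffOn ℝ ∞ f (Ioo a b)) :
    ∃ F : ℝ → ℝ, ContDiffOn ℝ ∞ F (Ioo a b) ∧ F c = 0 ∧ ∀ x ∈ Ioo a b, HasDerivAt F (f x) x := by
  have hd : ∀ x ∈ Ioo a b, HasDerivAt (fun x => ∫ t in c..x, f t) (f x) x := fun x hx => by
    refine intervalIntegral.integral_hasDerivAt_right ?_ ?_ ?_
    · exact (hf.continuousOn.mono (ordConnected_Ioo.uIcc_subset hc hx)).intervalIntegrable
    · exact hf.continuousOn.stronglyMeasurableAtFilter isOpen_Ioo x hx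
    · exact hf.continuousOn.continuousAt (isOpen_Ioo.mem_nhds hx)
  refine ⟨fun x => ∫ t in c..x, f t, ?_, by simp, hd⟩
  rw [contDiffOn_infty_iff_deriv_of_isOpen isOpen_Ioo]
  exact ⟨fun x hx => (hd x hx).differentiableAt.differentiableWithinAt,
    hf.congr fun x hx => (hd x hx).deriv⟩

theorem inv_pow_lower {r s : ℝ} (hr : 0 < r) (hr1 : r ≤ 1) (hs : -r < s) (e : ℕ) :
    -r < s ^ (e + 1) := by
  rcases le_or_gt 0 s with h | h
  · have := pow_nonneg h (e + 1)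
    linarith
  · have h1 : |s| < r := abs_lt.2 ⟨hs, h.trans hr⟩
    have h2 : |s| ^ (e + 1) ≤ |s| :=
      pow_le_of_le_one (abs_nonneg s) (h1.le.trans hr1) (Nat.succ_ne_zero e)
    have h3 := neg_abs_le (s ^ (e + 1))
    rw [abs_pow] at h3
    linarith

theorem inv_sin_lower {δ τ : ℝ} (hδ : 0 < δ) (hτ : τ ∈ Ioo (-δ) (Real.pi + δ)) :
    -δ < Real.sin τ := by
  rcases lt_or_ge τ 0 with h | h
  · have h1 := Real.abs_sin_le_abs (x := τ)
    rw [abs_of_neg h] at h1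
    have h2 := neg_abs_le (Real.sin τ)
    linarith [hτ.1]
  · rcases le_or_gt τ Real.pi with h' | h'
    · have := Real.sin_nonneg_of_nonneg_of_le_pi h h'
      linarith
    · have h1 := Real.abs_sin_le_abs (x := Real.pi - τ)
      rw [abs_of_neg (by linarith : Real.pi - τ < 0), Real.sin_pi_sub] at h1
      have h2 := neg_abs_le (Real.sin τ)
      linarith [hτ.2]

/-- The function whose inverse gives the first coordinate of the curve. -/
noncomputable def invF (e : ℕ) (s : ℝ) : ℝ := s * Real.sqrt (1 + s ^ (e + 1))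

theorem inv_hd (e : ℕ) {s : ℝ} (h : 0 < 1 + s ^ (e + 1)) :
    HasDerivAt (invF e)
      ((2 + ((e : ℝ) + 3) * s ^ (e + 1)) / (2 * Real.sqrt (1 + s ^ (e + 1)))) s := by
  have h1 : HasDerivAt (fun s : ℝ => 1 + s ^ (e + 1)) (((e + 1 : ℕ) : ℝ) * s ^ e) s := by
    simpa using (hasDerivAt_pow (e + 1) s).const_add 1
  have h2 := (hasDerivAt_id' s).fun_mul (h1.sqrt h.ne')
  refine h2.congr_deriv ?_
  have h3 : 0 < Real.sqrt (1 + s ^ (e + 1)) := Real.sqrt_pos.2 h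
  have h4 : Real.sqrt (1 + s ^ (e + 1)) * Real.sqrt (1 + s ^ (e + 1)) = 1 + s ^ (e + 1) :=
    Real.mul_self_sqrt h.le
  rw [eq_div_iff (by positivity)]
  have h5 : s * (((e + 1 : ℕ) : ℝ) * s ^ e / (2 * Real.sqrt (1 + s ^ (e + 1)))) *
      (2 * Real.sqrt (1 + s ^ (e + 1))) = ((e : ℝ) + 1) * s ^ (e + 1) := by
    rw [mul_assoc, div_mul_cancel₀ _ (by positivity)]
    push_cast
    ring
  rw [add_mul, h5]
  linear_combination 2 * h4

theorem exists_C0 {d : ℕ} (hd : 3 ≤ d) (hodd : Odd d) : ∃ δ s x, C0 d δ s x := by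
  obtain ⟨e, rfl⟩ : ∃ e, d = e + 3 := ⟨d - 3, by omega⟩
  have he : (0 : ℝ) ≤ e := Nat.cast_nonneg e
  set r : ℝ := 1 / ((e : ℝ) + 3) with hr
  have hr0 : 0 < r := by positivity
  have hr3 : r ≤ 1 / 3 := one_div_le_one_div_of_le (by norm_num) (by linarith)
  have hre : ((e : ℝ) + 3) * r = 1 := by rw [hr]; field_simp
  have hlow : ∀ s ∈ Ioo (-r) 2, -r < s ^ (e + 1) := fun s hs =>
    inv_pow_lower hr0 (by linarith) hs.1 e
  have hin : ∀ s ∈ Ioo (-r) 2, 0 < 1 + s ^ (e + 1) := fun s hs => by linarith [hlow s hs]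
  have hF : ContDiffOn ℝ ∞ (invF e) (Ioo (-r) 2) :=
    contDiffOn_id.mul ((contDiffOn_const.add (contDiffOn_id.pow _)).sqrt fun s hs =>
      (hin s hs).ne')
  have hpos : ∀ s ∈ Ioo (-r) 2, 0 < deriv (invF e) s := fun s hs => by
    rw [(inv_hd e (hin s hs)).deriv]
    have h1 := Real.sqrt_pos.2 (hin s hs)
    have h2 := mul_lt_mul_of_pos_left (hlow s hs) (by linarith : (0 : ℝ) < (e : ℝ) + 3)
    refine div_pos (by linarith) (by positivity)
  obtain ⟨k, -, hk, hleft, hmono, hkd⟩ := smooth_inverse hF hpos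
  have h0 : (0 : ℝ) ∈ Ioo (-r) 2 := ⟨by linarith, by norm_num⟩
  have hm : -(r / 2) ∈ Ioo (-r) 2 := ⟨by linarith, by linarith⟩
  have hF0 : invF e 0 = 0 := by simp [invF]
  have hFm : invF e (-(r / 2)) < 0 := hF0 ▸ hmono hm h0 (by linarith)
  have hF1 : 1 ≤ invF e 1 := by
    simp only [invF, one_pow, one_mul]
    exact Real.one_le_sqrt.2 (by norm_num)
  have hsub : Icc (-(r / 2)) 1 ⊆ Ioo (-r) 2 := fun s hs =>
    ⟨by linarith [hs.1], by linarith [hs.2]⟩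
  set δ : ℝ := min 1 (-invF e (-(r / 2))) with hδ
  have hδ0 : 0 < δ := lt_min one_pos (by linarith)
  have himg : ∀ τ ∈ Ioo (-δ) (Real.pi + δ), Real.sin τ ∈ invF e '' Ioo (-r) 2 := fun τ hτ => by
    refine image_mono hsub (intermediate_value_Icc (by linarith) (hF.continuousOn.mono hsub)
      ⟨?_, (Real.sin_le_one τ).trans hF1⟩)
    have h1 := inv_sin_lower hδ0 hτ
    have h2 : δ ≤ -invF e (-(r / 2)) := min_le_right _ _
    linarith
  have hmem : ∀ τ ∈ Ioo (-δ) (Real.pi + δ),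
      k (Real.sin τ) ∈ Ioo (-r) 2 ∧ invF e (k (Real.sin τ)) = Real.sin τ := fun τ hτ => by
    obtain ⟨s, hs, hs'⟩ := himg τ hτ
    rw [← hs', hleft s hs]
    exact ⟨hs, rfl⟩
  have hcs : ContDiffOn ℝ ∞ (fun τ => k (Real.sin τ)) (Ioo (-δ) (Real.pi + δ)) :=
    hk.comp Real.contDiff_sin.contDiffOn himg
  have he1 : ∀ τ ∈ Ioo (-δ) (Real.pi + δ),
      k (Real.sin τ) ^ 2 + k (Real.sin τ) ^ (e + 3) = Real.sin τ ^ 2 := fun τ hτ => by
    obtain ⟨h1, h2⟩ := hmem τ hτ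
    have h3 : invF e (k (Real.sin τ)) ^ 2 =
        k (Real.sin τ) ^ 2 * (1 + k (Real.sin τ) ^ (e + 1)) := by
      rw [invF, mul_pow, Real.sq_sqrt (hin _ h1).le]
    rw [h2] at h3
    rw [h3]; ring
  have hx : ∀ τ ∈ Ioo (-δ) (Real.pi + δ),
      0 < k (Real.sin τ) ^ (e + 3) + Real.cos τ ^ 2 / 2 := fun τ hτ => by
    have h1 := (hmem τ hτ).1
    have h2 := he1 τ hτ
    have h3 := Real.sin_sq_add_cos_sq τ
    rcases lt_or_ge 0 (k (Real.sin τ)) with h | h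
    · positivity
    · have h4 := inv_pow_lower hr0 (by linarith) h1.1 (e + 2)
      have h5 : k (Real.sin τ) ^ 2 ≤ 1 / 9 := by nlinarith [h1.1]
      have h6 : e + 2 + 1 = e + 3 := rfl
      rw [h6] at h4
      linarith
  have hder : ∀ τ ∈ Ioo (-δ) (Real.pi + δ), HasDerivAt (fun τ => k (Real.sin τ))
      ((deriv (invF e) (k (Real.sin τ)))⁻¹ * Real.cos τ) τ := fun τ hτ => by
    obtain ⟨h1, h2⟩ := hmem τ hτ
    have h3 := hkd _ h1
    rw [h2] at h3
    exact h3.comp τ (Real.hasDerivAt_sin τ)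
  have hk0 : k (Real.sin 0) = 0 := by
    rw [Real.sin_zero]
    have := hleft 0 h0
    rwa [hF0] at this
  have hpi := Real.pi_pos
  refine ⟨δ, fun τ => k (Real.sin τ),
    fun τ => Real.sqrt (k (Real.sin τ) ^ (e + 3) + Real.cos τ ^ 2 / 2),
    hδ0, min_le_left _ _, hcs, ?_, he1, fun τ hτ => Real.sq_sqrt (hx τ hτ).le,
    fun τ hτ => Real.sqrt_pos.2 (hx τ hτ), hk0, ?_, fun τ hτ => ?_, fun τ hτ => ?_,
    fun τ => by simp only [Real.sin_pi_sub],
    fun τ => by simp only [Real.sin_pi_sub, Real.cos_pi_sub, neg_sq]⟩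
  · exact ((hcs.pow _).add ((Real.contDiff_cos.contDiffOn.pow 2).div_const 2)).sqrt
      fun τ hτ => (hx τ hτ).ne'
  · rw [(hder 0 ⟨by linarith, by linarith⟩).deriv, hk0, (inv_hd e (hin 0 h0)).deriv]
    simp
  · obtain ⟨h1, h2⟩ := hmem τ ⟨by linarith [hτ.1], by linarith [hτ.2]⟩
    have h3 := Real.sin_pos_of_pos_of_lt_pi hτ.1 hτ.2
    rw [← hmono.lt_iff_lt h0 h1, hF0, h2]
    exact h3
  · have hτ' : τ ∈ Ioo (-δ) (Real.pi + δ) := ⟨by linarith [hτ.1], by linarith [hτ.2]⟩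
    rw [(hder τ hτ').deriv]
    exact mul_pos (inv_pos.2 (hpos _ (hmem τ hτ').1))
      (Real.cos_pos_of_mem_Ioo ⟨by linarith [hτ.1], hτ.2⟩)

end Pool.Agent.Anco
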