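import Pool.Agent.Lib.MP_66983d_gt.Act1

set_option maxSynthPendingDepth 3

namespace Pool.Agent.Anco

open scoped ContDiff Topology
open Filter Set Matrix

variable {m d : ℕ}

theorem orbit_O_cols {u v : Fin (m + 2) → ℝ} (hu : u ⬝ᵥ u = 1) (hv : v ⬝ᵥ v = 1)
    (huv : u ⬝ᵥ v = 0) :
    ∃ R : Matrix (Fin (m + 2)) (Fin (m + 2)) ℝ, Rᵀ * R = 1 ∧ ∀ i, R i 0 = u i ∧ R i 1 = v i := by
  classical
  let f : Fin (m + 2) → EuclideanSpace ℝ (Fin (m + 2)) :=
    fun j => if j = 0 then WithLp.toLp 2 u else WithLp.toLp 2 v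
  have h01 : (1 : Fin (m + 2)) ≠ 0 := by simp
  have hin : ∀ a b : Fin (m + 2) → ℝ,
      inner ℝ (WithLp.toLp 2 a : EuclideanSpace ℝ (Fin (m + 2))) (WithLp.toLp 2 b) = a ⬝ᵥ b := by
    intro a b
    simp [PiLp.inner_apply, dotProduct, mul_comm]
  have hvu : v ⬝ᵥ u = 0 := by rw [dotProduct_comm]; exact huv
  have horth : Orthonormal ℝ (({0, 1} : Set (Fin (m + 2))).domRestrict f) := by
    rw [orthonormal_iff_ite]
    rintro ⟨i, hi⟩ ⟨j, hj⟩
    simp only [mem_insert_iff, mem_singleton_iff] at hi hj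
    rcases hi with rfl | rfl <;> rcases hj with rfl | rfl <;>
      simp [Set.domRestrict, f, hin, hu, hv, huv, hvu, -inner_self_eq_norm_sq_to_K]
  obtain ⟨b, hb⟩ := horth.exists_orthonormalBasis_extension_of_card_eq (by simp)
  refine ⟨Matrix.of fun i j => b j i, ?_, fun i => ⟨?_, ?_⟩⟩
  · ext j k
    have := orthonormal_iff_ite.1 b.orthonormal j k
    rw [Matrix.mul_apply, Matrix.one_apply, ← this]
    simp [PiLp.inner_apply, mul_comm]
  · simp [hb 0 (by simp), f]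
  · simp [hb 1 (by simp), f]

/-- two orthonormal vectors are the first two columns of a special orthogonal matrix -/
theorem exists_SO_cols (hm : 1 ≤ m) {u v : Fin (m + 2) → ℝ} (hu : u ⬝ᵥ u = 1) (hv : v ⬝ᵥ v = 1)
    (huv : u ⬝ᵥ v = 0) :
    ∃ R ∈ Matrix.specialOrthogonalGroup (Fin (m + 2)) ℝ, ∀ i, R i 0 = u i ∧ R i 1 = v i := by
  classical
  obtain ⟨R, hR, hc⟩ := orbit_O_cols hu hv huv
  have hdet : R.det * R.det = 1 := by
    have := congrArg Matrix.det hR
    rwa [Matrix.det_mul, Matrix.det_transpose, Matrix.det_one] at this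
  let j0 : Fin (m + 2) := (⟨0, hm⟩ : Fin m).succ.succ
  have hj0 : (0 : Fin (m + 2)) ≠ j0 := (Fin.succ_ne_zero _).symm
  have hj1 : (1 : Fin (m + 2)) ≠ j0 := by
    intro h
    have : (0 : Fin (m + 1)).succ = (⟨0, hm⟩ : Fin m).succ.succ := h
    exact Fin.succ_ne_zero _ (Fin.succ_injective _ this).symm
  let e : Fin (m + 2) → ℝ := Function.update 1 j0 R.det
  have he : ∀ j, e j * e j = 1 := by
    intro j
    by_cases h : j = j0
    · subst h; simp [e, hdet]
    · simp [e, Function.update_of_ne h]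
  refine ⟨R * Matrix.diagonal e, ?_, fun i => ?_⟩
  · rw [Matrix.mem_specialOrthogonalGroup_iff, Matrix.mem_orthogonalGroup_iff']
    refine ⟨?_, ?_⟩
    · rw [Matrix.transpose_mul, Matrix.diagonal_transpose, Matrix.mul_assoc,
        ← Matrix.mul_assoc Rᵀ, hR, Matrix.one_mul, Matrix.diagonal_mul_diagonal]
      simp [he]
    · rw [Matrix.det_mul, Matrix.det_diagonal]
      have : ∏ i, e i = R.det := by
        simp only [e]
        rw [Finset.prod_update_of_mem (Finset.mem_univ _)]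
        simp
      rw [this, hdet]
  · simp [Matrix.mul_diagonal, e, Function.update_of_ne hj0, Function.update_of_ne hj1, hc i]

/-- every point with `|z₀| = s` lies on the orbit of the point `-s, x, i y` -/
theorem orbit_surj (hm : 1 ≤ m) (hodd : Odd d) {z : V (m + 2)} (hz : z ∈ W (m + 2) d)
    {s x y : ℝ} (hs : 0 < s) (hx : 0 < x) (hy : 0 < y) (hzs : ‖z.1‖ = s)
    (e1 : s ^ 2 + x ^ 2 + y ^ 2 = 1) (e2 : x ^ 2 = s ^ d + y ^ 2) :
    ∃ θ : ℝ, ∃ R ∈ Matrix.specialOrthogonalGroup (Fin (m + 2)) ℝ,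
      z = act (m + 2) d θ R (pl (-(s : ℂ)) (x : ℂ) (Complex.I * (y : ℂ))) := by
  obtain ⟨θ, hθ⟩ : ∃ θ : ℝ, z.1 = Complex.exp (2 * θ * Complex.I) * (-(s : ℂ)) := by
    refine ⟨Complex.arg (-z.1) / 2, ?_⟩
    have := Complex.norm_mul_exp_arg_mul_I (-z.1)
    rw [norm_neg, hzs] at this
    have e : (2 : ℂ) * ((Complex.arg (-z.1) / 2 : ℝ) : ℂ) * Complex.I =
        (Complex.arg (-z.1) : ℂ) * Complex.I := by push_cast; ring
    rw [e]
    linear_combination this
  have hone : (1 : Matrix (Fin (m + 2)) (Fin (m + 2)) ℝ) ∈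
      Matrix.specialOrthogonalGroup (Fin (m + 2)) ℝ := one_mem _
  obtain ⟨w, hw⟩ : ∃ w, w = act (m + 2) d (-θ) 1ᵀ z := ⟨_, rfl⟩
  have hwW : w ∈ W (m + 2) d := by rw [hw]; exact act_mem_W _ (transpose_mem_SO hone) hz
  have hzw : z = act (m + 2) d θ 1 w := by rw [hw, act_act_inv θ hone]
  have hw1 : w.1 = -(s : ℂ) := by
    rw [hw]
    simp only [act]
    rw [hθ, ← mul_assoc, ← Complex.exp_add]
    simp
  obtain ⟨h1, h2⟩ := hwW
  rw [hw1, hodd.neg_pow] at h1
  rw [hw1, norm_neg, Complex.norm_real, Real.norm_eq_abs, sq_abs] at h2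
  let ξ : Fin (m + 2) → ℝ := fun i => (w.2 i).re
  let ζ : Fin (m + 2) → ℝ := fun i => (w.2 i).im
  have r1 : ξ ⬝ᵥ ξ - ζ ⬝ᵥ ζ = s ^ d := by
    have := congrArg Complex.re h1
    simp only [Complex.add_re, Complex.neg_re, Complex.re_sum, Complex.zero_re,
      ← Complex.ofReal_pow, Complex.ofReal_re] at this
    simp only [dotProduct, ξ, ζ, ← Finset.sum_sub_distrib]
    have e : ∀ i, (w.2 i ^ 2).re = (w.2 i).re * (w.2 i).re - (w.2 i).im * (w.2 i).im := by
      intro i; rw [sq, Complex.mul_re]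
    simp only [e] at this
    linarith
  have r2 : ξ ⬝ᵥ ζ = 0 := by
    have := congrArg Complex.im h1
    simp only [Complex.add_im, Complex.neg_im, Complex.im_sum, Complex.zero_im,
      ← Complex.ofReal_pow, Complex.ofReal_im] at this
    have e : ∀ i, (w.2 i ^ 2).im = 2 * ((w.2 i).re * (w.2 i).im) := by
      intro i; rw [sq, Complex.mul_im]; ring
    simp only [e, ← Finset.mul_sum] at this
    simp only [dotProduct, ξ, ζ]
    linarith
  have r3 : ξ ⬝ᵥ ξ + ζ ⬝ᵥ ζ = 1 - s ^ 2 := by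
    simp only [dotProduct, ξ, ζ, ← Finset.sum_add_distrib]
    have e : ∀ i, ‖w.2 i‖ ^ 2 = (w.2 i).re * (w.2 i).re + (w.2 i).im * (w.2 i).im := by
      intro i; rw [Complex.sq_norm, Complex.normSq_apply]
    simp only [e] at h2
    linarith
  have r4 : ξ ⬝ᵥ ξ = x ^ 2 := by linarith
  have r5 : ζ ⬝ᵥ ζ = y ^ 2 := by linarith
  obtain ⟨R, hR, hc⟩ := exists_SO_cols hm (u := x⁻¹ • ξ) (v := y⁻¹ • ζ)
    (by rw [smul_dotProduct, dotProduct_smul, r4, smul_eq_mul, smul_eq_mul]; field_simp)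
    (by rw [smul_dotProduct, dotProduct_smul, r5, smul_eq_mul, smul_eq_mul]; field_simp)
    (by rw [smul_dotProduct, dotProduct_smul, r2]; simp)
  refine ⟨θ, R, hR, ?_⟩
  have hwR : w = act (m + 2) d 0 R (pl (-(s : ℂ)) (x : ℂ) (Complex.I * (y : ℂ))) := by
    refine Prod.ext (by simp [act, hw1]) (funext fun i => ?_)
    simp only [act, sum_two, pl_zero, pl_one, pl_ss, mul_zero, Finset.sum_const_zero, add_zero,
      (hc i).1, (hc i).2, Pi.smul_apply, smul_eq_mul]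
    have hx' : (x : ℂ) ≠ 0 := by exact_mod_cast hx.ne'
    have hy' : (y : ℂ) ≠ 0 := by exact_mod_cast hy.ne'
    rw [← Complex.re_add_im (w.2 i)]
    simp only [ξ, ζ]
    push_cast
    simp only [mul_zero, zero_mul, Complex.exp_zero, one_mul]
    field_simp
  rw [hzw, hwR, act_act]
  simp

end Pool.Agent.Anco
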