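import Pool.Agent.Lib.MP_66983d_gt.Curve0
import Pool.Agent.Lib.MP_66983d_gt.Orbit
import Pool.Agent.Lib.MP_66983d_gt.Inv

set_option maxSynthPendingDepth 3

namespace Pool.Agent.Anco

open scoped ContDiff Topology
open Filter Set Matrix

variable {m d : ℕ} {g : V (m + 2) → V (m + 2) →L[ℝ] V (m + 2) →L[ℝ] ℝ} {δ : ℝ} {s x : ℝ → ℝ}

theorem diam_cross {σ : ℝ → ℝ} (hσ : Continuous σ) {A B : ℝ} (hAB : A ≤ B) (h0 : σ 0 ≤ A)
    (h1 : B ≤ σ 1) : ∃ u0 u1 : ℝ, 0 ≤ u0 ∧ u0 ≤ u1 ∧ u1 ≤ 1 ∧ σ u0 = A ∧ σ u1 = B ∧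
      ∀ u ∈ Icc u0 u1, σ u ∈ Icc A B := by
  have hc : ∀ a b y : ℝ, IsCompact (Icc a b ∩ σ ⁻¹' {y}) := fun a b y =>
    isCompact_Icc.inter_right (isClosed_singleton.preimage hσ)
  have iv : ∀ {a b y : ℝ}, a ≤ b → σ a ≤ y → y ≤ σ b → (Icc a b ∩ σ ⁻¹' {y}).Nonempty :=
    fun hab ha hb =>
      let ⟨u, hu, e⟩ := intermediate_value_Icc hab hσ.continuousOn ⟨ha, hb⟩
      ⟨u, hu, e⟩
  obtain ⟨u0, ⟨m0, e0⟩, g0⟩ := (hc 0 1 A).exists_isGreatest (iv zero_le_one h0 (hAB.trans h1))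
  have e0 : σ u0 = A := e0
  obtain ⟨u1, ⟨m1, e1⟩, g1⟩ := (hc u0 1 B).exists_isLeast (iv m0.2 (e0.le.trans hAB) h1)
  have e1 : σ u1 = B := e1
  refine ⟨u0, u1, m0.1, m1.1, m1.2, e0, e1, fun u hu => ⟨?_, ?_⟩⟩
  · by_contra hn
    obtain ⟨w, hw, e⟩ := iv (hu.2.trans m1.2) (not_le.1 hn).le (hAB.trans h1)
    have := g0 ⟨⟨m0.1.trans (hu.1.trans hw.1), hw.2⟩, e⟩
    have h2 : u = u0 := le_antisymm (hw.1.trans this) hu.1
    exact hn (by rw [h2, e0])
  · by_contra hn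
    obtain ⟨w, hw, e⟩ := iv hu.1 (e0.le.trans hAB) (not_le.1 hn).le
    have := g1 ⟨⟨hw.1, hw.2.trans (hu.2.trans m1.2)⟩, e⟩
    have h2 : u = u1 := le_antisymm hu.2 (this.trans hw.2)
    exact hn (by rw [h2, e1])

theorem diam_int {σ ℓ F : ℝ → ℝ} (hσ : Continuous σ) (hℓ : Continuous ℓ) (hℓ0 : ∀ u, 0 ≤ ℓ u)
    {A B : ℝ} (hAB : A ≤ B) (h0 : σ 0 ≤ A) (h1 : B ≤ σ 1) (hF : ContinuousOn F (Icc A B))
    (hd : ∀ u ∈ Ioo (0 : ℝ) 1, σ u ∈ Icc A B →
      ∃ r, HasDerivAt (fun t => F (σ t)) r u ∧ r ≤ ℓ u) :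
    F B - F A ≤ ∫ u in (0 : ℝ)..1, ℓ u := by
  obtain ⟨u0, u1, a0, a1, a2, e0, e1, hm⟩ := diam_cross hσ hAB h0 h1
  have hd' : ∀ u ∈ Ioo u0 u1, ∃ r, HasDerivAt (fun t => F (σ t)) r u ∧ r ≤ ℓ u := fun u hu =>
    hd u ⟨a0.trans_lt hu.1, hu.2.trans_le a2⟩ (hm u (Ioo_subset_Icc_self hu))
  have key := intervalIntegral.sub_le_integral_of_hasDeriv_right_of_le
    (g := fun t => F (σ t)) (g' := deriv fun t => F (σ t)) (φ := ℓ) a1
    (hF.comp hσ.continuousOn hm)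
    (fun u hu => let ⟨_, h, _⟩ := hd' u hu; h.differentiableAt.hasDerivAt.hasDerivWithinAt)
    hℓ.integrableOn_Icc (fun u hu => let ⟨_, h, h'⟩ := hd' u hu; h.deriv ▸ h')
  simp only [e0, e1] at key
  exact key.trans (intervalIntegral.integral_mono_interval a0 a1 a2
    (Eventually.of_forall hℓ0) (hℓ.intervalIntegrable _ _))

theorem diam_norm {ζ : ℝ → ℂ} {ζ' : ℂ} {u a : ℝ} (h : HasDerivAt ζ ζ' u) (ha : 0 < a)
    (e : ζ u = -(a : ℂ)) : HasDerivAt (fun t => ‖ζ t‖) (-ζ'.re) u := by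
  have hn : ‖ζ u‖ = a := by rw [e, norm_neg, Complex.norm_real, Real.norm_of_nonneg ha.le]
  have h1 := h.norm_sq.sqrt (by rw [hn]; positivity)
  simp only [Real.sqrt_sq (norm_nonneg _)] at h1
  convert h1 using 1
  rw [hn, e, Complex.inner]
  simp
  field_simp

theorem length_le_diam (hm : 1 ≤ m) (hd : 3 ≤ d) (hodd : Odd d) (hg : IsMetric (m + 2) d g)
    (hI : Invariant (m + 2) d g) (h : C0 d δ s x) {N T : ℝ → ℝ}
    (hT : ∀ τ ∈ Icc 0 (Real.pi / 2), HasDerivAt T (N τ) τ)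
    (hkey : ∀ τ ∈ Ioo 0 (Real.pi / 2), ∀ v ∈ Tan (m + 2) d (c0 s x τ),
      N τ ^ 2 * v.1.re ^ 2 ≤ deriv s τ ^ 2 * g (c0 s x τ) v v)
    {D : ℝ} (hD : DiamLe (m + 2) d g D) : T (Real.pi / 2) - T 0 ≤ D := by
  have hπ := Real.pi_pos
  have hδ := h.δpos
  have hsub : ∀ τ ∈ Icc 0 (Real.pi / 2), τ ∈ Ioo (-δ) (Real.pi + δ) := fun τ hτ =>
    ⟨by linarith [hτ.1], by linarith [hτ.2]⟩
  have hsub' : Ioo 0 (Real.pi / 2) ⊆ Ioo (-δ) (Real.pi + δ) := fun τ hτ =>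
    hsub τ (Ioo_subset_Icc_self hτ)
  obtain ⟨k, -, -, hk, hmono, hdk⟩ := smooth_inverse (h.cs.mono hsub') h.dspos
  have hF : ∀ τ ∈ Ioo 0 (Real.pi / 2),
      HasDerivAt (fun y => T (k y)) (N τ * (deriv s τ)⁻¹) (s τ) := fun τ hτ => by
    have h1 : HasDerivAt T (N τ) (k (s τ)) := by
      rw [hk τ hτ]
      exact hT τ (Ioo_subset_Icc_self hτ)
    exact h1.comp _ (hdk τ hτ)
  refine le_of_forall_pos_le_add fun η hη => ?_
  obtain ⟨γ, hγ, g0, g1, hW, hint⟩ := hD _ (h.mem_W hodd (hsub 0 ⟨le_rfl, by linarith⟩)) _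
    (h.mem_W hodd (hsub (Real.pi / 2) ⟨by linarith, le_rfl⟩)) η hη
  have hγc := hγ.continuous
  have hγ' := hγ.continuous_deriv le_rfl
  have main : ∀ a ∈ Ioo 0 (Real.pi / 4), T (Real.pi / 2 - a) - T a ≤ D + η := fun a ha => by
    have ha' : a ∈ Ioo 0 (Real.pi / 2) := ⟨ha.1, by linarith [ha.2]⟩
    have hb' : Real.pi / 2 - a ∈ Ioo 0 (Real.pi / 2) := ⟨by linarith [ha.2], by linarith [ha.1]⟩
    have hab : a ≤ Real.pi / 2 - a := by linarith [ha.2]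
    have hI' : Icc a (Real.pi / 2 - a) ⊆ Ioo 0 (Real.pi / 2) := Icc_subset_Ioo ha'.1 hb'.2
    have hiv := intermediate_value_Icc hab (h.cs.continuousOn.mono (hI'.trans hsub'))
    have key := diam_int (σ := fun u => ‖(γ u).1‖)
      (ℓ := fun u => Real.sqrt (g (γ u) (deriv γ u) (deriv γ u))) (F := fun y => T (k y))
      hγc.fst.norm (((hg.1.continuous.comp hγc).clm_apply hγ').clm_apply hγ').sqrt
      (fun u => Real.sqrt_nonneg _) (hmono.monotoneOn ha' hb' hab)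
      (by
        simp only [g0, c0, pl_fst, h.s0, Complex.ofReal_zero, neg_zero, norm_zero]
        exact (h.spos a ⟨ha.1, by linarith [ha.2]⟩).le)
      (by
        simp only [g1, c0, pl_fst, norm_neg, Complex.norm_real, Real.norm_eq_abs]
        exact (h.s_half_lt hb').le.trans (le_abs_self _))
      (fun y hy => by
        obtain ⟨τ, hτ, rfl⟩ := hiv hy
        exact (hF τ (hI' hτ)).continuousAt.continuousWithinAt)
      (fun u hu hy => by
        obtain ⟨τ, hτ, e⟩ := hiv hy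
        have hτ' := hI' hτ
        have hτ'' := hsub' hτ'
        have hs : 0 < s τ := h.spos τ ⟨hτ'.1, by linarith [hτ'.2]⟩
        have hcos : 0 < Real.cos τ := Real.cos_pos_of_mem_Ioo ⟨by linarith [hτ'.1], hτ'.2⟩
        have hy2 : (Real.cos τ / Real.sqrt 2) ^ 2 = Real.cos τ ^ 2 / 2 := by
          rw [div_pow, Real.sq_sqrt zero_le_two]
        obtain ⟨θ, R, hR, hz⟩ := orbit_surj hm hodd (hW u (Ioo_subset_Icc_self hu)) hs
          (h.xpos τ hτ'') (y := Real.cos τ / Real.sqrt 2) (by positivity) e.symm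
          (by
            rw [hy2, h.e2 τ hτ'']
            linarith [h.e1 τ hτ'', Real.sin_sq_add_cos_sq τ])
          (by rw [hy2, h.e2 τ hτ''])
        change γ u = act (m + 2) d θ R (c0 s x τ) at hz
        have hdγ : HasDerivAt γ (deriv γ u) u := (hγ.differentiable one_ne_zero u).hasDerivAt
        have hc : act (m + 2) d (-θ) Rᵀ (γ u) = c0 s x τ := by rw [hz, act_inv_act θ hR]
        have hv : act (m + 2) d (-θ) Rᵀ (deriv γ u) ∈ Tan (m + 2) d (c0 s x τ) := by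
          rw [← hc]
          exact act_mem_Tan (by omega) _ (transpose_mem_SO hR) (tan_of_curve hdγ
            (mem_of_superset (Icc_mem_nhds hu.1 hu.2) hW))
        have hgv := hI θ R hR _ (h.mem_W hodd hτ'') _ hv _ hv
        rw [act_act_inv θ hR, ← hz] at hgv
        have h1 := (actL (m + 2) d (-θ) Rᵀ).hasFDerivAt.comp_hasDerivAt u hdγ
        have h1' : HasDerivAt (fun t => (act (m + 2) d (-θ) Rᵀ (γ t)).1)
            (act (m + 2) d (-θ) Rᵀ (deriv γ u)).1 u :=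
          (ContinuousLinearMap.fst ℝ ℂ (Fin (m + 2) → ℂ)).hasFDerivAt.comp_hasDerivAt u h1
        have h2 := diam_norm h1' hs (by rw [hc]; rfl)
        have h3 : ∀ t, ‖(act (m + 2) d (-θ) Rᵀ (γ t)).1‖ = ‖(γ t).1‖ := fun t => by
          have : (2 : ℂ) * ((-θ : ℝ) : ℂ) * Complex.I = ((2 * -θ : ℝ) : ℂ) * Complex.I := by
            push_cast
            ring
          simp only [act, norm_mul]
          rw [this, Complex.norm_exp_ofReal_mul_I, one_mul]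
        simp only [h3] at h2
        have h4 := hF τ hτ'
        rw [e] at h4
        have h7 := HasDerivAt.comp (h := fun t => ‖(γ t).1‖) u h4 h2
        refine ⟨_, h7, Real.le_sqrt_of_sq_le ?_⟩
        have h5 := hkey τ hτ' _ hv
        have h6 := h.dspos τ hτ'
        rw [hgv]
        calc _ = N τ ^ 2 * (act (m + 2) d (-θ) Rᵀ (deriv γ u)).1.re ^ 2 / deriv s τ ^ 2 := by
              field_simp
          _ ≤ _ := by rwa [div_le_iff₀' (by positivity)])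
    simp only [hk a ha', hk _ hb'] at key
    exact key.trans hint
  have c1 : ContinuousAt T (Real.pi / 2 - 0) := by
    rw [sub_zero]
    exact (hT _ ⟨by linarith, le_rfl⟩).continuousAt
  have c2 : ContinuousAt (fun a => T (Real.pi / 2 - a) - T a) 0 :=
    (c1.comp (by fun_prop)).sub (hT 0 ⟨le_rfl, by linarith⟩).continuousAt
  have := le_of_tendsto (c2.tendsto.mono_left (nhdsWithin_le_nhds (s := Ioi 0)))
    (mem_of_superset (Ioo_mem_nhdsGT (by linarith : (0 : ℝ) < Real.pi / 4)) main)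
  simpa using this

end Pool.Agent.Anco
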