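import Pool.Agent.Lib.MP_66983d_gt.Act2

set_option maxSynthPendingDepth 3

namespace Pool.Agent.Anco

open scoped ContDiff Topology
open Filter Set Matrix

variable {m d : ℕ} {g : V (m + 2) → V (m + 2) →L[ℝ] V (m + 2) →L[ℝ] ℝ}

theorem sing0_pl (v : ℂ) : (pl v 0 0 : V (m + 2)) = (v, 0) :=
  V_ext rfl rfl rfl fun _ => rfl

theorem sing0_theta (hd : 3 ≤ d) (hodd : Odd d) : ∃ θ : ℝ,
    Complex.exp (d * θ * Complex.I) = 1 ∧ Complex.exp (d * (-θ : ℝ) * Complex.I) = 1 ∧
      Real.sin (2 * θ) ≠ 0 := by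
  have hd0 : (d : ℝ) ≠ 0 := by positivity
  have hd1 : (d : ℂ) ≠ 0 := by exact_mod_cast hd0
  have h1 : Complex.exp (d * (2 * Real.pi / d : ℝ) * Complex.I) = 1 := by
    rw [← Complex.exp_two_pi_mul_I]
    congr 1
    push_cast
    field_simp
  refine ⟨2 * Real.pi / d, h1, ?_, fun h => ?_⟩
  · rw [Complex.ofReal_neg, mul_neg, neg_mul, Complex.exp_neg, h1, inv_one]
  · obtain ⟨k, hk⟩ := Real.sin_eq_zero_iff.1 h
    have h2 : (k : ℝ) * d = 4 := by
      have := Real.pi_pos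
      field_simp at hk
      linarith
    have h3 : k * (d : ℤ) = 4 := by exact_mod_cast h2
    have h4 : d ∣ 4 := by
      have : (d : ℤ) ∣ 4 := ⟨k, by rw [← h3, mul_comm]⟩
      exact_mod_cast this
    have h5 := Nat.le_of_dvd (by norm_num) h4
    obtain ⟨j, hj⟩ := hodd
    interval_cases d
    · omega
    · omega

theorem sing0_act {θ : ℝ} (h : Complex.exp (d * θ * Complex.I) = 1) (z : V (m + 2)) :
    act (m + 2) d θ (rot 0) z = (Complex.exp (2 * θ * Complex.I) * z.1, z.2) := by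
  rw [rot_zero]
  refine Prod.ext rfl (funext fun i => ?_)
  simp [act, h, Matrix.one_apply, apply_ite]

theorem sing0_act_fix {θ : ℝ} (h : Complex.exp (d * θ * Complex.I) = 1) {z : V (m + 2)}
    (hz : z.1 = 0) : act (m + 2) d θ (rot 0) z = z := by
  rw [sing0_act h]
  exact Prod.ext (by simp [hz]) rfl

theorem sing0_act_pl {θ : ℝ} (h : Complex.exp (d * θ * Complex.I) = 1) (v : ℂ) :
    act (m + 2) d θ (rot 0) (pl v 0 0) = pl (Complex.exp (2 * θ * Complex.I) * v) 0 0 := by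
  rw [sing0_act h]
  rfl

theorem sing0_exp (θ : ℝ) : Complex.exp (2 * θ * Complex.I) =
    (Real.cos (2 * θ) : ℝ) + (Real.sin (2 * θ) : ℝ) * Complex.I := by
  rw [Complex.exp_mul_I]
  push_cast
  rfl

/-- a linear form that does not change under the two rotations vanishes -/
theorem sing0_lin (l : V (m + 2) →L[ℝ] ℝ) {θ : ℝ} (hs : Real.sin (2 * θ) ≠ 0) (v : ℂ)
    (h1 : l (pl (Complex.exp (2 * θ * Complex.I) * v) 0 0) = l (pl v 0 0))
    (h2 : l (pl (Complex.exp (2 * (-θ : ℝ) * Complex.I) * v) 0 0) = l (pl v 0 0)) :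
    l (pl v 0 0) = 0 := by
  have e : (pl (Complex.exp (2 * θ * Complex.I) * v) 0 0 : V (m + 2)) +
      pl (Complex.exp (2 * (-θ : ℝ) * Complex.I) * v) 0 0 =
      (2 * Real.cos (2 * θ)) • pl v 0 0 := by
    simp only [sing0_pl, sing0_exp, mul_neg, Real.cos_neg, Real.sin_neg]
    refine Prod.ext ?_ (by simp)
    simp only [Prod.fst_add, Prod.smul_fst, Complex.real_smul]
    push_cast
    ring
  have h3 := congrArg l e
  rw [map_add, map_smul, h1, h2, smul_eq_mul] at h3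
  have h4 : Real.cos (2 * θ) ≠ 1 := fun h => hs (by
    have := Real.sin_sq_add_cos_sq (2 * θ)
    rw [h] at this
    exact pow_eq_zero_iff (two_ne_zero) |>.1 (by linarith))
  have h5 : (Real.cos (2 * θ) - 1) * l (pl v 0 0) = 0 := by linarith
  exact (mul_eq_zero.1 h5).resolve_left (sub_ne_zero.2 h4)

theorem sing0_expand (B : V (m + 2) →L[ℝ] V (m + 2) →L[ℝ] ℝ) (u v : ℂ) :
    B (pl u 0 0) (pl v 0 0) = u.re * v.re * B (pl (-1) 0 0) (pl (-1) 0 0) +
      u.re * v.im * B (pl (-1) 0 0) (pl (-Complex.I) 0 0) +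
      u.im * v.re * B (pl (-Complex.I) 0 0) (pl (-1) 0 0) +
      u.im * v.im * B (pl (-Complex.I) 0 0) (pl (-Complex.I) 0 0) := by
  have e : ∀ w : ℂ, (pl w 0 0 : V (m + 2)) =
      (-w.re) • pl (-1) 0 0 + (-w.im) • pl (-Complex.I) 0 0 := fun w => by
    simp only [sing0_pl]
    refine Prod.ext ?_ (by simp)
    simp
  rw [e u, e v]
  simp only [map_add, map_smul, _root_.add_apply, _root_.smul_apply,
    smul_eq_mul]
  ring

theorem fst_mem_Tan (hd : 3 ≤ d) {p : V (m + 2)} (hp0 : p.1 = 0) (v : ℂ) :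
    (pl v 0 0 : V (m + 2)) ∈ Tan (m + 2) d p := by
  have h : d - 1 ≠ 0 := by omega
  rw [sing0_pl]
  simp [Tan, hp0, h]

/-- on the orbit `z₀ = 0` the first coordinate line is orthogonal to the orbit -/
theorem sing0_orth (hd : 3 ≤ d) (hodd : Odd d) (hI : Invariant (m + 2) d g) {p : V (m + 2)}
    (hp : p ∈ W (m + 2) d) (hp0 : p.1 = 0) (v : ℂ) {w : V (m + 2)} (hw : w ∈ Tan (m + 2) d p)
    (hw0 : w.1 = 0) : g p (pl v 0 0) w = 0 := by
  obtain ⟨θ, h1, h2, hs⟩ := sing0_theta hd hodd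
  have key : ∀ θ' : ℝ, Complex.exp (d * θ' * Complex.I) = 1 →
      g p (pl (Complex.exp (2 * θ' * Complex.I) * v) 0 0) w = g p (pl v 0 0) w := fun θ' h => by
    have := hI θ' _ (rot_mem_SO 0) p hp _ (fst_mem_Tan hd hp0 v) w hw
    rwa [sing0_act_fix h hp0, sing0_act_fix h hw0, sing0_act_pl h] at this
  exact sing0_lin ((g p).flip w) hs v (key θ h1) (key (-θ) h2)

/-- on the orbit `z₀ = 0` the metric on the first coordinate line is conformal -/
theorem sing0_conf (hd : 3 ≤ d) (hodd : Odd d) (hg : IsMetric (m + 2) d g)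
    (hI : Invariant (m + 2) d g) {p : V (m + 2)} (hp : p ∈ W (m + 2) d) (hp0 : p.1 = 0)
    (u v : ℂ) :
    g p (pl u 0 0) (pl v 0 0) = ((starRingEnd ℂ) u * v).re * g p (pl (-1) 0 0) (pl (-1) 0 0) := by
  obtain ⟨θ, h1, -, hs⟩ := sing0_theta hd hodd
  have key : ∀ a b : ℂ, g p (pl (Complex.exp (2 * θ * Complex.I) * a) 0 0)
      (pl (Complex.exp (2 * θ * Complex.I) * b) 0 0) = g p (pl a 0 0) (pl b 0 0) := fun a b => by
    have := hI θ _ (rot_mem_SO 0) p hp _ (fst_mem_Tan hd hp0 a) _ (fst_mem_Tan hd hp0 b)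
    rwa [sing0_act_fix h1 hp0, sing0_act_pl h1, sing0_act_pl h1] at this
  have hsym := hg.2.1 p (pl (-Complex.I) 0 0) (pl (-1) 0 0)
  have k1 := key (-1) (-1)
  have k2 := key (-1) (-Complex.I)
  rw [sing0_expand, sing0_exp, hsym] at k1 k2
  rw [sing0_expand, hsym]
  have hcs := Real.sin_sq_add_cos_sq (2 * θ)
  generalize Real.sin (2 * θ) = s at *
  generalize Real.cos (2 * θ) = c at *
  generalize g p (pl (-1) 0 0) (pl (-1) 0 0) = a at *
  generalize g p (pl (-1) 0 0) (pl (-Complex.I) 0 0) = b at *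
  generalize g p (pl (-Complex.I) 0 0) (pl (-Complex.I) 0 0) = e at *
  simp at k1 k2
  have e1 : 2 * c * b + s * (e - a) = 0 :=
    mul_left_cancel₀ hs (by linear_combination k1 - a * hcs)
  have e2 : c * (e - a) - 2 * s * b = 0 :=
    mul_left_cancel₀ hs (by linear_combination k2 - b * hcs)
  have e3 : e = a := by linear_combination s * e1 + c * e2 - (e - a) * hcs
  have e4 : b = 0 := by linear_combination (c / 2) * e1 - (s / 2) * e2 - b * hcs
  rw [e3, e4]
  simp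
  ring

/-- at a base point of the first singular orbit the metric on the third coordinate line is invariant under
multiplication by `i` -/
theorem sing0_beta [NeZero m] (hd : 3 ≤ d) (hI : Invariant (m + 2) d g) {z1 : ℂ}
    (hp : pl 0 z1 (Complex.I * z1) ∈ W (m + 2) d) (a b : ℂ) :
    beta g (pl 0 z1 (Complex.I * z1)) (Complex.I * a) (Complex.I * b) =
      beta g (pl 0 z1 (Complex.I * z1)) a b := by
  have hd0 : (d : ℝ) ≠ 0 := by positivity
  have hd1 : (d : ℂ) ≠ 0 := by exact_mod_cast hd0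
  have h1 : Complex.exp (d * (Real.pi / (2 * d) : ℝ) * Complex.I) = Complex.I := by
    conv_rhs => rw [← Complex.exp_pi_div_two_mul_I]
    congr 1
    push_cast
    field_simp
  have h := beta_act_rot hI (Real.pi / (2 * d)) (-(Real.pi / 2)) hp (isPl_pl _ _ _) a b
  rw [act_rot_pl, h1] at h
  rw [← h]
  congr 2
  · simp
  · simp [← mul_assoc]
  · simp

/-- a function invariant under the circle has vanishing derivative normal to `z₀ = 0` -/
theorem sing0_deriv (hd : 3 ≤ d) (hodd : Odd d) {F : V (m + 2) → ℝ} {c : ℝ → V (m + 2)} {v : ℂ}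
    (hF : DifferentiableAt ℝ F (c 0)) (hc : HasDerivAt c (pl v 0 0) 0) (hc0 : (c 0).1 = 0)
    (hinv : ∀ θ : ℝ, ∀ᶠ t in 𝓝 (0 : ℝ), F (act (m + 2) d θ (rot 0) (c t)) = F (c t)) :
    HasDerivAt (fun t => F (c t)) 0 0 := by
  obtain ⟨θ, h1, h2, hs⟩ := sing0_theta hd hodd
  have h0 : HasDerivAt (fun t => F (c t)) (fderiv ℝ F (c 0) (pl v 0 0)) 0 :=
    hF.hasFDerivAt.comp_hasDerivAt 0 hc
  have key : ∀ θ' : ℝ, Complex.exp (d * θ' * Complex.I) = 1 →
      fderiv ℝ F (c 0) (pl (Complex.exp (2 * θ' * Complex.I) * v) 0 0) =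
        fderiv ℝ F (c 0) (pl v 0 0) := fun θ' h => by
    have a1 : HasDerivAt (fun t => act (m + 2) d θ' (rot 0) (c t))
        (act (m + 2) d θ' (rot 0) (pl v 0 0)) 0 :=
      (actL (m + 2) d θ' (rot 0)).hasFDerivAt.comp_hasDerivAt 0 hc
    have a2 : HasFDerivAt F (fderiv ℝ F (c 0)) (act (m + 2) d θ' (rot 0) (c 0)) := by
      rw [sing0_act_fix h hc0]
      exact hF.hasFDerivAt
    have a3 := a2.comp_hasDerivAt 0 a1
    rw [sing0_act_pl h] at a3
    exact a3.unique (h0.congr_of_eventuallyEq (hinv θ'))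
  rwa [sing0_lin _ hs v (key θ h1) (key (-θ) h2)] at h0

end Pool.Agent.Anco
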