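import Pool.Agent.Lib.MP_66983d_gt.Curve0
import Pool.Agent.Lib.MP_66983d_gt.Sing0

set_option maxSynthPendingDepth 3

namespace Pool.Agent.Anco

open scoped ContDiff Topology
open Filter Set Matrix

theorem end0_bdd_mul {l : Filter ℝ} {u f : ℝ → ℝ} (hu : ∀ τ, |u τ| ≤ 2)
    (hf : Tendsto f l (𝓝 0)) : Tendsto (fun τ => u τ * f τ) l (𝓝 0) := by
  have h2 : Tendsto (fun τ => 2 * |f τ|) l (𝓝 0) := by
    simpa using hf.abs.const_mul 2
  refine squeeze_zero_norm (fun τ => ?_) h2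
  rw [Real.norm_eq_abs, abs_mul]
  exact mul_le_mul_of_nonneg_right (hu τ) (abs_nonneg _)

theorem end0_lim {F : ℝ → ℝ} {b : ℝ}
    (hF : Tendsto (fun τ => (F τ - b) / τ) (𝓝[>] 0) (𝓝 0)) : Tendsto F (𝓝[>] 0) (𝓝 b) := by
  have h1 : Tendsto (fun τ : ℝ => τ) (𝓝[>] 0) (𝓝 0) := tendsto_id.mono_left nhdsWithin_le_nhds
  have h2 := (hF.mul h1).add_const b
  rw [zero_mul, zero_add] at h2
  refine h2.congr' ?_
  filter_upwards [self_mem_nhdsWithin] with τ hτ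
  have : τ ≠ 0 := ne_of_gt hτ
  field_simp
  ring

theorem end0_sqrt {F : ℝ → ℝ} {a : ℝ} (ha : 0 < a)
    (hF : Tendsto (fun τ => (F τ - a ^ 2) / τ) (𝓝[>] 0) (𝓝 0)) :
    Tendsto (fun τ => (Real.sqrt (F τ) - a) / τ) (𝓝[>] 0) (𝓝 0) := by
  have h1 := end0_lim hF
  have h2 : Tendsto (fun τ => (Real.sqrt (F τ) + a)⁻¹) (𝓝[>] 0) (𝓝 (Real.sqrt (a ^ 2) + a)⁻¹) :=
    (h1.sqrt.add_const a).inv₀ (by positivity)
  have h3 := hF.mul h2
  rw [zero_mul] at h3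
  refine h3.congr' ?_
  filter_upwards [self_mem_nhdsWithin, h1.eventually (lt_mem_nhds (pow_pos ha 2))] with τ hτ h0
  have h4 : τ ≠ 0 := ne_of_gt hτ
  have h5 : Real.sqrt (F τ) + a ≠ 0 := by positivity
  have h6 := Real.sq_sqrt h0.le
  field_simp
  linear_combination -h6

theorem end0_slope {F : ℝ → ℝ} (hF : HasDerivAt F 0 0) :
    Tendsto (fun τ => (F τ - F 0) / τ) (𝓝[>] 0) (𝓝 0) := by
  have h := hF.tendsto_slope_zero_right
  refine h.congr fun τ => ?_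
  rw [zero_add, smul_eq_mul, div_eq_inv_mul]

theorem end0_real {A B C q : ℝ → ℝ} {A' B' C' : ℝ → ℝ} {a : ℝ} (ha : 0 < a)
    (hA : Tendsto (fun τ => (A τ - a ^ 2) / τ) (𝓝[>] 0) (𝓝 0))
    (hB : Tendsto (fun τ => (B τ - 0) / τ) (𝓝[>] 0) (𝓝 0))
    (hC : Tendsto (fun τ => (C τ - a ^ 2) / τ) (𝓝[>] 0) (𝓝 0))
    (h : ∀ᶠ τ in 𝓝[>] (0 : ℝ),
      A' τ = Real.cos (q τ) ^ 2 * A τ + 2 * Real.cos (q τ) * Real.sin (q τ) * B τ +
        Real.sin (q τ) ^ 2 * C τ ∧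
      B' τ = Real.cos (q τ) * Real.sin (q τ) * (C τ - A τ) +
        (Real.cos (q τ) ^ 2 - Real.sin (q τ) ^ 2) * B τ ∧
      C' τ = Real.sin (q τ) ^ 2 * A τ - 2 * Real.cos (q τ) * Real.sin (q τ) * B τ +
        Real.cos (q τ) ^ 2 * C τ) :
    Tendsto (fun τ => (Real.sqrt (A' τ - B' τ ^ 2 / C' τ) - a) / τ) (𝓝[>] 0) (𝓝 0) ∧
      Tendsto (fun τ => (Real.sqrt (C' τ) - a) / τ) (𝓝[>] 0) (𝓝 0) ∧
      Tendsto (fun τ => B' τ / C' τ) (𝓝[>] 0) (𝓝 0) := by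
  have hcc : ∀ τ, |Real.cos (q τ) ^ 2| ≤ 2 := fun τ => by
    rw [abs_of_nonneg (sq_nonneg _)]
    linarith [Real.cos_sq_le_one (q τ)]
  have hss : ∀ τ, |Real.sin (q τ) ^ 2| ≤ 2 := fun τ => by
    rw [abs_of_nonneg (sq_nonneg _)]
    linarith [Real.sin_sq_le_one (q τ)]
  have hcs : ∀ τ, |Real.cos (q τ) * Real.sin (q τ)| ≤ 2 := fun τ => by
    rw [abs_le]
    constructor <;> nlinarith [Real.sin_sq_add_cos_sq (q τ), sq_nonneg (Real.cos (q τ) +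
      Real.sin (q τ)), sq_nonneg (Real.cos (q τ) - Real.sin (q τ))]
  have hA' : Tendsto (fun τ => (A' τ - a ^ 2) / τ) (𝓝[>] 0) (𝓝 0) := by
    have h1 := ((end0_bdd_mul hcc hA).add ((end0_bdd_mul hcs hB).const_mul 2)).add
      (end0_bdd_mul hss hC)
    simp only [mul_zero, add_zero] at h1
    refine h1.congr' ?_
    filter_upwards [h] with τ hτ
    rw [hτ.1]
    linear_combination (-(a ^ 2) / τ) * Real.sin_sq_add_cos_sq (q τ)
  have hB' : Tendsto (fun τ => (B' τ - 0) / τ) (𝓝[>] 0) (𝓝 0) := by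
    have h1 := (((end0_bdd_mul hcs hC).sub (end0_bdd_mul hcs hA)).add
      (end0_bdd_mul hcc hB)).sub (end0_bdd_mul hss hB)
    simp only [sub_zero, add_zero] at h1
    refine h1.congr' ?_
    filter_upwards [h] with τ hτ
    rw [hτ.2.1]
    ring
  have hC' : Tendsto (fun τ => (C' τ - a ^ 2) / τ) (𝓝[>] 0) (𝓝 0) := by
    have h1 := ((end0_bdd_mul hss hA).sub ((end0_bdd_mul hcs hB).const_mul 2)).add
      (end0_bdd_mul hcc hC)
    simp only [mul_zero, add_zero, sub_zero] at h1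
    refine h1.congr' ?_
    filter_upwards [h] with τ hτ
    rw [hτ.2.2]
    linear_combination (-(a ^ 2) / τ) * Real.sin_sq_add_cos_sq (q τ)
  have hμ : Tendsto (fun τ => B' τ / C' τ) (𝓝[>] 0) (𝓝 0) := by
    have h1 := (end0_lim hB').div (end0_lim hC') (pow_pos ha 2).ne'
    rwa [zero_div] at h1
  refine ⟨end0_sqrt ha ?_, end0_sqrt ha hC', hμ⟩
  have h1 := hA'.sub (hB'.mul hμ)
  rw [zero_mul, sub_zero] at h1
  refine h1.congr fun τ => ?_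
  ring

variable {m d : ℕ} [NeZero m] {g : V (m + 2) → V (m + 2) →L[ℝ] V (m + 2) →L[ℝ] ℝ} {δ : ℝ}
  {s x : ℝ → ℝ}

theorem end0_diff (hg : IsMetric (m + 2) d g) (i j : Fin (m + 2)) :
    Differentiable ℝ (fun z : V (m + 2) => beta g z (z.2 i) (z.2 j)) := by
  have h1 : Differentiable ℝ (fun p : V (m + 2) × ℂ × ℂ => beta g p.1 p.2.1 p.2.2) :=
    (contDiff_beta hg).differentiable (by simp)
  have h2 : Differentiable ℝ (fun z : V (m + 2) => ((z, z.2 i, z.2 j) : V (m + 2) × ℂ × ℂ)) := by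
    fun_prop
  exact h1.comp h2

theorem end0_ab (hd : 3 ≤ d) (hodd : Odd d) (hg : IsMetric (m + 2) d g)
    (hI : Invariant (m + 2) d g) (h : C0 d δ s x) (P Q : ℝ → ℝ) :
    ∃ a : ℝ, 0 < a ∧
      Tendsto (fun τ => (fphi g (chat d s x P Q τ) - a) / τ) (𝓝[>] 0) (𝓝 0) ∧
      Tendsto (fun τ => (fb g (chat d s x P Q τ) - a) / τ) (𝓝[>] 0) (𝓝 0) ∧
      Tendsto (fun τ => fmu g (chat d s x P Q τ)) (𝓝[>] 0) (𝓝 0) := by
  have h0 : (0 : ℝ) ∈ Ioo (-δ) (Real.pi + δ) :=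
    ⟨by linarith [h.δpos], by linarith [h.δpos, Real.pi_pos]⟩
  have hW : ∀ᶠ t in 𝓝 (0 : ℝ), (c0 s x t : V (m + 2)) ∈ W (m + 2) d := by
    filter_upwards [isOpen_Ioo.mem_nhds h0] with t ht using h.mem_W hodd ht
  have hc : HasDerivAt (c0 s x : ℝ → V (m + 2)) (pl (-1) 0 0) 0 := by
    rw [← h.dc0_zero hd]
    exact h.hasDerivAt_c0 h0
  have hz := h.c0_zero (m := m) hd
  have hc0 : (c0 s x 0 : V (m + 2)).1 = 0 := by rw [hz, pl_fst]
  have hW0 : (c0 s x 0 : V (m + 2)) ∈ W (m + 2) d := h.mem_W hodd h0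
  have hd1 : 1 ≤ d := by omega
  have hx0 : ((x 0 : ℝ) : ℂ) ≠ 0 := Complex.ofReal_ne_zero.mpr (h.xpos 0 h0).ne'
  have hpos : 0 < cAA g (c0 s x 0) := by
    refine beta_pos hg hW0 (c0_isPl 0) ?_
    rw [hz, pl_zero]
    exact hx0
  have hBB : cBB g (c0 s x 0) = cAA g (c0 s x 0) := by
    rw [hz] at hW0 ⊢
    simp only [cBB, cAA, pl_zero, pl_one]
    exact sing0_beta hd hI hW0 _ _
  have hAB : cAB g (c0 s x 0) = 0 := by
    rw [hz] at hW0 ⊢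
    simp only [cAB, pl_zero, pl_one]
    have h1 := sing0_beta hd hI hW0 ((x 0 : ℝ) : ℂ) (Complex.I * ((x 0 : ℝ) : ℂ))
    have h2 : Complex.I * (Complex.I * ((x 0 : ℝ) : ℂ)) = ((-1 : ℝ) : ℂ) * ((x 0 : ℝ) : ℂ) := by
      rw [← mul_assoc, Complex.I_mul_I]
      simp
    rw [h2, beta_smul_right, beta_symm hg] at h1
    linarith
  have dA : HasDerivAt (fun t => cAA g (c0 s x t)) 0 0 :=
    sing0_deriv (F := cAA g) hd hodd (end0_diff hg 0 0 _) hc hc0 fun θ => by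
      filter_upwards [hW] with t ht
      rw [(rot_gram hd1 hg hI θ 0 ht (c0_isPl t)).2.2.2.1]
      simp
  have dB : HasDerivAt (fun t => cAB g (c0 s x t)) 0 0 :=
    sing0_deriv (F := cAB g) hd hodd (end0_diff hg 0 1 _) hc hc0 fun θ => by
      filter_upwards [hW] with t ht
      rw [(rot_gram hd1 hg hI θ 0 ht (c0_isPl t)).2.2.2.2.1]
      simp
  have dC : HasDerivAt (fun t => cBB g (c0 s x t)) 0 0 :=
    sing0_deriv (F := cBB g) hd hodd (end0_diff hg 1 1 _) hc hc0 fun θ => by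
      filter_upwards [hW] with t ht
      rw [(rot_gram hd1 hg hI θ 0 ht (c0_isPl t)).2.2.2.2.2]
      simp
  have hA := end0_slope dA
  have hB := end0_slope dB
  have hC := end0_slope dC
  have hsq : cAA g (c0 s x 0) = Real.sqrt (cAA g (c0 s x 0)) ^ 2 := (Real.sq_sqrt hpos.le).symm
  simp only [hAB] at hB
  simp only [hBB] at hC
  rw [hsq] at hA hC
  refine ⟨Real.sqrt (cAA g (c0 s x 0)), Real.sqrt_pos.mpr hpos, ?_⟩
  refine end0_real (q := Q) (A' := fun τ => cAA g (chat d s x P Q τ))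
    (B' := fun τ => cAB g (chat d s x P Q τ)) (C' := fun τ => cBB g (chat d s x P Q τ))
    (Real.sqrt_pos.mpr hpos) hA hB hC ?_
  filter_upwards [nhdsWithin_le_nhds hW] with τ hτ
  exact (rot_gram hd1 hg hI (P τ) (Q τ) hτ (c0_isPl τ)).2.2.2

end Pool.Agent.Anco
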