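import Pool.Agent.Lib.MP_66983d_gt.Curve0
import Pool.Agent.Lib.MP_66983d_gt.Sing0

set_option maxSynthPendingDepth 3

namespace Pool.Agent.Anco

open scoped ContDiff Topology
open Filter Set Matrix

variable {m d : ℕ} [NeZero m] {g : V (m + 2) → V (m + 2) →L[ℝ] V (m + 2) →L[ℝ] ℝ} {δ : ℝ}
  {s x : ℝ → ℝ}

omit [NeZero m] in
theorem end0h_bound (hg : IsMetric (m + 2) d g) (z : V (m + 2)) (hX : 0 < cXX d g z) (ν : ℝ) :
    cYY g z - cXY d g z ^ 2 / cXX d g z ≤ g z (vY z - ν • vX d z) (vY z - ν • vX d z) := by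
  have e : g z (vY z - ν • vX d z) (vY z - ν • vX d z) =
      cYY g z - 2 * ν * cXY d g z + ν ^ 2 * cXX d g z := by
    simp only [map_sub, map_smul, ContinuousLinearMap.sub_apply, ContinuousLinearMap.smul_apply,
      smul_eq_mul, cYY, cXY, cXX, hg.2.1 z (vY z) (vX d z)]
    ring
  rw [e]
  have : 2 * ν * cXY d g z - ν ^ 2 * cXX d g z ≤ cXY d g z ^ 2 / cXX d g z := by
    rw [le_div_iff₀ hX]
    nlinarith [sq_nonneg (cXY d g z - ν * cXX d g z)]
  linarith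

theorem end0_h (hd : 3 ≤ d) (hodd : Odd d) (hg : IsMetric (m + 2) d g)
    (hI : Invariant (m + 2) d g) (h : C0 d δ s x) (P Q : ℝ → ℝ) {N0 : ℝ} (hN : 0 < N0)
    (hN0 : N0 ^ 2 = g (c0 s x 0) (pl (-1) 0 0) (pl (-1) 0 0)) {κ : ℝ} (hκ : 0 < κ) :
    ∀ᶠ τ in 𝓝[>] (0 : ℝ), fh d g (chat d s x P Q τ) ≤ (2 / 3 * N0 + κ) * τ := by
  have hπ := Real.pi_pos
  have hδ := h.δpos
  have h0 : (0 : ℝ) ∈ Ioo (-δ) (Real.pi + δ) := ⟨by linarith, by linarith⟩
  have hd0 : (d : ℝ) ≠ 0 := by positivity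
  have hdc : (d : ℂ) ≠ 0 := by exact_mod_cast (by omega : d ≠ 0)
  have hd3 : (3 : ℝ) ≤ d := by exact_mod_cast hd
  let F : V (m + 2) → V (m + 2) := fun z => vY z - (d : ℝ)⁻¹ • vX d z
  have hlin : IsLinearMap ℝ F := by
    constructor
    · intro u v
      exact V_ext (by simp [F, vX, vY]; ring) (by simp [F, vX, vY]; ring)
        (by simp [F, vX, vY]; ring) (fun i => by simp [F, vX, vY]; ring)
    · intro r u
      exact V_ext (by simp [F, vX, vY]; ring) (by simp [F, vX, vY]; ring)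
        (by simp [F, vX, vY]; ring) (fun i => by simp [F, vX, vY]; ring)
  let FL : V (m + 2) →L[ℝ] V (m + 2) := LinearMap.toContinuousLinearMap (hlin.mk' F)
  have hFL : ∀ z, FL z = F z := fun _ => rfl
  have hc := h.hasDerivAt_c0 (m := m) h0
  rw [h.dc0_zero hd] at hc
  have hZ : HasDerivAt (fun τ => F (c0 s x τ)) (F (pl (-1) 0 0)) 0 :=
    FL.hasFDerivAt.comp_hasDerivAt 0 hc
  have hZ0 : F (c0 s x 0) = 0 := by
    rw [h.c0_zero hd]
    refine V_ext (by simp [F, vX, vY]) ?_ ?_ (fun i => by simp [F, vX, vY])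
    · simp [F, vX, vY]; field_simp; simp
    · simp [F, vX, vY]; field_simp; simp
  have hZ1 : F (pl (-1) 0 0) = pl (2 / d * Complex.I) 0 0 :=
    V_ext (by simp [F, vX, vY]; ring) (by simp [F, vX, vY]) (by simp [F, vX, vY])
      (fun i => by simp [F, vX, vY])
  have t1 : Tendsto (fun τ => τ⁻¹ • F (c0 s x τ)) (𝓝[>] 0) (𝓝 (pl (2 / d * Complex.I) 0 0)) := by
    have := hZ.tendsto_slope_zero_right
    rw [hZ1] at this
    simpa [hZ0] using this
  have t2 : Tendsto (fun τ => g (c0 s x τ)) (𝓝[>] 0) (𝓝 (g (c0 s x 0))) :=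
    (hg.1.continuous.continuousAt.tendsto.comp hc.continuousAt.tendsto).mono_left
      nhdsWithin_le_nhds
  have t3 : Tendsto (fun τ => g (c0 s x τ) (τ⁻¹ • F (c0 s x τ)) (τ⁻¹ • F (c0 s x τ))) (𝓝[>] 0)
      (𝓝 (g (c0 s x 0) (pl (2 / d * Complex.I) 0 0) (pl (2 / d * Complex.I) 0 0))) := by
    have c : Continuous fun p : (V (m + 2) →L[ℝ] V (m + 2) →L[ℝ] ℝ) × V (m + 2) =>
        p.1 p.2 p.2 := by fun_prop
    exact (c.tendsto _).comp (t2.prodMk_nhds t1)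
  have hval : g (c0 s x 0) (pl (2 / d * Complex.I) 0 0) (pl (2 / d * Complex.I) 0 0) =
      (2 / d * N0) ^ 2 := by
    rw [sing0_conf hd hodd hg hI (h.mem_W hodd h0) (by simp [c0, h.s0]), ← hN0]
    have : ((starRingEnd ℂ) (2 / d * Complex.I) * (2 / d * Complex.I)).re = (2 / d) ^ 2 := by
      have e : (2 / d * Complex.I : ℂ) = ((2 / d : ℝ) : ℂ) * Complex.I := by push_cast; ring
      rw [e]
      generalize (2 / d : ℝ) = r
      simp [sq]
    rw [this]; ring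
  have hlt : (2 / d * N0) ^ 2 < (2 / 3 * N0 + κ) ^ 2 := by
    have : 2 / (d : ℝ) ≤ 2 / 3 := by gcongr
    have h1 : 2 / d * N0 ≤ 2 / 3 * N0 := mul_le_mul_of_nonneg_right this hN.le
    have h2 : 0 ≤ 2 / d * N0 := by positivity
    nlinarith
  rw [hval] at t3
  filter_upwards [t3.eventually (gt_mem_nhds hlt), Ioo_mem_nhdsGT hπ] with τ h1 h2
  have hτ : τ ∈ Ioo (-δ) (Real.pi + δ) := ⟨by linarith [h2.1], by linarith [h2.2]⟩
  have hW := h.mem_W (m := m) hodd hτ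
  obtain ⟨r1, r2, r3, -⟩ := rot_gram (by omega) hg hI (P τ) (Q τ) hW (c0_isPl τ)
  have hXX : 0 < cXX d g (c0 s x τ) := by
    refine hg.2.2 _ hW _ (vX_mem_Tan (by omega) hW) ?_
    intro h0
    have := congrArg Prod.fst h0
    simp [vX, c0, (h.spos τ h2).ne'] at this
  rw [fh, chat, r1, r2, r3]
  refine Real.sqrt_le_iff.2 ⟨mul_nonneg (by positivity) h2.1.le, ?_⟩
  refine (end0h_bound hg _ hXX (d : ℝ)⁻¹).trans ?_
  simp only [map_smul, ContinuousLinearMap.smul_apply, smul_eq_mul] at h1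
  have hτ0 := h2.1
  have e : g (c0 s x τ) (F (c0 s x τ)) (F (c0 s x τ)) =
      τ⁻¹ * (τ⁻¹ * g (c0 s x τ) (F (c0 s x τ)) (F (c0 s x τ))) * τ ^ 2 := by field_simp
  change g (c0 s x τ) (F (c0 s x τ)) (F (c0 s x τ)) ≤ _
  rw [e, mul_pow]
  exact mul_le_mul_of_nonneg_right h1.le (by positivity)

end Pool.Agent.Anco
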