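import Pool.Agent.Lib.MP_66983d_gt.Act2

set_option maxSynthPendingDepth 3

namespace Pool.Agent.Anco

open scoped ContDiff Topology
open Filter Set Matrix

/-- a signed permutation of the coordinates of `ℂ^n` -/
def gram_sp {n : ℕ} (σ : Equiv.Perm (Fin n)) (ε : Fin n → ℝ) (z : V n) : V n :=
  (z.1, fun i => (ε i : ℂ) * z.2 (σ i))

theorem gram_sp_inv {n d : ℕ} {g : V n → V n →L[ℝ] V n →L[ℝ] ℝ} (hI : Invariant n d g)
    (σ : Equiv.Perm (Fin n)) (ε : Fin n → ℝ) (h1 : ∀ i, ε i * ε i = 1)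
    (h2 : (∏ i, ε i) * ((Equiv.Perm.sign σ : ℤ) : ℝ) = 1) {z u v : V n} (hz : z ∈ W n d)
    (hu : u ∈ Tan n d z) (hv : v ∈ Tan n d z) :
    g (gram_sp σ ε z) (gram_sp σ ε u) (gram_sp σ ε v) = g z u v := by
  have hent : ∀ i j, (Matrix.diagonal ε * σ.permMatrix ℝ) i j = if σ i = j then ε i else 0 := by
    intro i j
    rw [Matrix.diagonal_mul]
    simp [Equiv.Perm.permMatrix, PEquiv.toMatrix_apply, Equiv.toPEquiv_apply]
  have hR : Matrix.diagonal ε * σ.permMatrix ℝ ∈ Matrix.specialOrthogonalGroup (Fin n) ℝ := by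
    rw [Matrix.mem_specialOrthogonalGroup_iff, Matrix.mem_orthogonalGroup_iff]
    constructor
    · ext i k
      rw [Matrix.mul_apply]
      simp only [Matrix.transpose_apply, hent, ite_mul, zero_mul, Finset.sum_ite_eq,
        Finset.mem_univ, if_true, EmbeddingLike.apply_eq_iff_eq, Matrix.one_apply]
      by_cases h : i = k
      · subst h
        simp [h1]
      · rw [if_neg (Ne.symm h), if_neg h, mul_zero]
    · rw [Matrix.det_mul, Matrix.det_diagonal, Matrix.det_permutation]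
      exact h2
  have hact : ∀ y : V n, act n d 0 (Matrix.diagonal ε * σ.permMatrix ℝ) y = gram_sp σ ε y := by
    intro y
    refine Prod.ext ?_ (funext fun i => ?_)
    · simp [act, gram_sp]
    · simp only [act, gram_sp, hent]
      simp [apply_ite ((↑) : ℝ → ℂ)]
  have := hI 0 _ hR z hz u hu v hv
  rwa [hact, hact, hact] at this

/-- signs that flip the coordinates `a` and `b` -/
def gram_fl {n : ℕ} (a b : Fin n) (i : Fin n) : ℝ :=
  (if i = a then -1 else 1) * (if i = b then -1 else 1)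

/-- signs that flip the coordinate `a` -/
def gram_f1 {n : ℕ} (a : Fin n) (i : Fin n) : ℝ := if i = a then -1 else 1

theorem gram_fl_inv {n d : ℕ} {g : V n → V n →L[ℝ] V n →L[ℝ] ℝ} (hI : Invariant n d g)
    (a b : Fin n) {z u v : V n} (hz : z ∈ W n d) (hu : u ∈ Tan n d z) (hv : v ∈ Tan n d z) :
    g (gram_sp 1 (gram_fl a b) z) (gram_sp 1 (gram_fl a b) u) (gram_sp 1 (gram_fl a b) v) =
      g z u v := by
  refine gram_sp_inv hI 1 _ (fun i => ?_) ?_ hz hu hv
  · unfold gram_fl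
    split_ifs <;> norm_num
  · simp only [gram_fl]
    rw [Finset.prod_mul_distrib]
    simp

theorem gram_sw_inv {n d : ℕ} {g : V n → V n →L[ℝ] V n →L[ℝ] ℝ} (hI : Invariant n d g)
    {a b : Fin n} (hab : a ≠ b) (c : Fin n) {z u v : V n} (hz : z ∈ W n d) (hu : u ∈ Tan n d z)
    (hv : v ∈ Tan n d z) :
    g (gram_sp (Equiv.swap a b) (gram_f1 c) z) (gram_sp (Equiv.swap a b) (gram_f1 c) u)
      (gram_sp (Equiv.swap a b) (gram_f1 c) v) = g z u v := by
  refine gram_sp_inv hI _ _ (fun i => ?_) ?_ hz hu hv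
  · unfold gram_f1
    split_ifs <;> norm_num
  · simp [gram_f1, Equiv.Perm.sign_swap hab]

theorem gram_ss_ne_zero {m : ℕ} (i : Fin m) : (i.succ.succ : Fin (m + 2)) ≠ 0 := Fin.succ_ne_zero _

theorem gram_ss_ne_one {m : ℕ} (i : Fin m) : (i.succ.succ : Fin (m + 2)) ≠ 1 :=
  Fin.succ_succ_ne_one i

theorem gram_fl_pl {m : ℕ} {z : V (m + 2)} (hp : IsPl z) (i j : Fin m) :
    gram_sp 1 (gram_fl i.succ.succ j.succ.succ) z = z := by
  refine V_ext rfl ?_ ?_ fun k => ?_
  · simp [gram_sp, gram_fl, (gram_ss_ne_zero _).symm]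
  · simp [gram_sp, gram_fl, (gram_ss_ne_one _).symm]
  · simp [gram_sp, hp k]

theorem gram_fl_io_self {m : ℕ} {i j : Fin m} (hij : i ≠ j) (a : ℂ) :
    gram_sp 1 (gram_fl i.succ.succ j.succ.succ) (io (Pi.single i a)) = -io (Pi.single i a) := by
  refine V_ext ?_ ?_ ?_ fun k => ?_
  · simp [gram_sp]
  · simp [gram_sp]
  · simp [gram_sp]
  · by_cases hk : k = i
    · subst hk
      simp [gram_sp, gram_fl, hij]
    · simp [gram_sp, Pi.single_eq_of_ne hk]

theorem gram_fl_io_other {m : ℕ} {i j l : Fin m} (hi : j ≠ i) (hl : j ≠ l) (a : ℂ) :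
    gram_sp 1 (gram_fl i.succ.succ l.succ.succ) (io (Pi.single j a)) = io (Pi.single j a) := by
  refine V_ext ?_ ?_ ?_ fun k => ?_
  · simp [gram_sp]
  · simp [gram_sp]
  · simp [gram_sp]
  · by_cases hk : k = j
    · subst hk
      simp [gram_sp, gram_fl, hi, hl]
    · simp [gram_sp, Pi.single_eq_of_ne hk]

theorem gram_io_sum {m : ℕ} (w : Fin m → ℂ) :
    (io w : V (m + 2)) = ∑ i, io (Pi.single i (w i)) := by
  refine V_ext ?_ ?_ ?_ fun k => ?_
  · simp [Prod.fst_sum]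
  · simp [Prod.snd_sum, Finset.sum_apply]
  · simp [Prod.snd_sum, Finset.sum_apply]
  · simp [Prod.snd_sum, Finset.sum_apply, Pi.single_apply]

theorem gram_sw_pl {m : ℕ} {z : V (m + 2)} (hp : IsPl z) (i j : Fin m) :
    gram_sp (Equiv.swap j.succ.succ i.succ.succ) (gram_f1 i.succ.succ) z = z := by
  refine V_ext rfl ?_ ?_ fun k => ?_
  · simp [gram_sp, gram_f1, (gram_ss_ne_zero _).symm,
      Equiv.swap_apply_of_ne_of_ne (gram_ss_ne_zero j).symm (gram_ss_ne_zero i).symm]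
  · simp [gram_sp, gram_f1, (gram_ss_ne_one _).symm,
      Equiv.swap_apply_of_ne_of_ne (gram_ss_ne_one j).symm (gram_ss_ne_one i).symm]
  · simp only [gram_sp, hp k, Equiv.swap_apply_def]
    split_ifs
    · rw [hp i, mul_zero]
    · rw [hp j, mul_zero]
    · rw [hp k, mul_zero]

theorem gram_sw_io {m : ℕ} {i j : Fin m} (hij : i ≠ j) (a : ℂ) :
    gram_sp (Equiv.swap j.succ.succ i.succ.succ) (gram_f1 i.succ.succ) (io (Pi.single i a)) =
      io (Pi.single j a) := by
  refine V_ext rfl ?_ ?_ fun k => ?_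
  · simp [gram_sp,
      Equiv.swap_apply_of_ne_of_ne (gram_ss_ne_zero j).symm (gram_ss_ne_zero i).symm]
  · simp [gram_sp,
      Equiv.swap_apply_of_ne_of_ne (gram_ss_ne_one j).symm (gram_ss_ne_one i).symm]
  · by_cases hk : k = j
    · subst hk
      simp [gram_sp, gram_f1, hij.symm]
    · by_cases hk' : k = i
      · subst hk'
        simp [gram_sp, Pi.single_eq_of_ne hij, Pi.single_eq_of_ne hij.symm]
      · have h1 : (k.succ.succ : Fin (m + 2)) ≠ j.succ.succ := by simpa using hk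
        have h2 : (k.succ.succ : Fin (m + 2)) ≠ i.succ.succ := by simpa using hk'
        simp [gram_sp, Equiv.swap_apply_of_ne_of_ne h1 h2, Pi.single_eq_of_ne hk,
          Pi.single_eq_of_ne hk']

theorem gram_fl_one_pl {m : ℕ} (j : Fin m) (a b c : ℂ) :
    gram_sp 1 (gram_fl 1 j.succ.succ) (pl a b c : V (m + 2)) = pl a b (-c) := by
  refine V_ext rfl ?_ ?_ fun k => ?_
  · simp [gram_sp, gram_fl, (gram_ss_ne_zero _).symm]
  · simp [gram_sp, gram_fl, (gram_ss_ne_one _).symm]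
  · simp [gram_sp]

theorem gram_fl_one_io {m : ℕ} {i j : Fin m} (hij : i ≠ j) (a : ℂ) :
    gram_sp 1 (gram_fl 1 j.succ.succ) (io (Pi.single i a)) = io (Pi.single i a) := by
  refine V_ext ?_ ?_ ?_ fun k => ?_
  · simp [gram_sp]
  · simp [gram_sp]
  · simp [gram_sp]
  · by_cases hk : k = i
    · subst hk
      simp [gram_sp, gram_fl, hij, gram_ss_ne_one]
    · simp [gram_sp, Pi.single_eq_of_ne hk]

theorem gram_sw_one_pl {m : ℕ} (j : Fin m) (a b : ℂ) :
    gram_sp (Equiv.swap 1 j.succ.succ) (gram_f1 1) (pl a b 0 : V (m + 2)) = pl a b 0 := by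
  refine V_ext rfl ?_ ?_ fun k => ?_
  · simp [gram_sp, gram_f1,
      Equiv.swap_apply_of_ne_of_ne (Fin.zero_ne_one (n := m)) (gram_ss_ne_zero j).symm]
  · simp [gram_sp]
  · simp only [gram_sp, Equiv.swap_apply_def, if_neg (gram_ss_ne_one k)]
    split_ifs <;> simp

theorem gram_sw_one_io {m : ℕ} (j : Fin m) (a : ℂ) :
    gram_sp (Equiv.swap 1 j.succ.succ) (gram_f1 1) (pl 0 0 a : V (m + 2)) =
      io (Pi.single j a) := by
  refine V_ext rfl ?_ ?_ fun k => ?_
  · simp [gram_sp,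
      Equiv.swap_apply_of_ne_of_ne (Fin.zero_ne_one (n := m)) (gram_ss_ne_zero j).symm]
  · simp [gram_sp]
  · by_cases hk : k = j
    · subst hk
      simp [gram_sp, gram_f1, gram_ss_ne_one]
    · have h2 : (k.succ.succ : Fin (m + 2)) ≠ j.succ.succ := by simpa using hk
      simp [gram_sp, Equiv.swap_apply_of_ne_of_ne (gram_ss_ne_one k) h2, Pi.single_eq_of_ne hk]

theorem gram_pl_mem_Tan {m d : ℕ} (z0 z1 a : ℂ) :
    (pl 0 0 a : V (m + 2)) ∈ Tan (m + 2) d (pl z0 z1 0) := by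
  constructor
  · rw [sum_two]
    simp
  · rw [sum_two]
    simp

variable {m d : ℕ} [NeZero m] {g : V (m + 2) → V (m + 2) →L[ℝ] V (m + 2) →L[ℝ] ℝ}

/-- plane tangent vectors are orthogonal to the remaining directions -/
theorem gram_pl_io (hm : 3 ≤ m) (hI : Invariant (m + 2) d g) {z : V (m + 2)}
    (hz : z ∈ W (m + 2) d) (hp : IsPl z) {v : V (m + 2)} (hv : v ∈ Tan (m + 2) d z)
    (hvp : IsPl v) (w : Fin m → ℂ) : g z v (io w) = 0 := by
  rw [gram_io_sum, map_sum]
  refine Finset.sum_eq_zero fun i _ => ?_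
  obtain ⟨j, hj, -⟩ := Fin.exists_ne_and_ne_of_two_lt i i (by omega : 2 < m)
  have h := gram_fl_inv hI i.succ.succ j.succ.succ hz hv (io_mem_Tan hp (Pi.single i (w i)))
  rw [gram_fl_pl hp, gram_fl_pl hvp, gram_fl_io_self hj.symm, map_neg] at h
  linarith

/-- block structure on the remaining directions -/
theorem gram_io_io (hm : 3 ≤ m) (hI : Invariant (m + 2) d g) {z : V (m + 2)}
    (hz : z ∈ W (m + 2) d) (hp : IsPl z) (w w' : Fin m → ℂ) :
    g z (io w) (io w') = ∑ i, beta g z (w i) (w' i) := by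
  rw [gram_io_sum w, map_sum, _root_.sum_apply]
  refine Finset.sum_congr rfl fun i _ => ?_
  rw [gram_io_sum w', map_sum, Finset.sum_eq_single i]
  · by_cases hi : i = 0
    · subst hi
      rfl
    · have h := gram_sw_inv hI (a := (0 : Fin m).succ.succ) (b := i.succ.succ)
        (fun h => hi (Fin.succ_injective _ (Fin.succ_injective _ h)).symm) i.succ.succ hz (io_mem_Tan hp (Pi.single i (w i)))
        (io_mem_Tan hp (Pi.single i (w' i)))
      rw [gram_sw_pl hp, gram_sw_io hi, gram_sw_io hi] at h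
      exact h.symm
  · intro j _ hj
    obtain ⟨l, hli, hlj⟩ := Fin.exists_ne_and_ne_of_two_lt i j (by omega : 2 < m)
    have h := gram_fl_inv hI i.succ.succ l.succ.succ hz (io_mem_Tan hp (Pi.single i (w i)))
      (io_mem_Tan hp (Pi.single j (w' j)))
    rw [gram_fl_pl hp, gram_fl_io_self hli.symm, gram_fl_io_other hj hlj.symm, map_neg,
      _root_.neg_apply] at h
    linarith
  · intro h
    exact absurd (Finset.mem_univ i) h

/-- the reflection of the second coordinate, on plane vectors -/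
theorem sig_pl (hm : 3 ≤ m) (hI : Invariant (m + 2) d g) {z0 z1 z2 u0 u1 u2 v0 v1 v2 : ℂ}
    (hz : pl z0 z1 z2 ∈ W (m + 2) d) (hu : pl u0 u1 u2 ∈ Tan (m + 2) d (pl z0 z1 z2))
    (hv : pl v0 v1 v2 ∈ Tan (m + 2) d (pl z0 z1 z2)) :
    g (pl z0 z1 (-z2)) (pl u0 u1 (-u2)) (pl v0 v1 (-v2)) =
      g (pl z0 z1 z2) (pl u0 u1 u2) (pl v0 v1 v2) := by
  have h := gram_fl_inv hI 1 (0 : Fin m).succ.succ hz hu hv
  rwa [gram_fl_one_pl, gram_fl_one_pl, gram_fl_one_pl] at h

/-- the reflection of the second coordinate, on the third coordinate line -/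
theorem sig_beta (hm : 3 ≤ m) (hI : Invariant (m + 2) d g) {z0 z1 z2 : ℂ}
    (hz : pl z0 z1 z2 ∈ W (m + 2) d) (a b : ℂ) :
    beta g (pl z0 z1 (-z2)) a b = beta g (pl z0 z1 z2) a b := by
  obtain ⟨j, hj, -⟩ := Fin.exists_ne_and_ne_of_two_lt (0 : Fin m) 0 (by omega : 2 < m)
  have h := gram_fl_inv hI 1 j.succ.succ hz (io_mem_Tan (isPl_pl z0 z1 z2) (Pi.single 0 a))
    (io_mem_Tan (isPl_pl z0 z1 z2) (Pi.single 0 b))
  rwa [gram_fl_one_pl, gram_fl_one_io hj.symm, gram_fl_one_io hj.symm] at h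

/-- at a point of the second singular orbit the second coordinate line looks like the third -/
theorem gram_sing (hm : 3 ≤ m) (hI : Invariant (m + 2) d g) {z0 z1 : ℂ}
    (hz : pl z0 z1 0 ∈ W (m + 2) d) (a b : ℂ) :
    g (pl z0 z1 0) (pl 0 0 a) (pl 0 0 b) = beta g (pl z0 z1 0) a b := by
  have h := gram_sw_inv hI (a := 1) (b := (0 : Fin m).succ.succ) (gram_ss_ne_one _).symm 1 hz
    (gram_pl_mem_Tan z0 z1 a) (gram_pl_mem_Tan z0 z1 b)
  rw [gram_sw_one_pl, gram_sw_one_io, gram_sw_one_io] at h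
  exact h.symm

end Pool.Agent.Anco
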