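import Pool.Agent.Lib.MP_66983d_gt.Curve0
import Pool.Agent.Lib.MP_66983d_gt.Gram

set_option maxSynthPendingDepth 3

namespace Pool.Agent.Anco

open scoped ContDiff Topology
open Filter Set Matrix

theorem endL_symm {f : ℝ → ℝ} (hf : DifferentiableAt ℝ f (Real.pi / 2))
    (hs : ∀ᶠ τ in 𝓝 (Real.pi / 2), f (Real.pi - τ) = f τ) : HasDerivAt f 0 (Real.pi / 2) := by
  have h1 := hf.hasDerivAt
  have e : Real.pi - Real.pi / 2 = Real.pi / 2 := by ring
  have h2 : HasDerivAt (fun τ => f (Real.pi - τ)) (-deriv f (Real.pi / 2)) (Real.pi / 2) :=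
    HasDerivAt.comp_const_sub Real.pi (Real.pi / 2) (by rw [e]; exact h1)
  have h3 := h1.unique (h2.congr_of_eventuallyEq (hs.mono fun τ hτ => hτ.symm))
  have h4 : deriv f (Real.pi / 2) = 0 := by linarith
  rwa [h4] at h1

open Classical in
/-- the quotient `sin Q / y`, extended to the singular point -/
noncomputable def endLr (Q q : ℝ → ℝ) (τ : ℝ) : ℝ :=
  if τ = Real.pi / 2 then Real.sqrt 2 * q (Real.pi / 2)
  else Real.sin (Q τ) / (Real.cos τ / Real.sqrt 2)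

theorem endL_cos : ∀ᶠ τ in 𝓝[≠] (Real.pi / 2), Real.cos τ ≠ 0 := by
  have h1 : HasDerivAt Real.cos (-1) (Real.pi / 2) := by
    simpa using Real.hasDerivAt_cos (Real.pi / 2)
  simpa using h1.eventually_ne (c := 0) (by norm_num)

theorem endL_r {Q q : ℝ → ℝ} (hQ0 : Q (Real.pi / 2) = 0)
    (hQ : ∀ᶠ τ in 𝓝 (Real.pi / 2), HasDerivAt Q (-q τ) τ) (hq : HasDerivAt q 0 (Real.pi / 2)) :
    HasDerivAt (endLr Q q) 0 (Real.pi / 2) := by
  obtain ⟨ε, hε, hb⟩ := Metric.eventually_nhds_iff_ball.mp hQ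
  have hQc := hQ.self_of_nhds
  have he : HasDerivAt (fun τ => Real.cos (Q τ) * -q τ - q (Real.pi / 2) * -Real.sin τ) 0
      (Real.pi / 2) := by
    have := (hQc.cos.fun_mul hq.fun_neg).fun_sub
      ((Real.hasDerivAt_sin (Real.pi / 2)).fun_neg.const_mul (q (Real.pi / 2)))
    simpa [hQ0] using this
  have h1 := Convex.isLittleO_pow_succ_real (n := 1)
    (f := fun τ => Real.sin (Q τ) - q (Real.pi / 2) * Real.cos τ)
    (f' := fun τ => Real.cos (Q τ) * -q τ - q (Real.pi / 2) * -Real.sin τ)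
    (convex_ball (Real.pi / 2) ε) (Metric.mem_ball_self hε)
    (fun τ hτ => (((hb τ hτ).sin).fun_sub
      ((Real.hasDerivAt_cos τ).const_mul (q (Real.pi / 2)))).hasDerivWithinAt)
    (by
      have := he.isLittleO.mono (nhdsWithin_le_nhds (s := Metric.ball (Real.pi / 2) ε))
      simpa [hQ0] using this)
  rw [nhdsWithin_eq_nhds.mpr (Metric.ball_mem_nhds _ hε)] at h1
  have h2 := (h1.mono (nhdsWithin_le_nhds (s := {Real.pi / 2}ᶜ))).tendsto_div_nhds_zero
  have h3 : HasDerivAt Real.cos (-1) (Real.pi / 2) := by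
    simpa using Real.hasDerivAt_cos (Real.pi / 2)
  have h4 := (hasDerivAt_iff_tendsto_slope.mp h3).inv₀ (by norm_num)
  rw [hasDerivAt_iff_tendsto_slope]
  have h5 := (h2.mul h4).const_mul (Real.sqrt 2)
  rw [zero_mul, mul_zero] at h5
  refine h5.congr' ?_
  filter_upwards [endL_cos, self_mem_nhdsWithin] with τ hc hτ
  have hτ' : τ ≠ Real.pi / 2 := hτ
  have h6 : τ - Real.pi / 2 ≠ 0 := sub_ne_zero.mpr hτ'
  have h7 : Real.sqrt 2 ≠ 0 := by positivity
  simp only [slope_def_field, endLr, if_neg hτ', if_true, hQ0, Real.cos_pi_div_two,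
    Real.sin_zero, mul_zero, sub_zero]
  generalize τ - Real.pi / 2 = t at h6
  field_simp

variable {m d : ℕ} [NeZero m] {g : V (m + 2) → V (m + 2) →L[ℝ] V (m + 2) →L[ℝ] ℝ} {δ : ℝ}
  {s x : ℝ → ℝ}

theorem endL_mem (h : C0 d δ s x) :
    ∀ᶠ τ in 𝓝 (Real.pi / 2), τ ∈ Ioo (-δ) (Real.pi + δ) :=
  Ioo_mem_nhds (by linarith [h.δpos, Real.pi_pos]) (by linarith [h.δpos, Real.pi_pos])

theorem endL_beta (hm : 3 ≤ m) (hodd : Odd d) (hg : IsMetric (m + 2) d g)
    (hI : Invariant (m + 2) d g) (h : C0 d δ s x) (a b : ℂ) :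
    HasDerivAt (fun τ => beta g (c0 s x τ) a b) 0 (Real.pi / 2) := by
  refine endL_symm ?_ ?_
  · have h1 : ContDiffAt ℝ ∞ (c0 s x : ℝ → V (m + 2)) (Real.pi / 2) :=
      h.contDiffOn_c0.contDiffAt (endL_mem h)
    have h2 := (contDiff_beta hg).contDiffAt.comp (Real.pi / 2)
      (h1.prodMk (contDiffAt_const (c := (a, b))))
    exact h2.differentiableAt (by simp)
  · filter_upwards [endL_mem h] with τ hτ
    rw [h.c0_symm]
    exact sig_beta hm hI (h.mem_W hodd hτ) a b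

theorem endL_quad (hg : IsMetric (m + 2) d g) (z : V (m + 2)) (u v : ℝ) :
    beta g z ((u : ℂ) * 1 + (v : ℂ) * Complex.I) ((u : ℂ) * 1 + (v : ℂ) * Complex.I) =
      u ^ 2 * beta g z 1 1 + 2 * u * v * beta g z 1 Complex.I +
        v ^ 2 * beta g z Complex.I Complex.I := by
  simp only [beta_add_left, beta_add_right, beta_smul_left, beta_smul_right]
  rw [beta_symm hg z Complex.I 1]
  ring

theorem endL_co (τ : ℝ) :
    cAA g (c0 s x τ) = x τ ^ 2 * beta g (c0 s x τ) 1 1 ∧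
    cAB g (c0 s x τ) = x τ * (Real.cos τ / Real.sqrt 2) * beta g (c0 s x τ) 1 Complex.I ∧
    cBB g (c0 s x τ) = (Real.cos τ / Real.sqrt 2) ^ 2 * beta g (c0 s x τ) Complex.I Complex.I := by
  have e0 : (c0 s x τ : V (m + 2)).2 0 = (x τ : ℂ) * 1 := by rw [mul_one]; rfl
  have e1 : (c0 s x τ : V (m + 2)).2 1 = ((Real.cos τ / Real.sqrt 2 : ℝ) : ℂ) * Complex.I := by
    rw [mul_comm]; rfl
  simp only [cAA, cAB, cBB, e0, e1, beta_smul_left, beta_smul_right]
  refine ⟨by ring, by ring, by ring⟩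

theorem endL_alg {C S X y r b11 b12 b22 : ℝ} (hCS : C ^ 2 + S ^ 2 = 1) (hy : y ≠ 0)
    (hr : r = S / y) (hden : r ^ 2 * X ^ 2 * b11 - 2 * C * r * X * b12 + C ^ 2 * b22 ≠ 0) :
    C ^ 2 * (X ^ 2 * b11) + 2 * C * S * (X * y * b12) + S ^ 2 * (y ^ 2 * b22) -
      (C * S * (y ^ 2 * b22 - X ^ 2 * b11) + (C ^ 2 - S ^ 2) * (X * y * b12)) ^ 2 /
        (S ^ 2 * (X ^ 2 * b11) - 2 * C * S * (X * y * b12) + C ^ 2 * (y ^ 2 * b22)) =
    X ^ 2 * (b11 * b22 - b12 ^ 2) /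
      (r ^ 2 * X ^ 2 * b11 - 2 * C * r * X * b12 + C ^ 2 * b22) := by
  have hS : S = r * y := by rw [hr]; field_simp
  have e : S ^ 2 * (X ^ 2 * b11) - 2 * C * S * (X * y * b12) + C ^ 2 * (y ^ 2 * b22) =
      y ^ 2 * (r ^ 2 * X ^ 2 * b11 - 2 * C * r * X * b12 + C ^ 2 * b22) := by
    rw [hS]; ring
  have e2 : (C ^ 2 * (X ^ 2 * b11) + 2 * C * S * (X * y * b12) + S ^ 2 * (y ^ 2 * b22)) *
      (S ^ 2 * (X ^ 2 * b11) - 2 * C * S * (X * y * b12) + C ^ 2 * (y ^ 2 * b22)) -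
      (C * S * (y ^ 2 * b22 - X ^ 2 * b11) + (C ^ 2 - S ^ 2) * (X * y * b12)) ^ 2 =
      (C ^ 2 + S ^ 2) ^ 2 * (y ^ 2 * (X ^ 2 * (b11 * b22 - b12 ^ 2))) := by ring
  rw [hCS, one_pow, one_mul, e] at e2
  rw [e, sub_div' (mul_ne_zero (pow_ne_zero 2 hy) hden), e2, mul_div_mul_left _ _ (pow_ne_zero 2 hy)]

theorem endL_phi (hm : 3 ≤ m) (hd : 3 ≤ d) (hodd : Odd d) (hg : IsMetric (m + 2) d g)
    (hI : Invariant (m + 2) d g) (h : C0 d δ s x) (P : ℝ → ℝ) {Q q : ℝ → ℝ}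
    (hQ0 : Q (Real.pi / 2) = 0) (hQ : ∀ᶠ τ in 𝓝 (Real.pi / 2), HasDerivAt Q (-q τ) τ)
    (hq : HasDerivAt q 0 (Real.pi / 2)) :
    ∃ φL : ℝ, φL ^ 2 ≤ cAA g (c0 s x (Real.pi / 2)) ∧
      Tendsto (fun τ => (fphi g (chat d s x P Q τ) - φL) / (Real.pi / 2 - τ))
        (𝓝[<] (Real.pi / 2)) (𝓝 0) := by
  have hc := (endL_mem h).self_of_nhds
  have h11 := endL_beta hm hodd hg hI h 1 1
  have h12 := endL_beta hm hodd hg hI h 1 Complex.I
  have h22 := endL_beta hm hodd hg hI h Complex.I Complex.I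
  have hx : HasDerivAt x 0 (Real.pi / 2) := by
    have := ((h.cx.contDiffAt (endL_mem h)).differentiableAt (by simp)).hasDerivAt
    rwa [h.deriv_x_half] at this
  have hr := endL_r hQ0 hQ hq
  have hC : HasDerivAt (fun τ => Real.cos (Q τ)) 0 (Real.pi / 2) := by
    simpa [hQ0] using hQ.self_of_nhds.cos
  have hpos : ∀ u v : ℝ, v ≠ 0 → 0 < u ^ 2 * beta g (c0 s x (Real.pi / 2)) 1 1 +
      2 * u * v * beta g (c0 s x (Real.pi / 2)) 1 Complex.I +
        v ^ 2 * beta g (c0 s x (Real.pi / 2)) Complex.I Complex.I := fun u v hv => by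
    rw [← endL_quad hg]
    refine beta_pos hg (h.mem_W hodd hc) (c0_isPl _) fun h0 => hv ?_
    simpa using congrArg Complex.im h0
  have p11 : 0 < beta g (c0 s x (Real.pi / 2)) 1 1 :=
    beta_pos hg (h.mem_W hodd hc) (c0_isPl _) one_ne_zero
  set num : ℝ → ℝ := fun τ => x τ ^ 2 * (beta g (c0 s x τ) 1 1 *
    beta g (c0 s x τ) Complex.I Complex.I - beta g (c0 s x τ) 1 Complex.I ^ 2) with hnum
  set den : ℝ → ℝ := fun τ => endLr Q q τ ^ 2 * x τ ^ 2 * beta g (c0 s x τ) 1 1 -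
    2 * Real.cos (Q τ) * endLr Q q τ * x τ * beta g (c0 s x τ) 1 Complex.I +
      Real.cos (Q τ) ^ 2 * beta g (c0 s x τ) Complex.I Complex.I with hden
  have dnum : HasDerivAt num 0 (Real.pi / 2) := by
    have := (hx.fun_pow 2).fun_mul ((h11.fun_mul h22).fun_sub (h12.fun_pow 2))
    simpa using this
  have dden : HasDerivAt den 0 (Real.pi / 2) := by
    have := ((((hr.fun_pow 2).fun_mul (hx.fun_pow 2)).fun_mul h11).fun_sub
      ((((hC.const_mul 2).fun_mul hr).fun_mul hx).fun_mul h12)).fun_add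
        ((hC.fun_pow 2).fun_mul h22)
    simpa using this
  have pden : 0 < den (Real.pi / 2) := by
    have := hpos (-(endLr Q q (Real.pi / 2) * x (Real.pi / 2))) 1 one_ne_zero
    simp only [hden, hQ0, Real.cos_zero]
    linarith
  have pnum : 0 < num (Real.pi / 2) := by
    have h1 := hpos (-beta g (c0 s x (Real.pi / 2)) 1 Complex.I) _ p11.ne'
    have h2 := h.xpos _ hc
    refine mul_pos (by positivity) (pos_of_mul_pos_left (b := _) ?_ p11.le)
    linarith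
  have dF : HasDerivAt (fun τ => Real.sqrt (num τ / den τ)) 0 (Real.pi / 2) := by
    have := (dnum.fun_div dden pden.ne').sqrt (div_pos pnum pden).ne'
    simpa using this
  refine ⟨Real.sqrt (num (Real.pi / 2) / den (Real.pi / 2)), ?_, ?_⟩
  · rw [Real.sq_sqrt (div_pos pnum pden).le, div_le_iff₀ pden, (endL_co _).1]
    simp only [hnum, hden, hQ0, Real.cos_zero]
    nlinarith [sq_nonneg (x (Real.pi / 2) * (endLr Q q (Real.pi / 2) * x (Real.pi / 2) *
      beta g (c0 s x (Real.pi / 2)) 1 1 - beta g (c0 s x (Real.pi / 2)) 1 Complex.I))]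
  · have hle : 𝓝[<] (Real.pi / 2) ≤ 𝓝[≠] (Real.pi / 2) := nhdsLT_le_nhdsNE _
    have h1 := ((hasDerivAt_iff_tendsto_slope.mp dF).mono_left hle).neg
    rw [neg_zero] at h1
    refine h1.congr' ?_
    filter_upwards [hle endL_cos, self_mem_nhdsWithin, nhdsWithin_le_nhds (endL_mem h),
      nhdsWithin_le_nhds (dden.continuousAt.eventually_ne pden.ne')] with τ h2 h3 h4 h5
    have h3' : τ ≠ Real.pi / 2 := ne_of_lt h3
    obtain ⟨-, -, -, e1, e2, e3⟩ := rot_gram (by omega) hg hI (P τ) (Q τ) (h.mem_W hodd h4)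
      (c0_isPl τ)
    obtain ⟨f1, f2, f3⟩ := endL_co (g := g) (s := s) (x := x) τ
    have e : fphi g (chat d s x P Q τ) = Real.sqrt (num τ / den τ) := by
      rw [fphi, chat, e1, e2, e3, f1, f2, f3]
      congr 1
      exact endL_alg (Real.cos_sq_add_sin_sq _) (div_ne_zero h2 (by positivity))
        (by rw [endLr, if_neg h3']) h5
    rw [e, slope_def_field, ← div_neg, neg_sub]

end Pool.Agent.Anco
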