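import Pool.Agent.Lib.MP_66983d_gt.Curve0
import Pool.Agent.Lib.MP_66983d_gt.Gram

set_option maxSynthPendingDepth 3

namespace Pool.Agent.Anco

open scoped ContDiff Topology
open Filter Set Matrix

variable {m d : ℕ} [NeZero m] {g : V (m + 2) → V (m + 2) →L[ℝ] V (m + 2) →L[ℝ] ℝ} {δ : ℝ}
  {s x : ℝ → ℝ}

theorem endLh_cont (hg : IsMetric (m + 2) d g) :
    Continuous (cXX d g) ∧ Continuous (cXY d g) ∧ Continuous (cYY g) ∧
    Continuous (cAA g) ∧ Continuous (cAB g) ∧ Continuous (cBB g) := by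
  have hX : Continuous (vX d : V (m + 2) → V (m + 2)) := contDiff_vX.continuous
  have hY : Continuous (vY : V (m + 2) → V (m + 2)) := contDiff_vY.continuous
  have hg' : Continuous g := hg.1.continuous
  have hb := (contDiff_beta hg).continuous
  have c0 : Continuous fun z : V (m + 2) => z.2 0 := by fun_prop
  have c1 : Continuous fun z : V (m + 2) => z.2 1 := by fun_prop
  exact ⟨(hg'.clm_apply hX).clm_apply hX, (hg'.clm_apply hX).clm_apply hY,
    (hg'.clm_apply hY).clm_apply hY,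
    hb.comp (continuous_id.prodMk (c0.prodMk c0)), hb.comp (continuous_id.prodMk (c0.prodMk c1)),
    hb.comp (continuous_id.prodMk (c1.prodMk c1))⟩

theorem endL_bh (hm : 3 ≤ m) (hd : 3 ≤ d) (hodd : Odd d) (hg : IsMetric (m + 2) d g)
    (hI : Invariant (m + 2) d g) (h : C0 d δ s x) (P : ℝ → ℝ) {Q : ℝ → ℝ}
    (hQ0 : Q (Real.pi / 2) = 0) (hQ : ContinuousAt Q (Real.pi / 2)) :
    Tendsto (fun τ => fb g (chat d s x P Q τ)) (𝓝[<] (Real.pi / 2)) (𝓝 0) ∧
    Tendsto (fun τ => fh d g (chat d s x P Q τ)) (𝓝[<] (Real.pi / 2))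
      (𝓝 (Real.sqrt (cAA g (c0 s x (Real.pi / 2))))) := by
  have hπ := Real.pi_pos
  have hδ := h.δpos
  have hhalf : Real.pi / 2 ∈ Ioo (-δ) (Real.pi + δ) := ⟨by linarith, by linarith⟩
  have hnb : Ioo (-δ) (Real.pi + δ) ∈ 𝓝 (Real.pi / 2) := isOpen_Ioo.mem_nhds hhalf
  obtain ⟨k1, k2, k3, k4, k5, k6⟩ := endLh_cont hg
  have hc : ContinuousAt (c0 s x : ℝ → V (m + 2)) (Real.pi / 2) :=
    h.contDiffOn_c0.continuousOn.continuousAt hnb
  have hp : (c0 s x (Real.pi / 2) : V (m + 2)) =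
      pl (-(s (Real.pi / 2) : ℂ)) (x (Real.pi / 2) : ℂ) 0 := by simp [c0]
  have hW := h.mem_W (m := m) hodd hhalf
  have hs : 0 < s (Real.pi / 2) := h.spos _ ⟨by linarith, by linarith⟩
  have hBB : cBB g (c0 s x (Real.pi / 2)) = 0 := by
    rw [hp]
    have := beta_smul_left (g := g) (pl (-(s (Real.pi / 2) : ℂ)) (x (Real.pi / 2) : ℂ) 0) 0 0 0
    simpa [cBB] using this
  have hXp : vX d (pl (-(s (Real.pi / 2) : ℂ)) (x (Real.pi / 2) : ℂ) 0 : V (m + 2)) =
      pl (2 * Complex.I * (-(s (Real.pi / 2) : ℂ))) (d * Complex.I * (x (Real.pi / 2) : ℂ)) 0 :=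
    V_ext rfl rfl (by simp [vX]) (fun i => by simp [vX])
  have hYp : vY (pl (-(s (Real.pi / 2) : ℂ)) (x (Real.pi / 2) : ℂ) 0 : V (m + 2)) =
      pl 0 0 (-(x (Real.pi / 2) : ℂ)) := rfl
  have hXT := vX_mem_Tan (d := d) (by omega) hW
  have hYT := vY_mem_Tan (d := d) (c0 s x (Real.pi / 2) : V (m + 2))
  have hXX : 0 < cXX d g (c0 s x (Real.pi / 2)) := by
    refine hg.2.2 _ hW _ hXT ?_
    intro h0
    have := congrArg Prod.fst h0
    simp [vX, c0, hs.ne'] at this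
  have hXY : cXY d g (c0 s x (Real.pi / 2)) = 0 := by
    rw [hp] at hW hXT hYT
    rw [hXp] at hXT
    rw [hYp] at hYT
    have e := sig_pl hm hI hW hXT hYT
    have e2 : (pl 0 0 (- -(x (Real.pi / 2) : ℂ)) : V (m + 2)) =
        -pl 0 0 (-(x (Real.pi / 2) : ℂ)) :=
      V_ext (by simp) (by simp) (by simp) (fun i => by simp)
    rw [neg_zero, e2, map_neg] at e
    rw [hp, cXY, hXp, hYp]
    linarith
  have hYY : cYY g (c0 s x (Real.pi / 2)) = cAA g (c0 s x (Real.pi / 2)) := by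
    rw [hp] at hW
    rw [hp, cYY, hYp, gram_sing hm hI hW, cAA]
    have e1 := beta_smul_left (g := g) (pl (-(s (Real.pi / 2) : ℂ)) (x (Real.pi / 2) : ℂ) 0) (-1)
      (x (Real.pi / 2) : ℂ) (-(x (Real.pi / 2) : ℂ))
    have e2 := beta_smul_right (g := g) (pl (-(s (Real.pi / 2) : ℂ)) (x (Real.pi / 2) : ℂ) 0) (-1)
      (x (Real.pi / 2) : ℂ) (x (Real.pi / 2) : ℂ)
    simp only [Complex.ofReal_neg, Complex.ofReal_one, neg_mul, one_mul] at e1 e2
    rw [e1, e2]
    simp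
  have hev : ∀ᶠ τ in 𝓝[<] (Real.pi / 2), τ ∈ Ioo (-δ) (Real.pi + δ) := nhdsWithin_le_nhds hnb
  refine ⟨?_, ?_⟩
  · have t1 : ContinuousAt (fun τ => Real.sqrt (Real.sin (Q τ) ^ 2 * cAA g (c0 s x τ) -
        2 * Real.cos (Q τ) * Real.sin (Q τ) * cAB g (c0 s x τ) +
        Real.cos (Q τ) ^ 2 * cBB g (c0 s x τ))) (Real.pi / 2) := by
      have a1 := k4.continuousAt.comp hc
      have a2 := k5.continuousAt.comp hc
      have a3 := k6.continuousAt.comp hc
      have a4 := Real.continuous_sin.continuousAt.comp hQ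
      have a5 := Real.continuous_cos.continuousAt.comp hQ
      exact ((((a4.pow 2).mul a1).sub (((a5.const_mul 2).mul a4).mul a2)).add
        ((a5.pow 2).mul a3)).sqrt
    have t2 := t1.tendsto
    simp only [hQ0, hBB, Real.sin_zero, Real.cos_zero] at t2
    norm_num at t2
    refine (t2.mono_left nhdsWithin_le_nhds).congr' ?_
    filter_upwards [hev] with τ hτ
    rw [fb, chat, (rot_gram (by omega) hg hI _ _ (h.mem_W hodd hτ) (c0_isPl τ)).2.2.2.2.2]
  · have t1 : ContinuousAt (fun τ => Real.sqrt (cYY g (c0 s x τ) -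
        cXY d g (c0 s x τ) ^ 2 / cXX d g (c0 s x τ))) (Real.pi / 2) := by
      have a1 := k1.continuousAt.comp hc
      have a2 := k2.continuousAt.comp hc
      have a3 := k3.continuousAt.comp hc
      exact (a3.sub ((a2.pow 2).div a1 hXX.ne')).sqrt
    have t2 := t1.tendsto
    simp only [hXY, hYY] at t2
    norm_num at t2
    refine (t2.mono_left nhdsWithin_le_nhds).congr' ?_
    filter_upwards [hev] with τ hτ
    obtain ⟨r1, r2, r3, -⟩ := rot_gram (by omega) hg hI (P τ) (Q τ) (h.mem_W hodd hτ) (c0_isPl τ)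
    rw [fh, chat, r1, r2, r3]

end Pool.Agent.Anco
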