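import Pool.Agent.Lib.MP_66983d_gt.Brk

set_option maxSynthPendingDepth 3

namespace Pool.Agent.Anco

open scoped ContDiff Topology
open Filter Set Matrix

theorem ineq_BL {m : ℕ} {p0 p1 : Co} {Λ : M m → M m → M m}
    (hΛ : ∀ a b c, bf p0 (Λ a b) c = kos (fun u : M m => u.1) (bf p0) (bf p1) brm a b c)
    {u z lam : M m}
    (hl : ∀ c, bf p0 lam c = kos (fun u : M m => u.1) (bf p0) (bf p1) brm u z c) (v w : M m) :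
    bf p0 (Λ v w) (Λ u z) = kos (fun u : M m => u.1) (bf p0) (bf p1) brm v w lam := by
  rw [bf_symm, hΛ, ← hl, bf_symm, hΛ]

theorem ineq_one {m : ℕ} {ε : ℝ} {p0 p1 p2 : Co} {Λ : M m → M m → M m}
    (h : ∀ (N : ℕ) (X Y : Fin N → M m),
      -ε * ∑ a, ∑ b, (bf p0 (X a) (X b) * bf p0 (Y a) (Y b) -
          bf p0 (X a) (Y b) * bf p0 (Y a) (X b)) ≤
        ∑ a, ∑ b, RmF (fun u : M m => u.1) (bf p0) (bf p1) (bf p2) brm hact Λ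
          (X a) (Y a) (Y b) (X b)) (u v : M m) :
    -ε * (bf p0 u u * bf p0 v v - bf p0 u v * bf p0 v u) ≤
      RmF (fun u : M m => u.1) (bf p0) (bf p1) (bf p2) brm hact Λ u v v u := by
  simpa using h 1 (fun _ => u) (fun _ => v)

/-- the jets of the coefficients -/
def ineqP0 (φ0 μ0 b0 h0 ν0 x0 : ℝ) : Co :=
  ⟨1, x0 ^ 2, ν0 * x0 ^ 2, h0 ^ 2 + ν0 ^ 2 * x0 ^ 2, φ0 ^ 2 + μ0 ^ 2 * b0 ^ 2, μ0 * b0 ^ 2, b0 ^ 2⟩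

def ineqP1 (φ0 φ1 μ0 μ1 b0 b1 h0 h1 ν0 ν1 x0 x1 : ℝ) : Co :=
  ⟨0, 2 * x0 * x1, ν1 * x0 ^ 2 + ν0 * (2 * x0 * x1),
    2 * h0 * h1 + 2 * ν0 * ν1 * x0 ^ 2 + ν0 ^ 2 * (2 * x0 * x1),
    2 * φ0 * φ1 + 2 * μ0 * μ1 * b0 ^ 2 + μ0 ^ 2 * (2 * b0 * b1),
    μ1 * b0 ^ 2 + μ0 * (2 * b0 * b1), 2 * b0 * b1⟩

def ineqP2 (φ0 φ1 φ2 μ0 μ1 μ2 b0 b1 b2 h0 h1 h2 ν0 ν1 ν2 x0 x1 x2 : ℝ) : Co :=
  ⟨0, 2 * x1 ^ 2 + 2 * x0 * x2,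
    ν2 * x0 ^ 2 + 2 * ν1 * (2 * x0 * x1) + ν0 * (2 * x1 ^ 2 + 2 * x0 * x2),
    2 * h1 ^ 2 + 2 * h0 * h2 + (2 * ν1 ^ 2 + 2 * ν0 * ν2) * x0 ^ 2 +
      4 * ν0 * ν1 * (2 * x0 * x1) + ν0 ^ 2 * (2 * x1 ^ 2 + 2 * x0 * x2),
    2 * φ1 ^ 2 + 2 * φ0 * φ2 + (2 * μ1 ^ 2 + 2 * μ0 * μ2) * b0 ^ 2 +
      4 * μ0 * μ1 * (2 * b0 * b1) + μ0 ^ 2 * (2 * b1 ^ 2 + 2 * b0 * b2),
    μ2 * b0 ^ 2 + 2 * μ1 * (2 * b0 * b1) + μ0 * (2 * b1 ^ 2 + 2 * b0 * b2),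
    2 * b1 ^ 2 + 2 * b0 * b2⟩

/-- vectors whose last two components are multiples of `e` -/
def ineqV {m : ℕ} (t x y a b : ℝ) (e : Fin m → ℝ) : M m := (t, x, y, a • e, b • e)

section

variable {m : ℕ} {φ0 φ1 φ2 μ0 μ1 μ2 b0 b1 b2 h0 h1 h2 ν0 ν1 ν2 x0 x1 x2 : ℝ}
  {e f : Fin m → ℝ} {Λ : M m → M m → M m}

theorem ineq_TA (hφ : 0 < φ0) (he : e ⬝ᵥ e = 1)
    (hΛ : ∀ a b c, bf (ineqP0 φ0 μ0 b0 h0 ν0 x0) (Λ a b) c =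
      kos (fun u : M m => u.1) (bf (ineqP0 φ0 μ0 b0 h0 ν0 x0))
        (bf (ineqP1 φ0 φ1 μ0 μ1 b0 b1 h0 h1 ν0 ν1 x0 x1)) brm a b c) :
    RmF (fun u : M m => u.1) (bf (ineqP0 φ0 μ0 b0 h0 ν0 x0))
        (bf (ineqP1 φ0 φ1 μ0 μ1 b0 b1 h0 h1 ν0 ν1 x0 x1))
        (bf (ineqP2 φ0 φ1 φ2 μ0 μ1 μ2 b0 b1 b2 h0 h1 h2 ν0 ν1 ν2 x0 x1 x2)) brm hact Λ
        (ineqV 1 0 0 0 0 e) (ineqV 0 0 0 1 (-μ0) e) (ineqV 0 0 0 1 (-μ0) e) (ineqV 1 0 0 0 0 e) =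
      -φ0 * φ2 - 3 * (μ1 * b0 / (2 * φ0)) ^ 2 * φ0 ^ 2 := by
  rw [RmF, ineq_BL hΛ (u := ineqV 1 0 0 0 0 e) (z := ineqV 1 0 0 0 0 e) (lam := ineqV 0 0 0 0 0 e),
    ineq_BL hΛ (u := ineqV 0 0 0 1 (-μ0) e) (z := ineqV 1 0 0 0 0 e)
      (lam := ineqV 0 0 0 (φ1 / φ0) (-μ0 * (φ1 / φ0) + μ1 / 2) e)]
  · simp [bf, kos, brm, hact, hact1, ineqV, ineqP0, ineqP1, ineqP2, he]
    field_simp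
    ring
  · intro c
    simp [bf, kos, brm, ineqV, ineqP0, ineqP1, dotProduct_comm _ e]
    field_simp
    ring
  · intro c
    simp [bf, kos, brm, ineqV, ineqP0, ineqP1]

theorem ineq_TB (hφ : 0 < φ0) (hb : 0 < b0) (he : e ⬝ᵥ e = 1)
    (hΛ : ∀ a b c, bf (ineqP0 φ0 μ0 b0 h0 ν0 x0) (Λ a b) c =
      kos (fun u : M m => u.1) (bf (ineqP0 φ0 μ0 b0 h0 ν0 x0))
        (bf (ineqP1 φ0 φ1 μ0 μ1 b0 b1 h0 h1 ν0 ν1 x0 x1)) brm a b c) :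
    RmF (fun u : M m => u.1) (bf (ineqP0 φ0 μ0 b0 h0 ν0 x0))
        (bf (ineqP1 φ0 φ1 μ0 μ1 b0 b1 h0 h1 ν0 ν1 x0 x1))
        (bf (ineqP2 φ0 φ1 φ2 μ0 μ1 μ2 b0 b1 b2 h0 h1 h2 ν0 ν1 ν2 x0 x1 x2)) brm hact Λ
        (ineqV 1 0 0 0 0 e) (ineqV 0 0 0 0 1 e) (ineqV 0 0 0 0 1 e) (ineqV 1 0 0 0 0 e) =
      -b0 * b2 + (μ1 * b0 / (2 * φ0)) ^ 2 * b0 ^ 2 := by
  rw [RmF, ineq_BL hΛ (u := ineqV 1 0 0 0 0 e) (z := ineqV 1 0 0 0 0 e) (lam := ineqV 0 0 0 0 0 e),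
    ineq_BL hΛ (u := ineqV 0 0 0 0 1 e) (z := ineqV 1 0 0 0 0 e)
      (lam := ineqV 0 0 0 (μ1 * b0 ^ 2 / (2 * φ0 ^ 2))
        (-μ0 * (μ1 * b0 ^ 2 / (2 * φ0 ^ 2)) + b1 / b0) e)]
  · simp [bf, kos, brm, hact, hact1, ineqV, ineqP0, ineqP1, ineqP2, he]
    field_simp
    ring
  · intro c
    simp [bf, kos, brm, ineqV, ineqP0, ineqP1, dotProduct_comm _ e]
    field_simp
    ring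
  · intro c
    simp [bf, kos, brm, ineqV, ineqP0, ineqP1]

theorem ineq_TY (hh : 0 < h0)
    (hΛ : ∀ a b c, bf (ineqP0 φ0 μ0 b0 h0 ν0 x0) (Λ a b) c =
      kos (fun u : M m => u.1) (bf (ineqP0 φ0 μ0 b0 h0 ν0 x0))
        (bf (ineqP1 φ0 φ1 μ0 μ1 b0 b1 h0 h1 ν0 ν1 x0 x1)) brm a b c) :
    RmF (fun u : M m => u.1) (bf (ineqP0 φ0 μ0 b0 h0 ν0 x0))
        (bf (ineqP1 φ0 φ1 μ0 μ1 b0 b1 h0 h1 ν0 ν1 x0 x1))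
        (bf (ineqP2 φ0 φ1 φ2 μ0 μ1 μ2 b0 b1 b2 h0 h1 h2 ν0 ν1 ν2 x0 x1 x2)) brm hact Λ
        (ineqV 1 0 0 0 0 e) (ineqV 0 (-ν0) 1 0 0 e) (ineqV 0 (-ν0) 1 0 0 e) (ineqV 1 0 0 0 0 e) =
      -h0 * h2 - 3 / 4 * ν1 ^ 2 * x0 ^ 2 := by
  rw [RmF, ineq_BL hΛ (u := ineqV 1 0 0 0 0 e) (z := ineqV 1 0 0 0 0 e) (lam := ineqV 0 0 0 0 0 e),
    ineq_BL hΛ (u := ineqV 0 (-ν0) 1 0 0 e) (z := ineqV 1 0 0 0 0 e)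
      (lam := ineqV 0 (-ν0 * (h1 / h0) + ν1 / 2) (h1 / h0) 0 0 e)]
  · simp [bf, kos, brm, hact, hact1, ineqV, ineqP0, ineqP1, ineqP2]
    field_simp
    ring
  · intro c
    simp [bf, kos, brm, ineqV, ineqP0, ineqP1]
    field_simp
    ring
  · intro c
    simp [bf, kos, brm, ineqV, ineqP0, ineqP1]

theorem ineq_YB (hφ : 0 < φ0) (he : e ⬝ᵥ e = 1)
    (hΛ : ∀ a b c, bf (ineqP0 φ0 μ0 b0 h0 ν0 x0) (Λ a b) c =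
      kos (fun u : M m => u.1) (bf (ineqP0 φ0 μ0 b0 h0 ν0 x0))
        (bf (ineqP1 φ0 φ1 μ0 μ1 b0 b1 h0 h1 ν0 ν1 x0 x1)) brm a b c) :
    RmF (fun u : M m => u.1) (bf (ineqP0 φ0 μ0 b0 h0 ν0 x0))
        (bf (ineqP1 φ0 φ1 μ0 μ1 b0 b1 h0 h1 ν0 ν1 x0 x1))
        (bf (ineqP2 φ0 φ1 φ2 μ0 μ1 μ2 b0 b1 b2 h0 h1 h2 ν0 ν1 ν2 x0 x1 x2)) brm hact Λ
        (ineqV 0 (-ν0) 1 0 0 e) (ineqV 0 0 0 0 1 e) (ineqV 0 0 0 0 1 e) (ineqV 0 (-ν0) 1 0 0 e) =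
      -(φ0 ^ 2 - (1 + μ0 ^ 2) * b0 ^ 2) - μ0 ^ 2 * b0 ^ 2 - b0 * b1 * h0 * h1 +
        (h0 ^ 2 + (φ0 ^ 2 - (1 + μ0 ^ 2) * b0 ^ 2)) ^ 2 / (4 * φ0 ^ 2) := by
  rw [RmF, ineq_BL hΛ (u := ineqV 0 (-ν0) 1 0 0 e) (z := ineqV 0 (-ν0) 1 0 0 e)
      (lam := ineqV (-h0 * h1) 0 0 0 0 e), bf_symm _ (Λ (ineqV 0 (-ν0) 1 0 0 e) _),
    ineq_BL hΛ (u := ineqV 0 (-ν0) 1 0 0 e) (z := ineqV 0 0 0 0 1 e)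
      (lam := ineqV 0 0 0 ((φ0 ^ 2 + μ0 ^ 2 * b0 ^ 2 + b0 ^ 2 - h0 ^ 2) / (2 * φ0 ^ 2))
        (-μ0 * ((φ0 ^ 2 + μ0 ^ 2 * b0 ^ 2 + b0 ^ 2 - h0 ^ 2) / (2 * φ0 ^ 2))) e)]
  · simp [bf, kos, brm, hact, hact1, ineqV, ineqP0, ineqP1, ineqP2, he]
    field_simp
    ring
  · intro c
    simp [bf, kos, brm, ineqV, ineqP0, ineqP1, dotProduct_comm _ e]
    field_simp
    ring
  · intro c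
    simp [bf, kos, brm, ineqV, ineqP0, ineqP1]
    ring

theorem ineq_AB (hφ : 0 < φ0) (hh : 0 < h0) (he : e ⬝ᵥ e = 1) (hf : f ⬝ᵥ f = 1)
    (hef : e ⬝ᵥ f = 0)
    (hΛ : ∀ a b c, bf (ineqP0 φ0 μ0 b0 h0 ν0 x0) (Λ a b) c =
      kos (fun u : M m => u.1) (bf (ineqP0 φ0 μ0 b0 h0 ν0 x0))
        (bf (ineqP1 φ0 φ1 μ0 μ1 b0 b1 h0 h1 ν0 ν1 x0 x1)) brm a b c) :
    RmF (fun u : M m => u.1) (bf (ineqP0 φ0 μ0 b0 h0 ν0 x0))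
        (bf (ineqP1 φ0 φ1 μ0 μ1 b0 b1 h0 h1 ν0 ν1 x0 x1))
        (bf (ineqP2 φ0 φ1 φ2 μ0 μ1 μ2 b0 b1 b2 h0 h1 h2 ν0 ν1 ν2 x0 x1 x2)) brm hact Λ
        (ineqV 0 0 0 1 (-μ0) e) (ineqV 0 0 0 0 1 f) (ineqV 0 0 0 0 1 f) (ineqV 0 0 0 1 (-μ0) e) +
      RmF (fun u : M m => u.1) (bf (ineqP0 φ0 μ0 b0 h0 ν0 x0))
        (bf (ineqP1 φ0 φ1 μ0 μ1 b0 b1 h0 h1 ν0 ν1 x0 x1))
        (bf (ineqP2 φ0 φ1 φ2 μ0 μ1 μ2 b0 b1 b2 h0 h1 h2 ν0 ν1 ν2 x0 x1 x2)) brm hact Λ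
        (ineqV 0 0 0 1 (-μ0) e) (ineqV 0 0 0 0 1 f) (ineqV 0 0 0 0 1 e) (ineqV 0 0 0 1 (-μ0) f) =
      μ0 ^ 2 * b0 ^ 2 * φ0 ^ 2 / h0 ^ 2 - b0 * b1 * φ0 * φ1 +
        ((φ0 ^ 2 - (1 + μ0 ^ 2) * b0 ^ 2) ^ 2 / h0 ^ 2 - (h0 ^ 2 + ν0 ^ 2 * x0 ^ 2)) / 4 +
        (μ1 * b0 / (2 * φ0)) ^ 2 * φ0 ^ 2 * b0 ^ 2 := by
  have hfe : f ⬝ᵥ e = 0 := by rw [dotProduct_comm, hef]
  rw [RmF, RmF, ineq_BL hΛ (u := ineqV 0 0 0 1 (-μ0) e) (z := ineqV 0 0 0 1 (-μ0) e)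
      (lam := ineqV (-φ0 * φ1) (μ0 * φ0 ^ 2 * ν0 / h0 ^ 2) (-μ0 * φ0 ^ 2 / h0 ^ 2) 0 0 e),
    ineq_BL hΛ (u := ineqV 0 0 0 0 1 f) (z := ineqV 0 0 0 1 (-μ0) e) (lam := ineqV 0 0 0 0 0 e),
    ineq_BL hΛ (u := ineqV 0 0 0 1 (-μ0) e) (z := ineqV 0 0 0 1 (-μ0) f)
      (lam := ineqV 0 0 0 0 0 e),
    ineq_BL hΛ (u := ineqV 0 0 0 0 1 f) (z := ineqV 0 0 0 1 (-μ0) f)
      (lam := ineqV (-(μ1 * b0 ^ 2 / 2))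
        (-ν0 * (φ0 ^ 2 - (1 + μ0 ^ 2) * b0 ^ 2) / (2 * h0 ^ 2))
        (1 / 2 + (φ0 ^ 2 - (1 + μ0 ^ 2) * b0 ^ 2) / (2 * h0 ^ 2)) 0 0 e)]
  · simp [bf, kos, brm, hact, hact1, ineqV, ineqP0, ineqP1, ineqP2, he, hf, hef, hfe]
    field_simp
    ring
  · intro c
    simp [bf, kos, brm, ineqV, ineqP0, ineqP1, hf]
    field_simp
    ring
  · intro c
    simp [bf, kos, brm, ineqV, ineqP0, ineqP1, hef, hfe]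
  · intro c
    simp [bf, kos, brm, ineqV, ineqP0, ineqP1, hef, hfe]
  · intro c
    simp [bf, kos, brm, ineqV, ineqP0, ineqP1, he]
    field_simp
    ring

end

theorem five_of_curvM {m : ℕ} (hm : 2 ≤ m) {ε : ℝ} {p0 p1 p2 : Co} (hC : CurvM m ε p0 p1 p2)
    (ht0 : p0.tt = 1) (ht1 : p1.tt = 0) (ht2 : p2.tt = 0)
    {φ0 φ1 φ2 μ0 μ1 μ2 b0 b1 b2 h0 h1 h2 ν0 ν1 ν2 x0 x1 x2 : ℝ}
    (hφ : 0 < φ0) (hb : 0 < b0) (hh : 0 < h0) (hx : 0 < x0)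
    (hA : Blk φ0 φ1 φ2 μ0 μ1 μ2 b0 b1 b2 p0.aa p1.aa p2.aa p0.ab p1.ab p2.ab p0.bb p1.bb p2.bb)
    (hY : Blk h0 h1 h2 ν0 ν1 ν2 x0 x1 x2 p0.yy p1.yy p2.yy p0.xy p1.xy p2.xy p0.xx p1.xx p2.xx) :
    Five ε φ0 φ1 φ2 b0 b1 b2 h0 h1 h2 μ0 μ1 := by
  obtain ⟨a1, a2, a3, a4, a5, a6, a7, a8, a9⟩ := hA
  obtain ⟨y1, y2, y3, y4, y5, y6, y7, y8, y9⟩ := hY
  obtain rfl : p0 = ineqP0 φ0 μ0 b0 h0 ν0 x0 := by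
    rw [a1] at a4 a7; rw [y1] at y4 y7
    rw [ineqP0, ← a7, ← a4, ← y7, ← y4, ← a1, ← y1, ← ht0]
  obtain rfl : p1 = ineqP1 φ0 φ1 μ0 μ1 b0 b1 h0 h1 ν0 ν1 x0 x1 := by
    rw [a1, a2] at a5 a8; rw [y1, y2] at y5 y8
    rw [ineqP1, ← a8, ← a5, ← y8, ← y5, ← a2, ← y2, ← ht1]
  obtain rfl : p2 = ineqP2 φ0 φ1 φ2 μ0 μ1 μ2 b0 b1 b2 h0 h1 h2 ν0 ν1 ν2 x0 x1 x2 := by
    rw [a1, a2, a3] at a6 a9; rw [y1, y2, y3] at y6 y9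
    rw [ineqP2, ← a9, ← a6, ← y9, ← y6, ← a3, ← y3, ← ht2]
  clear a1 a2 a3 a4 a5 a6 a7 a8 a9 y1 y2 y3 y4 y5 y6 y7 y8 y9 ht0 ht1 ht2
  obtain ⟨Λ, hΛ, hI⟩ := hC
  let e : Fin m → ℝ := Pi.single ⟨0, by omega⟩ 1
  let f : Fin m → ℝ := Pi.single ⟨1, by omega⟩ 1
  have he : e ⬝ᵥ e = 1 := by simp [e]
  have hf : f ⬝ᵥ f = 1 := by simp [f]
  have hef : e ⬝ᵥ f = 0 := by simp [e, f]
  have hfe : f ⬝ᵥ e = 0 := by rw [dotProduct_comm, hef]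
  clear_value e f
  refine ⟨?_, ?_, ?_, ?_, ?_⟩
  · have h := ineq_one hI (ineqV 1 0 0 0 0 e) (ineqV 0 0 0 1 (-μ0) e)
    rw [ineq_TA hφ he hΛ] at h
    simp [bf, ineqV, ineqP0, he] at h
    refine le_of_mul_le_mul_left ?_ hφ
    linarith
  · have h := ineq_one hI (ineqV 1 0 0 0 0 e) (ineqV 0 0 0 0 1 e)
    rw [ineq_TB hφ hb he hΛ] at h
    simp [bf, ineqV, ineqP0, he] at h
    refine le_of_mul_le_mul_left ?_ hb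
    linarith
  · have h := ineq_one hI (ineqV 1 0 0 0 0 e) (ineqV 0 (-ν0) 1 0 0 e)
    rw [ineq_TY hh hΛ] at h
    simp [bf, ineqV, ineqP0] at h
    refine le_of_mul_le_mul_left ?_ hh
    linarith [sq_nonneg (ν1 * x0)]
  · have h := ineq_one hI (ineqV 0 (-ν0) 1 0 0 e) (ineqV 0 0 0 0 1 e)
    rw [ineq_YB hφ he hΛ] at h
    simp [bf, ineqV, ineqP0, he] at h
    linarith [sq_nonneg (μ0 * b0)]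
  · have h := hI 2 ![ineqV 0 0 0 1 (-μ0) e, ineqV 0 0 0 1 (-μ0) f]
      ![ineqV 0 0 0 0 1 f, ineqV 0 0 0 0 1 e]
    have h1 := ineq_AB (φ2 := φ2) (μ2 := μ2) (b2 := b2) (h2 := h2) (ν2 := ν2) (x2 := x2)
      hφ hh he hf hef hΛ
    have h2 := ineq_AB (φ2 := φ2) (μ2 := μ2) (b2 := b2) (h2 := h2) (ν2 := ν2) (x2 := x2)
      hφ hh hf he hfe hΛ
    simp only [Fin.sum_univ_two, Matrix.cons_val_zero, Matrix.cons_val_one] at h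
    rw [h1, add_comm (RmF _ _ _ _ _ _ _ _ _ _ _), h2] at h
    simp [bf, ineqV, ineqP0, he, hf, hef, hfe] at h
    have e1 : φ0 ^ 2 * b0 ^ 2 * (ε + (μ1 * b0 / (2 * φ0)) ^ 2 + μ0 ^ 2 / h0 ^ 2) =
        ε * (φ0 ^ 2 * b0 ^ 2) + (μ1 * b0 / (2 * φ0)) ^ 2 * φ0 ^ 2 * b0 ^ 2 +
          μ0 ^ 2 * b0 ^ 2 * φ0 ^ 2 / h0 ^ 2 := by ring
    rw [e1]
    linarith [sq_nonneg (ν0 * x0)]

end Pool.Agent.Anco
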