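import Pool.Agent.Lib.MP_66983d_gt.Curve0
import Pool.Agent.Lib.MP_66983d_gt.Sing0

set_option maxSynthPendingDepth 3

namespace Pool.Agent.Anco

open scoped ContDiff Topology
open Filter Set Matrix

variable {m d : ℕ} {g : V (m + 2) → V (m + 2) →L[ℝ] V (m + 2) →L[ℝ] ℝ} {δ : ℝ} {s x : ℝ → ℝ}

section gs
variable {E : Type*} [NormedAddCommGroup E] [NormedSpace ℝ E]

/-- first Gram-Schmidt coefficient -/
noncomputable def liftaP (B : E →L[ℝ] E →L[ℝ] ℝ) (v Z Y : E) : ℝ :=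
  (B Y Y * B v Z - B Z Y * B v Y) / (B Z Z * B Y Y - B Z Y ^ 2)

/-- second Gram-Schmidt coefficient -/
noncomputable def liftaQ (B : E →L[ℝ] E →L[ℝ] ℝ) (v Z Y : E) : ℝ :=
  (B Z Z * B v Y - B Z Y * B v Z) / (B Z Z * B Y Y - B Z Y ^ 2)

/-- the orthogonal part -/
noncomputable def liftaH (B : E →L[ℝ] E →L[ℝ] ℝ) (v Z Y : E) : E :=
  v - liftaP B v Z Y • Z - liftaQ B v Z Y • Y

theorem lifta_orth {B : E →L[ℝ] E →L[ℝ] ℝ} (hB : ∀ u v, B u v = B v u) (v : E) {Z Y : E}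
    (hdet : B Z Z * B Y Y - B Z Y ^ 2 ≠ 0) :
    B (liftaH B v Z Y) Z = 0 ∧ B (liftaH B v Z Y) Y = 0 := by
  simp only [liftaH, map_sub, map_smul, _root_.sub_apply,
    _root_.smul_apply, smul_eq_mul, liftaP, liftaQ, hB Y Z]
  have e := mul_inv_cancel₀ hdet
  simp only [div_eq_mul_inv]
  generalize (B Z Z * B Y Y - B Z Y ^ 2)⁻¹ = i at e
  constructor
  · linear_combination (-B v Z) * e
  · linear_combination (-B v Y) * e

theorem lifta_det {B : E →L[ℝ] E →L[ℝ] ℝ} (hB : ∀ u v, B u v = B v u) {Z Y : E}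
    (hY : 0 < B Y Y) (h : 0 < B (B Y Y • Z - B Z Y • Y) (B Y Y • Z - B Z Y • Y)) :
    0 < B Z Z * B Y Y - B Z Y ^ 2 := by
  simp only [map_sub, map_smul, _root_.sub_apply,
    _root_.smul_apply, smul_eq_mul, hB Y Z] at h
  refine pos_of_mul_pos_left (b := B Y Y) ?_ hY.le
  exact h.trans_eq (by ring)

theorem lifta_smooth {U : Set ℝ} {B : ℝ → E →L[ℝ] E →L[ℝ] ℝ} {v Z Y : ℝ → E}
    (hB : ContDiffOn ℝ ∞ B U) (hv : ContDiffOn ℝ ∞ v U) (hZ : ContDiffOn ℝ ∞ Z U)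
    (hY : ContDiffOn ℝ ∞ Y U)
    (hdet : ∀ t ∈ U, B t (Z t) (Z t) * B t (Y t) (Y t) - B t (Z t) (Y t) ^ 2 ≠ 0) :
    ContDiffOn ℝ ∞ (fun t => liftaP (B t) (v t) (Z t) (Y t)) U ∧
    ContDiffOn ℝ ∞ (fun t => liftaQ (B t) (v t) (Z t) (Y t)) U ∧
    ContDiffOn ℝ ∞ (fun t => liftaH (B t) (v t) (Z t) (Y t)) U := by
  have ZZ := (hB.clm_apply hZ).clm_apply hZ
  have ZY := (hB.clm_apply hZ).clm_apply hY
  have YY := (hB.clm_apply hY).clm_apply hY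
  have vZ := (hB.clm_apply hv).clm_apply hZ
  have vY := (hB.clm_apply hv).clm_apply hY
  have D := (ZZ.mul YY).sub (ZY.pow 2)
  have hP : ContDiffOn ℝ ∞ (fun t => liftaP (B t) (v t) (Z t) (Y t)) U :=
    ((YY.mul vZ).sub (ZY.mul vY)).div D hdet
  have hQ : ContDiffOn ℝ ∞ (fun t => liftaQ (B t) (v t) (Z t) (Y t)) U :=
    ((ZZ.mul vY).sub (ZY.mul vZ)).div D hdet
  exact ⟨hP, hQ, (hv.sub (hP.smul hZ)).sub (hQ.smul hY)⟩

end gs

/-- the coefficient in the normalised action field -/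
noncomputable def liftaR (d : ℕ) (s x : ℝ → ℝ) (τ : ℝ) : ℝ :=
  d * s τ ^ (d - 1) / (x τ + Real.cos τ / Real.sqrt 2)

/-- the action field that vanishes at the left end, divided by `s` -/
noncomputable def liftaZ (d : ℕ) (s x : ℝ → ℝ) (τ : ℝ) : V (m + 2) :=
  pl (-(2 * Complex.I)) (Complex.I * (liftaR d s x τ : ℂ)) (liftaR d s x τ : ℂ)

theorem lifta_sub (h : C0 d δ s x) : Ioo (-δ) Real.pi ⊆ Ioo (-δ) (Real.pi + δ) :=
  Ioo_subset_Ioo_right (by linarith [h.δpos])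

theorem lifta_R_mul (h : C0 d δ s x) {τ : ℝ} (hτ : τ ∈ Ioo (-δ) Real.pi) :
    liftaR d s x τ * (x τ + Real.cos τ / Real.sqrt 2) = d * s τ ^ (d - 1) :=
  div_mul_cancel₀ _ (h.add_pos hτ).ne'

theorem lifta_sR (hd : 3 ≤ d) (h : C0 d δ s x) {τ : ℝ} (hτ : τ ∈ Ioo (-δ) Real.pi) :
    s τ * liftaR d s x τ = d * (x τ - Real.cos τ / Real.sqrt 2) := by
  refine mul_right_cancel₀ (h.add_pos hτ).ne' ?_
  have e2 := h.e2 τ (lifta_sub h hτ)
  have e3 : (Real.cos τ / Real.sqrt 2) ^ 2 = Real.cos τ ^ 2 / 2 := by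
    rw [div_pow, Real.sq_sqrt (by norm_num)]
  have e4 : s τ ^ d = s τ * s τ ^ (d - 1) := by
    rw [← pow_succ']; congr 1; omega
  rw [mul_assoc, lifta_R_mul h hτ]
  linear_combination (-(d : ℝ)) * e2 + d * e3 - d * e4

theorem lifta_Z_smooth (h : C0 d δ s x) :
    ContDiffOn ℝ ∞ (liftaZ d s x : ℝ → V (m + 2)) (Ioo (-δ) Real.pi) := by
  have hs := h.cs.mono (lifta_sub h)
  have hx := h.cx.mono (lifta_sub h)
  have hR : ContDiffOn ℝ ∞ (liftaR d s x) (Ioo (-δ) Real.pi) :=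
    (contDiffOn_const.mul (hs.pow _)).div
      (hx.add (Real.contDiff_cos.contDiffOn.div_const _)) fun τ hτ => (h.add_pos hτ).ne'
  have hR' : ContDiffOn ℝ ∞ (fun τ => (liftaR d s x τ : ℂ)) (Ioo (-δ) Real.pi) :=
    Complex.ofRealCLM.contDiff.comp_contDiffOn hR
  exact contDiff_pl.comp_contDiffOn (f := fun τ => (-(2 * Complex.I),
      Complex.I * (liftaR d s x τ : ℂ), (liftaR d s x τ : ℂ)))
    (contDiffOn_const.prodMk ((contDiffOn_const.mul hR').prodMk hR'))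

theorem lifta_Z_tan (hd : 3 ≤ d) (hodd : Odd d) (h : C0 d δ s x) {τ : ℝ}
    (hτ : τ ∈ Ioo (-δ) Real.pi) :
    (liftaZ d s x τ : V (m + 2)) ∈ Tan (m + 2) d (c0 s x τ) := by
  have hev : Even (d - 1) := by
    obtain ⟨k, hk⟩ := hodd
    exact ⟨k, by omega⟩
  have e : (liftaR d s x τ : ℂ) * ((x τ : ℂ) + ((Real.cos τ / Real.sqrt 2 : ℝ) : ℂ)) =
      d * (s τ : ℂ) ^ (d - 1) := by exact_mod_cast lifta_R_mul h hτ
  constructor
  · rw [sum_two]
    simp only [c0, liftaZ, pl_fst, pl_zero, pl_one, pl_ss, mul_zero, Finset.sum_const_zero,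
      hev.neg_pow]
    linear_combination (2 * Complex.I) * e
  · rw [sum_two]
    simp only [c0, liftaZ, pl_fst, pl_zero, pl_one, pl_ss, mul_zero, Finset.sum_const_zero]
    generalize Real.cos τ / Real.sqrt 2 = y
    simp

theorem lifta_vX (hd : 3 ≤ d) (h : C0 d δ s x) {τ : ℝ} (hτ : τ ∈ Ioo (-δ) Real.pi) :
    vX d (c0 s x τ : V (m + 2)) = s τ • liftaZ d s x τ + (d : ℝ) • vY (c0 s x τ) := by
  have e : (s τ : ℂ) * (liftaR d s x τ : ℂ) =
      d * ((x τ : ℂ) - ((Real.cos τ / Real.sqrt 2 : ℝ) : ℂ)) := by exact_mod_cast lifta_sR hd h hτ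
  refine V_ext ?_ ?_ ?_ fun i => ?_ <;>
    simp only [vX, vY, c0, liftaZ, pl_fst, pl_zero, pl_one, pl_ss, Prod.fst_add, Prod.snd_add,
      Prod.smul_fst, Prod.smul_snd, Pi.add_apply, Pi.smul_apply, Complex.real_smul,
      Complex.ofReal_natCast]
  · ring
  · linear_combination (-Complex.I) * e
  · linear_combination -e + (d * ((Real.cos τ / Real.sqrt 2 : ℝ) : ℂ)) * Complex.I_mul_I
  · ring

theorem lifta_detpos (hd : 3 ≤ d) (hodd : Odd d) (hg : IsMetric (m + 2) d g) (h : C0 d δ s x)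
    {τ : ℝ} (hτ : τ ∈ Ioo (-δ) Real.pi) :
    0 < g (c0 s x τ) (liftaZ d s x τ) (liftaZ d s x τ) *
        g (c0 s x τ) (vY (c0 s x τ)) (vY (c0 s x τ)) -
      g (c0 s x τ) (liftaZ d s x τ) (vY (c0 s x τ)) ^ 2 := by
  have hτ' := lifta_sub h hτ
  have hW := h.mem_W (m := m) hodd hτ'
  have hY : 0 < g (c0 s x τ) (vY (c0 s x τ)) (vY (c0 s x τ)) := by
    refine hg.2.2 _ hW _ (vY_mem_Tan _) fun h0 => ?_
    have h1 := congrArg (fun v : V (m + 2) => v.2 1) h0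
    simp only [vY, c0, pl_zero, pl_one, Prod.snd_zero, Pi.zero_apply, neg_eq_zero,
      Complex.ofReal_eq_zero] at h1
    exact (h.xpos τ hτ').ne' h1
  refine lifta_det (hg.2.1 _) hY (hg.2.2 _ hW _
    (sub_mem_Tan (smul_mem_Tan _ (lifta_Z_tan hd hodd h hτ)) (smul_mem_Tan _ (vY_mem_Tan _)))
    fun h0 => ?_)
  have h1 := congrArg (fun v : V (m + 2) => v.1.im) h0
  generalize g (c0 s x τ) (vY (c0 s x τ)) (vY (c0 s x τ)) = c at hY h1
  generalize g (c0 s x τ) (liftaZ d s x τ) (vY (c0 s x τ)) = b at h1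
  simp [liftaZ, vY] at h1
  exact hY.ne' h1

theorem lifta_ne (h : C0 d δ s x) {τ : ℝ} (hτ : τ ∈ Ioo (-δ) Real.pi) (P Q : ℝ) :
    (dc0 s x τ - P • liftaZ d s x τ - Q • vY (c0 s x τ) : V (m + 2)) ≠ 0 := by
  intro h0
  have h1 := congrArg (fun v : V (m + 2) => v.1.re) h0
  have h2 := congrArg (fun v : V (m + 2) => (v.2 1).im) h0
  simp only [dc0, liftaZ, vY, c0, pl_fst, pl_zero, pl_one, Prod.fst_sub, Prod.snd_sub,
    Prod.smul_fst, Prod.smul_snd, Pi.sub_apply, Pi.smul_apply, Complex.real_smul] at h1 h2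
  generalize hy : -Real.sin τ / Real.sqrt 2 = y at h2
  simp at h1 h2
  have h3 : Real.sin τ = 0 := by
    rw [h2, div_eq_zero_iff] at hy
    rcases hy with hy | hy
    · exact neg_eq_zero.1 hy
    · exact absurd hy (by positivity)
  have h4 : τ = 0 := by
    refine (Real.sin_eq_zero_iff_of_lt_of_lt ?_ hτ.2).1 h3
    linarith [hτ.1, h.δle, Real.pi_gt_three]
  rw [h4, h.ds0] at h1
  exact one_ne_zero h1

theorem exists_lift (hd : 3 ≤ d) (hodd : Odd d) (hg : IsMetric (m + 2) d g)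
    (hI : Invariant (m + 2) d g) (h : C0 d δ s x) : ∃ p q N, Lift d g s x δ p q N := by
  have hsub := lifta_sub h
  have hc := (h.contDiffOn_c0 (m := m)).mono hsub
  have hB : ContDiffOn ℝ ∞ (fun τ => g (c0 s x τ)) (Ioo (-δ) Real.pi) := hg.1.comp_contDiffOn hc
  have hY : ContDiffOn ℝ ∞ (fun τ => vY (c0 s x τ : V (m + 2))) (Ioo (-δ) Real.pi) :=
    contDiff_vY.comp_contDiffOn hc
  obtain ⟨hP, hQ, hH⟩ := lifta_smooth hB ((h.contDiffOn_dc0 (m := m)).mono hsub)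
    (lifta_Z_smooth h) hY fun τ hτ => (lifta_detpos hd hodd hg h hτ).ne'
  set P : ℝ → ℝ := fun τ => liftaP (g (c0 s x τ)) (dc0 s x τ) (liftaZ d s x τ) (vY (c0 s x τ))
    with hPd
  set Q : ℝ → ℝ := fun τ => liftaQ (g (c0 s x τ)) (dc0 s x τ) (liftaZ d s x τ) (vY (c0 s x τ))
    with hQd
  set H : ℝ → V (m + 2) :=
    fun τ => liftaH (g (c0 s x τ)) (dc0 s x τ) (liftaZ d s x τ) (vY (c0 s x τ)) with hHd
  have hHe : ∀ τ, H τ = dc0 s x τ - P τ • liftaZ d s x τ - Q τ • vY (c0 s x τ) := fun τ => rfl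
  have hpos : ∀ τ ∈ Ioo (-δ) Real.pi, 0 < g (c0 s x τ) (H τ) (H τ) := fun τ hτ =>
    hg.2.2 _ (h.mem_W hodd (hsub hτ)) _
      (sub_mem_Tan (sub_mem_Tan (h.dc0_mem_Tan hodd (hsub hτ))
        (smul_mem_Tan _ (lifta_Z_tan hd hodd h hτ))) (smul_mem_Tan _ (vY_mem_Tan _)))
      (lifta_ne h hτ _ _)
  have horth : ∀ τ ∈ Ioo (-δ) Real.pi, g (c0 s x τ) (H τ) (liftaZ d s x τ) = 0 ∧
      g (c0 s x τ) (H τ) (vY (c0 s x τ)) = 0 := fun τ hτ =>
    lifta_orth (hg.2.1 _) _ (lifta_detpos hd hodd hg h hτ).ne'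
  have hs0 : Ioo 0 Real.pi ⊆ Ioo (-δ) Real.pi := Ioo_subset_Ioo_left (by linarith [h.δpos])
  have hPs : ContDiffOn ℝ ∞ (fun τ => P τ / s τ) (Ioo 0 Real.pi) :=
    (hP.mono hs0).div (h.cs.mono (hs0.trans hsub)) fun τ hτ => (h.spos τ hτ).ne'
  have hhor : ∀ τ ∈ Ioo 0 Real.pi,
      hor d s x (fun τ => P τ / s τ) (fun τ => Q τ - d * (P τ / s τ)) τ = H τ := fun τ hτ => by
    have e : P τ = P τ / s τ * s τ := (div_mul_cancel₀ _ (h.spos τ hτ).ne').symm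
    rw [hHe, hor, lifta_vX hd h (hs0 hτ)]
    generalize P τ / s τ = a at e
    rw [e]
    module
  have h0 : (0 : ℝ) ∈ Ioo (-δ) Real.pi := ⟨by linarith [h.δpos], Real.pi_pos⟩
  refine ⟨fun τ => P τ / s τ, fun τ => Q τ - d * (P τ / s τ),
    fun τ => Real.sqrt (g (c0 s x τ) (H τ) (H τ)), h.δpos,
    ((hB.clm_apply hH).clm_apply hH).sqrt fun τ hτ => (hpos τ hτ).ne',
    fun τ hτ => Real.sqrt_pos.2 (hpos τ hτ), ?_, hPs,
    (hQ.mono hs0).sub (contDiffOn_const.mul hPs), fun τ hτ => ?_, fun τ hτ => ?_, fun τ hτ => ?_⟩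
  · have hW := h.mem_W (m := m) hodd (hsub h0)
    have hc0 : (c0 s x 0 : V (m + 2)).1 = 0 := by rw [h.c0_zero hd]; rfl
    have hZ : (liftaZ d s x 0 : V (m + 2)) = pl (-(2 * Complex.I)) 0 0 := by
      have : liftaR d s x 0 = 0 := by
        rw [liftaR, h.s0, zero_pow (by omega), mul_zero, zero_div]
      simp only [liftaZ, this, Complex.ofReal_zero, mul_zero]
    have e1 : g (c0 s x 0) (dc0 s x 0) (liftaZ d s x 0) = 0 := by
      rw [h.dc0_zero hd, hZ, sing0_conf hd hodd hg hI hW hc0]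
      simp
    have e2 : g (c0 s x 0) (dc0 s x 0) (vY (c0 s x 0)) = 0 := by
      rw [h.dc0_zero hd]
      exact sing0_orth hd hodd hI hW hc0 _ (vY_mem_Tan _) rfl
    have e3 : P 0 = 0 := by simp only [hPd, liftaP, e1, e2, mul_zero, sub_zero, zero_div]
    have e4 : Q 0 = 0 := by simp only [hQd, liftaQ, e1, e2, mul_zero, sub_zero, zero_div]
    have e5 : H 0 = pl (-1) 0 0 := by
      rw [hHe, e3, e4, zero_smul, zero_smul, sub_zero, sub_zero, h.dc0_zero hd]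
    rw [Real.sq_sqrt (hpos 0 h0).le, e5]
  · rw [hhor τ hτ, Real.sq_sqrt (hpos τ (hs0 hτ)).le]
  · rw [hhor τ hτ, lifta_vX hd h (hs0 hτ), map_add, map_smul, map_smul, (horth τ (hs0 hτ)).1,
      (horth τ (hs0 hτ)).2, smul_zero, smul_zero, add_zero]
  · rw [hhor τ hτ, (horth τ (hs0 hτ)).2]

end Pool.Agent.Anco
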