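import Pool.Agent.Lib.MP_66983d_gt.Curve0
import Pool.Agent.Lib.MP_66983d_gt.Gram

set_option maxSynthPendingDepth 3

namespace Pool.Agent.Anco

open scoped ContDiff Topology
open Filter Set Matrix

variable {m d : ℕ} [NeZero m] {g : V (m + 2) → V (m + 2) →L[ℝ] V (m + 2) →L[ℝ] ℝ} {δ δ' : ℝ}
  {s x p q N : ℝ → ℝ}

/-- the reflection of the second coordinate, on plane vectors -/
def liftb_sg (v : V (m + 2)) : V (m + 2) := pl v.1 (v.2 0) (-(v.2 1))

theorem liftb_sig (hm : 3 ≤ m) (hI : Invariant (m + 2) d g) {z u v : V (m + 2)}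
    (hz : z ∈ W (m + 2) d) (hu : u ∈ Tan (m + 2) d z) (hv : v ∈ Tan (m + 2) d z)
    (pz : IsPl z) (pu : IsPl u) (pv : IsPl v) :
    g (liftb_sg z) (liftb_sg u) (liftb_sg v) = g z u v := by
  have h := sig_pl (g := g) hm hI (z0 := z.1) (z1 := z.2 0) (z2 := z.2 1) (u0 := u.1)
    (u1 := u.2 0) (u2 := u.2 1) (v0 := v.1) (v1 := v.2 0) (v2 := v.2 1)
    (by rw [← pz.eq_pl]; exact hz) (by rw [← pz.eq_pl, ← pu.eq_pl]; exact hu)
    (by rw [← pz.eq_pl, ← pv.eq_pl]; exact hv)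
  rw [← pz.eq_pl, ← pu.eq_pl, ← pv.eq_pl] at h
  exact h

omit [NeZero m] in
theorem liftb_isPl_vX {z : V (m + 2)} (pz : IsPl z) : IsPl (vX d z) := fun i => by
  simp [vX, pz i]

omit [NeZero m] in
theorem liftb_isPl_vY (z : V (m + 2)) : IsPl (vY z) := isPl_pl _ _ _

omit [NeZero m] in
theorem liftb_isPl_hor (τ : ℝ) : IsPl (hor d s x p q τ : V (m + 2)) := fun i => by
  simp [hor, dc0, c0, vX, vY]

omit [NeZero m] in
theorem liftb_mem (h : C0 d δ s x) {τ : ℝ} (hτ : τ ∈ Ioo 0 Real.pi) :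
    τ ∈ Ioo (-δ) (Real.pi + δ) :=
  ⟨by linarith [hτ.1, h.δpos], by linarith [hτ.2, h.δpos]⟩

omit [NeZero m] in
theorem liftb_hor_tan (hd : 3 ≤ d) (hodd : Odd d) (h : C0 d δ s x) {τ : ℝ}
    (hτ : τ ∈ Ioo 0 Real.pi) :
    (hor d s x p q τ : V (m + 2)) ∈ Tan (m + 2) d (c0 s x τ) :=
  sub_mem_Tan (sub_mem_Tan (h.dc0_mem_Tan hodd (liftb_mem h hτ))
    (smul_mem_Tan _ (vX_mem_Tan (by omega) (h.mem_W hodd (liftb_mem h hτ)))))
    (smul_mem_Tan _ (vY_mem_Tan _))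

omit [NeZero m] in
theorem liftb_nonneg (hg : IsMetric (m + 2) d g) {z v : V (m + 2)} (hz : z ∈ W (m + 2) d)
    (hv : v ∈ Tan (m + 2) d z) : 0 ≤ g z v v := by
  by_cases h0 : v = 0
  · simp [h0]
  · exact (hg.2.2 z hz v hv h0).le

theorem Lift.q_symm (hm : 3 ≤ m) (hd : 3 ≤ d) (hodd : Odd d) (hg : IsMetric (m + 2) d g)
    (hI : Invariant (m + 2) d g) (h : C0 d δ s x) (hl : Lift d g s x δ' p q N) {τ : ℝ}
    (hτ : τ ∈ Ioo 0 Real.pi) : q (Real.pi - τ) = q τ := by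
  have hτ' : Real.pi - τ ∈ Ioo 0 Real.pi := ⟨by linarith [hτ.2], by linarith [hτ.1]⟩
  have hz : (c0 s x τ : V (m + 2)) ∈ W (m + 2) d := h.mem_W hodd (liftb_mem h hτ)
  have hz' : (c0 s x (Real.pi - τ) : V (m + 2)) ∈ W (m + 2) d := h.mem_W hodd (liftb_mem h hτ')
  have hH := liftb_hor_tan (m := m) (p := p) (q := q) hd hodd h hτ
  have e0 : liftb_sg (c0 s x τ : V (m + 2)) = c0 s x (Real.pi - τ) := by
    rw [h.c0_symm]; rfl
  have eX : liftb_sg (vX d (c0 s x τ : V (m + 2))) = vX d (c0 s x (Real.pi - τ)) := by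
    rw [h.c0_symm]
    refine V_ext ?_ ?_ ?_ fun i => ?_ <;> simp [liftb_sg, vX, c0]
  have eY : liftb_sg (vY (c0 s x τ : V (m + 2))) = -vY (c0 s x (Real.pi - τ)) := by
    rw [h.c0_symm]
    refine V_ext ?_ ?_ ?_ fun i => ?_ <;> simp [liftb_sg, vY, c0]
  have g1 := liftb_sig hm hI hz hH (vX_mem_Tan (by omega) hz) (c0_isPl τ) (liftb_isPl_hor τ)
    (liftb_isPl_vX (c0_isPl τ))
  have g2 := liftb_sig hm hI hz hH (vY_mem_Tan _) (c0_isPl τ) (liftb_isPl_hor τ)
    (liftb_isPl_vY _)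
  rw [e0, eX, hl.hX τ hτ] at g1
  rw [e0, eY, hl.hY τ hτ, map_neg, neg_eq_zero] at g2
  have g3 := hl.hX _ hτ'
  have g4 := hl.hY _ hτ'
  set D : V (m + 2) := (-(p (Real.pi - τ)) - p τ) • vX d (c0 s x (Real.pi - τ)) +
    (q τ - q (Real.pi - τ)) • vY (c0 s x (Real.pi - τ)) with hD
  have eD : hor d s x p q (Real.pi - τ) + liftb_sg (hor d s x p q τ) = D := by
    rw [hD]
    unfold hor
    rw [h.dc0_symm, h.c0_symm]
    refine V_ext ?_ ?_ ?_ fun i => ?_ <;> simp [liftb_sg, vX, vY, c0, dc0] <;> ring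
  have hDT : D ∈ Tan (m + 2) d (c0 s x (Real.pi - τ)) :=
    add_mem_Tan (smul_mem_Tan _ (vX_mem_Tan (by omega) hz')) (smul_mem_Tan _ (vY_mem_Tan _))
  have d1 : g (c0 s x (Real.pi - τ)) D (vX d (c0 s x (Real.pi - τ))) = 0 := by
    rw [← eD, map_add, _root_.add_apply, g1, g3, add_zero]
  have d2 : g (c0 s x (Real.pi - τ)) D (vY (c0 s x (Real.pi - τ))) = 0 := by
    rw [← eD, map_add, _root_.add_apply, g2, g4, add_zero]
  have d3 : g (c0 s x (Real.pi - τ)) D D = 0 := by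
    nth_rewrite 2 [hD]
    rw [map_add, map_smul, map_smul, d1, d2]
    simp
  have hD0 : D = 0 := by
    by_contra h0
    exact (hg.2.2 _ hz' D hDT h0).ne' d3
  have hs := h.spos _ hτ'
  have hx := h.xpos _ (liftb_mem h hτ')
  have a1 : D.1.im = 0 := by rw [hD0]; rfl
  have a2 : (D.2 1).re = 0 := by rw [hD0]; rfl
  simp only [hD, vX, vY, c0, Prod.fst_add, Prod.smul_fst, Prod.snd_add, Prod.smul_snd, pl_fst,
    pl_zero, pl_one, Pi.add_apply, Pi.smul_apply, Complex.real_smul, Complex.add_im,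
    Complex.add_re, Complex.mul_im, Complex.mul_re, Complex.ofReal_re, Complex.ofReal_im,
    Complex.neg_re, Complex.neg_im, Complex.I_re, Complex.I_im, Complex.zero_re, Complex.zero_im,
    Complex.natCast_re, Complex.natCast_im, Complex.re_ofNat, Complex.im_ofNat] at a1 a2
  have b1 : -(p (Real.pi - τ)) - p τ = 0 := by
    have : (-(p (Real.pi - τ)) - p τ) * s (Real.pi - τ) = 0 := by linarith
    exact (mul_eq_zero.1 this).resolve_right hs.ne'
  rw [b1] at a2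
  have : (q τ - q (Real.pi - τ)) * x (Real.pi - τ) = 0 := by linarith
  have := (mul_eq_zero.1 this).resolve_right hx.ne'
  linarith

theorem Lift.q_deriv (hm : 3 ≤ m) (hd : 3 ≤ d) (hodd : Odd d) (hg : IsMetric (m + 2) d g)
    (hI : Invariant (m + 2) d g) (h : C0 d δ s x) (hl : Lift d g s x δ' p q N) :
    HasDerivAt q 0 (Real.pi / 2) := by
  have hπ := Real.pi_pos
  have hn : Ioo 0 Real.pi ∈ 𝓝 (Real.pi / 2) := Ioo_mem_nhds (by linarith) (by linarith)
  have h1 : HasDerivAt q (deriv q (Real.pi / 2)) (Real.pi / 2) :=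
    ((hl.cq.contDiffAt hn).differentiableAt (by simp)).hasDerivAt
  have h2 : HasDerivAt (fun τ => q (Real.pi - τ)) (-deriv q (Real.pi / 2)) (Real.pi / 2) := by
    have e : Real.pi - Real.pi / 2 = Real.pi / 2 := by ring
    exact HasDerivAt.comp_const_sub Real.pi (Real.pi / 2) (by rw [e]; exact h1)
  have h3 : HasDerivAt q (-deriv q (Real.pi / 2)) (Real.pi / 2) :=
    h2.congr_of_eventuallyEq (by
      filter_upwards [hn] with τ hτ
      exact (hl.q_symm hm hd hodd hg hI h hτ).symm)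
  have h4 := h1.unique h3
  have h5 : deriv q (Real.pi / 2) = 0 := by linarith
  rwa [h5] at h1

omit [NeZero m] in
/-- a plane tangent vector with vanishing first coordinate is a multiple of the rotation field -/
theorem liftb_vY {a : ℂ} {X Y : ℝ} (hX : 0 < X) (hY : 0 < Y) {r : V (m + 2)}
    (hr : r ∈ Tan (m + 2) d (pl a (X : ℂ) (Complex.I * (Y : ℂ)))) (pr : IsPl r) (h0 : r.1 = 0) :
    ∃ β : ℝ, r = β • vY (pl a (X : ℂ) (Complex.I * (Y : ℂ))) := by
  obtain ⟨t1, t2⟩ := hr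
  simp only [sum_two, pl_fst, pl_zero, pl_one, pl_ss, h0, mul_zero, zero_mul, zero_add, add_zero,
    Finset.sum_const_zero, map_zero] at t1 t2
  have r1 := congrArg Complex.re t1
  have r2 := congrArg Complex.im t1
  simp at r1 r2 t2
  have b1 : (r.2 0).re = 0 := by
    have : X * (r.2 0).re = 0 := by linarith
    exact (mul_eq_zero.1 this).resolve_left hX.ne'
  have b2 : (r.2 1).im = 0 := by
    have : Y * (r.2 1).im = 0 := by linarith
    exact (mul_eq_zero.1 this).resolve_left hY.ne'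
  refine ⟨(r.2 0).im / Y, V_ext ?_ ?_ ?_ fun i => ?_⟩
  · simp [vY, h0]
  · apply Complex.ext
    · simp [vY, b1]
    · simp [vY]; field_simp
  · apply Complex.ext
    · simp [vY]; field_simp; linarith
    · simp [vY, b2]
  · simp [vY, pr i]

/-- the horizontal speed controls the change of `|z₀|` along any tangent vector -/
theorem Lift.key (hm : 3 ≤ m) (hd : 3 ≤ d) (hodd : Odd d) (hg : IsMetric (m + 2) d g)
    (hI : Invariant (m + 2) d g) (h : C0 d δ s x) (hl : Lift d g s x δ' p q N) {τ : ℝ}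
    (hτ : τ ∈ Ioo 0 (Real.pi / 2)) {v : V (m + 2)} (hv : v ∈ Tan (m + 2) d (c0 s x τ)) :
    N τ ^ 2 * v.1.re ^ 2 ≤ deriv s τ ^ 2 * g (c0 s x τ) v v := by
  have hπ := Real.pi_pos
  have hτ' : τ ∈ Ioo 0 Real.pi := ⟨hτ.1, by linarith [hτ.2]⟩
  have hz : (c0 s x τ : V (m + 2)) ∈ W (m + 2) d := h.mem_W hodd (liftb_mem h hτ')
  have hH := liftb_hor_tan (m := m) (p := p) (q := q) hd hodd h hτ'
  have hs := h.spos _ hτ'
  have hs' := h.dspos _ hτ
  have hx := h.xpos _ (liftb_mem h hτ')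
  have hy : 0 < Real.cos τ / Real.sqrt 2 :=
    div_pos (Real.cos_pos_of_mem_Ioo ⟨by linarith [hτ.1], hτ.2⟩) (by positivity)
  have hXT : vX d (c0 s x τ : V (m + 2)) ∈ Tan (m + 2) d (c0 s x τ) := vX_mem_Tan (by omega) hz
  set w : Fin m → ℂ := fun i => v.2 i.succ.succ with hw
  have hio : io w ∈ Tan (m + 2) d (c0 s x τ) := io_mem_Tan (c0_isPl τ) w
  set lam : ℝ := -v.1.re / deriv s τ with hlam
  set α : ℝ := -v.1.im / (2 * s τ) with hα
  have hr : v - io w - lam • dc0 s x τ - α • vX d (c0 s x τ) ∈ Tan (m + 2) d (c0 s x τ) :=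
    sub_mem_Tan (sub_mem_Tan (sub_mem_Tan hv hio)
      (smul_mem_Tan _ (h.dc0_mem_Tan hodd (liftb_mem h hτ')))) (smul_mem_Tan _ hXT)
  obtain ⟨β, hβ⟩ := liftb_vY hx hy hr (fun i => by simp [hw, dc0, vX, c0]) (by
    have k1 : lam * deriv s τ = -v.1.re := by rw [hlam]; field_simp
    have k2 : α * (2 * s τ) = -v.1.im := by rw [hα]; field_simp
    clear_value lam α
    apply Complex.ext
    · simp [dc0, vX, c0]; linarith
    · simp [dc0, vX, c0]; linarith)
  have hβ' : v - io w - lam • dc0 s x τ - α • vX d (c0 s x τ) = β • vY (c0 s x τ) := hβ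
  set r : V (m + 2) := (α + lam * p τ) • vX d (c0 s x τ) + (β + lam * q τ) • vY (c0 s x τ) + io w
    with hrdef
  have hrT : r ∈ Tan (m + 2) d (c0 s x τ) :=
    add_mem_Tan (add_mem_Tan (smul_mem_Tan _ hXT) (smul_mem_Tan _ (vY_mem_Tan _))) hio
  have ev : v = lam • hor d s x p q τ + r := by
    have : v = io w + lam • dc0 s x τ + α • vX d (c0 s x τ) + β • vY (c0 s x τ) := by
      rw [← hβ']; abel
    rw [this, hrdef, hor]
    module
  have o1 : g (c0 s x τ) (hor d s x p q τ) r = 0 := by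
    rw [hrdef, map_add, map_add, map_smul, map_smul, hl.hX τ hτ', hl.hY τ hτ',
      gram_pl_io hm hI hz (c0_isPl τ) hH (liftb_isPl_hor τ) w]
    simp
  have o2 : g (c0 s x τ) r (hor d s x p q τ) = 0 := by rw [hg.2.1, o1]
  have o3 := liftb_nonneg hg hz hrT
  have e : g (c0 s x τ) v v = lam ^ 2 * N τ ^ 2 + g (c0 s x τ) r r := by
    rw [ev]
    simp only [map_add, map_smul, _root_.add_apply, _root_.smul_apply,
      o1, o2, hl.hN τ hτ', smul_eq_mul]
    ring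
  have e2 : deriv s τ ^ 2 * lam ^ 2 = v.1.re ^ 2 := by
    rw [hlam]; field_simp
  rw [e, mul_add, ← mul_assoc, e2]
  nlinarith [mul_nonneg (sq_nonneg (deriv s τ)) o3]

end Pool.Agent.Anco
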