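import Pool.Agent.Lib.MP_66983d_gt.Base

set_option maxSynthPendingDepth 3

namespace Pool.Agent.Anco

open scoped ContDiff Topology
open Filter Set Matrix

theorem low_inv {E : Type} [NormedAddCommGroup E] [NormedSpace ℝ E] [FiniteDimensional ℝ E]
    {B : E →L[ℝ] E →L[ℝ] ℝ} (hpos : ∀ a, a ≠ 0 → 0 < B a a) :
    ∃ e : E ≃L[ℝ] (E →L[ℝ] ℝ), (e : E →L[ℝ] E →L[ℝ] ℝ) = B := by
  have hinj : Function.Injective (B : E →ₗ[ℝ] E →L[ℝ] ℝ) := by
    rw [injective_iff_map_eq_zero]
    intro a ha
    by_contra h0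
    have h1 := hpos a h0
    have h2 : B a = 0 := ha
    rw [h2] at h1
    simp at h1
  have hdim : Module.finrank ℝ E = Module.finrank ℝ (E →L[ℝ] ℝ) := by
    rw [← (LinearMap.toContinuousLinearMap (𝕜 := ℝ) (E := E) (F' := ℝ)).finrank_eq]
    exact Subspace.dual_finrank_eq.symm
  refine ⟨(LinearMap.linearEquivOfInjective _ hinj hdim).toContinuousLinearEquiv, ?_⟩
  ext a b
  simp

theorem low_fd {E : Type} [NormedAddCommGroup E] [NormedSpace ℝ E]
    {G : E → E →L[ℝ] E →L[ℝ] ℝ} {x : E} (hG : DifferentiableAt ℝ G x) (a b u : E) :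
    fderiv ℝ (fun y => G y a b) x u = fderiv ℝ G x u a b := by
  have h1 := (hG.hasFDerivAt.clm_apply (hasFDerivAt_const a x)).clm_apply (hasFDerivAt_const b x)
  rw [h1.fderiv]
  simp

theorem Rm_lowered {E : Type} [NormedAddCommGroup E] [NormedSpace ℝ E] [FiniteDimensional ℝ E]
    {G : E → E →L[ℝ] E →L[ℝ] ℝ} {x : E} (hG : ContDiffAt ℝ 2 G x)
    (hs : ∀ᶠ y in 𝓝 x, ∀ u v, G y u v = G y v u) (hpos : ∀ a, a ≠ 0 → 0 < G x a a) :
    (∀ u v w, G x (chr G x u v) w = lowChr G x u v w) ∧
    ∀ u v w z, Rm G x u v w z =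
      fderiv ℝ (fun y => lowChr G y v w z) x u - fderiv ℝ (fun y => lowChr G y u w z) x v -
        G x (chr G x v w) (chr G x u z) + G x (chr G x u w) (chr G x v z) := by
  have : CompleteSpace E := FiniteDimensional.complete ℝ E
  obtain ⟨e, he⟩ := low_inv hpos
  have hd : DifferentiableAt ℝ G x := hG.differentiableAt (by norm_num)
  have hsx : ∀ u v, G x u v = G x v u := hs.self_of_nhds
  have hev : ∀ᶠ y in 𝓝 x, ∀ v w, G y (chr G y v w) = lowChr G y v w := by
    have h1 := hd.continuousAt.eventually (he ▸ e.nhds)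
    filter_upwards [h1] with y hy v w
    obtain ⟨f, hf⟩ := hy
    have hi : (G y).IsInvertible := ⟨f, hf⟩
    exact hi.self_apply_inverse _
  have hinv : DifferentiableAt ℝ (fun y => (G y).inverse) x := by
    have h1 : ContDiffAt ℝ 1 ContinuousLinearMap.inverse (G x) := he ▸ contDiffAt_map_inverse e
    exact (h1.differentiableAt (by norm_num)).comp x hd
  have hlow : ∀ v w, DifferentiableAt ℝ (fun y => lowChr G y v w) x := by
    intro v w
    have h1 : DifferentiableAt ℝ (fderiv ℝ G) x :=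
      (hG.fderiv_right (m := 1) (by norm_num)).differentiableAt (by norm_num)
    have h2 : ContDiffAt ℝ 2 (fun y => G y v w) x :=
      (hG.clm_apply contDiffAt_const).clm_apply contDiffAt_const
    have h3 : DifferentiableAt ℝ (fderiv ℝ fun y => G y v w) x :=
      (h2.fderiv_right (m := 1) (by norm_num)).differentiableAt (by norm_num)
    have h4 : ∀ a b, DifferentiableAt ℝ (fun y => fderiv ℝ G y a b) x := fun a b =>
      (h1.clm_apply (differentiableAt_const a)).clm_apply (differentiableAt_const b)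
    exact (((h4 v w).add (h4 w v)).sub h3).const_smul (1 / 2 : ℝ)
  have hchr : ∀ v w, DifferentiableAt ℝ (fun y => chr G y v w) x := fun v w =>
    hinv.clm_apply (hlow v w)
  have hx : ∀ u v w, G x (chr G x u v) w = lowChr G x u v w := fun u v w => by
    rw [hev.self_of_nhds u v]
  have hsym : ∀ u a b, fderiv ℝ G x u a b = fderiv ℝ G x u b a := by
    intro u a b
    rw [← low_fd hd, ← low_fd hd]
    have : (fun y => G y a b) =ᶠ[𝓝 x] fun y => G y b a := hs.mono fun y hy => hy a b
    rw [this.fderiv_eq]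
  have hsum : ∀ u a z, lowChr G x u a z + lowChr G x u z a = fderiv ℝ G x u a z := by
    intro u a z
    simp only [lowChr, _root_.smul_apply, _root_.sub_apply,
      _root_.add_apply, smul_eq_mul, low_fd hd]
    rw [hsym u z a]
    ring
  have hder : ∀ u v w z, fderiv ℝ (fun y => lowChr G y v w z) x u =
      fderiv ℝ G x u (chr G x v w) z + G x (fderiv ℝ (fun y => chr G y v w) x u) z := by
    intro u v w z
    have h1 : (fun y => lowChr G y v w z) =ᶠ[𝓝 x] fun y => G y (chr G y v w) z :=
      hev.mono fun y hy => by simp only [hy v w]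
    have h2 := (hd.hasFDerivAt.clm_apply (hchr v w).hasFDerivAt).clm_apply
      (hasFDerivAt_const z x)
    rw [h1.fderiv_eq, h2.fderiv]
    simp [add_comm]
  refine ⟨hx, fun u v w z => ?_⟩
  have e1 := hsum u (chr G x v w) z
  have e2 := hsum v (chr G x u w) z
  rw [← hx u z, hsx (chr G x u z)] at e1
  rw [← hx v z, hsx (chr G x v z)] at e2
  rw [hder, hder, Rm, riem]
  simp only [map_sub, map_add, _root_.sub_apply, _root_.add_apply, hx]
  rw [← hx v w, ← hx u w]
  linarith

end Pool.Agent.Anco
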