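import Pool.Agent.Lib.MP_66983d_gt.OdeA1

set_option maxSynthPendingDepth 3

namespace Pool.Agent.Anco

open scoped ContDiff Topology
open Filter Set Matrix

theorem odeA3_anti {D : Set ℝ} (hD : Convex ℝ D) {f f' : ℝ → ℝ}
    (hd : ∀ u ∈ D, HasDerivAt f (f' u) u) (hn : ∀ u ∈ D, f' u ≤ 0) : AntitoneOn f D :=
  antitoneOn_of_hasDerivWithinAt_nonpos hD
    (fun u hu => (hd u hu).continuousAt.continuousWithinAt)
    (fun u hu => (hd u (interior_subset hu)).hasDerivWithinAt)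
    fun u hu => hn u (interior_subset hu)

theorem odeA3_left {T a : ℝ} {f g : ℝ → ℝ} (hf : AntitoneOn f (Ioo 0 T))
    (hfg : ∀ r ∈ Ioo 0 T, f r ≤ g r) (hg : Tendsto g (𝓝[>] 0) (𝓝 a)) {s : ℝ}
    (hs : s ∈ Ioo 0 T) : f s ≤ a := by
  refine ge_of_tendsto hg ?_
  filter_upwards [Ioo_mem_nhdsGT hs.1] with r hr
  have hr' : r ∈ Ioo 0 T := ⟨hr.1, hr.2.trans hs.2⟩
  exact (hf hr' hs hr.2.le).trans (hfg r hr')

theorem odeA3_right {T b s : ℝ} {f : ℝ → ℝ} (hs : s < T) (hf : AntitoneOn f (Ico s T))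
    (hg : Tendsto f (𝓝[<] T) (𝓝 b)) : b ≤ f s := by
  refine le_of_tendsto hg ?_
  filter_upwards [Ioo_mem_nhdsLT hs] with r hr
  exact hf ⟨le_rfl, hs⟩ ⟨hr.1.le, hr.2⟩ hr.1.le

theorem odeA3_cont {f : ℝ → ℝ} (hf : Continuous f) (a : ℝ) (S : Set ℝ) :
    Tendsto f (𝓝[S] a) (𝓝 (f a)) := (hf.tendsto a).mono_left nhdsWithin_le_nhds

theorem ode_h {L ε hL : ℝ} {h h1 h2 : ℝ → ℝ} (hL0 : 0 < L) (hL1 : L ≤ 1) (hε : 0 ≤ ε)
    (hε1 : ε ≤ 1 / 1000)
    (d1 : ∀ t ∈ Ioo 0 L, HasDerivAt h (h1 t) t) (d2 : ∀ t ∈ Ioo 0 L, HasDerivAt h1 (h2 t) t)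
    (pos : ∀ t ∈ Ioo 0 L, 0 < h t) (i3 : ∀ t ∈ Ioo 0 L, h2 t ≤ ε * h t)
    (h0 : ∀ κ : ℝ, 0 < κ → ∀ᶠ t in 𝓝[>] (0 : ℝ), h t ≤ (2 / 3 + κ) * t)
    (hlim : Tendsto h (𝓝[<] L) (𝓝 hL)) :
    (∀ t ∈ Ioo 0 L, h1 t ≤ 7 / 10 ∧ h t ≤ 7 / 10 * t ∧ hL * t / (2 * L) ≤ h t) ∧
    (∀ t ∈ Ioc 0 (L / 2), -1 ≤ h1 t) ∧ hL ≤ 7 / 10 * L := by
  have hz : Tendsto h (𝓝[>] 0) (𝓝 0) := by
    have hid : Tendsto (fun t : ℝ => (2 / 3 + 1) * t) (𝓝[>] 0) (𝓝 0) := by
      simpa using odeA3_cont (f := fun t : ℝ => (2 / 3 + 1) * t) (by fun_prop) 0 (Ioi 0)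
    refine tendsto_of_tendsto_of_tendsto_of_le_of_le' tendsto_const_nhds hid ?_ (h0 1 one_pos)
    filter_upwards [Ioo_mem_nhdsGT hL0] with r hr using (pos r hr).le
  obtain ⟨K, hK⟩ := bdd_of_limits hL0
    (fun t ht => (d1 t ht).continuousAt.continuousWithinAt) hz hlim
  have hne : (h '' Ioo 0 L).Nonempty := (nonempty_Ioo.2 hL0).image h
  have hbd : BddAbove (h '' Ioo 0 L) := ⟨K, by rintro _ ⟨t, ht, rfl⟩; exact hK t ht⟩
  set M := sSup (h '' Ioo 0 L) with hM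
  have hhM : ∀ t ∈ Ioo 0 L, h t ≤ M := fun t ht => le_csSup hbd ⟨t, ht, rfl⟩
  have hM0 : 0 ≤ M := by
    have hm : L / 2 ∈ Ioo 0 L := ⟨by linarith, by linarith⟩
    exact (pos _ hm).le.trans (hhM _ hm)
  have hεM : 0 ≤ ε * M := mul_nonneg hε hM0
  have hg : AntitoneOn (fun t => h1 t - ε * M * t) (Ioo 0 L) :=
    odeA3_anti (f' := fun t => h2 t - ε * M * 1) (convex_Ioo 0 L)
      (fun u hu => (d2 u hu).sub ((hasDerivAt_id' u).const_mul _)) fun u hu => by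
        have := i3 u hu
        have := mul_le_mul_of_nonneg_left (hhM u hu) hε
        linarith
  have hg23 : ∀ t ∈ Ioo 0 L, h1 t - ε * M * t ≤ 2 / 3 := by
    intro t ht
    set c := h1 t - ε * M * t with hc
    have hsub : ∀ u ∈ Ioo 0 t, u ∈ Ioo 0 L := fun u hu => ⟨hu.1, hu.2.trans ht.2⟩
    have hF : AntitoneOn (fun u => c * u + ε * M * (u * u) / 2 - h u) (Ioo 0 t) :=
      odeA3_anti (f' := fun u => c * 1 + ε * M * (1 * u + u * 1) / 2 - h1 u) (convex_Ioo 0 t)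
        (fun u hu => (((hasDerivAt_id' u).const_mul c).add
          ((((hasDerivAt_id' u).mul (hasDerivAt_id' u)).const_mul _).div_const 2)).sub
            (d1 u (hsub u hu))) fun u hu => by
          have := hg (hsub u hu) ht hu.2.le
          simp only at this
          linarith
    have hlim0 : Tendsto (fun u => c * u + ε * M * (u * u) / 2 - h u) (𝓝[>] 0) (𝓝 0) := by
      have h' := (odeA3_cont (f := fun u : ℝ => c * u + ε * M * (u * u) / 2) (by fun_prop) 0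
        (Ioi 0)).sub hz
      simpa using h'
    refine le_of_forall_pos_le_add fun κ hκ => ?_
    obtain ⟨s, hs1, hs2⟩ := ((h0 κ hκ).and (Ioo_mem_nhdsGT ht.1)).exists
    have h3 := odeA3_left hF (fun _ _ => le_rfl) hlim0 hs2
    have h4 : 0 ≤ ε * M * (s * s) / 2 := by have := mul_self_nonneg s; positivity
    refine le_of_mul_le_mul_right ?_ hs2.1
    linarith
  have hlin : ∀ c : ℝ, (∀ t ∈ Ioo 0 L, h1 t ≤ c) → ∀ t ∈ Ioo 0 L, h t ≤ c * t := by
    intro c hc t ht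
    have hF : AntitoneOn (fun u => h u - c * u) (Ioo 0 L) :=
      odeA3_anti (f' := fun u => h1 u - c * 1) (convex_Ioo 0 L)
        (fun u hu => (d1 u hu).sub ((hasDerivAt_id' u).const_mul c)) fun u hu => by
          have := hc u hu
          linarith
    have hlim0 : Tendsto (fun u => h u - c * u) (𝓝[>] 0) (𝓝 0) := by
      have h' := hz.sub (odeA3_cont (f := fun u : ℝ => c * u) (by fun_prop) 0 (Ioi 0))
      simpa using h'
    have := odeA3_left hF (fun _ _ => le_rfl) hlim0 ht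
    linarith
  have hh1 : ∀ t ∈ Ioo 0 L, h1 t ≤ 2 / 3 + ε * M := fun t ht => by
    have := hg23 t ht
    have h2' : ε * M * t ≤ ε * M := mul_le_of_le_one_right hεM (ht.2.le.trans hL1)
    linarith
  have hM1 : M ≤ 1 := by
    have : M ≤ 2 / 3 + ε * M := csSup_le hne (by
      rintro _ ⟨t, ht, rfl⟩
      exact (hlin _ hh1 t ht).trans
        (mul_le_of_le_one_right (by linarith) (ht.2.le.trans hL1)))
    nlinarith
  have hεM1 : ε * M ≤ 1 / 1000 := (mul_le_of_le_one_right hε hM1).trans hε1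
  have h7 : ∀ t ∈ Ioo 0 L, h1 t ≤ 7 / 10 := fun t ht => by
    have := hh1 t ht
    linarith
  have h7' := hlin _ h7
  have hL00 : 0 ≤ hL := by
    refine ge_of_tendsto hlim ?_
    filter_upwards [Ioo_mem_nhdsLT hL0] with r hr using (pos r hr).le
  have hS : ∀ u : ℝ, HasDerivAt (fun u : ℝ => u + u ^ 3) (1 + 3 * u ^ 2) u := fun u =>
    ((hasDerivAt_id' u).fun_add (hasDerivAt_pow 3 u)).congr_deriv (by norm_num)
  have hS' : ∀ u : ℝ, HasDerivAt (fun u : ℝ => 1 + 3 * u ^ 2) (6 * u) u := fun u =>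
    (((hasDerivAt_pow 2 u).const_mul 3).const_add 1).congr_deriv (by norm_num; ring)
  have hf : AntitoneOn (fun u => h1 u * (u + u ^ 3) - h u * (1 + 3 * u ^ 2)) (Ioo 0 L) :=
    odeA3_anti (f' := fun u => (h2 u * (u + u ^ 3) + h1 u * (1 + 3 * u ^ 2)) -
        (h1 u * (1 + 3 * u ^ 2) + h u * (6 * u))) (convex_Ioo 0 L)
      (fun u hu => ((d2 u hu).mul (hS u)).sub ((d1 u hu).mul (hS' u))) fun u hu => by
        have hu0 := hu.1
        have hu1 : u ≤ 1 := hu.2.le.trans hL1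
        have hp := pos u hu
        have e1 : h2 u * (u + u ^ 3) ≤ ε * h u * (u + u ^ 3) :=
          mul_le_mul_of_nonneg_right (i3 u hu) (by positivity)
        have e2 : u ^ 2 ≤ 1 := pow_le_one₀ hu0.le hu1
        have e3 : ε * (1 + u ^ 2) ≤ 6 := by nlinarith
        have e4 := mul_le_mul_of_nonneg_right e3 (mul_pos hp hu0).le
        nlinarith
  have hf0 : ∀ u ∈ Ioo 0 L, h1 u * (u + u ^ 3) - h u * (1 + 3 * u ^ 2) ≤ 0 := by
    intro u hu
    refine odeA3_left (g := fun r => 7 / 10 * (r + r ^ 3)) hf (fun r hr => ?_) ?_ hu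
    · have hr0 := hr.1
      have e1 : h1 r * (r + r ^ 3) ≤ 7 / 10 * (r + r ^ 3) :=
        mul_le_mul_of_nonneg_right (h7 r hr) (by positivity)
      have e2 : 0 ≤ h r * (1 + 3 * r ^ 2) := mul_nonneg (pos r hr).le (by positivity)
      linarith
    · have := odeA3_cont (f := fun r : ℝ => 7 / 10 * (r + r ^ 3)) (by fun_prop) 0 (Ioi 0)
      rwa [show (7 / 10 * (0 + 0 ^ 3) : ℝ) = 0 by norm_num] at this
  have hlow : ∀ t ∈ Ioo 0 L, hL * t / (2 * L) ≤ h t := by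
    intro t ht
    have ht0 := ht.1
    have hsub : ∀ u ∈ Ico t L, u ∈ Ioo 0 L := fun u hu => ⟨ht.1.trans_le hu.1, hu.2⟩
    have hq : AntitoneOn (fun u => h u / (u + u ^ 3)) (Ico t L) :=
      odeA3_anti (f' := fun u => (h1 u * (u + u ^ 3) - h u * (1 + 3 * u ^ 2)) / (u + u ^ 3) ^ 2)
        (convex_Ico t L)
        (fun u hu => (d1 u (hsub u hu)).div (hS u) (by have := (hsub u hu).1; positivity))
        fun u hu => div_nonpos_of_nonpos_of_nonneg (hf0 u (hsub u hu)) (sq_nonneg _)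
    have hql : Tendsto (fun u => h u / (u + u ^ 3)) (𝓝[<] L) (𝓝 (hL / (L + L ^ 3))) :=
      hlim.div (odeA3_cont (f := fun u : ℝ => u + u ^ 3) (by fun_prop) L (Iio L)) (by positivity)
    have e := odeA3_right ht.2 hq hql
    rw [div_le_div_iff₀ (by positivity) (by positivity)] at e
    rw [div_le_iff₀ (by positivity)]
    have e2 : L ^ 3 ≤ L := by
      have : L ^ 2 ≤ 1 := pow_le_one₀ hL0.le hL1
      nlinarith
    have e3 : 0 ≤ hL * t ^ 3 := by positivity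
    have e4 := mul_le_mul_of_nonneg_left e2 (pos t ht).le
    nlinarith
  refine ⟨fun t ht => ⟨h7 t ht, h7' t ht, hlow t ht⟩, fun t ht => ?_, ?_⟩
  · have htL : t < L := by linarith [ht.2]
    have ht' : t ∈ Ioo 0 L := ⟨ht.1, htL⟩
    have hsub : ∀ u ∈ Ico t L, u ∈ Ioo 0 L := fun u hu => ⟨ht.1.trans_le hu.1, hu.2⟩
    set c := h1 t + 1 / 1000 with hc
    have hF : AntitoneOn (fun u => h u - c * u) (Ico t L) :=
      odeA3_anti (f' := fun u => h1 u - c * 1) (convex_Ico t L)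
        (fun u hu => (d1 u (hsub u hu)).sub ((hasDerivAt_id' u).const_mul c)) fun u hu => by
          have e1 := hg ht' (hsub u hu) hu.1
          simp only at e1
          have e2 : ε * M * u ≤ ε * M := mul_le_of_le_one_right hεM (hu.2.le.trans hL1)
          have e3 : 0 ≤ ε * M * t := mul_nonneg hεM ht.1.le
          linarith
    have hFl : Tendsto (fun u => h u - c * u) (𝓝[<] L) (𝓝 (hL - c * L)) :=
      hlim.sub (odeA3_cont (f := fun u : ℝ => c * u) (by fun_prop) L (Iio L))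
    have e := odeA3_right htL hF hFl
    have e1 := h7' t ht'
    have e2 := ht.2
    by_contra hcon
    have e3 : c ≤ -(7 / 10) - 1 / 10 := by linarith [not_le.1 hcon]
    have e4 := mul_le_mul_of_nonneg_right e3 (sub_pos.2 htL).le
    nlinarith
  · have hl : Tendsto (fun u : ℝ => 7 / 10 * u) (𝓝[<] L) (𝓝 (7 / 10 * L)) :=
      odeA3_cont (f := fun u : ℝ => 7 / 10 * u) (by fun_prop) L (Iio L)
    refine le_of_tendsto_of_tendsto hlim hl ?_
    filter_upwards [Ioo_mem_nhdsLT hL0] with r hr using h7' r hr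

end Pool.Agent.Anco
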