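import Pool.Agent.Lib.MP_66983d_gt.OdeE

set_option maxSynthPendingDepth 3

namespace Pool.Agent.Anco

open scoped ContDiff Topology
open Filter Set Matrix

theorem odeC_u_le {a b : ℝ} (ha : 0 < a) (blo : 399 / 400 * a ≤ b) :
    a ^ 2 - b ^ 2 ≤ 5 / 1000 * a ^ 2 := by
  have h1 : (399 / 400 * a) ^ 2 ≤ b ^ 2 := pow_le_pow_left₀ (by positivity) blo 2
  nlinarith [sq_nonneg a]

theorem odeC_X {ε a φ b h m X : ℝ} (hε1 : ε ≤ 1 / 10 ^ 46) (ha : 0 < a) (ha1 : a ≤ 1)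
    (eφ : |φ - a| ≤ 2 * ε * a) (blo : 399 / 400 * a ≤ b) (bhi : b ≤ (1 + 4 * ε) * a)
    (hm0 : 0 ≤ m) (hm : m ≤ 9 / 10 ^ 46) (hlo : a / 10 ^ 10 ≤ h)
    (hu : 3 / 10 * h ^ 2 ≤ a ^ 2 - b ^ 2)
    (i4 : (φ ^ 2 - (1 + m) * b ^ 2) - (h ^ 2 + (φ ^ 2 - (1 + m) * b ^ 2)) ^ 2 / (4 * φ ^ 2) -
      ε * b ^ 2 * h ^ 2 ≤ X) :
    97 / 100 * (a ^ 2 - b ^ 2) ≤ X := by
  obtain ⟨p1, p2⟩ := abs_le.1 eφ
  have ha2 : 0 < a ^ 2 := by positivity
  have hεa : ε * a ≤ 1 / 10 ^ 46 * a := mul_le_mul_of_nonneg_right hε1 ha.le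
  have hφlo : (1 - 2 / 10 ^ 46) * a ≤ φ := by nlinarith
  have hφhi : φ ≤ (1 + 2 / 10 ^ 46) * a := by nlinarith
  have hφ0 : 0 < φ := lt_of_lt_of_le (by positivity) hφlo
  have hφ2lo : (1 - 4 / 10 ^ 46) * a ^ 2 ≤ φ ^ 2 := by
    have := pow_le_pow_left₀ (by positivity) hφlo 2
    nlinarith
  have hφ2hi : φ ^ 2 ≤ (1 + 5 / 10 ^ 46) * a ^ 2 := by
    have := pow_le_pow_left₀ hφ0.le hφhi 2
    nlinarith
  have hb0 : 0 < b := lt_of_lt_of_le (by positivity) blo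
  have hbhi : b ≤ 1001 / 1000 * a := by nlinarith
  have hb2 : b ^ 2 ≤ 101 / 100 * a ^ 2 := by
    have := pow_le_pow_left₀ hb0.le hbhi 2
    nlinarith
  have hu1 := odeC_u_le ha blo
  have hh2 : (a / 10 ^ 10) ^ 2 ≤ h ^ 2 := pow_le_pow_left₀ (by positivity) hlo 2
  have hu2 : 3 / 10 ^ 21 * a ^ 2 ≤ a ^ 2 - b ^ 2 := by nlinarith
  have hmb0 : 0 ≤ m * b ^ 2 := by positivity
  have hmb : m * b ^ 2 ≤ 9 / 10 ^ 46 * (101 / 100 * a ^ 2) :=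
    mul_le_mul hm hb2 (by positivity) (by positivity)
  set u := a ^ 2 - b ^ 2 with hudef
  set D := φ ^ 2 - (1 + m) * b ^ 2 with hD
  have hu0 : 0 < u := lt_of_lt_of_le (by positivity) hu2
  have hDlo : 999 / 1000 * u ≤ D := by
    have : D = u + (φ ^ 2 - a ^ 2) - m * b ^ 2 := by rw [hD, hudef]; ring
    nlinarith
  have hDhi : D ≤ 1001 / 1000 * u := by
    have : D = u + (φ ^ 2 - a ^ 2) - m * b ^ 2 := by rw [hD, hudef]; ring
    nlinarith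
  have hs0 : 0 ≤ h ^ 2 + D := by nlinarith [sq_nonneg h]
  have hs1 : h ^ 2 + D ≤ 434 / 100 * u := by nlinarith
  have hq : (h ^ 2 + D) ^ 2 / (4 * φ ^ 2) ≤ 25 / 1000 * u := by
    rw [div_le_iff₀ (by positivity)]
    have e1 : (h ^ 2 + D) ^ 2 ≤ (434 / 100 * u) ^ 2 := pow_le_pow_left₀ hs0 hs1 2
    have e2 : u * u ≤ u * (5 / 1000 * a ^ 2) := mul_le_mul_of_nonneg_left hu1 hu0.le
    have e3 : u * ((1 - 4 / 10 ^ 46) * a ^ 2) ≤ u * φ ^ 2 := mul_le_mul_of_nonneg_left hφ2lo hu0.le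
    have e4 : 0 < u * a ^ 2 := by positivity
    nlinarith
  have hr : ε * b ^ 2 * h ^ 2 ≤ 1 / 1000 * u := by
    have e0 : a ^ 2 ≤ 1 := by nlinarith
    have e1 : ε * b ^ 2 ≤ 1 / 10 ^ 46 * 2 := mul_le_mul hε1 (by linarith) (by positivity) (by positivity)
    have e2 : ε * b ^ 2 * h ^ 2 ≤ 1 / 10 ^ 46 * 2 * h ^ 2 :=
      mul_le_mul_of_nonneg_right e1 (by positivity)
    nlinarith
  linarith

theorem odeC_point {ε a φ b b1 h h1 m : ℝ} (hε : 0 ≤ ε) (hε1 : ε ≤ 1 / 10 ^ 46) (ha : 0 < a)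
    (ha1 : a ≤ 1) (eφ : |φ - a| ≤ 2 * ε * a) (blo : 399 / 400 * a ≤ b)
    (bhi : b ≤ (1 + 4 * ε) * a) (b1hi : b1 ≤ 4 * ε * a)
    (hm0 : 0 ≤ m) (hm : m ≤ 9 / 10 ^ 46) (hlo : a / 10 ^ 10 ≤ h)
    (h1lo : -1 ≤ h1) (h1hi : h1 ≤ 7 / 10)
    (hu : 3 / 10 * h ^ 2 ≤ a ^ 2 - b ^ 2)
    (i4 : (φ ^ 2 - (1 + m) * b ^ 2) - (h ^ 2 + (φ ^ 2 - (1 + m) * b ^ 2)) ^ 2 / (4 * φ ^ 2) -
      ε * b ^ 2 * h ^ 2 ≤ -(b * b1 * h * h1)) :
    3 * (a ^ 2 - b ^ 2) * h1 ≤ -(2 * b * b1) * h := by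
  have hX := odeC_X hε1 ha ha1 eφ blo bhi hm0 hm hlo hu i4
  have hu1 := odeC_u_le ha blo
  have ha2 : 0 < a ^ 2 := by positivity
  have hh0 : 0 < h := lt_of_lt_of_le (by positivity) hlo
  have hb0 : 0 < b := lt_of_lt_of_le (by positivity) blo
  have hh2 : (a / 10 ^ 10) ^ 2 ≤ h ^ 2 := pow_le_pow_left₀ (by positivity) hlo 2
  have hu2 : 3 / 10 ^ 21 * a ^ 2 ≤ a ^ 2 - b ^ 2 := by nlinarith
  have hεa : ε * a ≤ 1 / 10 ^ 46 * a := mul_le_mul_of_nonneg_right hε1 ha.le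
  set u := a ^ 2 - b ^ 2 with hudef
  have hu0 : 0 < u := lt_of_lt_of_le (by positivity) hu2
  rcases le_or_gt h1 0 with h10 | h10
  · exfalso
    have hha : h ≤ 1 := by
      by_contra hc
      push Not at hc
      nlinarith
    have hb2 : b ≤ 2 * a := by nlinarith
    have e1 : b1 * (-h1) ≤ 4 * ε * a * (-h1) := mul_le_mul_of_nonneg_right b1hi (by linarith)
    have e2 : 4 * ε * a * (-h1) ≤ 4 * ε * a * 1 :=
      mul_le_mul_of_nonneg_left (by linarith) (by positivity)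
    have e3 : b1 * (-h1) ≤ 4 / 10 ^ 46 * a := by linarith
    have e4 : b * h ≤ 2 * a * 1 := mul_le_mul hb2 hha hh0.le (by positivity)
    have e5 : (b * h) * (b1 * (-h1)) ≤ (b * h) * (4 / 10 ^ 46 * a) :=
      mul_le_mul_of_nonneg_left e3 (by positivity)
    have e6 : (b * h) * (4 / 10 ^ 46 * a) ≤ (2 * a * 1) * (4 / 10 ^ 46 * a) :=
      mul_le_mul_of_nonneg_right e4 (by positivity)
    nlinarith
  · have e1 : h1 * h1 ≤ 7 / 10 * (7 / 10) := mul_le_mul h1hi h1hi h10.le (by norm_num)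
    have e2 : u * (h1 * h1) ≤ u * (7 / 10 * (7 / 10)) := mul_le_mul_of_nonneg_left e1 hu0.le
    have e3 : h1 * (3 * u * h1) ≤ h1 * (-(2 * b * b1) * h) := by nlinarith
    exact le_of_mul_le_mul_left e3 h10

theorem ode_star {L ε η a : ℝ} {φ φ1 b b1 h h1 μ μ1 : ℝ → ℝ} (hL : 0 < L) (hL1 : L ≤ 1)
    (hε : 0 ≤ ε) (hη : 0 < η) (hεη : ε ≤ η ^ 2) (hη1 : η ≤ 1 / 10 ^ 23) (ha : 0 < a)
    (haL : a ≤ 4 / 5 * L)
    (hE : ∀ t ∈ Ioc 0 (L / 1000), Est L ε η a φ φ1 b b1 h h1 μ μ1 t) :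
    ∃ t ∈ Ioc 0 (L / 2000), a / 10 ^ 10 ≤ h t ∧ a ^ 2 - b t ^ 2 < 3 / 10 * h t ^ 2 := by
  by_contra hcon
  push Not at hcon
  have hη2 : η ^ 2 ≤ 1 / 10 ^ 46 := by
    have := pow_le_pow_left₀ hη.le hη1 2
    calc η ^ 2 ≤ (1 / 10 ^ 23) ^ 2 := this
      _ = 1 / 10 ^ 46 := by norm_num
  have hε1 : ε ≤ 1 / 10 ^ 46 := hεη.trans hη2
  have ha1 : a ≤ 1 := by linarith
  set c : ℝ := a / 10 ^ 10 with hc
  have hc0 : 0 < c := by positivity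
  set t1 : ℝ := L / 2000 with ht1
  have hct : c ≤ t1 := by rw [hc, ht1]; linarith
  have hsub : ∀ t ∈ Icc c t1, t ∈ Ioc 0 (L / 1000) := fun t ht =>
    ⟨lt_of_lt_of_le hc0 ht.1, by have := ht.2; rw [ht1] at this; linarith⟩
  have hcont : ContinuousOn h (Icc c t1) := fun t ht =>
    (hE t (hsub t ht)).dh.continuousAt.continuousWithinAt
  have hblo : ∀ t ∈ Icc c t1, 399 / 400 * a ≤ b t := by
    intro t ht
    have e1 := (hE t (hsub t ht)).blo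
    have e2 : 5 * t / L ≤ 1 / 400 := by
      rw [div_le_iff₀ hL]
      have := ht.2
      rw [ht1] at this
      linarith
    nlinarith
  have hh1 : a / 5000 ≤ h t1 := by
    have e1 := (hE t1 (hsub t1 ⟨hct, le_rfl⟩)).hlo
    have e2 : 2 / 5 * a * t1 / L = a / 5000 := by rw [ht1]; field_simp; ring
    linarith
  have hhc : h c ≤ c := by
    have e1 := (hE c (hsub c ⟨le_rfl, hct⟩)).hhi
    linarith
  have hc1 : c ≤ h t1 := by rw [hc]; linarith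
  -- the last point with `h ≤ c`
  have hcl : IsClosed (Icc c t1 ∩ h ⁻¹' Iic c) :=
    hcont.preimage_isClosed_of_isClosed isClosed_Icc isClosed_Iic
  have hcomp : IsCompact (Icc c t1 ∩ h ⁻¹' Iic c) :=
    isCompact_Icc.of_isClosed_subset hcl inter_subset_left
  obtain ⟨t0, ht0⟩ := hcomp.exists_isGreatest ⟨c, ⟨le_rfl, hct⟩, hhc⟩
  have ht0I : t0 ∈ Icc c t1 := ht0.1.1
  have hsub2 : Icc t0 t1 ⊆ Icc c t1 := Icc_subset_Icc_left ht0I.1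
  have ht0c : h t0 = c := by
    obtain ⟨s, hs, hsc⟩ := intermediate_value_Icc ht0I.2 (hcont.mono hsub2) ⟨ht0.1.2, hc1⟩
    have : s ≤ t0 := ht0.2 ⟨hsub2 hs, hsc.le⟩
    have : s = t0 := le_antisymm this hs.1
    rw [← this, hsc]
  have hge : ∀ t ∈ Icc t0 t1, c ≤ h t := by
    intro t ht
    by_contra hlt
    push Not at hlt
    have : t ≤ t0 := ht0.2 ⟨hsub2 ht, hlt.le⟩
    have : t = t0 := le_antisymm this ht.1
    rw [this, ht0c] at hlt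
    exact lt_irrefl _ hlt
  have hu : ∀ t ∈ Icc t0 t1, 3 / 10 * h t ^ 2 ≤ a ^ 2 - b t ^ 2 := fun t ht =>
    hcon t ⟨lt_of_lt_of_le hc0 (hsub2 ht).1, ht.2⟩ (hge t ht)
  have hder : ∀ t ∈ Icc t0 t1, HasDerivAt (fun s => (a ^ 2 - b s ^ 2) / h s ^ 3)
      ((-(2 * b t * b1 t) * h t - 3 * (a ^ 2 - b t ^ 2) * h1 t) / h t ^ 4) t := by
    intro t ht
    have E := hE t (hsub t (hsub2 ht))
    have hpos : 0 < h t := lt_of_lt_of_le hc0 (hge t ht)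
    have d1 : HasDerivAt (fun s => a ^ 2 - b s ^ 2) (-(2 * b t * b1 t)) t := by
      exact ((E.db.fun_pow 2).const_sub (a ^ 2)).congr_deriv (by norm_num)
    have d2 : HasDerivAt (fun s => h s ^ 3) (3 * h t ^ 2 * h1 t) t := by
      exact (E.dh.fun_pow 3).congr_deriv (by norm_num)
    refine (d1.fun_div d2 (by positivity)).congr_deriv ?_
    field_simp
  have hmono : MonotoneOn (fun s => (a ^ 2 - b s ^ 2) / h s ^ 3) (Icc t0 t1) := by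
    refine monotoneOn_of_deriv_nonneg (convex_Icc _ _)
      (fun t ht => (hder t ht).continuousAt.continuousWithinAt)
      (fun t ht => (hder t (interior_subset ht)).differentiableAt.differentiableWithinAt) ?_
    intro t ht
    have ht' := interior_subset ht
    rw [(hder t ht').deriv]
    have E := hE t (hsub t (hsub2 ht'))
    have hm : μ t ^ 2 ≤ 9 / 10 ^ 46 := by
      have e1 : |μ t| ^ 2 ≤ (3 * η) ^ 2 := pow_le_pow_left₀ (abs_nonneg _) E.eμ 2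
      rw [sq_abs] at e1
      nlinarith
    have := odeC_point hε hε1 ha ha1 E.eφ (hblo t (hsub2 ht')) E.bhi E.b1hi (sq_nonneg _) hm
      (hge t ht') E.h1lo E.h1hi (hu t ht') E.i4
    exact div_nonneg (by linarith) (by positivity)
  have hfin := hmono ⟨le_rfl, ht0I.2⟩ ⟨ht0I.2, le_rfl⟩ ht0I.2
  simp only at hfin
  have hA : 3 * 10 ^ 9 / a ≤ (a ^ 2 - b t0 ^ 2) / h t0 ^ 3 := by
    have e1 := hu t0 ⟨le_rfl, ht0I.2⟩
    rw [ht0c] at e1 ⊢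
    rw [le_div_iff₀ (by positivity)]
    have e2 : 3 * 10 ^ 9 / a * c ^ 3 = 3 / 10 * c ^ 2 := by
      rw [hc]; field_simp
    linarith
  have hB : (a ^ 2 - b t1 ^ 2) / h t1 ^ 3 ≤ 10 ^ 9 / a := by
    have e1 := odeC_u_le ha (hblo t1 ⟨hct, le_rfl⟩)
    have hpos : 0 < h t1 := lt_of_lt_of_le hc0 hc1
    rw [div_le_iff₀ (by positivity)]
    have e2 : (a / 5000) ^ 3 ≤ h t1 ^ 3 := pow_le_pow_left₀ (by positivity) hh1 3
    have e3 : 10 ^ 9 / a * (a / 5000) ^ 3 ≤ 10 ^ 9 / a * h t1 ^ 3 :=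
      mul_le_mul_of_nonneg_left e2 (by positivity)
    have e4 : 10 ^ 9 / a * (a / 5000) ^ 3 = 8 / 1000 * a ^ 2 := by field_simp; norm_num
    nlinarith [sq_nonneg a]
  have hC : 10 ^ 9 / a < 3 * 10 ^ 9 / a := div_lt_div_of_pos_right (by norm_num) ha
  linarith

end Pool.Agent.Anco
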