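import Pool.Agent.Lib.MP_66983d_gt.OdeE

set_option maxSynthPendingDepth 3

namespace Pool.Agent.Anco

open scoped ContDiff Topology
open Filter Set Matrix

theorem oded_mvt {f f' : ℝ → ℝ} {p q C : ℝ}
    (h : ∀ s ∈ Icc p q, HasDerivAt f (f' s) s ∧ C ≤ f' s) {y : ℝ} (hy : y ∈ Icc p q) :
    C * (y - p) ≤ f y - f p :=
  (convex_Icc p q).mul_sub_le_image_sub_of_le_deriv
    (fun s hs => (h s hs).1.continuousAt.continuousWithinAt)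
    (fun s hs => (h s (interior_subset hs)).1.differentiableAt.differentiableWithinAt)
    (fun s hs => by rw [(h s (interior_subset hs)).1.deriv]; exact (h s (interior_subset hs)).2)
    p ⟨le_rfl, hy.1.trans hy.2⟩ y hy hy.1

theorem oded_sq {ε a φ b μ : ℝ} (hε1 : ε ≤ 1 / 10 ^ 46) (ha : 0 < a) (eφ : |φ - a| ≤ 2 * ε * a)
    (b0 : 0 ≤ b) (bhi : b ≤ (1 + 4 * ε) * a) (eμ : μ ^ 2 ≤ 9 / 10 ^ 46) :
    0 ≤ φ ∧ φ ^ 2 ≤ (1 + 5 / 10 ^ 46) * a ^ 2 ∧ (1 - 5 / 10 ^ 46) * a ^ 2 ≤ φ ^ 2 ∧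
      b ^ 2 ≤ (1 + 9 / 10 ^ 46) * a ^ 2 ∧ μ ^ 2 * b ^ 2 ≤ 10 / 10 ^ 46 * a ^ 2 ∧
      φ * b ≤ 2 * a ^ 2 := by
  have ha2 : 0 < a ^ 2 := by positivity
  have hεa : ε * a ≤ 1 / 10 ^ 46 * a := mul_le_mul_of_nonneg_right hε1 ha.le
  obtain ⟨p1, p2⟩ := abs_le.1 eφ
  have φlo : (1 - 2 / 10 ^ 46) * a ≤ φ := by linarith
  have φhi : φ ≤ (1 + 2 / 10 ^ 46) * a := by linarith
  have bhi' : b ≤ (1 + 4 / 10 ^ 46) * a := by linarith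
  have φ0 : 0 ≤ φ := le_trans (by positivity) φlo
  have q3 : b ^ 2 ≤ (1 + 9 / 10 ^ 46) * a ^ 2 := by
    have := pow_le_pow_left₀ b0 bhi' 2
    rw [mul_pow] at this
    linarith
  refine ⟨φ0, ?_, ?_, q3, ?_, ?_⟩
  · have := pow_le_pow_left₀ φ0 φhi 2
    rw [mul_pow] at this
    linarith
  · have := pow_le_pow_left₀ (by positivity) φlo 2
    rw [mul_pow] at this
    linarith
  · have := mul_le_mul eμ q3 (sq_nonneg b) (by positivity)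
    linarith
  · have := mul_le_mul φhi bhi' b0 (by positivity)
    linarith

theorem oded_cross {L ε a φ φ1 b b1 : ℝ} (hL : 0 < L) (hL1 : L ≤ 1) (hε : 0 ≤ ε)
    (hε1 : ε ≤ 1 / 10 ^ 46) (ha : 0 < a) (eφ1 : |φ1| ≤ 2 * ε * a * L)
    (b1lo : -(5 * a / L) ≤ b1) (b1hi : b1 ≤ 4 * ε * a) (h0 : 0 ≤ φ * b) (h2 : φ * b ≤ 2) :
    -(φ * φ1 * b * b1) ≤ 20 / 10 ^ 46 * a ^ 2 := by
  have ha2 : 0 < a ^ 2 := by positivity
  have r4 : |b1| ≤ 5 * a / L := by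
    refine abs_le.2 ⟨b1lo, b1hi.trans ?_⟩
    rw [le_div_iff₀ hL]
    have h1 := mul_le_mul_of_nonneg_left hL1 (mul_nonneg hε ha.le)
    have h3 : ε * a ≤ 1 / 10 ^ 46 * a := mul_le_mul_of_nonneg_right hε1 ha.le
    linarith
  have r5 : |φ1 * b1| ≤ 10 / 10 ^ 46 * a ^ 2 := by
    rw [abs_mul]
    refine (mul_le_mul eφ1 r4 (abs_nonneg _) (by positivity)).trans ?_
    have e : 2 * ε * a * L * (5 * a / L) = 10 * (a ^ 2 * ε) := by field_simp; ring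
    rw [e]
    linarith [mul_le_mul_of_nonneg_left hε1 ha2.le]
  have e : -(φ * φ1 * b * b1) = (φ * b) * -(φ1 * b1) := by ring
  have h1 : (φ * b) * -(φ1 * b1) ≤ (φ * b) * |φ1 * b1| :=
    mul_le_mul_of_nonneg_left (neg_le_abs _) h0
  have h3 := mul_le_mul h2 r5 (abs_nonneg _) (by norm_num)
  linarith

theorem oded_alg {L ε a φ φ1 b b1 H μ w : ℝ} (hL : 0 < L) (hL1 : L ≤ 1) (hε : 0 ≤ ε)
    (hε1 : ε ≤ 1 / 10 ^ 46) (ha : 0 < a) (ha1 : a ≤ 1) (eφ : |φ - a| ≤ 2 * ε * a)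
    (eφ1 : |φ1| ≤ 2 * ε * a * L) (b0 : 0 ≤ b) (bhi : b ≤ (1 + 4 * ε) * a)
    (b1lo : -(5 * a / L) ≤ b1) (b1hi : b1 ≤ 4 * ε * a) (eμ : μ ^ 2 ≤ 9 / 10 ^ 46)
    (hH : 99 / 10 ^ 22 * a ^ 2 ≤ H) (hu : a ^ 2 - b ^ 2 ≤ 35 / 100 * H) (hw : 0 ≤ w)
    (i5 : (H - (φ ^ 2 - (1 + μ ^ 2) * b ^ 2) ^ 2 / H) / 4 ≤
      φ ^ 2 * b ^ 2 * (ε + w + μ ^ 2 / H) - φ * φ1 * b * b1) :
    19 / 10 ^ 22 ≤ a ^ 2 * w := by
  have ha2 : 0 < a ^ 2 := by positivity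
  have hH0 : 0 < H := lt_of_lt_of_le (by positivity) hH
  obtain ⟨φ0, q1, q2, q3, q4, q6⟩ := oded_sq hε1 ha eφ b0 bhi eμ
  have ha4 : a ^ 2 ≤ 1 := pow_le_one₀ ha.le ha1
  have r7 := oded_cross hL hL1 hε hε1 ha eφ1 b1lo b1hi (mul_nonneg φ0 b0) (by linarith)
  have q5 : 0 ≤ μ ^ 2 * b ^ 2 := by positivity
  have D1 : φ ^ 2 - (1 + μ ^ 2) * b ^ 2 ≤ 4 / 10 * H := by linarith
  have D2 : -(4 / 10 * H) ≤ φ ^ 2 - (1 + μ ^ 2) * b ^ 2 := by linarith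
  have D3 : (φ ^ 2 - (1 + μ ^ 2) * b ^ 2) ^ 2 / H ≤ 16 / 100 * H := by
    rw [div_le_iff₀ hH0]
    exact (sq_le_sq' D2 D1).trans (le_of_eq (by ring))
  have r1 : φ ^ 2 * b ^ 2 ≤ 102 / 100 * (a ^ 2 * a ^ 2) := by
    have := mul_le_mul q1 q3 (sq_nonneg b) (by positivity)
    linarith [mul_pos ha2 ha2]
  have r2 : a ^ 2 * (μ ^ 2 / H) ≤ 1 / 10 ^ 25 := by
    rw [← mul_div_assoc, div_le_iff₀ hH0]
    linarith [mul_le_mul_of_nonneg_left eμ ha2.le]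
  have r3 : a ^ 2 * ε ≤ 1 / 10 ^ 46 := (mul_le_of_le_one_left hε ha4).trans hε1
  have r8 : φ ^ 2 * b ^ 2 * (ε + w + μ ^ 2 / H) ≤
      102 / 100 * (a ^ 2 * (a ^ 2 * ε + a ^ 2 * w + a ^ 2 * (μ ^ 2 / H))) :=
    (mul_le_mul_of_nonneg_right r1 (show 0 ≤ ε + w + μ ^ 2 / H by positivity)).trans
      (le_of_eq (by ring))
  by_contra hc
  have hc' := (not_le.1 hc).le
  have r9 : a ^ 2 * (a ^ 2 * ε + a ^ 2 * w + a ^ 2 * (μ ^ 2 / H)) ≤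
      a ^ 2 * (1 / 10 ^ 46 + 19 / 10 ^ 22 + 1 / 10 ^ 25) :=
    mul_le_mul_of_nonneg_left (by linarith) ha2.le
  generalize (φ ^ 2 - (1 + μ ^ 2) * b ^ 2) ^ 2 / H = X at D3 i5
  generalize φ ^ 2 * b ^ 2 * (ε + w + μ ^ 2 / H) = Y at r8 i5
  generalize a ^ 2 * (a ^ 2 * ε + a ^ 2 * w + a ^ 2 * (μ ^ 2 / H)) = Z at r8 r9
  generalize φ * φ1 * b * b1 = U at r7 i5
  linarith

theorem ode_end {L ε η a : ℝ} {φ φ1 b b1 h h1 μ μ1 Wf W1 : ℝ → ℝ} (hL : 0 < L) (hL1 : L ≤ 1)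
    (hε : 0 ≤ ε) (hη : 0 < η) (hεη : ε ≤ η ^ 2) (hη1 : η ≤ 1 / 10 ^ 23) (ha : 0 < a)
    (haL : a ≤ 4 / 5 * L)
    (hE : ∀ t ∈ Ioc 0 (L / 1000), Est L ε η a φ φ1 b b1 h h1 μ μ1 t)
    (hW : ∀ t ∈ Ioo 0 L, HasDerivAt Wf (W1 t) t ∧ (μ1 t * b t / (2 * φ t)) ^ 2 ≤ W1 t ∧
      0 ≤ Wf t ∧ Wf t ≤ ε * L)
    {t : ℝ} (ht : t ∈ Ioc 0 (L / 2000)) (h1t : a / 10 ^ 10 ≤ h t)
    (h2t : a ^ 2 - b t ^ 2 < 3 / 10 * h t ^ 2) : False := by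
  have hη2 : η ^ 2 ≤ 1 / 10 ^ 46 :=
    (pow_le_pow_left₀ hη.le hη1 2).trans (by norm_num)
  have hε1 : ε ≤ 1 / 10 ^ 46 := hεη.trans hη2
  have ha1 : a ≤ 1 := by linarith
  have ha2 : 0 < a ^ 2 := by positivity
  have hI : ∀ s ∈ Icc t (t + a / 10 ^ 23), s ∈ Ioc 0 (L / 1000) := fun s hs =>
    ⟨ht.1.trans_le hs.1, by linarith [hs.2, ht.2]⟩
  have hI' : ∀ s ∈ Icc t (t + a / 10 ^ 23), s ∈ Ioo 0 L := fun s hs =>
    ⟨(hI s hs).1, by linarith [(hI s hs).2]⟩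
  have htI : t ∈ Icc t (t + a / 10 ^ 23) := ⟨le_rfl, by linarith [show 0 < a / 10 ^ 23 by positivity]⟩
  have h4 : 5 * a / L ≤ 4 := by rw [div_le_iff₀ hL]; linarith
  have hb0 : ∀ s ∈ Icc t (t + a / 10 ^ 23), a / 2 ≤ b s := fun s hs => by
    have h5 : 5 * s / L ≤ 1 / 2 := by rw [div_le_iff₀ hL]; linarith [(hI s hs).2]
    have := (hE s (hI s hs)).blo
    nlinarith
  have hbt : b t ≤ 101 / 100 * a := by
    have := (hE t (hI t htI)).bhi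
    nlinarith
  have key : ∀ s ∈ Icc t (t + a / 10 ^ 23), HasDerivAt Wf (W1 s) s ∧
      19 / 10 ^ 22 / a ^ 2 ≤ W1 s := by
    intro s hs
    have E := hE s (hI s hs)
    have m1 := oded_mvt (C := -1) (fun x hx => ⟨(hE x (hI x hx)).dh, (hE x (hI x hx)).h1lo⟩) hs
    have m2 := oded_mvt (C := -4)
      (fun x hx => ⟨(hE x (hI x hx)).db, by linarith [(hE x (hI x hx)).b1lo]⟩) hs
    have n1 : 999 / 1000 * h t ≤ h s := by linarith [hs.2]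
    have ht0 : 0 ≤ h t := le_trans (by positivity) h1t
    have n2 := pow_le_pow_left₀ (by positivity) n1 2
    have n3 := pow_le_pow_left₀ (by positivity) h1t 2
    have n4 : b t - 4 * (a / 10 ^ 23) ≤ b s := by linarith [hs.2]
    have n5 := pow_le_pow_left₀ (by linarith [hb0 t htI]) n4 2
    have n6 : b t * a ≤ 101 / 100 * a * a := mul_le_mul_of_nonneg_right hbt ha.le
    have n7 : μ s ^ 2 ≤ 9 / 10 ^ 46 := by
      have := pow_le_pow_left₀ (abs_nonneg _) E.eμ 2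
      rw [sq_abs] at this
      nlinarith
    have := oded_alg hL hL1 hε hε1 ha ha1 E.eφ E.eφ1 (by linarith [hb0 s hs]) E.bhi E.b1lo E.b1hi
      n7 (H := h s ^ 2) (by nlinarith) (by nlinarith) (sq_nonneg _) E.i5
    refine ⟨(hW s (hI' s hs)).1, le_trans ?_ (hW s (hI' s hs)).2.1⟩
    rw [div_le_iff₀ ha2, mul_comm]
    exact this
  have hend : t + a / 10 ^ 23 ∈ Icc t (t + a / 10 ^ 23) := ⟨htI.2, le_rfl⟩
  have m3 := oded_mvt key hend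
  have w1 := (hW _ (hI' _ hend)).2.2.2
  have w2 := (hW _ (hI' _ htI)).2.2.1
  have e : 19 / 10 ^ 22 / a ^ 2 * (t + a / 10 ^ 23 - t) = 19 / 10 ^ 45 / a := by
    field_simp
    ring
  have w3 : 19 / 10 ^ 45 ≤ 19 / 10 ^ 45 / a := by
    rw [le_div_iff₀ ha]
    linarith
  have w4 : ε * L ≤ 1 / 10 ^ 46 := by nlinarith
  rw [e] at m3
  linarith

end Pool.Agent.Anco
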