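import Pool.Agent.Lib.MP_66983d_gt.OdeA2
import Pool.Agent.Lib.MP_66983d_gt.OdeA3
import Pool.Agent.Lib.MP_66983d_gt.OdeC
import Pool.Agent.Lib.MP_66983d_gt.OdeD

set_option maxSynthPendingDepth 3

namespace Pool.Agent.Anco

open scoped ContDiff Topology
open Filter Set Matrix

theorem hasDerivAt_two {f : ℝ → ℝ} {t : ℝ} (hf : ContDiffAt ℝ 2 f t) :
    HasDerivAt f (deriv f t) t ∧ HasDerivAt (deriv f) (deriv (deriv f) t) t := by
  refine ⟨(hf.differentiableAt (by norm_num)).hasDerivAt, ?_⟩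
  have h1 : ContDiffAt ℝ 1 (deriv f) t := by
    have h2 := hf.fderiv_right (m := 1) (by norm_num)
    have : deriv f = fun s => fderiv ℝ f s 1 := by ext s; simp
    rw [this]
    exact h2.clm_apply contDiffAt_const
  exact (h1.differentiableAt (by norm_num)).hasDerivAt

theorem ode {L a φL hL : ℝ} {φ b h μ : ℝ → ℝ} (hL0 : 0 < L) (hL1 : L ≤ 1) (ha : 0 < a)
    (hG : ∀ t ∈ Ioo 0 L, Good (1 / 10 ^ 46) φ b h μ t)
    (hφ0 : Tendsto (fun t => (φ t - a) / t) (𝓝[>] 0) (𝓝 0))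
    (hb0 : Tendsto (fun t => (b t - a) / t) (𝓝[>] 0) (𝓝 0))
    (hμ0 : Tendsto μ (𝓝[>] 0) (𝓝 0))
    (hh0 : ∀ κ : ℝ, 0 < κ → ∀ᶠ t in 𝓝[>] (0 : ℝ), h t ≤ (2 / 3 + κ) * t)
    (hφL : Tendsto (fun t => (φ t - φL) / (L - t)) (𝓝[<] L) (𝓝 0))
    (hbL : Tendsto b (𝓝[<] L) (𝓝 0)) (hhL : Tendsto h (𝓝[<] L) (𝓝 hL)) (hle : φL ≤ hL) :
    False := by
  obtain ⟨ε, hεdef⟩ : ∃ ε : ℝ, ε = 1 / 10 ^ 46 := ⟨_, rfl⟩
  rw [← hεdef] at hG
  have hε : 0 ≤ ε := by rw [hεdef]; norm_num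
  have hε1 : ε ≤ 1 / 1000 := by rw [hεdef]; norm_num
  have hεη : ε ≤ (1 / 10 ^ 23 : ℝ) ^ 2 := by rw [hεdef]; norm_num
  have hη : (0 : ℝ) < 1 / 10 ^ 23 := by norm_num
  obtain ⟨A1, A2, Wf, W1, A3⟩ := ode_phi (φ1 := deriv φ) (φ2 := deriv (deriv φ))
    (om := fun t => deriv μ t * b t / (2 * φ t)) hL0 hL1 hε hε1 ha
    (fun t ht => (hasDerivAt_two (hG t ht).cφ).1) (fun t ht => (hasDerivAt_two (hG t ht).cφ).2)
    (fun t ht => (hG t ht).pφ) (fun t ht => (hG t ht).five.1) hφ0 hφL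
  obtain ⟨B1, B2⟩ := ode_b (b1 := deriv b) (b2 := deriv (deriv b))
    (om := fun t => deriv μ t * b t / (2 * φ t)) hL0 hL1 hε hε1 ha
    (fun t ht => (hasDerivAt_two (hG t ht).cb).1) (fun t ht => (hasDerivAt_two (hG t ht).cb).2)
    (fun t ht => (hG t ht).pb) (fun t ht => (hG t ht).five.2.1) A3 hb0 hbL
  have C1 := ode_mu (μ1 := deriv μ) hL0 hL1 hε hε1 hη hεη ha
    (fun t ht => (hasDerivAt_two (hG t ht).cμ).1) (fun t ht => (A1 t ht).1)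
    (fun t ht => (B2 t ht).2) A3 hμ0
  obtain ⟨D1, D2, D3⟩ := ode_h (h1 := deriv h) (h2 := deriv (deriv h)) hL0 hL1 hε hε1
    (fun t ht => (hasDerivAt_two (hG t ht).ch).1) (fun t ht => (hasDerivAt_two (hG t ht).ch).2)
    (fun t ht => (hG t ht).ph) (fun t ht => (hG t ht).five.2.2.1) hh0 hhL
  have hεa : ε * a ≤ 1 / 1000 * a := mul_le_mul_of_nonneg_right hε1 ha.le
  have h45 : 499 / 500 * a ≤ hL := by
    have e : (1 - 2 * ε) * a = a - 2 * (ε * a) := by ring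
    rw [e] at A2
    linarith only [A2, hεa, hle]
  have haL : a ≤ 4 / 5 * L := by linarith only [h45, D3, hL0]
  have hE : ∀ t ∈ Ioc 0 (L / 1000), Est L ε (1 / 10 ^ 23) a φ (deriv φ) b (deriv b) h (deriv h)
      μ (deriv μ) t := by
    intro t ht
    have ht1 : t ∈ Ioo 0 L := ⟨ht.1, by linarith [ht.2]⟩
    have ht2 : t ∈ Ioc 0 (L / 2) := ⟨ht.1, by linarith [ht.2]⟩
    refine ⟨(hasDerivAt_two (hG t ht1).cb).1, (hasDerivAt_two (hG t ht1).ch).1, (A1 t ht1).1,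
      (A1 t ht1).2, (B2 t ht2).2, (B1 t ht1).1, (B2 t ht2).1, (B1 t ht1).2, C1 t ht, ?_,
      (D1 t ht1).2.1, D2 t ht2, (D1 t ht1).1, (hG t ht1).five.2.2.2.1, (hG t ht1).five.2.2.2.2⟩
    refine le_trans ?_ (D1 t ht1).2.2
    rw [div_le_div_iff₀ hL0 (by linarith)]
    have h1 := mul_le_mul_of_nonneg_right h45 (mul_pos ht.1 hL0).le
    have h2 := mul_pos ha (mul_pos ht.1 hL0)
    nlinarith only [h1, h2]
  obtain ⟨t, ht, h1t, h2t⟩ := ode_star hL0 hL1 hε hη hεη le_rfl ha haL hE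
  exact ode_end hL0 hL1 hε hη hεη le_rfl ha haL hE A3 ht h1t h2t

end Pool.Agent.Anco
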