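import Pool.Agent.Lib.MP_66983d_gt.Point
import Pool.Agent.Lib.MP_66983d_gt.Ode
import Pool.Agent.Lib.MP_66983d_gt.LiftA
import Pool.Agent.Lib.MP_66983d_gt.LiftB
import Pool.Agent.Lib.MP_66983d_gt.End0
import Pool.Agent.Lib.MP_66983d_gt.End0h
import Pool.Agent.Lib.MP_66983d_gt.EndL
import Pool.Agent.Lib.MP_66983d_gt.EndLh
import Pool.Agent.Lib.MP_66983d_gt.Diam

set_option maxSynthPendingDepth 3

namespace Pool.Agent.Anco

open scoped ContDiff Topology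
open Filter Set Matrix

variable {m d : ℕ} [NeZero m] {g : V (m + 2) → V (m + 2) →L[ℝ] V (m + 2) →L[ℝ] ℝ} {δ : ℝ}
  {s x p q N P Q : ℝ → ℝ}

omit [NeZero m] in
theorem main_chat_deriv (h : C0 d δ s x) {τ : ℝ} (hτ : τ ∈ Ioo 0 Real.pi)
    (dP : HasDerivAt P (-p τ) τ) (dQ : HasDerivAt Q (-q τ) τ) :
    HasDerivAt (chat d s x P Q : ℝ → V (m + 2))
      (act (m + 2) d (P τ) (rot (Q τ)) (hor d s x p q τ)) τ := by
  have hτ' : τ ∈ Ioo (-δ) (Real.pi + δ) := ⟨by linarith [h.δpos, hτ.1], by linarith [h.δpos, hτ.2]⟩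
  have := hasDerivAt_act_rot (d := d) dP dQ (h.hasDerivAt_c0 (m := m) hτ')
  have e : (hor d s x p q τ : V (m + 2)) =
      dc0 s x τ + (-p τ) • vX d (c0 s x τ) + (-q τ) • vY (c0 s x τ) := by
    simp only [hor, neg_smul, sub_eq_add_neg]
  rw [e]
  exact this

omit [NeZero m] in
theorem main_hor_tan (hd : 3 ≤ d) (hodd : Odd d) (h : C0 d δ s x) {τ : ℝ}
    (hτ : τ ∈ Ioo 0 Real.pi) :
    (hor d s x p q τ : V (m + 2)) ∈ Tan (m + 2) d (c0 s x τ) := by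
  have hτ' : τ ∈ Ioo (-δ) (Real.pi + δ) := ⟨by linarith [h.δpos, hτ.1], by linarith [h.δpos, hτ.2]⟩
  exact sub_mem_Tan (sub_mem_Tan (h.dc0_mem_Tan hodd hτ')
    (smul_mem_Tan _ (vX_mem_Tan (by omega) (h.mem_W hodd hτ')))) (smul_mem_Tan _ (vY_mem_Tan _))

omit [NeZero m] in
theorem main_gen (h : C0 d δ s x) {τ : ℝ} (hτ : τ ∈ Ioo 0 (Real.pi / 2)) :
    (chat d s x P Q τ : V (m + 2)).1 ≠ 0 ∧
    ((starRingEnd ℂ) ((chat d s x P Q τ : V (m + 2)).2 0) *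
      (chat d s x P Q τ : V (m + 2)).2 1).im ≠ 0 := by
  have hπ := Real.pi_pos
  have hs : 0 < s τ := h.spos τ ⟨hτ.1, by linarith [hτ.2]⟩
  have hx : 0 < x τ := h.xpos τ ⟨by linarith [h.δpos, hτ.1], by linarith [h.δpos, hτ.2]⟩
  have hy : 0 < Real.cos τ / Real.sqrt 2 :=
    div_pos (Real.cos_pos_of_mem_Ioo ⟨by linarith [hτ.1], hτ.2⟩) (by positivity)
  unfold chat c0
  rw [act_rot_pl]
  refine ⟨?_, ?_⟩
  · simp only [pl_fst]
    exact mul_ne_zero (Complex.exp_ne_zero _) (by simpa using hs.ne')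
  · simp only [pl_zero, pl_one]
    generalize Real.cos τ / Real.sqrt 2 = y at hy
    have he : (starRingEnd ℂ) (Complex.exp (d * P τ * Complex.I)) *
        Complex.exp (d * P τ * Complex.I) = 1 := by
      rw [← Complex.exp_conj, ← Complex.exp_add]
      simp
    have e : ∀ a b e : ℂ, (starRingEnd ℂ) (e * a) * (e * b) =
        ((starRingEnd ℂ) e * e) * ((starRingEnd ℂ) a * b) := by
      intro a b e; rw [map_mul]; ring
    rw [e, he, one_mul]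
    have hc := Real.cos_sq_add_sin_sq (Q τ)
    generalize Real.cos (Q τ) = C at hc
    generalize Real.sin (Q τ) = S at hc
    have : ((starRingEnd ℂ) ((C : ℂ) * (x τ : ℂ) + (S : ℂ) * (Complex.I * (y : ℂ))) *
        (-(S : ℂ) * (x τ : ℂ) + (C : ℂ) * (Complex.I * (y : ℂ)))).im =
          (C ^ 2 + S ^ 2) * (x τ * y) := by
      simp; ring
    rw [this, hc, one_mul]
    exact (mul_pos hx hy).ne'

theorem main_NCat (hd : 3 ≤ d) (hodd : Odd d) (hI : Invariant (m + 2) d g) (h : C0 d δ s x)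
    (hl : Lift d g s x δ p q N) (cP : ContDiffOn ℝ ∞ P (Ioo 0 Real.pi))
    (cQ : ContDiffOn ℝ ∞ Q (Ioo 0 Real.pi))
    (dP : ∀ τ ∈ Ioo 0 Real.pi, HasDerivAt P (-p τ) τ)
    (dQ : ∀ τ ∈ Ioo 0 Real.pi, HasDerivAt Q (-q τ) τ) {k : ℝ → ℝ} {t0 : ℝ}
    (ck : ContDiffAt ℝ ∞ k t0) (hk0 : k t0 ∈ Ioo 0 (Real.pi / 2))
    (dk : ∀ᶠ t in 𝓝 t0, HasDerivAt k (N (k t))⁻¹ t) :
    NCat d g (fun t => chat d s x P Q (k t)) t0 := by
  have hπ := Real.pi_pos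
  have hδ := h.δpos
  have hk1 : k t0 ∈ Ioo 0 Real.pi := ⟨hk0.1, by linarith [hk0.2]⟩
  have hev : ∀ᶠ t in 𝓝 t0, k t ∈ Ioo 0 Real.pi :=
    ck.continuousAt.eventually (isOpen_Ioo.mem_nhds hk1)
  have hsub : ∀ {τ : ℝ}, τ ∈ Ioo 0 Real.pi → τ ∈ Ioo (-δ) (Real.pi + δ) :=
    fun hτ => ⟨by linarith [hτ.1], by linarith [hτ.2]⟩
  refine ⟨?_, ?_, ?_, (main_gen h hk0).1, (main_gen h hk0).2⟩
  · have h1 : ContDiffAt ℝ ∞ P (k t0) := cP.contDiffAt (isOpen_Ioo.mem_nhds hk1)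
    have h2 : ContDiffAt ℝ ∞ Q (k t0) := cQ.contDiffAt (isOpen_Ioo.mem_nhds hk1)
    have h3 : ContDiffAt ℝ ∞ (c0 s x : ℝ → V (m + 2)) (k t0) :=
      h.contDiffOn_c0.contDiffAt (isOpen_Ioo.mem_nhds (hsub hk1))
    have h4 : ContDiffAt ℝ ∞ (chat d s x P Q : ℝ → V (m + 2)) (k t0) :=
      (contDiff_act_rot (m := m) (d := d)).contDiffAt.comp (k t0) (h1.prodMk (h2.prodMk h3))
    exact h4.comp t0 ck
  · filter_upwards [hev] with t ht
    exact ⟨act_mem_W _ (rot_mem_SO _) (h.mem_W hodd (hsub ht)), act_rot_isPl _ _ (c0_isPl _)⟩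
  · filter_upwards [hev, dk] with t ht hdk
    have hc := (main_chat_deriv (m := m) (d := d) h ht (dP _ ht) (dQ _ ht)).scomp t hdk
    have hder : deriv (fun t => (chat d s x P Q (k t) : V (m + 2))) t =
        (N (k t))⁻¹ • act (m + 2) d (P (k t)) (rot (Q (k t))) (hor d s x p q (k t)) := hc.deriv
    have hW := h.mem_W (m := m) hodd (hsub ht)
    have hH := main_hor_tan (m := m) (p := p) (q := q) hd hodd h ht
    have hN : N (k t) ≠ 0 := (hl.Npos _ ⟨by linarith [ht.1], ht.2⟩).ne'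
    have i1 := hI (P (k t)) _ (rot_mem_SO (Q (k t))) _ hW _ hH _ hH
    have i2 := hI (P (k t)) _ (rot_mem_SO (Q (k t))) _ hW _ hH _ (vX_mem_Tan (by omega) hW)
    have i3 := hI (P (k t)) _ (rot_mem_SO (Q (k t))) _ hW _ hH _ (vY_mem_Tan _)
    rw [hl.hN _ ht] at i1
    rw [hl.hX _ ht, act_vX] at i2
    rw [hl.hY _ ht, act_rot_vY] at i3
    rw [hder]
    simp only [map_smul, ContinuousLinearMap.smul_apply, smul_eq_mul]
    unfold chat
    rw [i1, i2, i3]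
    refine ⟨?_, by simp, by simp⟩
    field_simp

theorem main_tendsto_right {k f : ℝ → ℝ} {a k' : ℝ} (hk0 : k 0 = 0) (dk : HasDerivAt k k' 0)
    (hpos : ∀ᶠ t in 𝓝[>] (0 : ℝ), 0 < k t)
    (hf : Tendsto (fun τ => (f τ - a) / τ) (𝓝[>] 0) (𝓝 0)) :
    Tendsto k (𝓝[>] 0) (𝓝[>] 0) ∧ Tendsto (fun t => k t / t) (𝓝[>] 0) (𝓝 k') ∧
    Tendsto (fun t => (f (k t) - a) / t) (𝓝[>] 0) (𝓝 0) := by
  have h1 : Tendsto k (𝓝[>] 0) (𝓝[>] 0) := by
    refine tendsto_nhdsWithin_iff.2 ⟨?_, hpos⟩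
    have := dk.continuousAt.tendsto
    rw [hk0] at this
    exact this.mono_left nhdsWithin_le_nhds
  have h2 : Tendsto (fun t => k t / t) (𝓝[>] 0) (𝓝 k') := by
    have := dk.tendsto_slope_zero_right
    refine this.congr (fun t => ?_)
    simp [hk0, div_eq_inv_mul]
  refine ⟨h1, h2, ?_⟩
  have h3 := (hf.comp h1).mul h2
  rw [zero_mul] at h3
  refine h3.congr' ?_
  filter_upwards [hpos] with t ht
  simp only [Function.comp]
  field_simp

theorem main_tendsto_left {k f : ℝ → ℝ} {a k' L b : ℝ} (hk0 : k L = b) (dk : HasDerivAt k k' L)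
    (hpos : ∀ᶠ t in 𝓝[<] L, k t < b)
    (hf : Tendsto (fun τ => (f τ - a) / (b - τ)) (𝓝[<] b) (𝓝 0)) :
    Tendsto k (𝓝[<] L) (𝓝[<] b) ∧
    Tendsto (fun t => (f (k t) - a) / (L - t)) (𝓝[<] L) (𝓝 0) := by
  have h1 : Tendsto k (𝓝[<] L) (𝓝[<] b) := by
    refine tendsto_nhdsWithin_iff.2 ⟨?_, hpos⟩
    have := dk.continuousAt.tendsto
    rw [hk0] at this
    exact this.mono_left nhdsWithin_le_nhds
  have h2 : Tendsto (fun t => (b - k t) / (L - t)) (𝓝[<] L) (𝓝 k') := by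
    have := (hasDerivAt_iff_tendsto_slope_left_right.1 dk).1
    refine this.congr (fun t => ?_)
    rw [slope_def_field, hk0, ← neg_div_neg_eq, neg_sub, neg_sub]
  refine ⟨h1, ?_⟩
  have h3 := (hf.comp h1).mul h2
  rw [zero_mul] at h3
  refine h3.congr' ?_
  filter_upwards [hpos] with t ht
  have : b - k t ≠ 0 := by linarith
  simp only [Function.comp]
  field_simp

theorem main_false (hm : 3 ≤ m) (hd : 3 ≤ d) (hodd : Odd d) (hg : IsMetric (m + 2) d g)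
    (hI : Invariant (m + 2) d g) (hD : DiamLe (m + 2) d g 1)
    (hC : CurvOpGe (m + 2) d g (-(1 / 10 ^ 46))) : False := by
  have hπ := Real.pi_pos
  obtain ⟨δ, s, x, h⟩ := exists_C0 hd hodd
  have hδ := h.δpos
  obtain ⟨p, q, N, hl⟩ := exists_lift hd hodd hg hI h
  have hhalf : Real.pi / 2 ∈ Ioo 0 Real.pi := ⟨by linarith, by linarith⟩
  obtain ⟨P, cP, -, dP⟩ := smooth_primitive (f := fun τ => -p τ) hhalf hl.cp.neg
  obtain ⟨Q, cQ, Q0, dQ⟩ := smooth_primitive (f := fun τ => -q τ) hhalf hl.cq.neg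
  have h0 : (0 : ℝ) ∈ Ioo (-δ) Real.pi := ⟨by linarith, hπ⟩
  have h2 : Real.pi / 2 ∈ Ioo (-δ) Real.pi := ⟨by linarith, by linarith⟩
  obtain ⟨T, cT, T0, dT⟩ := smooth_primitive h0 hl.cN
  obtain ⟨k, hopen, ck, hk, hmono, dk⟩ := smooth_inverse cT
    (fun τ hτ => by rw [(dT τ hτ).deriv]; exact hl.Npos τ hτ)
  have hsub : Icc 0 (Real.pi / 2) ⊆ Ioo (-δ) Real.pi :=
    fun τ hτ => ⟨by linarith [hτ.1], by linarith [hτ.2]⟩
  obtain ⟨L, hL⟩ : ∃ L, L = T (Real.pi / 2) := ⟨_, rfl⟩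
  have hL0 : 0 < L := by
    rw [hL, ← T0]; exact hmono h0 h2 (by linarith)
  have hL1 : L ≤ 1 := by
    have := length_le_diam (by omega) hd hodd hg hI h (fun τ hτ => dT τ (hsub hτ))
      (fun τ hτ v hv => hl.key hm hd hodd hg hI h hτ hv) hD
    rw [T0] at this
    linarith
  have hdk : ∀ τ ∈ Ioo (-δ) Real.pi, HasDerivAt k (N τ)⁻¹ (T τ) := fun τ hτ => by
    have := dk τ hτ
    rwa [(dT τ hτ).deriv] at this
  have hin : ∀ t ∈ Ioo 0 L, ∃ τ ∈ Ioo 0 (Real.pi / 2), T τ = t := by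
    intro t ht
    have := intermediate_value_Ioo (f := T) (a := 0) (b := Real.pi / 2) (by linarith)
      (cT.continuousOn.mono hsub)
    rw [T0, ← hL] at this
    exact this ht
  have hkin : ∀ t ∈ Ioo 0 L, k t ∈ Ioo 0 (Real.pi / 2) := by
    intro t ht
    obtain ⟨τ, hτ, rfl⟩ := hin t ht
    rwa [hk τ (hsub (Ioo_subset_Icc_self hτ))]
  have hNC : ∀ t ∈ Ioo 0 L, NCat d g (fun t => chat d s x P Q (k t)) t := by
    intro t ht
    obtain ⟨τ, hτ, hτt⟩ := hin t ht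
    have hmem : T '' Ioo (-δ) Real.pi ∈ 𝓝 t :=
      hopen.mem_nhds ⟨τ, hsub (Ioo_subset_Icc_self hτ), hτt⟩
    refine main_NCat hd hodd hI h hl cP cQ dP dQ (ck.contDiffAt hmem) (hkin t ht) ?_
    filter_upwards [hmem] with t' ht'
    obtain ⟨τ', hτ', rfl⟩ := ht'
    rw [hk τ' hτ']
    exact hdk τ' hτ'
  have hk0 : k 0 = 0 := by have := hk 0 h0; rwa [T0] at this
  have dk0 : HasDerivAt k (N 0)⁻¹ 0 := by have := hdk 0 h0; rwa [T0] at this
  have hkL : k L = Real.pi / 2 := by rw [hL]; exact hk _ h2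
  have dkL : HasDerivAt k (N (Real.pi / 2))⁻¹ L := by rw [hL]; exact hdk _ h2
  have hpos0 : ∀ᶠ t in 𝓝[>] (0 : ℝ), 0 < k t := by
    filter_upwards [Ioo_mem_nhdsGT hL0] with t ht using (hkin t ht).1
  have hposL : ∀ᶠ t in 𝓝[<] L, k t < Real.pi / 2 := by
    filter_upwards [Ioo_mem_nhdsLT hL0] with t ht using (hkin t ht).2
  obtain ⟨a, ha, e1, e2, e3⟩ := end0_ab hd hodd hg hI h P Q
  obtain ⟨φL, f1, f2⟩ := endL_phi hm hd hodd hg hI h P Q0
    (by filter_upwards [isOpen_Ioo.mem_nhds hhalf] with τ hτ using dQ τ hτ)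
    (hl.q_deriv hm hd hodd hg hI h)
  obtain ⟨f3, f4⟩ := endL_bh hm hd hodd hg hI h P Q0 (dQ _ hhalf).continuousAt
  obtain ⟨r1, r2, r3⟩ := main_tendsto_right hk0 dk0 hpos0 e1
  obtain ⟨-, -, r4⟩ := main_tendsto_right hk0 dk0 hpos0 e2
  obtain ⟨l1, l2⟩ := main_tendsto_left hkL dkL hposL f2
  have hN0 : 0 < N 0 := hl.Npos 0 h0
  refine ode (φ := fun t => fphi g (chat d s x P Q (k t)))
    (b := fun t => fb g (chat d s x P Q (k t))) (h := fun t => fh d g (chat d s x P Q (k t)))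
    (μ := fun t => fmu g (chat d s x P Q (k t))) hL0 hL1 ha
    (fun t ht => good_of_NCat hm (by omega) hg hI hC (hNC t ht)) r3 r4 (e3.comp r1) ?_ l2
    (f3.comp l1) (f4.comp l1) (Real.le_sqrt_of_sq_le f1)
  intro κ hκ
  have g1 := r1.eventually (end0_h hd hodd hg hI h P Q hN0 hl.N0 (κ := κ * N 0 / 2)
    (by positivity))
  have g2 : Tendsto (fun t => (2 / 3 * N 0 + κ * N 0 / 2) * (k t / t)) (𝓝[>] 0)
      (𝓝 ((2 / 3 * N 0 + κ * N 0 / 2) * (N 0)⁻¹)) := r2.const_mul _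
  have g3 : (2 / 3 * N 0 + κ * N 0 / 2) * (N 0)⁻¹ < 2 / 3 + κ := by
    have : (2 / 3 * N 0 + κ * N 0 / 2) * (N 0)⁻¹ = 2 / 3 + κ / 2 := by field_simp
    rw [this]; linarith
  filter_upwards [g1, g2.eventually (gt_mem_nhds g3), self_mem_nhdsWithin] with t t1 t2 t3
  have t4 : (0 : ℝ) < t := t3
  refine t1.trans ?_
  rw [← mul_div_assoc, div_lt_iff₀ t4] at t2
  exact t2.le

end Pool.Agent.Anco
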