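import Pool.Agent.Lib.MP_66983d_gt.Base

set_option maxSynthPendingDepth 3

namespace Pool.Agent.Anco

open scoped ContDiff Topology
open Filter Set Matrix

/-- a function continuous on an open interval with limits at both ends is bounded above -/
theorem bdd_of_limits {f : ℝ → ℝ} {L a b : ℝ} (hL : 0 < L) (hf : ContinuousOn f (Ioo 0 L))
    (h0 : Tendsto f (𝓝[>] 0) (𝓝 a)) (h1 : Tendsto f (𝓝[<] L) (𝓝 b)) :
    ∃ K, ∀ t ∈ Ioo 0 L, f t ≤ K := by
  have e0 : ∀ᶠ t in 𝓝[>] (0 : ℝ), f t < a + 1 := h0.eventually (gt_mem_nhds (by linarith))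
  have e1 : ∀ᶠ t in 𝓝[<] L, f t < b + 1 := h1.eventually (gt_mem_nhds (by linarith))
  obtain ⟨u, hu, hu'⟩ := (mem_nhdsGT_iff_exists_Ioo_subset).1 e0
  obtain ⟨v, hv, hv'⟩ := (mem_nhdsLT_iff_exists_Ioo_subset).1 e1
  have hu0 : (0 : ℝ) < u := hu
  have hvL : v < L := hv
  have hsub : Icc u v ⊆ Ioo 0 L := fun t ht => ⟨lt_of_lt_of_le hu0 ht.1, lt_of_le_of_lt ht.2 hvL⟩
  obtain ⟨K, hK⟩ := (isCompact_Icc (a := u) (b := v)).bddAbove_image (hf.mono hsub)
  refine ⟨max (max (a + 1) (b + 1)) K, fun t ht => ?_⟩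
  by_cases h : t < u
  · have : f t < a + 1 := hu' ⟨ht.1, h⟩
    exact le_trans this.le (le_trans (le_max_left _ _) (le_max_left _ _))
  by_cases h' : v < t
  · have : f t < b + 1 := hv' ⟨h', ht.2⟩
    exact le_trans this.le (le_trans (le_max_right _ _) (le_max_left _ _))
  · exact le_trans (hK ⟨t, ⟨not_lt.1 h, not_lt.1 h'⟩, rfl⟩) (le_max_right _ _)

/-- monotonicity on a subinterval from the sign of the derivative -/
theorem odeA1_mono {f f1 : ℝ → ℝ} {s t : ℝ} (hst : s ≤ t)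
    (d : ∀ x ∈ Icc s t, HasDerivAt f (f1 x) x) (h : ∀ x ∈ Icc s t, 0 ≤ f1 x) : f s ≤ f t := by
  have hm : MonotoneOn f (Icc s t) := by
    refine monotoneOn_of_deriv_nonneg (convex_Icc s t)
      (fun x hx => (d x hx).continuousAt.continuousWithinAt)
      (fun x hx => (d x (interior_subset hx)).differentiableAt.differentiableWithinAt) ?_
    intro x hx
    rw [(d x (interior_subset hx)).deriv]
    exact h x (interior_subset hx)
  exact hm (left_mem_Icc.2 hst) (right_mem_Icc.2 hst) hst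

theorem odeA1_lim0 {φ : ℝ → ℝ} {a : ℝ}
    (h0 : Tendsto (fun t => (φ t - a) / t) (𝓝[>] 0) (𝓝 0)) : Tendsto φ (𝓝[>] 0) (𝓝 a) := by
  have hid : Tendsto (fun t : ℝ => t) (𝓝[>] 0) (𝓝 0) := tendsto_nhdsWithin_of_tendsto_nhds tendsto_id
  have h := (h0.mul hid).add_const a
  simp only [mul_zero, zero_add] at h
  refine h.congr' ?_
  filter_upwards [self_mem_nhdsWithin] with t ht
  have : t ≠ 0 := ne_of_gt ht
  field_simp
  ring

theorem odeA1_limL {φ : ℝ → ℝ} {b L : ℝ}
    (h1 : Tendsto (fun t => (φ t - b) / (L - t)) (𝓝[<] L) (𝓝 0)) : Tendsto φ (𝓝[<] L) (𝓝 b) := by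
  have hid : Tendsto (fun t : ℝ => L - t) (𝓝[<] L) (𝓝 (L - L)) :=
    tendsto_nhdsWithin_of_tendsto_nhds (tendsto_id.const_sub L)
  have h := (h1.mul hid).add_const b
  simp only [zero_mul, zero_add] at h
  refine h.congr' ?_
  filter_upwards [self_mem_nhdsWithin] with t ht
  have : L - t ≠ 0 := ne_of_gt (sub_pos.2 ht)
  field_simp
  ring

theorem ode_phi {L ε a φL : ℝ} {φ φ1 φ2 om : ℝ → ℝ} (hL : 0 < L) (hL1 : L ≤ 1) (hε : 0 ≤ ε)
    (hε1 : ε ≤ 1 / 1000) (ha : 0 < a)
    (d1 : ∀ t ∈ Ioo 0 L, HasDerivAt φ (φ1 t) t) (d2 : ∀ t ∈ Ioo 0 L, HasDerivAt φ1 (φ2 t) t)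
    (pos : ∀ t ∈ Ioo 0 L, 0 < φ t)
    (i1 : ∀ t ∈ Ioo 0 L, φ2 t ≤ ε * φ t - 3 * om t ^ 2 * φ t)
    (h0 : Tendsto (fun t => (φ t - a) / t) (𝓝[>] 0) (𝓝 0))
    (h1 : Tendsto (fun t => (φ t - φL) / (L - t)) (𝓝[<] L) (𝓝 0)) :
    (∀ t ∈ Ioo 0 L, |φ t - a| ≤ 2 * ε * a ∧ |φ1 t| ≤ 2 * ε * a * L) ∧ (1 - 2 * ε) * a ≤ φL ∧
    ∃ Wf W1 : ℝ → ℝ, ∀ t ∈ Ioo 0 L,
      HasDerivAt Wf (W1 t) t ∧ om t ^ 2 ≤ W1 t ∧ 0 ≤ Wf t ∧ Wf t ≤ ε * L := by
  have l0 := odeA1_lim0 h0
  have lL := odeA1_limL h1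
  have hcont : ContinuousOn φ (Ioo 0 L) := fun t ht => (d1 t ht).continuousAt.continuousWithinAt
  obtain ⟨K, hK⟩ := bdd_of_limits hL hcont l0 lL
  have hbdd : BddAbove (φ '' Ioo 0 L) := ⟨K, by rintro _ ⟨t, ht, rfl⟩; exact hK t ht⟩
  have hne : (φ '' Ioo 0 L).Nonempty := ⟨φ (L / 2), L / 2, ⟨by linarith, by linarith⟩, rfl⟩
  set M := sSup (φ '' Ioo 0 L) with hM
  have hle : ∀ t ∈ Ioo 0 L, φ t ≤ M := fun t ht => le_csSup hbdd ⟨t, ht, rfl⟩
  have hM0 : 0 < M := lt_of_lt_of_le (pos (L / 2) ⟨by linarith, by linarith⟩)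
    (hle _ ⟨by linarith, by linarith⟩)
  have hεM : 0 ≤ ε * M := mul_nonneg hε hM0.le
  -- the monotone quantity
  have dO : ∀ t ∈ Ioo 0 L, HasDerivAt (fun t => -φ1 t + ε * M * t) (-φ2 t + ε * M) t := by
    intro t ht
    have := (d2 t ht).neg.add ((hasDerivAt_id t).const_mul (ε * M))
    rw [mul_one] at this; exact this
  have dOpos : ∀ t ∈ Ioo 0 L, 3 * om t ^ 2 * φ t ≤ -φ2 t + ε * M := by
    intro t ht
    have h2 := i1 t ht
    have h3 : ε * φ t ≤ ε * M := mul_le_mul_of_nonneg_left (hle t ht) hε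
    linarith
  have mO : ∀ s t, 0 < s → s ≤ t → t < L → -φ1 s + ε * M * s ≤ -φ1 t + ε * M * t := by
    intro s t hs hst ht
    have hsub : ∀ x ∈ Icc s t, x ∈ Ioo 0 L := fun x hx =>
      ⟨lt_of_lt_of_le hs hx.1, lt_of_le_of_lt hx.2 ht⟩
    refine odeA1_mono (f := fun t => -φ1 t + ε * M * t) hst (fun x hx => dO x (hsub x hx)) ?_
    intro x hx
    have h2 := dOpos x (hsub x hx)
    have h3 : 0 ≤ 3 * om x ^ 2 * φ x := by have := pos x (hsub x hx); positivity
    linarith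
  have O0 : ∀ t ∈ Ioo 0 L, 0 ≤ -φ1 t + ε * M * t := by
    intro t ht
    by_contra hneg
    push Not at hneg
    set c := -(-φ1 t + ε * M * t) with hc
    have hc0 : 0 < c := by linarith
    -- for s ≤ t the derivative is at least c
    have key : ∀ s ∈ Ioc 0 t, c ≤ (φ s - a) / s := by
      intro s hs
      have hs' : ∀ r ∈ Ioc 0 s, φ r - c * r ≤ φ s - c * s := by
        intro r hr
        have hsub : ∀ x ∈ Icc r s, x ∈ Ioo 0 L := fun x hx =>
          ⟨lt_of_lt_of_le hr.1 hx.1, lt_of_le_of_lt (hx.2.trans hs.2) ht.2⟩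
        refine odeA1_mono (f := fun x => φ x - c * x) (f1 := fun x => φ1 x - c) hr.2 ?_ ?_
        · intro x hx
          have := (d1 x (hsub x hx)).sub ((hasDerivAt_id x).const_mul c)
          rw [mul_one] at this; exact this
        · intro x hx
          have h2 := mO x t (hsub x hx).1 (hx.2.trans hs.2) ht.2
          have h3 : 0 ≤ ε * M * x := mul_nonneg hεM (hsub x hx).1.le
          linarith
      have hid : Tendsto (fun r : ℝ => r) (𝓝[>] 0) (𝓝 0) :=
        tendsto_nhdsWithin_of_tendsto_nhds tendsto_id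
      have hlim : Tendsto (fun r => φ r - c * r) (𝓝[>] 0) (𝓝 (a - c * 0)) :=
        l0.sub (hid.const_mul c)
      have hle2 : a - c * 0 ≤ φ s - c * s := by
        refine le_of_tendsto hlim ?_
        filter_upwards [Ioc_mem_nhdsGT hs.1] with r hr using hs' r hr
      rw [le_div_iff₀ hs.1]
      linarith
    have : c ≤ 0 := by
      refine ge_of_tendsto h0 ?_
      filter_upwards [Ioc_mem_nhdsGT ht.1] with s hs using key s hs
    linarith
  have OL : ∀ t ∈ Ioo 0 L, -φ1 t + ε * M * t ≤ ε * M * L := by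
    intro t ht
    by_contra hneg
    push Not at hneg
    set c := -φ1 t + ε * M * t - ε * M * L with hc
    have hc0 : 0 < c := by linarith
    have key : ∀ s ∈ Ico t L, c ≤ (φ s - φL) / (L - s) := by
      intro s hs
      have hs' : ∀ r ∈ Ico s L, -φ s - c * s ≤ -φ r - c * r := by
        intro r hr
        have hsub : ∀ x ∈ Icc s r, x ∈ Ioo 0 L := fun x hx =>
          ⟨lt_of_lt_of_le ht.1 (hs.1.trans hx.1), lt_of_le_of_lt hx.2 hr.2⟩
        refine odeA1_mono (f := fun x => -φ x - c * x) (f1 := fun x => -φ1 x - c) hr.1 ?_ ?_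
        · intro x hx
          have := (d1 x (hsub x hx)).neg.sub ((hasDerivAt_id x).const_mul c)
          rw [mul_one] at this; exact this
        · intro x hx
          have h2 := mO t x ht.1 (hs.1.trans hx.1) (hsub x hx).2
          have h3 : ε * M * x ≤ ε * M * L := mul_le_mul_of_nonneg_left (hsub x hx).2.le hεM
          linarith
      have hid : Tendsto (fun r : ℝ => r) (𝓝[<] L) (𝓝 L) :=
        tendsto_nhdsWithin_of_tendsto_nhds tendsto_id
      have hlim : Tendsto (fun r => -φ r - c * r) (𝓝[<] L) (𝓝 (-φL - c * L)) :=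
        lL.neg.sub (hid.const_mul c)
      have hle2 : -φ s - c * s ≤ -φL - c * L := by
        refine ge_of_tendsto hlim ?_
        filter_upwards [Ico_mem_nhdsLT hs.2] with r hr using hs' r hr
      rw [le_div_iff₀ (sub_pos.2 hs.2)]
      linarith
    have : c ≤ 0 := by
      refine ge_of_tendsto h1 ?_
      filter_upwards [Ico_mem_nhdsLT ht.2] with s hs using key s hs
    linarith
  have b1 : ∀ t ∈ Ioo 0 L, -(ε * M * L) ≤ φ1 t ∧ φ1 t ≤ ε * M * L := by
    intro t ht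
    have h2 := O0 t ht
    have h3 := OL t ht
    have h4 : 0 ≤ ε * M * t := mul_nonneg hεM ht.1.le
    have h5 : ε * M * t ≤ ε * M * L := mul_le_mul_of_nonneg_left ht.2.le hεM
    constructor <;> linarith
  have hid0 : Tendsto (fun r : ℝ => r) (𝓝[>] 0) (𝓝 0) :=
    tendsto_nhdsWithin_of_tendsto_nhds tendsto_id
  have hLt : ∀ t ∈ Ioo 0 L, ε * M * L * t ≤ ε * M := by
    intro t ht
    have h2 : L * t ≤ 1 := by nlinarith [ht.1, ht.2]
    calc ε * M * L * t = ε * M * (L * t) := by ring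
      _ ≤ ε * M * 1 := mul_le_mul_of_nonneg_left h2 hεM
      _ = ε * M := mul_one _
  have b0 : ∀ t ∈ Ioo 0 L, a - ε * M ≤ φ t ∧ φ t ≤ a + ε * M := by
    intro t ht
    have hsub : ∀ r ∈ Ioc 0 t, ∀ x ∈ Icc r t, x ∈ Ioo 0 L := fun r hr x hx =>
      ⟨lt_of_lt_of_le hr.1 hx.1, lt_of_le_of_lt hx.2 ht.2⟩
    have h2 := hLt t ht
    constructor
    · have hs' : ∀ r ∈ Ioc 0 t, φ r + ε * M * L * r ≤ φ t + ε * M * L * t := by
        intro r hr
        refine odeA1_mono (f := fun x => φ x + ε * M * L * x)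
          (f1 := fun x => φ1 x + ε * M * L) hr.2 ?_ ?_
        · intro x hx
          have := (d1 x (hsub r hr x hx)).add ((hasDerivAt_id x).const_mul (ε * M * L))
          rw [mul_one] at this; exact this
        · intro x hx
          have := (b1 x (hsub r hr x hx)).1
          linarith
      have hlim : Tendsto (fun r => φ r + ε * M * L * r) (𝓝[>] 0) (𝓝 (a + ε * M * L * 0)) :=
        l0.add (hid0.const_mul _)
      have hle2 : a + ε * M * L * 0 ≤ φ t + ε * M * L * t := by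
        refine le_of_tendsto hlim ?_
        filter_upwards [Ioc_mem_nhdsGT ht.1] with r hr using hs' r hr
      linarith
    · have hs' : ∀ r ∈ Ioc 0 t, -φ r + ε * M * L * r ≤ -φ t + ε * M * L * t := by
        intro r hr
        refine odeA1_mono (f := fun x => -φ x + ε * M * L * x)
          (f1 := fun x => -φ1 x + ε * M * L) hr.2 ?_ ?_
        · intro x hx
          have := (d1 x (hsub r hr x hx)).neg.add ((hasDerivAt_id x).const_mul (ε * M * L))
          rw [mul_one] at this; exact this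
        · intro x hx
          have := (b1 x (hsub r hr x hx)).2
          linarith
      have hlim : Tendsto (fun r => -φ r + ε * M * L * r) (𝓝[>] 0) (𝓝 (-a + ε * M * L * 0)) :=
        l0.neg.add (hid0.const_mul _)
      have hle2 : -a + ε * M * L * 0 ≤ -φ t + ε * M * L * t := by
        refine le_of_tendsto hlim ?_
        filter_upwards [Ioc_mem_nhdsGT ht.1] with r hr using hs' r hr
      linarith
  have hMa : M ≤ a + ε * M := csSup_le hne (by rintro _ ⟨t, ht, rfl⟩; exact (b0 t ht).2)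
  have hM2 : M ≤ 2 * a := by
    have : ε * M ≤ 1 / 1000 * M := mul_le_mul_of_nonneg_right hε1 hM0.le
    linarith
  have hεM2 : ε * M ≤ 2 * ε * a := by
    have := mul_le_mul_of_nonneg_left hM2 hε
    linarith
  have hεML : ε * M * L ≤ 2 * ε * a * L := mul_le_mul_of_nonneg_right hεM2 hL.le
  refine ⟨fun t ht => ⟨?_, ?_⟩, ?_, fun t => (-φ1 t + ε * M * t) / (2 * a),
    fun t => (-φ2 t + ε * M) / (2 * a), fun t ht => ⟨(dO t ht).div_const _, ?_, ?_, ?_⟩⟩
  · rw [abs_le]
    have := b0 t ht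
    constructor <;> linarith [this.1, this.2]
  · rw [abs_le]
    have := b1 t ht
    constructor <;> linarith [this.1, this.2]
  · refine ge_of_tendsto lL ?_
    filter_upwards [Ioo_mem_nhdsLT hL] with t ht
    have := (b0 t ht).1
    linarith
  · rw [le_div_iff₀ (by linarith)]
    have h2 := dOpos t ht
    have h3 := (b0 t ht).1
    have h4 : ε * a ≤ 1 / 1000 * a := mul_le_mul_of_nonneg_right hε1 ha.le
    have h5 : 2 * a ≤ 3 * φ t := by linarith
    have h6 : om t ^ 2 * (2 * a) ≤ om t ^ 2 * (3 * φ t) :=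
      mul_le_mul_of_nonneg_left h5 (sq_nonneg _)
    linarith
  · exact div_nonneg (O0 t ht) (by linarith)
  · rw [div_le_iff₀ (by linarith)]
    have h2 := OL t ht
    linarith

end Pool.Agent.Anco
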