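import Pool.Agent.Lib.MP_66983d_gt.OdeA1

set_option maxSynthPendingDepth 3

namespace Pool.Agent.Anco

open scoped ContDiff Topology
open Filter Set Matrix

theorem odeA2_le {f f1 : ℝ → ℝ} {L s t c : ℝ} (d : ∀ x ∈ Ioo 0 L, HasDerivAt f (f1 x) x)
    (hs : 0 < s) (hst : s < t) (ht : t < L) (hc : ∀ x ∈ Ioo s t, f1 x ≤ c) :
    f t - f s ≤ c * (t - s) := by
  obtain ⟨x, hx, hx'⟩ := exists_hasDerivAt_eq_slope f f1 hst
    (fun x hx => (d x ⟨by linarith [hx.1], by linarith [hx.2]⟩).continuousAt.continuousWithinAt)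
    (fun x hx => d x ⟨by linarith [hx.1], by linarith [hx.2]⟩)
  have h1 := hc x hx
  rw [hx', div_le_iff₀ (by linarith)] at h1
  exact h1

theorem odeA2_ge {f f1 : ℝ → ℝ} {L s t c : ℝ} (d : ∀ x ∈ Ioo 0 L, HasDerivAt f (f1 x) x)
    (hs : 0 < s) (hst : s < t) (ht : t < L) (hc : ∀ x ∈ Ioo s t, c ≤ f1 x) :
    c * (t - s) ≤ f t - f s := by
  obtain ⟨x, hx, hx'⟩ := exists_hasDerivAt_eq_slope f f1 hst
    (fun x hx => (d x ⟨by linarith [hx.1], by linarith [hx.2]⟩).continuousAt.continuousWithinAt)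
    (fun x hx => d x ⟨by linarith [hx.1], by linarith [hx.2]⟩)
  have h1 := hc x hx
  rw [hx', le_div_iff₀ (by linarith)] at h1
  exact h1

theorem odeA2_id0 : Tendsto (fun s : ℝ => s) (𝓝[>] 0) (𝓝 0) :=
  tendsto_nhdsWithin_of_tendsto_nhds tendsto_id

theorem odeA2_lim {b : ℝ → ℝ} {a : ℝ}
    (h0 : Tendsto (fun t => (b t - a) / t) (𝓝[>] 0) (𝓝 0)) : Tendsto b (𝓝[>] 0) (𝓝 a) := by
  have h1 : Tendsto (fun t => a + (b t - a) / t * t) (𝓝[>] 0) (𝓝 (a + 0 * 0)) :=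
    tendsto_const_nhds.add (h0.mul odeA2_id0)
  rw [mul_zero, add_zero] at h1
  refine h1.congr' ?_
  filter_upwards [self_mem_nhdsWithin] with t ht
  have ht' : t ≠ 0 := ne_of_gt ht
  field_simp
  ring

theorem odeA2_le0 {f f1 : ℝ → ℝ} {L t c a : ℝ} (d : ∀ x ∈ Ioo 0 L, HasDerivAt f (f1 x) x)
    (h0 : Tendsto f (𝓝[>] 0) (𝓝 a)) (ht0 : 0 < t) (ht : t < L)
    (hc : ∀ x ∈ Ioo 0 t, f1 x ≤ c) : f t - a ≤ c * t := by
  have h1 : Tendsto (fun s => f t - f s) (𝓝[>] 0) (𝓝 (f t - a)) := tendsto_const_nhds.sub h0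
  have h2 : Tendsto (fun s => c * (t - s)) (𝓝[>] 0) (𝓝 (c * (t - 0))) :=
    tendsto_const_nhds.mul (tendsto_const_nhds.sub odeA2_id0)
  rw [sub_zero] at h2
  refine le_of_tendsto_of_tendsto h1 h2 ?_
  filter_upwards [Ioo_mem_nhdsGT ht0] with s hs
  exact odeA2_le d hs.1 hs.2 ht (fun x hx => hc x ⟨hs.1.trans hx.1, hx.2⟩)

theorem odeA2_ge0 {f f1 : ℝ → ℝ} {L t c a : ℝ} (d : ∀ x ∈ Ioo 0 L, HasDerivAt f (f1 x) x)
    (h0 : Tendsto f (𝓝[>] 0) (𝓝 a)) (ht0 : 0 < t) (ht : t < L)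
    (hc : ∀ x ∈ Ioo 0 t, c ≤ f1 x) : c * t ≤ f t - a := by
  have h1 : Tendsto (fun s => f t - f s) (𝓝[>] 0) (𝓝 (f t - a)) := tendsto_const_nhds.sub h0
  have h2 : Tendsto (fun s => c * (t - s)) (𝓝[>] 0) (𝓝 (c * (t - 0))) :=
    tendsto_const_nhds.mul (tendsto_const_nhds.sub odeA2_id0)
  rw [sub_zero] at h2
  refine le_of_tendsto_of_tendsto h2 h1 ?_
  filter_upwards [Ioo_mem_nhdsGT ht0] with s hs
  exact odeA2_ge d hs.1 hs.2 ht (fun x hx => hc x ⟨hs.1.trans hx.1, hx.2⟩)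

theorem ode_b {L ε a : ℝ} {b b1 b2 om Wf W1 : ℝ → ℝ} (hL : 0 < L) (hL1 : L ≤ 1) (hε : 0 ≤ ε)
    (hε1 : ε ≤ 1 / 1000) (ha : 0 < a)
    (d1 : ∀ t ∈ Ioo 0 L, HasDerivAt b (b1 t) t) (d2 : ∀ t ∈ Ioo 0 L, HasDerivAt b1 (b2 t) t)
    (pos : ∀ t ∈ Ioo 0 L, 0 < b t)
    (i2 : ∀ t ∈ Ioo 0 L, b2 t ≤ (ε + om t ^ 2) * b t)
    (hW : ∀ t ∈ Ioo 0 L, HasDerivAt Wf (W1 t) t ∧ om t ^ 2 ≤ W1 t ∧ 0 ≤ Wf t ∧ Wf t ≤ ε * L)
    (h0 : Tendsto (fun t => (b t - a) / t) (𝓝[>] 0) (𝓝 0))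
    (h1 : Tendsto b (𝓝[<] L) (𝓝 0)) :
    (∀ t ∈ Ioo 0 L, b t ≤ (1 + 4 * ε) * a ∧ b1 t ≤ 4 * ε * a) ∧
    ∀ t ∈ Ioc 0 (L / 2), -(5 * a / L) ≤ b1 t ∧ (1 - 5 * t / L) * a ≤ b t := by
  have hb0 := odeA2_lim h0
  obtain ⟨K, hK⟩ := bdd_of_limits hL
    (fun t ht => (d1 t ht).continuousAt.continuousWithinAt) hb0 h1
  have hmid : L / 2 ∈ Ioo 0 L := ⟨by linarith, by linarith⟩
  have hbdd : BddAbove (b '' Ioo 0 L) := ⟨K, by rintro _ ⟨t, ht, rfl⟩; exact hK t ht⟩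
  have hne : (b '' Ioo 0 L).Nonempty := ⟨_, ⟨_, hmid, rfl⟩⟩
  obtain ⟨M, hMdef⟩ : ∃ M, M = sSup (b '' Ioo 0 L) := ⟨_, rfl⟩
  have hM : ∀ t ∈ Ioo 0 L, b t ≤ M := fun t ht => hMdef ▸ le_csSup hbdd ⟨t, ht, rfl⟩
  have hMle : ∀ c, (∀ t ∈ Ioo 0 L, b t ≤ c) → M ≤ c := fun c hc =>
    hMdef ▸ csSup_le hne (by rintro _ ⟨t, ht, rfl⟩; exact hc t ht)
  have hM0 : 0 ≤ M := (pos _ hmid).le.trans (hM _ hmid)
  have dchi : ∀ t ∈ Ioo 0 L, HasDerivAt (fun t => b1 t - M * (ε * t + Wf t))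
      ((fun t => b2 t - M * (ε * 1 + W1 t)) t) t := fun t ht =>
    (d2 t ht).sub ((((hasDerivAt_id t).const_mul ε).add (hW t ht).1).const_mul M)
  have anti : ∀ s t, 0 < s → s < t → t < L →
      b1 t - M * (ε * t + Wf t) ≤ b1 s - M * (ε * s + Wf s) := by
    intro s t hs hst ht
    have h := odeA2_le (c := 0) dchi hs hst ht (fun x hx => by
      have hx' : x ∈ Ioo 0 L := ⟨hs.trans hx.1, hx.2.trans ht⟩
      have e1 := i2 x hx'
      have e2 := (hW x hx').2.1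
      have e3 : (ε + om x ^ 2) * b x ≤ (ε + om x ^ 2) * M :=
        mul_le_mul_of_nonneg_left (hM x hx') (by positivity)
      have e4 : M * om x ^ 2 ≤ M * W1 x := mul_le_mul_of_nonneg_left e2 hM0
      show b2 x - M * (ε * 1 + W1 x) ≤ 0
      nlinarith only [e1, e3, e4])
    linarith only [h]
  have wlo : ∀ s ∈ Ioo 0 L, 0 ≤ M * (ε * s + Wf s) := fun s hs =>
    mul_nonneg hM0 (add_nonneg (mul_nonneg hε hs.1.le) (hW s hs).2.2.1)
  have whi : ∀ s ∈ Ioo 0 L, M * (ε * s + Wf s) ≤ 2 * ε * L * M := fun s hs => by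
    have e1 : ε * s ≤ ε * L := mul_le_mul_of_nonneg_left hs.2.le hε
    have e2 := (hW s hs).2.2.2
    have e3 : M * (ε * s + Wf s) ≤ M * (ε * L + ε * L) :=
      mul_le_mul_of_nonneg_left (add_le_add e1 e2) hM0
    linarith only [e3]
  have chi0 : ∀ t ∈ Ioo 0 L, b1 t - M * (ε * t + Wf t) ≤ 0 := by
    intro t ht
    refine ge_of_tendsto h0 ?_
    filter_upwards [Ioo_mem_nhdsGT ht.1] with s hs
    rw [le_div_iff₀ hs.1]
    refine odeA2_ge0 d1 hb0 hs.1 (hs.2.trans ht.2) (fun x hx => ?_)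
    have e1 := anti x t hx.1 (hx.2.trans hs.2) ht.2
    have e2 := wlo x ⟨hx.1, hx.2.trans (hs.2.trans ht.2)⟩
    linarith only [e1, e2]
  have b1hi : ∀ t ∈ Ioo 0 L, b1 t ≤ 2 * ε * L * M := fun t ht => by
    linarith only [chi0 t ht, whi t ht]
  have hεM : 0 ≤ ε * M := mul_nonneg hε hM0
  have hLM : 2 * ε * L * M ≤ 2 * (ε * M) := by
    have := mul_le_mul_of_nonneg_left hL1 hεM
    nlinarith only [this]
  have bhi : ∀ t ∈ Ioo 0 L, b t ≤ a + 2 * (ε * M) := fun t ht => by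
    have e1 := odeA2_le0 (c := 2 * (ε * M)) d1 hb0 ht.1 ht.2
      (fun x hx => (b1hi x ⟨hx.1, hx.2.trans ht.2⟩).trans hLM)
    have e2 : 2 * (ε * M) * t ≤ 2 * (ε * M) * 1 :=
      mul_le_mul_of_nonneg_left (ht.2.le.trans hL1) (by positivity)
    linarith only [e1, e2]
  have hM2 : M ≤ 2 * a := by
    have e1 := hMle _ bhi
    have e2 : ε * M ≤ 1 / 1000 * M := mul_le_mul_of_nonneg_right hε1 hM0
    linarith only [e1, e2, hM0]
  have hεM2 : ε * M ≤ 2 * (ε * a) := by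
    have := mul_le_mul_of_nonneg_left hM2 hε
    linarith only [this]
  have hεa : ε * a ≤ 1 / 1000 * a := mul_le_mul_of_nonneg_right hε1 ha.le
  have hεa0 : 0 ≤ ε * a := mul_nonneg hε ha.le
  have part1 : ∀ t ∈ Ioo 0 L, b t ≤ (1 + 4 * ε) * a ∧ b1 t ≤ 4 * ε * a := fun t ht =>
    ⟨by nlinarith only [bhi t ht, hεM2], by nlinarith only [b1hi t ht, hLM, hεM2]⟩
  have b1lo : ∀ t ∈ Ioc 0 (L / 2), -(5 * a / L) ≤ b1 t := by
    intro t ht
    have htL : t < L := by linarith only [ht.2, hL]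
    have ht' : t ∈ Ioo 0 L := ⟨ht.1, htL⟩
    have l1 : Tendsto (fun s => b s - b t) (𝓝[<] L) (𝓝 (0 - b t)) := h1.sub tendsto_const_nhds
    have l0 : Tendsto (fun s : ℝ => s) (𝓝[<] L) (𝓝 L) :=
      tendsto_nhdsWithin_of_tendsto_nhds tendsto_id
    have l2 : Tendsto (fun s => (b1 t + 4 * (ε * a)) * (s - t)) (𝓝[<] L)
        (𝓝 ((b1 t + 4 * (ε * a)) * (L - t))) :=
      tendsto_const_nhds.mul (l0.sub tendsto_const_nhds)
    have key : 0 - b t ≤ (b1 t + 4 * (ε * a)) * (L - t) := by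
      refine le_of_tendsto_of_tendsto l1 l2 ?_
      filter_upwards [Ioo_mem_nhdsLT htL] with s hs
      refine odeA2_le d1 ht.1 hs.1 hs.2 (fun x hx => ?_)
      have e1 := anti t x ht.1 hx.1 (hx.2.trans hs.2)
      have e2 := whi x ⟨ht.1.trans hx.1, hx.2.trans hs.2⟩
      have e3 := wlo t ht'
      linarith only [e1, e2, e3, hLM, hεM2]
    have e1 := (part1 t ht').1
    by_contra hcon
    rw [not_le] at hcon
    have e5 : a ≤ a / L := by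
      rw [le_div_iff₀ hL]
      nlinarith only [hL1, ha]
    have e6 : 5 * a / L = 5 * (a / L) := by ring
    have e7 : b1 t + 4 * (ε * a) ≤ -(4 * (a / L)) := by linarith only [hcon, e5, e6, hεa, ha]
    have e8 : (b1 t + 4 * (ε * a)) * (L - t) ≤ -(4 * (a / L)) * (L - t) :=
      mul_le_mul_of_nonneg_right e7 (by linarith only [htL])
    have e9 : a / L * (L / 2) ≤ a / L * (L - t) :=
      mul_le_mul_of_nonneg_left (by linarith only [ht.2]) (by positivity)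
    have e10 : a / L * (L / 2) = a / 2 := by field_simp
    nlinarith only [key, e1, e8, e9, e10, hεa, ha]
  refine ⟨part1, fun t ht => ⟨b1lo t ht, ?_⟩⟩
  have htL : t < L := by linarith only [ht.2, hL]
  have e1 := odeA2_ge0 (c := -(5 * a / L)) d1 hb0 ht.1 htL
    (fun x hx => b1lo x ⟨hx.1, hx.2.le.trans ht.2⟩)
  have e2 : (1 - 5 * t / L) * a = a + -(5 * a / L) * t := by ring
  linarith only [e1, e2]

theorem odeA2_pt {ε η a φ b m W : ℝ} (hε1 : ε ≤ 1 / 1000) (hη : 0 < η) (ha : 0 < a)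
    (hφ : |φ - a| ≤ 2 * ε * a) (hb : 199 / 200 * a ≤ b) (hW : (m * b / (2 * φ)) ^ 2 ≤ W) :
    |m| ≤ 101 / 100 * (W / η + η) := by
  have hεa : ε * a ≤ 1 / 1000 * a := mul_le_mul_of_nonneg_right hε1 ha.le
  obtain ⟨h1, h2⟩ := abs_le.mp hφ
  have hφ0 : 0 < φ := by nlinarith only [h1, hεa, ha]
  have hφ1 : φ ≤ 501 / 500 * a := by nlinarith only [h2, hεa]
  have hb0 : 0 < b := by linarith only [hb, ha]
  obtain ⟨o, ho⟩ : ∃ o, o = m * b / (2 * φ) := ⟨_, rfl⟩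
  rw [← ho] at hW
  have hm : m = o * (2 * φ / b) := by rw [ho]; field_simp
  have hr : 2 * φ / b ≤ 101 / 50 := by
    rw [div_le_iff₀ hb0]
    linarith only [hφ1, hb, ha]
  have hr0 : 0 ≤ 2 * φ / b := by positivity
  have e1 : |m| ≤ |o| * (101 / 50) := by
    rw [hm, abs_mul, abs_of_nonneg hr0]
    exact mul_le_mul_of_nonneg_left hr (abs_nonneg _)
  have e2 : 2 * |o| ≤ W / η + η := by
    have e3 : 2 * |o| - η ≤ W / η := by
      rw [le_div_iff₀ hη]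
      have e4 := sq_abs o
      nlinarith only [e4, hW, sq_nonneg (|o| - η)]
    linarith only [e3]
  linarith only [e1, e2]

theorem ode_mu {L ε η a : ℝ} {φ b μ μ1 Wf W1 : ℝ → ℝ} (hL : 0 < L) (hL1 : L ≤ 1) (hε : 0 ≤ ε)
    (hε1 : ε ≤ 1 / 1000) (hη : 0 < η) (hεη : ε ≤ η ^ 2) (ha : 0 < a)
    (d1 : ∀ t ∈ Ioo 0 L, HasDerivAt μ (μ1 t) t)
    (hφ : ∀ t ∈ Ioo 0 L, |φ t - a| ≤ 2 * ε * a)
    (hb : ∀ t ∈ Ioc 0 (L / 2), (1 - 5 * t / L) * a ≤ b t)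
    (hW : ∀ t ∈ Ioo 0 L, HasDerivAt Wf (W1 t) t ∧ (μ1 t * b t / (2 * φ t)) ^ 2 ≤ W1 t ∧
      0 ≤ Wf t ∧ Wf t ≤ ε * L)
    (h0 : Tendsto μ (𝓝[>] 0) (𝓝 0)) :
    ∀ t ∈ Ioc 0 (L / 1000), |μ t| ≤ 3 * η := by
  intro t ht
  have htL : t < L := by linarith only [ht.2, hL]
  have hpt : ∀ x ∈ Ioo 0 t, |μ1 x| ≤ 101 / 100 * (W1 x / η + η * 1) := by
    intro x hx
    have hx' : x ∈ Ioo 0 L := ⟨hx.1, hx.2.trans htL⟩
    rw [mul_one]
    refine odeA2_pt hε1 hη ha (hφ x hx') ?_ (hW x hx').2.1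
    refine le_trans ?_ (hb x ⟨hx.1, by linarith only [hx.2, ht.2, hL]⟩)
    refine mul_le_mul_of_nonneg_right ?_ ha.le
    have e : 5 * x / L ≤ 1 / 200 := by
      rw [div_le_iff₀ hL]
      linarith only [hx.2, ht.2]
    linarith only [e]
  have dV : ∀ x ∈ Ioo 0 L, HasDerivAt (fun x => 101 / 100 * (Wf x / η + η * x))
      (101 / 100 * (W1 x / η + η * 1)) x := fun x hx =>
    ((((hW x hx).1).div_const η).add ((hasDerivAt_id x).const_mul η)).const_mul _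
  have Vlo : ∀ s ∈ Ioo 0 L, 0 ≤ 101 / 100 * (Wf s / η + η * s) := fun s hs => by
    have e1 := (hW s hs).2.2.1
    have e2 := hs.1
    positivity
  have Vhi : 101 / 100 * (Wf t / η + η * t) ≤ 3 * η := by
    have e1 := (hW t ⟨ht.1, htL⟩).2.2.2
    have e2 : Wf t / η ≤ η := by
      rw [div_le_iff₀ hη]
      have e3 : ε * L ≤ ε * 1 := mul_le_mul_of_nonneg_left hL1 hε
      nlinarith only [e1, e3, hεη]
    have e4 : η * t ≤ η * 1 := mul_le_mul_of_nonneg_left (htL.le.trans hL1) hη.le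
    linarith only [e2, e4, hη]
  have key : ∀ s ∈ Ioo 0 t, |μ t - μ s| ≤ 3 * η := by
    intro s hs
    have e1 := odeA2_le (c := 0) (f := fun x => μ x - 101 / 100 * (Wf x / η + η * x))
      (f1 := fun x => μ1 x - 101 / 100 * (W1 x / η + η * 1))
      (fun x hx => (d1 x hx).sub (dV x hx)) hs.1 hs.2 htL (fun x hx => by
        have e := (abs_le.mp (hpt x ⟨hs.1.trans hx.1, hx.2⟩)).2
        show μ1 x - 101 / 100 * (W1 x / η + η * 1) ≤ 0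
        linarith only [e])
    have e2 := odeA2_ge (c := 0) (f := fun x => μ x + 101 / 100 * (Wf x / η + η * x))
      (f1 := fun x => μ1 x + 101 / 100 * (W1 x / η + η * 1))
      (fun x hx => (d1 x hx).add (dV x hx)) hs.1 hs.2 htL (fun x hx => by
        have e := (abs_le.mp (hpt x ⟨hs.1.trans hx.1, hx.2⟩)).1
        show 0 ≤ μ1 x + 101 / 100 * (W1 x / η + η * 1)
        linarith only [e])
    have e3 := Vlo s ⟨hs.1, hs.2.trans htL⟩
    simp only [zero_mul] at e1 e2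
    rw [abs_le]
    constructor
    · linarith only [e2, e3, Vhi]
    · linarith only [e1, e3, Vhi]
  have l1 : Tendsto (fun s => |μ t - μ s|) (𝓝[>] 0) (𝓝 |μ t - 0|) :=
    (tendsto_const_nhds.sub h0).abs
  rw [sub_zero] at l1
  refine le_of_tendsto l1 ?_
  filter_upwards [Ioo_mem_nhdsGT ht.1] with s hs
  exact key s hs

end Pool.Agent.Anco
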