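import Pool.Agent.Lib.MP_66983d_gt.Base

set_option maxSynthPendingDepth 3

namespace Pool.Agent.Anco

open scoped ContDiff Topology
open Filter Set Matrix

/-- the estimates available on a small initial interval -/
structure Est (L ε η a : ℝ) (φ φ1 b b1 h h1 μ μ1 : ℝ → ℝ) (t : ℝ) : Prop where
  db : HasDerivAt b (b1 t) t
  dh : HasDerivAt h (h1 t) t
  eφ : |φ t - a| ≤ 2 * ε * a
  eφ1 : |φ1 t| ≤ 2 * ε * a * L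
  blo : (1 - 5 * t / L) * a ≤ b t
  bhi : b t ≤ (1 + 4 * ε) * a
  b1lo : -(5 * a / L) ≤ b1 t
  b1hi : b1 t ≤ 4 * ε * a
  eμ : |μ t| ≤ 3 * η
  hlo : 2 / 5 * a * t / L ≤ h t
  hhi : h t ≤ 7 / 10 * t
  h1lo : -1 ≤ h1 t
  h1hi : h1 t ≤ 7 / 10
  i4 : (φ t ^ 2 - (1 + μ t ^ 2) * b t ^ 2) -
      (h t ^ 2 + (φ t ^ 2 - (1 + μ t ^ 2) * b t ^ 2)) ^ 2 / (4 * φ t ^ 2) - ε * b t ^ 2 * h t ^ 2 ≤
    -(b t * b1 t * h t * h1 t)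
  i5 : (h t ^ 2 - (φ t ^ 2 - (1 + μ t ^ 2) * b t ^ 2) ^ 2 / h t ^ 2) / 4 ≤
    φ t ^ 2 * b t ^ 2 * (ε + (μ1 t * b t / (2 * φ t)) ^ 2 + μ t ^ 2 / h t ^ 2) -
      φ t * φ1 t * b t * b1 t

end Pool.Agent.Anco
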