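import Pool.Agent.Lib.MP_66983d_gt.ChartB
import Pool.Agent.Lib.MP_66983d_gt.Ineq
import Pool.Agent.Lib.MP_66983d_gt.Conv

set_option maxSynthPendingDepth 3

namespace Pool.Agent.Anco

open scoped ContDiff Topology
open Filter Set Matrix

variable {m d : ℕ} [NeZero m] {g : V (m + 2) → V (m + 2) →L[ℝ] V (m + 2) →L[ℝ] ℝ}

theorem good_of_NCat (hm : 3 ≤ m) (hd : 1 ≤ d) (hg : IsMetric (m + 2) d g)
    (hI : Invariant (m + 2) d g) {ε : ℝ} (hC : CurvOpGe (m + 2) d g (-ε))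
    {c : ℝ → V (m + 2)} {t0 : ℝ} (hc : NCat d g c t0) :
    Good ε (fun t => fphi g (c t)) (fun t => fb g (c t)) (fun t => fh d g (c t))
      (fun t => fmu g (c t)) t0 := by
  obtain ⟨c1, c2, c3, c4, c5, c6⟩ := contDiff_co hg
  have h2 : ∀ {F : V (m + 2) → ℝ}, ContDiff ℝ ∞ F → ContDiffAt ℝ 2 (fun t => F (c t)) t0 :=
    fun hF => (hF.contDiffAt.comp t0 hc.smooth).of_le (by norm_cast)
  obtain ⟨hW, hP⟩ := hc.mem.self_of_nhds
  obtain ⟨q1, q2, q3, q4⟩ := co_pos hd hg hW hP hc.gen0 hc.gen1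
  obtain ⟨a1, a2, a3, a4, a5, a6⟩ := blk_of_fun (f := fun t => fphi g (c t))
    (ν := fun t => fmu g (c t)) (k := fun t => fb g (c t)) (h2 c4) (h2 c5) (h2 c6) q3 q4
    (fun _ => rfl) (fun _ => rfl) (fun _ => rfl)
  obtain ⟨y1, y2, y3, y4, y5, y6⟩ := blk_of_fun (f := fun t => fh d g (c t))
    (ν := fun t => cXY d g (c t) / cXX d g (c t)) (k := fun t => Real.sqrt (cXX d g (c t)))
    (h2 c3) (h2 c2) (h2 c1) q1 q2 (fun _ => rfl) (fun _ => rfl) (fun _ => rfl)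
  exact ⟨a1, a3, y1, a2, a4, a5, y4,
    five_of_curvM (by omega) (chart_curv hm hd hg hI hC hc) rfl rfl rfl a4 a5 y4 y5 a6 y6⟩

end Pool.Agent.Anco
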