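import Mathlib

/-!
Brieskorn manifolds with their `SO(2) × SO(n)` action, Riemannian metrics on them, diameter and
curvature operator (in local parametrisations). These are the definitions used in the statement.
-/

namespace Pool.Agent.Anco

open scoped ContDiff Topology

/-- The ambient space `ℂ × ℂ^n`. -/
abbrev V (n : ℕ) : Type := ℂ × (Fin n → ℂ)

/-- The Brieskorn manifold `z₀^d + z₁^2 + ... + z_n^2 = 0`, `|z| = 1`, of dimension `2n - 1`. -/
def W (n d : ℕ) : Set (V n) :=
  {z | z.1 ^ d + ∑ i, z.2 i ^ 2 = 0 ∧ ‖z.1‖ ^ 2 + ∑ i, ‖z.2 i‖ ^ 2 = 1}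

/-- The tangent space of the Brieskorn manifold at `z`. -/
def Tan (n d : ℕ) (z : V n) : Set (V n) :=
  {v | (d : ℂ) * z.1 ^ (d - 1) * v.1 + 2 * ∑ i, z.2 i * v.2 i = 0 ∧
    ((starRingEnd ℂ) z.1 * v.1 + ∑ i, (starRingEnd ℂ) (z.2 i) * v.2 i).re = 0}

/-- The action of the pair of `e^{iθ}` and `R` sends `z₀` to `e^{2iθ} z₀` and `z` to
`e^{i d θ} R z`. It is real linear, so it acts on tangent vectors by the same formula. -/
noncomputable def act (n d : ℕ) (θ : ℝ) (R : Matrix (Fin n) (Fin n) ℝ) (z : V n) : V n :=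
  (Complex.exp (2 * θ * Complex.I) * z.1,
    fun i => Complex.exp (d * θ * Complex.I) * ∑ j, (R i j : ℂ) * z.2 j)

namespace S

/-- A Riemannian metric on the Brieskorn manifold, given as a smooth field `g z` of symmetric
bilinear forms on the ambient space that is positive definite on the tangent spaces. -/
def IsMetric (n d : ℕ) (g : V n → V n → V n → ℝ) : Prop :=
  (∀ u v, ContDiff ℝ ∞ fun z => g z u v) ∧ (∀ z u, IsLinearMap ℝ (g z u)) ∧
    (∀ z u v, g z u v = g z v u) ∧ ∀ z ∈ W n d, ∀ v ∈ Tan n d z, v ≠ 0 → 0 < g z v v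

/-- The metric is invariant under `SO(2) × SO(n)`. -/
def Invariant (n d : ℕ) (g : V n → V n → V n → ℝ) : Prop :=
  ∀ (θ : ℝ), ∀ R ∈ Matrix.specialOrthogonalGroup (Fin n) ℝ, ∀ z ∈ W n d,
    ∀ u ∈ Tan n d z, ∀ v ∈ Tan n d z,
      g (act n d θ R z) (act n d θ R u) (act n d θ R v) = g z u v

/-- The diameter is at most `D`: any two points are joined by `C¹` paths in the manifold of
length at most `D + η`, for every `η > 0`. -/
def DiamLe (n d : ℕ) (g : V n → V n → V n → ℝ) (D : ℝ) : Prop :=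
  ∀ p ∈ W n d, ∀ q ∈ W n d, ∀ η : ℝ, 0 < η → ∃ γ : ℝ → V n, ContDiff ℝ 1 γ ∧ γ 0 = p ∧ γ 1 = q ∧
    (∀ t ∈ Set.Icc (0 : ℝ) 1, γ t ∈ W n d) ∧
    ∫ t in (0 : ℝ)..1, Real.sqrt (g (γ t) (deriv γ t) (deriv γ t)) ≤ D + η

section Curvature

variable {E : Type} [NormedAddCommGroup E] [NormedSpace ℝ E]

/-- The derivative of `f` at `x` in the direction `u`. -/
noncomputable def dir {F : Type} [NormedAddCommGroup F] [NormedSpace ℝ F] (f : E → F) (x u : E) :
    F :=
  fderiv ℝ f x u

/-- Christoffel symbols of the first kind of a metric `G` in coordinates: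
half of `∂_u G(v,w) + ∂_v G(u,w) - ∂_w G(u,v)`. -/
noncomputable def lowChr (G : E → E → E → ℝ) (x u v w : E) : ℝ :=
  (dir (fun y => G y v w) x u + dir (fun y => G y u w) x v - dir (fun y => G y u v) x w) / 2

/-- Christoffel symbols: the covariant derivative `∇_u v` of constant coordinate fields is the
vector `c` with `G x c w = lowChr G x u v w` for all `w`. -/
noncomputable def chr (G : E → E → E → ℝ) (x u v : E) : E :=
  Function.invFun (G x) (lowChr G x u v)

/-- The curvature tensor `R(u,v)w = ∇_u ∇_v w - ∇_v ∇_u w` in coordinates. -/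
noncomputable def riem (G : E → E → E → ℝ) (x u v w : E) : E :=
  dir (fun y => chr G y v w) x u - dir (fun y => chr G y u w) x v +
    chr G x u (chr G x v w) - chr G x v (chr G x u w)

/-- `Rm(u,v,w,z) = G(R(u,v)w, z)`; `Rm(u,v,v,u)` is the sectional curvature of orthonormal
`u, v`. -/
noncomputable def Rm (G : E → E → E → ℝ) (x u v w z : E) : ℝ :=
  G x (riem G x u v w) z

/-- The pull-back of the metric `g` under a parametrisation `φ`. -/
noncomputable def pull {n : ℕ} (g : V n → V n → V n → ℝ) (φ : E → V n) (x u v : E) : ℝ :=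
  g (φ x) (dir φ x u) (dir φ x v)

/-- The curvature operator of `G` at `x` is at least `c`: for every 2-vector
`ω = ∑ X a ∧ Y a` one has `c |ω|^2 ≤ ⟨R ω, ω⟩`. -/
def OpGe (G : E → E → E → ℝ) (x : E) (c : ℝ) : Prop :=
  ∀ (N : ℕ) (X Y : Fin N → E),
    c * ∑ a, ∑ b, (G x (X a) (X b) * G x (Y a) (Y b) - G x (X a) (Y b) * G x (Y a) (X b)) ≤
      ∑ a, ∑ b, Rm G x (X a) (Y a) (Y b) (X b)

end Curvature

/-- The curvature operator of the metric `g` on the Brieskorn manifold is at least `c`
everywhere: this holds in every smooth local parametrisation (a smooth map from a vector space of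
dimension `2n - 1` into the manifold with injective differential). -/
def CurvOpGe (n d : ℕ) (g : V n → V n → V n → ℝ) (c : ℝ) : Prop :=
  ∀ (E : Type) [NormedAddCommGroup E] [NormedSpace ℝ E] [FiniteDimensional ℝ E],
    Module.finrank ℝ E = 2 * n - 1 → ∀ (φ : E → V n) (x : E), ContDiffAt ℝ ∞ φ x →
      (∀ᶠ y in 𝓝 x, φ y ∈ W n d) → Function.Injective (dir φ x) → OpGe (pull g φ) x c

end S

end Pool.Agent.Anco
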